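import Pool.Agent.MJR.St

/-!
The recursion for `AA`.
-/

namespace Pool.Agent.MJR

open MvPolynomial
open scoped Nat

noncomputable section

namespace RecAM

variable {K : Type} [Field K]

/-- `r` with an additional part `k` -/
def addP {n k : ℕ} (hk : 1 ≤ k) (hkn : k ≤ n) (q : (n - k).Partition) : n.Partition where
  parts := k ::ₘ q.parts
  parts_pos := by
    intro i hi
    rcases Multiset.mem_cons.mp hi with rfl | hi
    · exact hk
    · exact q.parts_pos hi
  parts_sum := by
    rw [Multiset.sum_cons, q.parts_sum]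
    omega

lemma zed_of_subset {n : ℕ} (r : n.Partition) (S : Finset ℕ) (h : r.parts.toFinset ⊆ S) :
    zed r = ∏ i ∈ S, i ^ (r.parts.count i) * (r.parts.count i)! := by
  unfold zed
  refine Finset.prod_subset h fun i _ hi => ?_
  rw [Multiset.mem_toFinset] at hi
  rw [Multiset.count_eq_zero_of_notMem hi]
  simp

lemma zed_addP {n k : ℕ} (hk : 1 ≤ k) (hkn : k ≤ n) (q : (n - k).Partition) :
    zed (addP hk hkn q) = k * (q.parts.count k + 1) * zed q := by
  classical
  have hS : (addP hk hkn q).parts = k ::ₘ q.parts := rfl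
  rw [zed_of_subset (addP hk hkn q) (insert k q.parts.toFinset)
      (by rw [hS, Multiset.toFinset_cons]),
    zed_of_subset q (insert k q.parts.toFinset) (Finset.subset_insert _ _),
    ← Finset.mul_prod_erase _ _ (Finset.mem_insert_self k q.parts.toFinset),
    ← Finset.mul_prod_erase _ _ (Finset.mem_insert_self k q.parts.toFinset)]
  have h1 : ∏ i ∈ (insert k q.parts.toFinset).erase k,
      i ^ ((addP hk hkn q).parts.count i) * ((addP hk hkn q).parts.count i)! =
      ∏ i ∈ (insert k q.parts.toFinset).erase k, i ^ (q.parts.count i) * (q.parts.count i)! := by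
    refine Finset.prod_congr rfl fun i hi => ?_
    rw [hS, Multiset.count_cons_of_ne (Finset.ne_of_mem_erase hi)]
  rw [h1, hS, Multiset.count_cons_self, Nat.factorial_succ, pow_succ]
  ring

lemma wtp_addP (al : K) {n k : ℕ} (hk : 1 ≤ k) (hkn : k ≤ n) (q : (n - k).Partition) :
    wtp al (addP hk hkn q) = al * k * ((q.parts.count k : K) + 1) * wtp al q := by
  unfold wtp
  have hS : (addP hk hkn q).parts = k ::ₘ q.parts := rfl
  rw [zed_addP, hS, Multiset.card_cons, pow_succ]
  push_cast
  ring

lemma pp_addP {n k : ℕ} (hk : 1 ≤ k) (hkn : k ≤ n) (q : (n - k).Partition) :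
    pp K (addP hk hkn q) = X k * pp K q := by
  unfold pp
  have hS : (addP hk hkn q).parts = k ::ₘ q.parts := rfl
  rw [hS, Multiset.map_cons, Multiset.prod_cons]

lemma sum_count {n : ℕ} (r : n.Partition) : ∑ k ∈ Finset.Icc 1 n, k * r.parts.count k = n := by
  classical
  have h1 : ∑ k ∈ r.parts.toFinset, r.parts.count k • k = r.parts.sum :=
    (Finset.sum_multiset_count r.parts).symm
  rw [r.parts_sum] at h1
  have h2 : r.parts.toFinset ⊆ Finset.Icc 1 n := by
    intro k hk
    rw [Multiset.mem_toFinset] at hk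
    rw [Finset.mem_Icc]
    refine ⟨r.parts_pos hk, ?_⟩
    have h3 := Multiset.le_sum_of_mem hk
    rwa [r.parts_sum] at h3
  rw [← Finset.sum_subset h2]
  · refine Eq.trans (Finset.sum_congr rfl fun k _ => ?_) h1
    rw [smul_eq_mul, mul_comm]
  · intro k _ hk
    rw [Multiset.mem_toFinset] at hk
    rw [Multiset.count_eq_zero_of_notMem hk, mul_zero]

/-- the sum over the partitions with a part `k` -/
lemma sum_addP {M : Type} [AddCommMonoid M] {n k : ℕ} (hk : 1 ≤ k) (hkn : k ≤ n)
    (F : n.Partition → M) (hF : ∀ r : n.Partition, k ∉ r.parts → F r = 0) :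
    ∑ r, F r = ∑ q : (n - k).Partition, F (addP hk hkn q) := by
  classical
  symm
  have h1 : ∑ r, F r = ∑ r ∈ Finset.univ.filter (fun r : n.Partition => k ∈ r.parts), F r := by
    rw [Finset.sum_filter]
    refine Finset.sum_congr rfl fun r _ => ?_
    split_ifs with h
    · rfl
    · exact hF r h
  rw [h1]
  refine Finset.sum_bij (fun q _ => addP hk hkn q) ?_ ?_ ?_ ?_
  · intro q _
    rw [Finset.mem_filter]
    exact ⟨Finset.mem_univ _, Multiset.mem_cons_self k _⟩
  · intro q _ q' _ h
    have h2 : k ::ₘ q.parts = k ::ₘ q'.parts := congrArg Nat.Partition.parts h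
    exact Nat.Partition.ext ((Multiset.cons_inj_right k).mp h2)
  · intro r hr
    rw [Finset.mem_filter] at hr
    have h3 : k ::ₘ r.parts.erase k = r.parts := Multiset.cons_erase hr.2
    refine ⟨⟨r.parts.erase k, fun {i} hi => r.parts_pos (Multiset.mem_of_mem_erase hi), ?_⟩,
      Finset.mem_univ _, ?_⟩
    · have h4 : k + (r.parts.erase k).sum = n := by
        rw [← Multiset.sum_cons, h3, r.parts_sum]
      omega
    · exact Nat.Partition.ext h3
  · intro q _
    rfl

lemma wtp_ne [CharZero K] {al : K} (hal : al ≠ 0) {n : ℕ} (r : n.Partition) : wtp al r ≠ 0 := by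
  unfold wtp
  refine mul_ne_zero (pow_ne_zero _ hal) ?_
  rw [Nat.cast_ne_zero]
  unfold zed
  rw [Finset.prod_ne_zero_iff]
  intro i hi
  rw [Multiset.mem_toFinset] at hi
  exact mul_ne_zero (pow_ne_zero _ (r.parts_pos hi).ne') (Nat.factorial_ne_zero _)

end RecAM

open RecAM in
theorem recA (K : Type) [Field K] [CharZero K] (al : K) (hal : al ≠ 0) : RecASt K al := by
  classical
  intro O n
  have hL : C (al * n) * PowerSeries.coeff n (AA al O) = ∑ k ∈ Finset.Icc 1 n, ∑ r : n.Partition,
      C (al * k * (r.parts.count k : K) * (wtp al r)⁻¹) * (ix (pp K r) * iy (O (pp K r))) := by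
    rw [AA, PowerSeries.coeff_mk, Finset.mul_sum, Finset.sum_comm]
    refine Finset.sum_congr rfl fun r _ => ?_
    rw [← Finset.sum_mul, ← mul_assoc, ← mul_assoc, ← C_mul, mul_assoc, ← map_sum,
      ← Finset.sum_mul]
    congr 3
    have h1 : (n : K) = ∑ k ∈ Finset.Icc 1 n, (k : K) * (r.parts.count k : K) := by
      have h2 := sum_count r
      calc (n : K) = ((∑ k ∈ Finset.Icc 1 n, k * r.parts.count k : ℕ) : K) := by rw [h2]
        _ = _ := by push_cast; rfl
    rw [h1, Finset.mul_sum]
    refine Finset.sum_congr rfl fun k _ => ?_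
    ring
  rw [hL]
  refine Finset.sum_congr rfl fun k hk => ?_
  rw [Finset.mem_Icc] at hk
  rw [sum_addP hk.1 hk.2]
  · rw [AA, AA, PowerSeries.coeff_mk, PowerSeries.coeff_mk, Finset.mul_sum, ← Finset.sum_add_distrib,
      Finset.mul_sum]
    refine Finset.sum_congr rfl fun q _ => ?_
    have h1 : al * k * ((addP hk.1 hk.2 q).parts.count k : K) * (wtp al (addP hk.1 hk.2 q))⁻¹ =
        (wtp al q)⁻¹ := by
      have hS : (addP hk.1 hk.2 q).parts = k ::ₘ q.parts := rfl
      have h2 := wtp_ne hal (addP hk.1 hk.2 q)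
      have h3 := wtp_addP al hk.1 hk.2 q
      have h4 := wtp_ne hal q
      rw [hS, Multiset.count_cons_self]
      rw [h3] at h2 ⊢
      push_cast
      rw [mul_inv, ← mul_assoc, mul_inv_cancel₀, one_mul]
      intro h5
      rw [h5, zero_mul] at h2
      exact h2 rfl
    have h5 : O (X k * pp K q) = X k * O (pp K q) + comm O k (pp K q) := by
      unfold comm
      rw [LinearMap.sub_apply, LinearMap.comp_apply, LinearMap.comp_apply,
        LinearMap.mulLeft_apply, LinearMap.mulLeft_apply]
      ring
    have h6 : ix (X k : Lam K) = X (0, k) := by rw [ix, rename_X]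
    have h7 : iy (X k : Lam K) = X (1, k) := by rw [iy, rename_X]
    rw [h1, pp_addP, h5, map_mul, map_add, map_mul, h6, h7]
    ring
  · intro r hr
    rw [Multiset.count_eq_zero_of_notMem hr]
    simp

end

end Pool.Agent.MJR
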