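import Pool.Agent.MJR.Defs

/-!
Closed forms of the iterated brackets (at `1`) of `Dop`, `K3` and `K22`.
-/

namespace Pool.Agent.MJR

open MvPolynomial

noncomputable section

variable {K : Type} [Field K]

/-- `D p_m`. -/
def bD1 (al : K) (m : ℕ) : Lam K :=
  ∑ a ∈ Finset.Ico 1 m, C (a : K) * (X a * X (m - a)) + C ((al - 1) * (m.choose 2 : K)) * X m

/-- `[[D, p_i], p_j] 1`. -/
def bD2 (al : K) (i j : ℕ) : Lam K := C (al * i * j) * X (i + j)

/-- `K3 p_m`. -/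
def bT1 (al : K) (m : ℕ) : Lam K :=
  ∑ c ∈ Finset.Ico 1 m, ∑ d ∈ Finset.Ico 1 (m - c), C (c : K) * (X c * X d * X (m - c - d))
    + C ((al - 1) * ((m : K) - 2)) * ∑ a ∈ Finset.Ico 1 m, C (a : K) * (X a * X (m - a))
    + C ((al + 2 * (al - 1) ^ 2) * (m.choose 3 : K)) * X m

/-- `[[K3, p_i], p_j] 1` divided by `al i j`. -/
def qT2 (al : K) (i j : ℕ) : Lam K :=
  ∑ a ∈ Finset.Ico 1 i, X a * X (i + j - a) + ∑ a ∈ Finset.Ico 1 j, X a * X (i + j - a)
    + C ((al - 1) * ((i : K) + j - 2)) * X (i + j)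

/-- `[[K3, p_i], p_j] 1`. -/
def bT2 (al : K) (i j : ℕ) : Lam K := C (al * i * j) * qT2 al i j

/-- `[[[K3, p_i], p_j], p_k] 1`. -/
def bT3 (al : K) (i j k : ℕ) : Lam K := C (2 * al ^ 2 * i * j * k) * X (i + j + k)

/-- `K22 p_m`. -/
def bS1 (al : K) (m : ℕ) : Lam K :=
  ∑ c ∈ Finset.Ico 1 m, ∑ d ∈ Finset.Ico 1 (m - c),
      C ((c.choose 2 : K) + d * (c - 1 : K)) * (X c * X d * X (m - c - d))
    + C (al - 1) * ∑ i ∈ Finset.Ico 1 m,
        C (3 * (i.choose 3 : K) + i * ((m - i - 1).choose 2 : K)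
          + (i.choose 2 : K) * ((m : K) - i - 1)) * (X i * X (m - i))
    + C ((al + 3 * (al - 1) ^ 2) * (m.choose 4 : K)) * X m

/-- Twice the connected part of `[[K22, p_i], p_j] 1`, divided by `al i j`. -/
def qS2 (al : K) (i j : ℕ) : Lam K :=
  ∑ a ∈ Finset.Ico 1 i, C ((i : K) - 3) * (X a * X (i + j - a))
    + ∑ a ∈ Finset.Ico 1 j, C ((i : K) + 2 * j - 2 * a - 3) * (X a * X (i + j - a))
    + C ((i : K) - 1) * (X i * X j)
    + C ((al - 1) * (((i : K) - 1) * (i - 2) + ((j : K) - 1) * (j - 2) + ((i : K) - 1) * (j - 1)))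
      * X (i + j)

/-- The connected part of `[[K22, p_i], p_j] 1`. -/
def bS2 (al : K) (i j : ℕ) : Lam K := C (al * i * j / 2) * qS2 al i j

/-- The connected part of `[[[K22, p_i], p_j], p_k] 1`. -/
def bS3 (al : K) (i j k : ℕ) : Lam K :=
  C (al ^ 2 * i * j * k * ((i : K) + j + k - 3)) * X (i + j + k)

end

end Pool.Agent.MJR
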