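import Pool.Agent.MJR.Defs

/-!
Generating functions in two alphabets `x = (0, ·)`, `y = (1, ·)` and the series `phi`
in three alphabets.
-/

namespace Pool.Agent.MJR

open MvPolynomial

noncomputable section

variable {K : Type} [Field K]

/-- Polynomials in the power sums of two alphabets. -/
abbrev B2 (K : Type) [Field K] := MvPolynomial (Fin 2 × ℕ) K

/-- Polynomials in the power sums of three alphabets. -/
abbrev B3 (K : Type) [Field K] := MvPolynomial (Fin 3 × ℕ) K

def ix : Lam K →ₐ[K] B2 K := rename fun k : ℕ => ((0 : Fin 2), k)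

def iy : Lam K →ₐ[K] B2 K := rename fun k : ℕ => ((1 : Fin 2), k)

/-- The series `∑ (O p_r)(y) p_r(x) t^|r| / (al^l(r) z_r)`. -/
def AA (al : K) (O : Lam K →ₗ[K] Lam K) : PowerSeries (B2 K) :=
  PowerSeries.mk fun n => ∑ r : n.Partition, C (wtp al r)⁻¹ * ix (pp K r) * iy (O (pp K r))

/-- The quotient `AA al O / AA al id`. -/
def SS (al : K) (O : Lam K →ₗ[K] Lam K) : PowerSeries (B2 K) :=
  AA al O * PowerSeries.invOfUnit (AA al LinearMap.id) 1

/-- `p_r` in the alphabet `a` of three alphabets. -/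
def pa (a : Fin 3) {n : ℕ} (r : n.Partition) : B3 K :=
  (r.parts.map fun k => (X (a, k) : B3 K)).prod

/-- `J_l` in the alphabet `a` of three alphabets. -/
def Ja {n : ℕ} (J : n.Partition → n.Partition → K) (l : n.Partition) (a : Fin 3) : B3 K :=
  ∑ r, C (J l r) * pa a r

/-- `⟨J_l, J_l⟩`. -/
def nrm (al : K) {n : ℕ} (J : n.Partition → n.Partition → K) (l : n.Partition) : K :=
  ∑ r, J l r ^ 2 * wtp al r

/-- The Goulden-Jackson series `phi` (a power series in `t` with coefficients polynomials in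
the power sums of three alphabets). -/
def phi (al : K) (J : (n : ℕ) → n.Partition → n.Partition → K) : PowerSeries (B3 K) :=
  PowerSeries.mk fun n => ∑ l : n.Partition,
    C (nrm al (J n) l)⁻¹ * (Ja (J n) l 0 * Ja (J n) l 1 * Ja (J n) l 2)

/-- `psi = al t ∂_t log phi`, i.e. `psi * phi = al * t * ∂_t phi`. -/
def IsPsi (al : K) (J : (n : ℕ) → n.Partition → n.Partition → K) (psi : PowerSeries (B3 K)) :
    Prop :=
  ∀ n : ℕ, PowerSeries.coeff n (psi * phi al J) = C (al * n) * PowerSeries.coeff n (phi al J)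

/-- The exponent of `p_t(x) p_m(y) p_v(z)`. -/
def expo3 {n : ℕ} (t m v : n.Partition) : Fin 3 × ℕ →₀ ℕ :=
  Multiset.toFinsupp (t.parts.map (fun k => ((0 : Fin 3), k)) +
    m.parts.map (fun k => ((1 : Fin 3), k)) + v.parts.map (fun k => ((2 : Fin 3), k)))

/-- The coefficient `h^t_(m, v)` of a series `psi`. -/
def hc (psi : PowerSeries (B3 K)) {n : ℕ} (t m v : n.Partition) : K :=
  MvPolynomial.coeff (expo3 t m v) (PowerSeries.coeff n psi)

end

end Pool.Agent.MJR
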