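import Pool.Agent.MJR.XDefs
import Pool.Agent.MJR.BDefs
import Pool.Agent.MJR.GDefs

/-!
The statements of the modules, as propositions.
-/

namespace Pool.Agent.MJR

open MvPolynomial
open scoped Nat

noncomputable section

/-! ### Structure of `H` -/

/-- The operators `H al r` are self-adjoint. -/
def FormSt (K : Type) [Field K] (al : K) : Prop :=
  ∀ (r n : ℕ) (p q : n.Partition),
    wtp al q * coeff (expo q) (H al r (pp K p)) = wtp al p * coeff (expo p) (H al r (pp K q))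

/-- The operators `H al r` preserve the span of the `p_r` with `r` a partition of `n`. -/
def GradeSt (K : Type) [Field K] (al : K) : Prop :=
  ∀ (r n : ℕ) (v : n.Partition → K), ∃ v' : n.Partition → K, H al r (toL v) = toL v'

/-! ### Variable side -/

/-- `Nop` commutes with multiplication by functions symmetric in `x_i, x_l`. -/
def NopMulSt (K : Type) [Field K] : Prop :=
  ∀ (n : ℕ) (i l : Fin n), i ≠ l → ∀ S F : RX K n, rename (Equiv.swap i l) S = S →
    Nop K i l (S * F) = S * Nop K i l F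

/-- The Heckman operators preserve `DomSub`. -/
def YDomSt (K : Type) [Field K] (al : K) : Prop :=
  ∀ (n : ℕ) (l : n.Partition) (i : Fin n) (F : RX K n), F ∈ DomSub K l → Yop al i F ∈ DomSub K l

/-- Intertwining. -/
def IntSt (K : Type) [Field K] (al : K) : Prop :=
  ∀ (n : ℕ) (i : Fin n) (G : LW K),
    Yop al i (evi K i G) = evi K i (Z al G + (n : K) • (G - Polynomial.C (G.coeff 0)))

/-- `H 0`, `H 1`, `H 2` are triangular. -/
def HTriSt (K : Type) [Field K] (al : K) : Prop :=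
  ∀ (n : ℕ) (l : n.Partition) (f : Lam K), ev K n f ∈ DomSub K l →
    ∀ r : ℕ, r ≤ 2 → ev K n (H al r f) ∈ DomSub K l

/-- Symmetric polynomials of degree `n` are dominated by `l` if their coefficients at
partitions not dominated by `l` vanish. -/
def SortSt (K : Type) [Field K] : Prop :=
  ∀ (n : ℕ) (l : n.Partition) (v : n.Partition → K),
    (∀ m, ¬ Dom m l → ∑ r, v r * mc K r m = 0) ↔ ev K n (toL v) ∈ DomSub K l

/-- The power sums are linearly independent. -/
def InjSt (K : Type) [Field K] : Prop :=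
  ∀ (n : ℕ) (v : n.Partition → K), (∀ m, ∑ r, v r * mc K r m = 0) → v = 0

/-- Dominance is a partial order. -/
def DomOrdSt : Prop :=
  ∀ (n : ℕ), (∀ a : n.Partition, Dom a a) ∧
    (∀ a b c : n.Partition, Dom a b → Dom b c → Dom a c) ∧
    (∀ a b : n.Partition, Dom a b → Dom b a → a = b)

/-- The form is anisotropic. -/
def Aniso (K : Type) [Field K] (al : K) : Prop :=
  ∀ (n : ℕ) (v : n.Partition → K), ∑ r, v r ^ 2 * wtp al r = 0 → v = 0

/-- Anisotropy over `ℚ(al)`. -/
def AnisoSt : Prop := Aniso (RatFunc ℚ) RatFunc.X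

/-! ### Linear algebra -/

/-- The abstract eigenvector theorem. -/
def LinAlgSt (K : Type) [Field K] : Prop :=
  ∀ (I : Type) [Fintype I] [DecidableEq I] (w : I → K) (R : I → I → K) (D : I → I → Prop)
    (J : I → I → K),
    (∀ a, D a a) → (∀ a b c, D a b → D b c → D a c) → (∀ a b, D a b → D b a → a = b) →
    (∀ v : I → K, ∑ r, v r ^ 2 * w r = 0 → v = 0) →
    (∀ v : I → K, (∀ m, ∑ r, v r * R r m = 0) → v = 0) →
    (∀ l m, l ≠ m → ∑ r, J l r * J m r * w r = 0) →
    (∀ l m, ¬ D m l → ∑ r, J l r * R r m = 0) →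
    (∀ l, J l ≠ 0) →
    (∀ v : I → K, (∀ l, ∑ r, J l r * v r = 0) → v = 0) ∧
    ∀ O : I → I → K, (∀ r m, w m * O r m = w r * O m r) →
      (∀ (l : I) (v : I → K), (∀ m, ¬ D m l → ∑ r, v r * R r m = 0) →
        ∀ m, ¬ D m l → ∑ r, (∑ s, v s * O s r) * R r m = 0) →
      ∀ l, ∃ k : K, ∀ m, ∑ r, J l r * O r m = k * J l m

/-- The Jack functions are eigenvectors of the operators of rank at most two, and the
eigenvalues are coefficients of the Jack functions. -/
def IdentSt (K : Type) [Field K] (al : K) : Prop :=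
  ∀ (n : ℕ) (J : n.Partition → n.Partition → K), IsJack al n J →
    ∀ (s : Fin 4) (v : n.Partition), IsSh s v → ∀ l : n.Partition,
      Kop al s (toL (J l)) = C (J l v) * toL (J l)

/-- The rows of `J` form a basis. -/
def JInjSt (K : Type) [Field K] (al : K) : Prop :=
  ∀ (n : ℕ) (J : n.Partition → n.Partition → K), IsJack al n J →
    ∀ v : n.Partition → K, (∀ l, ∑ r, J l r * v r = 0) → v = 0

/-! ### Brackets -/

/-- Brackets of `D`. -/
def BrDSt (K : Type) [Field K] (al : K) : Prop :=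
  Dop al 1 = 0 ∧ (∀ i, comm (Dop al) i 1 = bD1 al i) ∧
  (∀ i j, comm (comm (Dop al) i) j 1 = bD2 al i j) ∧
  (∀ i j k, comm (comm (comm (Dop al) i) j) k = 0)

/-- Brackets of `K3`. -/
def BrK3St (K : Type) [Field K] (al : K) : Prop :=
  K3 al 1 = 0 ∧ (∀ i, comm (K3 al) i 1 = bT1 al i) ∧
  (∀ i j, comm (comm (K3 al) i) j 1 = bT2 al i j) ∧
  (∀ i j k, comm (comm (comm (K3 al) i) j) k 1 = bT3 al i j k) ∧
  (∀ i j k l, comm (comm (comm (comm (K3 al) i) j) k) l = 0)

/-- Brackets of `K22`. -/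
def BrK22St (K : Type) [Field K] (al : K) : Prop :=
  K22 al 1 = 0 ∧ (∀ i, comm (K22 al) i 1 = bS1 al i) ∧
  (∀ i j, comm (comm (K22 al) i) j 1 = bS2 al i j + bD1 al i * bD1 al j) ∧
  (∀ i j k, comm (comm (comm (K22 al) i) j) k 1 = bS3 al i j k + bD1 al i * bD2 al j k
    + bD1 al j * bD2 al i k + bD1 al k * bD2 al i j) ∧
  (∀ i j k l, comm (comm (comm (comm (K22 al) i) j) k) l 1 = bD2 al i j * bD2 al k l
    + bD2 al i k * bD2 al j l + bD2 al i l * bD2 al j k) ∧
  (∀ i j k l m, comm (comm (comm (comm (comm (K22 al) i) j) k) l) m = 0)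

/-- The operators of rank at most two are positive. -/
def PosKSt (K : Type) [Field K] (al : K) : Prop :=
  ∀ (s : Fin 4) (f : Lam K), f ∈ PS al → Kop al s f ∈ PS al

/-- The operators of rank at most two on `p_1^n`. -/
def KoneSt (K : Type) [Field K] (al : K) : Prop :=
  ∀ (s : Fin 4) (n : ℕ) (v : n.Partition), IsSh s v →
    Kop al s (X 1 ^ n) = C (al ^ (n - v.parts.card) * ((n ! : K) / zed v)) * pp K v

/-! ### Generating functions -/

/-- Recursion for `AA`. -/
def RecASt (K : Type) [Field K] (al : K) : Prop :=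
  ∀ (O : Lam K →ₗ[K] Lam K) (n : ℕ),
    C (al * n) * PowerSeries.coeff n (AA al O) = ∑ k ∈ Finset.Icc 1 n, X (0, k) *
      (X (1, k) * PowerSeries.coeff (n - k) (AA al O)
        + PowerSeries.coeff (n - k) (AA al (comm O k)))

/-- Recursion for `SS`. -/
def RecSSt (K : Type) [Field K] (al : K) : Prop :=
  ∀ (O : Lam K →ₗ[K] Lam K), AA al O = SS al O * AA al LinearMap.id ∧
    PowerSeries.coeff 0 (SS al O) = iy (O 1) ∧
    ∀ n : ℕ, C (al * n) * PowerSeries.coeff n (SS al O) =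
      ∑ k ∈ Finset.Icc 1 n, X (0, k) * PowerSeries.coeff (n - k) (SS al (comm O k))

/-- A tower of three steps. -/
def TowerSt (K : Type) [Field K] (al : K) : Prop :=
  ∀ (R : PowerSeries (B2 K)) (R1 : ℕ → PowerSeries (B2 K)) (R2 : ℕ → ℕ → PowerSeries (B2 K))
    (T1 : ℕ → B2 K) (T2 : ℕ → ℕ → B2 K) (T3 : ℕ → ℕ → ℕ → B2 K),
    (∀ n : ℕ, C (al * n) * PowerSeries.coeff n R =
      ∑ k ∈ Finset.Icc 1 n, X (0, k) * PowerSeries.coeff (n - k) (R1 k)) →
    (∀ k n : ℕ, C (al * n) * PowerSeries.coeff n (R1 k) =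
      ∑ l ∈ Finset.Icc 1 n, X (0, l) * PowerSeries.coeff (n - l) (R2 k l)) →
    (∀ k l n : ℕ, C (al * n) * PowerSeries.coeff n (R2 k l) =
      ∑ m ∈ Finset.Icc 1 n, X (0, m) * PowerSeries.coeff (n - m) (PowerSeries.C (T3 k l m))) →
    (∀ k, PowerSeries.coeff 0 (R1 k) = T1 k) → (∀ k l, PowerSeries.coeff 0 (R2 k l) = T2 k l) →
    (∀ k l m, T3 k l m = T3 k m l) →
    ∀ n : ℕ, 1 ≤ n → C (al * n) * PowerSeries.coeff n R =
      X (0, n) * T1 n
      + ∑ k ∈ Finset.Ico 1 n, C (al * ((n - k : ℕ) : K))⁻¹ * (X (0, k) * X (0, n - k) * T2 k (n - k))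
      + ∑ k ∈ Finset.Ico 1 n, ∑ l ∈ Finset.Ico 1 (n - k),
          C (2 * al ^ 2 * l * ((n - k - l : ℕ) : K))⁻¹ *
            (X (0, k) * X (0, l) * X (0, n - k - l) * T3 k l (n - k - l))

/-- Closed form of `al t d/dt` of `SS D`. -/
def Psi1St (K : Type) [Field K] (al : K) : Prop :=
  ∀ n : ℕ, 1 ≤ n → C (al * n) * PowerSeries.coeff n (SS al (Dop al)) =
    X (0, n) * iy (bD1 al n)
    + ∑ k ∈ Finset.Ico 1 n, C (k : K) * (X (0, k) * X (0, n - k) * X (1, n))

/-- Closed form of `al t d/dt` of `SS K3`. -/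
def Psi2St (K : Type) [Field K] (al : K) : Prop :=
  ∀ n : ℕ, 1 ≤ n → C (al * n) * PowerSeries.coeff n (SS al (K3 al)) =
    X (0, n) * iy (bT1 al n)
    + ∑ k ∈ Finset.Ico 1 n, C (k : K) * (X (0, k) * X (0, n - k) * iy (qT2 al k (n - k)))
    + ∑ k ∈ Finset.Ico 1 n, ∑ l ∈ Finset.Ico 1 (n - k),
        C (k : K) * (X (0, k) * X (0, l) * X (0, n - k - l) * X (1, n))

/-- Closed form of `al t d/dt` of `SS K22 - (SS D)^2 / 2`. -/
def Psi3St (K : Type) [Field K] (al : K) : Prop :=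
  ∀ n : ℕ, 1 ≤ n → C (al * n) * PowerSeries.coeff n
      (SS al (K22 al) - PowerSeries.C (C (2 : K)⁻¹) * SS al (Dop al) ^ 2) =
    X (0, n) * iy (bS1 al n)
    + ∑ k ∈ Finset.Ico 1 n, C ((k : K) / 2) * (X (0, k) * X (0, n - k) * iy (qS2 al k (n - k)))
    + ∑ k ∈ Finset.Ico 1 n, ∑ l ∈ Finset.Ico 1 (n - k),
        C ((k : K) * ((n : K) - 3) / 2) * (X (0, k) * X (0, l) * X (0, n - k - l) * X (1, n))

/-- Positivity of the three series of the closed forms. -/
def PosPsiSt (K : Type) [Field K] (al : K) : Prop :=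
  ∀ n : ℕ, 1 ≤ n → C (al * n) * PowerSeries.coeff n (SS al (Dop al)) ∈ PS al ∧
    C (al * n) * PowerSeries.coeff n (SS al (K3 al)) ∈ PS al ∧
    C (al * n) * PowerSeries.coeff n
      (SS al (K22 al) - PowerSeries.C (C (2 : K)⁻¹) * SS al (Dop al) ^ 2) ∈ PS al

/-- The exponent of `p_t(x) p_m(y)`. -/
def expo2 {n : ℕ} (t m : n.Partition) : Fin 2 × ℕ →₀ ℕ :=
  Multiset.toFinsupp (t.parts.map (fun k => ((0 : Fin 2), k)) +
    m.parts.map (fun k => ((1 : Fin 2), k)))

/-- The coefficients of `phi` at a class of rank at most two. -/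
def PhiSt (K : Type) [Field K] (al : K) : Prop :=
  ∀ J : (n : ℕ) → n.Partition → n.Partition → K, (∀ n, IsJack al n (J n)) →
    ∀ (s : Fin 4) (n : ℕ) (t m v : n.Partition), IsSh s v →
      coeff (expo3 t m v) (PowerSeries.coeff n (phi al J)) =
        coeff (expo2 t m) (PowerSeries.coeff n (AA al (Kop al s)))

/-- The coefficients of `psi` at a class of rank at most two. -/
def ExtrSt (K : Type) [Field K] (al : K) : Prop :=
  ∀ J : (n : ℕ) → n.Partition → n.Partition → K, (∀ n, IsJack al n (J n)) →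
    ∀ psi : PowerSeries (B3 K), IsPsi al J psi → ∀ (n : ℕ) (t m v : n.Partition), 1 ≤ n →
      (IsSh 0 v → hc psi t m v = coeff (expo2 t m) (X (0, n) * X (1, n) : B2 K)) ∧
      (IsSh 1 v → hc psi t m v =
        coeff (expo2 t m) (C (al * n) * PowerSeries.coeff n (SS al (Dop al)))) ∧
      (IsSh 2 v → hc psi t m v =
        coeff (expo2 t m) (C (al * n) * PowerSeries.coeff n (SS al (K3 al)))) ∧
      (IsSh 3 v → hc psi t m v = coeff (expo2 t m) (C (al * n) * PowerSeries.coeff n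
        (SS al (K22 al) - PowerSeries.C (C (2 : K)⁻¹) * SS al (Dop al) ^ 2)))

/-- `psi` is symmetric in the three alphabets. -/
def SymSt (K : Type) [Field K] (al : K) : Prop :=
  ∀ J : (n : ℕ) → n.Partition → n.Partition → K, (∀ n, IsJack al n (J n)) →
    ∀ psi : PowerSeries (B3 K), IsPsi al J psi → ∀ (n : ℕ) (t m v : n.Partition),
      hc psi t m v = hc psi m t v ∧ hc psi t m v = hc psi t v m

/-- Positivity of the coefficients of `AA` needed for the third case of `c`. -/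
def PiSt (K : Type) [Field K] (al : K) : Prop :=
  ∀ (s : Fin 4) (n : ℕ) (v : n.Partition), IsSh s v →
    C (wtp al v) * PowerSeries.coeff n (AA al (Kop al s)) ∈ PS al

/-- Partitions with at least `n - 2` parts. -/
def ShapeSt : Prop :=
  ∀ (n : ℕ) (v : n.Partition), n ≤ v.parts.card + 2 → ∃ s : Fin 4, IsSh s v

end

end Pool.Agent.MJR
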