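import Pool.Agent.MJR.Basic
import Pool.Agent.MJR.St

/-!
# MJR, module ExtrM: the coefficients of `psi` at classes of rank at most two (helper26)
-/

namespace Pool.Agent.MJR.ExtrM

open MvPolynomial
open scoped Nat
open Pool.Agent.MJR

noncomputable section

variable {K : Type} [Field K]

/-! ### Exponents -/

theorem count_pair {α β : Type} [DecidableEq α] [DecidableEq β] (a b : α) (s : Multiset β) (i : β) :
    (s.map fun k => (b, k)).count (a, i) = if a = b then s.count i else 0 := by
  split_ifs with h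
  · rw [h]
    exact Multiset.count_map_eq_count' (fun k => (b, k)) s (fun x y hxy => (Prod.mk.inj hxy).2) i
  · rw [Multiset.count_eq_zero]
    intro hm
    obtain ⟨x, _, hx⟩ := Multiset.mem_map.1 hm
    exact h (Prod.mk.inj hx).1.symm

theorem expo2_apply0 {n : ℕ} (t m : n.Partition) (i : ℕ) : expo2 t m (0, i) = t.parts.count i := by
  unfold expo2
  rw [Multiset.toFinsupp_apply, Multiset.count_add, count_pair, count_pair]
  simp

theorem expo2_apply1 {n : ℕ} (t m : n.Partition) (i : ℕ) : expo2 t m (1, i) = m.parts.count i := by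
  unfold expo2
  rw [Multiset.toFinsupp_apply, Multiset.count_add, count_pair, count_pair]
  simp

theorem expo3_apply0 {n : ℕ} (t m v : n.Partition) (i : ℕ) :
    expo3 t m v (0, i) = t.parts.count i := by
  unfold expo3
  rw [Multiset.toFinsupp_apply, Multiset.count_add, Multiset.count_add, count_pair, count_pair,
    count_pair]
  simp

theorem expo3_apply1 {n : ℕ} (t m v : n.Partition) (i : ℕ) :
    expo3 t m v (1, i) = m.parts.count i := by
  unfold expo3
  rw [Multiset.toFinsupp_apply, Multiset.count_add, Multiset.count_add, count_pair, count_pair,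
    count_pair]
  simp

theorem expo3_apply2 {n : ℕ} (t m v : n.Partition) (i : ℕ) :
    expo3 t m v (2, i) = v.parts.count i := by
  unfold expo3
  rw [Multiset.toFinsupp_apply, Multiset.count_add, Multiset.count_add, count_pair, count_pair,
    count_pair]
  simp

/-- the part of an exponent on the first two alphabets -/
def dxy (d : Fin 3 × ℕ →₀ ℕ) : Fin 2 × ℕ →₀ ℕ :=
  d.comapDomain (fun p : Fin 2 × ℕ => (p.1.castSucc, p.2)) (by
    intro x _ y _ hxy
    obtain ⟨h1, h2⟩ := Prod.mk.inj hxy
    exact Prod.ext (Fin.castSucc_injective _ h1) h2)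

theorem dxy_apply (d : Fin 3 × ℕ →₀ ℕ) (p : Fin 2 × ℕ) : dxy d p = d (p.1.castSucc, p.2) := rfl

theorem dxy_add (d e : Fin 3 × ℕ →₀ ℕ) : dxy (d + e) = dxy d + dxy e := by
  ext p
  rw [Finsupp.add_apply, dxy_apply, dxy_apply, dxy_apply, Finsupp.add_apply]

/-- the condition on the exponents of the third alphabet -/
def Cnd (k : ℕ) (d : Fin 3 × ℕ →₀ ℕ) : Prop := ∀ i, i ≠ 1 → i ≠ k → d (2, i) = 0

/-- the value of the specialisation at the variables -/
def spv (K : Type) [Field K] (k : ℕ) (p : Fin 3 × ℕ) : Polynomial (B2 K) :=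
  if p.1 = 0 then Polynomial.C (X (0, p.2))
  else if p.1 = 1 then Polynomial.C (X (1, p.2))
  else if p.2 = 1 then 1 else if p.2 = k then Polynomial.X else 0

/-- the specialisation -/
def sp (K : Type) [Field K] (k : ℕ) : B3 K →ₐ[K] Polynomial (B2 K) := aeval (spv K k)

theorem sp_C (k : ℕ) (c : K) : sp K k (C c) = Polynomial.C (C c) := by
  unfold sp
  rw [aeval_C]
  rfl

theorem sp_X (k : ℕ) (p : Fin 3 × ℕ) : sp K k (X p) = spv K k p := by
  unfold sp
  rw [aeval_X]

open Classical in
theorem sp_monomial (k : ℕ) (hk : k ≠ 1) (d : Fin 3 × ℕ →₀ ℕ) :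
    sp K k (monomial d (1 : K)) =
      if Cnd k d then Polynomial.monomial (d (2, k)) (monomial (dxy d) 1) else 0 := by
  have h0 : sp K k (monomial (0 : Fin 3 × ℕ →₀ ℕ) (1 : K)) =
      if Cnd k (0 : Fin 3 × ℕ →₀ ℕ) then
        Polynomial.monomial ((0 : Fin 3 × ℕ →₀ ℕ) (2, k)) (monomial (dxy 0) 1) else 0 := by
    have hc0 : Cnd k (0 : Fin 3 × ℕ →₀ ℕ) := fun i _ _ => rfl
    rw [if_pos hc0]
    have h1 : (monomial (0 : Fin 3 × ℕ →₀ ℕ) (1 : K)) = 1 := rfl
    have h2 : dxy 0 = 0 := by
      ext p
      rfl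
    rw [h1, map_one, h2]
    rfl
  induction d using Finsupp.induction_linear with
  | zero => exact h0
  | add f g hf hg =>
    have h1 : (monomial (f + g) (1 : K)) = monomial f 1 * monomial g 1 := by
      rw [monomial_mul, one_mul]
    rw [h1, map_mul, hf, hg]
    by_cases cf : Cnd k f
    · by_cases cg : Cnd k g
      · have cfg : Cnd k (f + g) := fun i h1 h2 => by
          rw [Finsupp.add_apply, cf i h1 h2, cg i h1 h2]
        rw [if_pos cf, if_pos cg, if_pos cfg, Polynomial.monomial_mul_monomial, monomial_mul,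
          one_mul, dxy_add, Finsupp.add_apply]
      · have cfg : ¬ Cnd k (f + g) := fun h => cg fun i h1 h2 => by
          have := h i h1 h2
          rw [Finsupp.add_apply] at this
          omega
        rw [if_neg cg, if_neg cfg, mul_zero]
    · have cfg : ¬ Cnd k (f + g) := fun h => cf fun i h1 h2 => by
        have := h i h1 h2
        rw [Finsupp.add_apply] at this
        omega
      rw [if_neg cf, if_neg cfg, zero_mul]
  | single p n =>
    rcases Nat.eq_zero_or_pos n with rfl | hn
    · rw [Finsupp.single_zero]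
      exact h0
    have h1 : (monomial (Finsupp.single p n) (1 : K)) = X p ^ n := by
      rw [X_pow_eq_monomial]
    rw [h1, map_pow, sp_X]
    obtain ⟨a, i⟩ := p
    have hxy : ∀ (a : Fin 2), Polynomial.C (X (a, i) : B2 K) ^ n =
        Polynomial.monomial ((Finsupp.single (a.castSucc, i) n : Fin 3 × ℕ →₀ ℕ) (2, k))
          (monomial (dxy (Finsupp.single (a.castSucc, i) n)) 1) := by
      intro a
      have e1 : (Finsupp.single (a.castSucc, i) n : Fin 3 × ℕ →₀ ℕ) (2, k) = 0 := by
        rw [Finsupp.single_apply, if_neg]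
        intro h
        have h2 := (Prod.mk.inj h).1
        fin_cases a <;> simp at h2
      have e2 : dxy (Finsupp.single (a.castSucc, i) n) = Finsupp.single (a, i) n := by
        ext p
        rw [dxy_apply, Finsupp.single_apply, Finsupp.single_apply]
        have : ((a.castSucc, i) = (p.1.castSucc, p.2)) ↔ ((a, i) = p) := by
          constructor
          · intro h
            obtain ⟨h3, h4⟩ := Prod.mk.inj h
            exact Prod.ext (Fin.castSucc_injective _ h3) h4
          · intro h
            rw [← h]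
        simp only [this]
      rw [e1, e2, ← Polynomial.C_pow, X_pow_eq_monomial]
      rfl
    have hcnd : ∀ (a : Fin 2), Cnd k (Finsupp.single (a.castSucc, i) n) := by
      intro a i' _ _
      rw [Finsupp.single_apply, if_neg]
      intro h
      have h2 := (Prod.mk.inj h).1
      fin_cases a <;> simp at h2
    have hd2 : dxy (Finsupp.single ((2 : Fin 3), i) n) = 0 := by
      ext p
      rw [dxy_apply, Finsupp.single_apply, if_neg]
      · rfl
      · intro h
        have h2 := (Prod.mk.inj h).1
        obtain ⟨a, j⟩ := p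
        fin_cases a <;> simp at h2
    have h3 : a = 0 ∨ a = 1 ∨ a = 2 := by
      fin_cases a <;> simp
    rcases h3 with rfl | rfl | rfl
    · have e : spv K k (0, i) = Polynomial.C (X (0, i)) := by
        unfold spv
        rw [if_pos rfl]
      have hc := hcnd 0
      have hx := hxy 0
      simp only [Fin.castSucc_zero] at hc hx
      rw [e, if_pos hc, hx]
    · have e : spv K k (1, i) = Polynomial.C (X (1, i)) := by
        unfold spv
        rw [if_neg (by simp), if_pos rfl]
      have hc := hcnd 1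
      have hx := hxy 1
      have e1 : ((1 : Fin 2).castSucc : Fin 3) = 1 := rfl
      rw [e1] at hc hx
      rw [e, if_pos hc, hx]
    · rw [hd2]
      by_cases hi1 : i = 1
      · have e : spv K k (2, i) = 1 := by
          unfold spv
          rw [if_neg (by simp), if_neg (by simp), if_pos hi1]
        have hc : Cnd k (Finsupp.single ((2 : Fin 3), i) n) := by
          intro i' h4 _
          rw [Finsupp.single_apply, if_neg]
          intro h
          exact h4 ((Prod.mk.inj h).2.symm.trans hi1)
        have e1 : (Finsupp.single ((2 : Fin 3), i) n) (2, k) = 0 := by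
          rw [Finsupp.single_apply, if_neg]
          intro h
          exact hk ((Prod.mk.inj h).2.symm.trans hi1)
        rw [e, one_pow, if_pos hc, e1]
        rfl
      · by_cases hik : i = k
        · have e : spv K k (2, i) = Polynomial.X := by
            unfold spv
            rw [if_neg (by simp), if_neg (by simp), if_neg hi1, if_pos hik]
          have hc : Cnd k (Finsupp.single ((2 : Fin 3), i) n) := by
            intro i' _ h4
            rw [Finsupp.single_apply, if_neg]
            intro h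
            exact h4 ((Prod.mk.inj h).2.symm.trans hik)
          have e1 : (Finsupp.single ((2 : Fin 3), i) n) (2, k) = n := by
            rw [Finsupp.single_apply, if_pos (by rw [hik])]
          rw [e, if_pos hc, e1, Polynomial.X_pow_eq_monomial]
          rfl
        · have e : spv K k (2, i) = 0 := by
            unfold spv
            rw [if_neg (by simp), if_neg (by simp), if_neg hi1, if_neg hik]
          have hc : ¬ Cnd k (Finsupp.single ((2 : Fin 3), i) n) := by
            intro h
            have := h i hi1 hik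
            rw [Finsupp.single_apply, if_pos rfl] at this
            omega
          rw [e, if_neg hc, zero_pow hn.ne']

/-- weights: the third alphabet only -/
def W (p : Fin 3 × ℕ) : ℕ := if p.1 = 2 then p.2 else 0

theorem weight_of (k : ℕ) (hk : k ≠ 1) (d : Fin 3 × ℕ →₀ ℕ) (hd : Cnd k d) :
    Finsupp.weight W d = d (2, 1) + d (2, k) * k := by
  classical
  rw [Finsupp.weight_apply, Finsupp.sum]
  have h1 : ∑ p ∈ d.support, d p • W p =
      ∑ p ∈ d.support ∪ {((2 : Fin 3), 1), ((2 : Fin 3), k)}, d p • W p := by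
    refine Finset.sum_subset Finset.subset_union_left fun p _ hp => ?_
    rw [Finsupp.notMem_support_iff.1 hp, zero_smul]
  have h2 : ∑ p ∈ ({((2 : Fin 3), 1), ((2 : Fin 3), k)} : Finset (Fin 3 × ℕ)), d p • W p =
      ∑ p ∈ d.support ∪ {((2 : Fin 3), 1), ((2 : Fin 3), k)}, d p • W p := by
    refine Finset.sum_subset Finset.subset_union_right fun p _ hp => ?_
    obtain ⟨a, i⟩ := p
    by_cases ha : a = 2
    · subst ha
      have h3 : i ≠ 1 := fun h => hp (by simp [h])
      have h4 : i ≠ k := fun h => hp (by simp [h])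
      rw [hd i h3 h4, zero_smul]
    · rw [W, if_neg ha, smul_zero]
  rw [h1, ← h2, Finset.sum_pair (by simp [Ne.symm hk])]
  simp [W]

open Classical in
theorem coeff_sp (k : ℕ) (hk : k ≠ 1) (F : B3 K) (j : ℕ) (e : Fin 2 × ℕ →₀ ℕ) :
    coeff e ((sp K k F).coeff j) = ∑ d ∈ F.support,
      coeff d F * (if Cnd k d ∧ d (2, k) = j ∧ dxy d = e then 1 else 0) := by
  have h1 : sp K k F = ∑ d ∈ F.support, Polynomial.C (C (coeff d F)) * sp K k (monomial d 1) := by
    conv_lhs => rw [← support_sum_monomial_coeff F]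
    rw [map_sum]
    refine Finset.sum_congr rfl fun d _ => ?_
    have h2 : monomial d (coeff d F) = C (coeff d F) * monomial d 1 := by
      rw [C_mul_monomial, mul_one]
    rw [h2, map_mul, sp_C]
  rw [h1, Polynomial.finsetSum_coeff, coeff_sum]
  refine Finset.sum_congr rfl fun d _ => ?_
  rw [Polynomial.coeff_C_mul, coeff_C_mul, sp_monomial k hk]
  congr 1
  by_cases hc : Cnd k d
  · rw [if_pos hc, Polynomial.coeff_monomial]
    by_cases hj : d (2, k) = j
    · rw [if_pos hj, coeff_monomial]
      by_cases he : dxy d = e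
      · rw [if_pos he, if_pos ⟨hc, hj, he⟩]
      · rw [if_neg he, if_neg (fun h => he h.2.2)]
    · rw [if_neg hj, coeff_zero, if_neg (fun h => hj h.2.1)]
  · rw [if_neg hc, Polynomial.coeff_zero, coeff_zero, if_neg (fun h => hc h.1)]

/-- extraction of a coefficient of a homogeneous polynomial -/
theorem extract (k : ℕ) (hk : 2 ≤ k) (F : B3 K) (n : ℕ) (hF : IsWeightedHomogeneous W F n)
    (j : ℕ) (t m v : n.Partition) (hv : v.parts = Multiset.replicate j k +
      Multiset.replicate (n - j * k) 1) :
    coeff (expo3 t m v) F = coeff (expo2 t m) ((sp K k F).coeff j) := by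
  classical
  have hk1 : k ≠ 1 := by omega
  have hc1 : v.parts.count 1 = n - j * k := by
    rw [hv, Multiset.count_add, Multiset.count_replicate_self, Multiset.count_replicate,
      if_neg hk1, zero_add]
  have hck : v.parts.count k = j := by
    rw [hv, Multiset.count_add, Multiset.count_replicate_self, Multiset.count_replicate,
      if_neg (Ne.symm hk1), add_zero]
  have hc0 : ∀ i, i ≠ 1 → i ≠ k → v.parts.count i = 0 := fun i h1 h2 => by
    rw [hv, Multiset.count_add, Multiset.count_replicate, Multiset.count_replicate,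
      if_neg (Ne.symm h2), if_neg (Ne.symm h1)]
  have hiff : ∀ d ∈ F.support, (Cnd k d ∧ d (2, k) = j ∧ dxy d = expo2 t m) ↔
      d = expo3 t m v := by
    intro d hd
    have hw := hF (mem_support_iff.1 hd)
    constructor
    · rintro ⟨h1, h2, h3⟩
      have h4 := weight_of k hk1 d h1
      rw [hw, h2] at h4
      ext p
      obtain ⟨a, i⟩ := p
      have h5 : a = 0 ∨ a = 1 ∨ a = 2 := by
        fin_cases a <;> simp
      rcases h5 with rfl | rfl | rfl
      · rw [expo3_apply0, ← expo2_apply0 t m, ← h3]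
        rfl
      · rw [expo3_apply1, ← expo2_apply1 t m, ← h3]
        rfl
      · rw [expo3_apply2]
        by_cases hi1 : i = 1
        · rw [hi1, hc1]
          omega
        · by_cases hik : i = k
          · rw [hik, hck, h2]
          · rw [hc0 i hi1 hik, h1 i hi1 hik]
    · rintro rfl
      refine ⟨fun i h1 h2 => ?_, ?_, ?_⟩
      · rw [expo3_apply2, hc0 i h1 h2]
      · rw [expo3_apply2, hck]
      · ext p
        obtain ⟨a, i⟩ := p
        rw [dxy_apply]
        have h5 : a = 0 ∨ a = 1 := by
          fin_cases a <;> simp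
        rcases h5 with rfl | rfl
        · rw [expo2_apply0]
          exact expo3_apply0 t m v i
        · rw [expo2_apply1]
          exact expo3_apply1 t m v i
  rw [coeff_sp k hk1]
  have h6 : ∑ d ∈ F.support,
      coeff d F * (if Cnd k d ∧ d (2, k) = j ∧ dxy d = expo2 t m then 1 else 0) =
      ∑ d ∈ F.support, if d = expo3 t m v then coeff d F else 0 := by
    refine Finset.sum_congr rfl fun d hd => ?_
    by_cases h : d = expo3 t m v
    · rw [if_pos h, if_pos ((hiff d hd).2 h), mul_one]
    · rw [if_neg h, if_neg (fun h' => h ((hiff d hd).1 h')), mul_zero]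
  rw [h6, Finset.sum_ite_eq']
  split_ifs with h7
  · rfl
  · exact notMem_support_iff.1 h7

/-- the coefficients of high degree vanish -/
theorem extract_zero (k : ℕ) (hk : 2 ≤ k) (F : B3 K) (n : ℕ) (hF : IsWeightedHomogeneous W F n)
    (j : ℕ) (hj : n < j * k) : (sp K k F).coeff j = 0 := by
  classical
  have hk1 : k ≠ 1 := by omega
  ext e
  rw [coeff_sp k hk1, coeff_zero]
  refine Finset.sum_eq_zero fun d hd => ?_
  rw [if_neg, mul_zero]
  rintro ⟨h1, h2, _⟩
  have h3 := weight_of k hk1 d h1
  rw [hF (mem_support_iff.1 hd), h2] at h3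
  omega

/-! ### The span of the products of power sums of weight `n` in both alphabets -/

/-- the span -/
def SB (K : Type) [Field K] (n : ℕ) : Submodule K (B2 K) where
  carrier := {F | ∀ e, coeff e F ≠ 0 → ∃ t m : n.Partition, e = expo2 t m}
  add_mem' := by
    intro F G hF hG e he
    rw [coeff_add] at he
    rcases eq_or_ne (coeff e F) 0 with h | h
    · rw [h, zero_add] at he
      exact hG e he
    · exact hF e h
  zero_mem' := by
    intro e he
    simp at he
  smul_mem' := by
    intro c F hF e he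
    rw [coeff_smul] at he
    refine hF e ?_
    intro h
    rw [h, smul_zero] at he
    exact he rfl

theorem SB_C_mul {n : ℕ} {F : B2 K} (hF : F ∈ SB K n) (c : K) : C c * F ∈ SB K n := by
  rw [← smul_eq_C_mul]
  exact (SB K n).smul_mem c hF

theorem ixpp_mul_iypp {n : ℕ} (t m : n.Partition) :
    ix (pp K t) * iy (pp K m) = monomial (expo2 t m) 1 := by
  have h1 : ∀ (a : Fin 2) (s : Multiset ℕ), (s.map fun k => (X (a, k) : B2 K)).prod =
      monomial (Multiset.toFinsupp (s.map fun k => (a, k))) 1 := by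
    intro a s
    induction s using Multiset.induction_on with
    | empty => simp
    | cons b s ih =>
      rw [Multiset.map_cons, Multiset.prod_cons, ih, Multiset.map_cons, ← Multiset.singleton_add,
        map_add, Multiset.toFinsupp_singleton]
      rw [X, monomial_mul, one_mul]
  have h2 : ix (pp K t) = (t.parts.map fun k => (X (0, k) : B2 K)).prod := by
    unfold pp
    rw [map_multiset_prod, Multiset.map_map]
    congr 2
    funext k
    exact ix_X k
  have h3 : iy (pp K m) = (m.parts.map fun k => (X (1, k) : B2 K)).prod := by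
    unfold pp
    rw [map_multiset_prod, Multiset.map_map]
    congr 2
    funext k
    exact iy_X k
  rw [h2, h3, h1, h1, monomial_mul, one_mul, ← map_add]
  rfl

theorem SB_pp {n : ℕ} (t m : n.Partition) : ix (pp K t) * iy (pp K m) ∈ SB K n := by
  intro e he
  rw [ixpp_mul_iypp, coeff_monomial] at he
  refine ⟨t, m, ?_⟩
  by_contra h
  rw [if_neg (Ne.symm h)] at he
  exact he rfl

theorem SB_toL {n : ℕ} (u v : n.Partition → K) : ix (toL u) * iy (toL v) ∈ SB K n := by
  have h1 : ix (toL u) * iy (toL v) =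
      ∑ t, ∑ m, C (u t) * (C (v m) * (ix (pp K t) * iy (pp K m))) := by
    unfold toL
    rw [map_sum, map_sum, Finset.sum_mul_sum]
    refine Finset.sum_congr rfl fun t _ => Finset.sum_congr rfl fun m _ => ?_
    rw [map_mul, map_mul, ix_C, iy_C]
    ring
  rw [h1]
  exact sum_mem fun t _ => sum_mem fun m _ => SB_C_mul (SB_C_mul (SB_pp t m) _) _

theorem SB_ext {n : ℕ} {F G : B2 K} (hF : F ∈ SB K n) (hG : G ∈ SB K n)
    (h : ∀ t m : n.Partition, coeff (expo2 t m) F = coeff (expo2 t m) G) : F = G := by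
  ext e
  by_cases he : ∃ t m : n.Partition, e = expo2 t m
  · obtain ⟨t, m, rfl⟩ := he
    exact h t m
  · have h1 : coeff e F = 0 := by
      by_contra h2
      exact he (hF e h2)
    have h2 : coeff e G = 0 := by
      by_contra h2
      exact he (hG e h2)
    rw [h1, h2]

/-! ### The operators -/

theorem Kop_grade {al : K} (hG : GradeSt K al) (s : Fin 4) (n : ℕ) (v : n.Partition → K) :
    ∃ v' : n.Partition → K, Kop al s (toL v) = toL v' := by
  have hE : ∀ v : n.Partition → K, ∃ v' : n.Partition → K, E K (toL v) = toL v' := fun v =>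
    ⟨(n : K) • v, by rw [E_toL, toL_smul, smul_eq_C_mul]⟩
  have hsm : ∀ (c : K) (v : n.Partition → K), ∃ v' : n.Partition → K, c • toL v = toL v' :=
    fun c v => ⟨c • v, (toL_smul c v).symm⟩
  have hsub : ∀ (u v : n.Partition → K), ∃ v' : n.Partition → K, toL u - toL v = toL v' :=
    fun u v => ⟨u + (-1 : K) • v, by rw [toL_add, toL_smul, neg_one_smul, sub_eq_add_neg]⟩
  have hD : ∀ v : n.Partition → K, ∃ v' : n.Partition → K, Dop al (toL v) = toL v' := fun v => by
    unfold Dop
    rw [LinearMap.sub_apply, LinearMap.smul_apply, LinearMap.smul_apply]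
    obtain ⟨v1, h1⟩ := hG 1 n v
    obtain ⟨v2, h2⟩ := hE v
    rw [h1, h2]
    obtain ⟨v3, h3⟩ := hsm (2 * al)⁻¹ v1
    obtain ⟨v4, h4⟩ := hsm ((al - 1) / 2) v2
    rw [h3, h4]
    exact hsub _ _
  have hEE : ∀ v : n.Partition → K, ∃ v' : n.Partition → K,
      (E K ∘ₗ E K - E K) (toL v) = toL v' := fun v => by
    rw [LinearMap.sub_apply, LinearMap.comp_apply]
    obtain ⟨v1, h1⟩ := hE v
    obtain ⟨v2, h2⟩ := hE v1
    rw [h1, h2]
    exact hsub _ _
  have hK3 : ∀ v : n.Partition → K, ∃ v' : n.Partition → K, K3 al (toL v) = toL v' := fun v => by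
    unfold K3
    simp only [LinearMap.smul_apply, LinearMap.sub_apply (al⁻¹ • H al 2 - (6 * (al - 1)) • Dop al
      - al • (E K ∘ₗ E K - E K)), LinearMap.sub_apply (al⁻¹ • H al 2 - (6 * (al - 1)) • Dop al),
      LinearMap.sub_apply (al⁻¹ • H al 2)]
    obtain ⟨v1, h1⟩ := hG 2 n v
    obtain ⟨v2, h2⟩ := hD v
    obtain ⟨v3, h3⟩ := hEE v
    obtain ⟨v4, h4⟩ := hE v
    rw [h1, h2, h3, h4]
    simp only [← toL_smul]
    obtain ⟨w1, e1⟩ := hsub (al⁻¹ • v1) ((6 * (al - 1)) • v2)
    rw [e1]
    obtain ⟨w2, e2⟩ := hsub w1 (al • v3)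
    rw [e2]
    obtain ⟨w3, e3⟩ := hsub w2 ((al - 1) ^ 2 • v4)
    rw [e3]
    exact hsm _ _
  have hK22 : ∀ v : n.Partition → K, ∃ v' : n.Partition → K, K22 al (toL v) = toL v' := fun v => by
    unfold K22
    simp only [LinearMap.smul_apply, LinearMap.sub_apply (Dop al ∘ₗ Dop al - (3 : K) • K3 al
      - (al - 1) • Dop al), LinearMap.sub_apply (Dop al ∘ₗ Dop al - (3 : K) • K3 al),
      LinearMap.sub_apply (Dop al ∘ₗ Dop al), LinearMap.comp_apply (Dop al)]
    obtain ⟨v2, h2⟩ := hD v
    obtain ⟨v1, h1⟩ := hD v2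
    obtain ⟨v3, h3⟩ := hEE v
    obtain ⟨v4, h4⟩ := hK3 v
    rw [h2, h1, h3, h4]
    simp only [← toL_smul]
    obtain ⟨w1, e1⟩ := hsub v1 ((3 : K) • v4)
    rw [e1]
    obtain ⟨w2, e2⟩ := hsub w1 ((al - 1) • v2)
    rw [e2]
    obtain ⟨w3, e3⟩ := hsub w2 ((al / 2) • v3)
    rw [e3]
    exact hsm _ _
  fin_cases s
  · exact ⟨v, rfl⟩
  · exact hD v
  · exact hK3 v
  · exact hK22 v

/-- partitions of small numbers -/
theorem small_parts {n : ℕ} (r : n.Partition) (hn : n < 4) :
    (r.parts = 0 ∧ n = 0) ∨ (r.parts = {1} ∧ n = 1) ∨ (r.parts = {1, 1} ∧ n = 2) ∨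
      (r.parts = {2} ∧ n = 2) ∨ (r.parts = {1, 1, 1} ∧ n = 3) ∨ (r.parts = {1, 2} ∧ n = 3) ∨
      (r.parts = {3} ∧ n = 3) := by
  have h1 : ∀ l : List ℕ, (∀ i ∈ l, 0 < i) → l.sum = n →
      ((l : Multiset ℕ) = 0 ∧ n = 0) ∨ ((l : Multiset ℕ) = {1} ∧ n = 1) ∨
      ((l : Multiset ℕ) = {1, 1} ∧ n = 2) ∨
      ((l : Multiset ℕ) = {2} ∧ n = 2) ∨ ((l : Multiset ℕ) = {1, 1, 1} ∧ n = 3) ∨
      ((l : Multiset ℕ) = {1, 2} ∧ n = 3) ∨ ((l : Multiset ℕ) = {3} ∧ n = 3) := by
    intro l hl hs
    match l, hl, hs with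
    | [], _, hs =>
      left
      exact ⟨rfl, by simpa using hs.symm⟩
    | [a], hl, hs =>
      have ha : 0 < a := hl a (by simp)
      have hs' : a = n := by simpa using hs
      subst hs'
      interval_cases a
      · exact Or.inr (Or.inl ⟨rfl, rfl⟩)
      · exact Or.inr (Or.inr (Or.inr (Or.inl ⟨rfl, rfl⟩)))
      · exact Or.inr (Or.inr (Or.inr (Or.inr (Or.inr (Or.inr ⟨rfl, rfl⟩)))))
    | [a, b], hl, hs =>
      have ha : 0 < a := hl a (by simp)
      have hb : 0 < b := hl b (by simp)
      have hs' : a + b = n := by simpa using hs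
      have ha3 : a < 3 := by omega
      have hb3 : b < 3 := by omega
      interval_cases a <;> interval_cases b
      · exact Or.inr (Or.inr (Or.inl ⟨rfl, by omega⟩))
      · exact Or.inr (Or.inr (Or.inr (Or.inr (Or.inr (Or.inl ⟨rfl, by omega⟩)))))
      · exact Or.inr (Or.inr (Or.inr (Or.inr (Or.inr (Or.inl ⟨by decide, by omega⟩)))))
      · omega
    | [a, b, c], hl, hs =>
      have ha : 0 < a := hl a (by simp)
      have hb : 0 < b := hl b (by simp)
      have hc : 0 < c := hl c (by simp)
      have hs' : a + (b + c) = n := by simpa using hs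
      have h1 : a = 1 := by omega
      have h2 : b = 1 := by omega
      have h3 : c = 1 := by omega
      subst h1 h2 h3
      exact Or.inr (Or.inr (Or.inr (Or.inr (Or.inl ⟨rfl, by omega⟩))))
    | a :: b :: c :: d :: l', hl, hs =>
      exfalso
      have ha : 0 < a := hl a (by simp)
      have hb : 0 < b := hl b (by simp)
      have hc : 0 < c := hl c (by simp)
      have hd : 0 < d := hl d (by simp)
      simp only [List.sum_cons] at hs
      omega
  obtain ⟨l, hl⟩ := Quot.exists_rep r.parts
  have hl' : r.parts = (l : Multiset ℕ) := hl.symm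
  rw [hl']
  refine h1 l (fun i hi => r.parts_pos (by rw [hl']; exact hi)) ?_
  have := r.parts_sum
  rw [hl', Multiset.sum_coe] at this
  exact this

theorem ap1 (O : Lam K →ₗ[K] Lam K) (h0 : O 1 = 0) (i : ℕ) : O (X i) = comm O i 1 := by
  have h := apply_X_mul O i 1
  rwa [mul_one, h0, mul_zero, zero_add] at h

theorem ap2 (O : Lam K →ₗ[K] Lam K) (h0 : O 1 = 0) (i j : ℕ) :
    O (X i * X j) = X i * comm O j 1 + X j * comm O i 1 + comm (comm O i) j 1 := by
  rw [apply_X_mul, ap1 O h0]
  have h := apply_X_mul (comm O i) j 1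
  rw [mul_one] at h
  rw [h]
  ring

theorem ap3 (O : Lam K →ₗ[K] Lam K) (h0 : O 1 = 0) (i j k : ℕ) :
    O (X i * (X j * X k)) = X i * (X j * comm O k 1 + X k * comm O j 1 + comm (comm O j) k 1) +
      (X j * (X k * comm O i 1 + comm (comm O i) k 1) +
        (X k * comm (comm O i) j 1 + comm (comm (comm O i) j) k 1)) := by
  rw [apply_X_mul, ap2 O h0, apply_X_mul (comm O i)]
  have h := apply_X_mul (comm O i) k 1
  rw [mul_one] at h
  have h' := apply_X_mul (comm (comm O i) j) k 1
  rw [mul_one] at h'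
  rw [h, h']

theorem Ico12 : Finset.Ico 1 2 = ({1} : Finset ℕ) := rfl

theorem Ico13 : Finset.Ico 1 3 = ({1, 2} : Finset ℕ) := rfl

/-- the operators kill polynomials of small degree -/
theorem vanish {al : K} (hD : BrDSt K al) (h3 : BrK3St K al) (h22 : BrK22St K al) (s : Fin 4)
    {n : ℕ} (hn : n < (Sh s).sum) (r : n.Partition) : Kop al s (pp K r) = 0 := by
  have c13 : Nat.choose 1 3 = 0 := rfl
  have c23 : Nat.choose 2 3 = 0 := rfl
  have c14 : Nat.choose 1 4 = 0 := rfl
  have c24 : Nat.choose 2 4 = 0 := rfl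
  have c34 : Nat.choose 3 4 = 0 := rfl
  have c12 : Nat.choose 1 2 = 0 := rfl
  have c02 : Nat.choose 0 2 = 0 := rfl
  have b1 : bD1 al 1 = 0 := by simp [bD1]
  have t1 : bT1 al 1 = 0 := by simp [bT1, c13]
  have t2 : bT1 al 2 = 0 := by simp [bT1, Ico12, c23]
  have t11 : bT2 al 1 1 = 0 := by
    have h : ((1 : K) + 1 - 2) = 0 := by norm_num
    have h' : qT2 al 1 1 = 0 := by
      simp only [qT2, Finset.Ico_self, Finset.sum_empty, Nat.cast_one, h, mul_zero, C_0, zero_mul,
        add_zero]
    rw [bT2, h', mul_zero]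
  have s1 : bS1 al 1 = 0 := by simp [bS1, c14]
  have s2 : bS1 al 2 = 0 := by simp [bS1, Ico12, c24, c13, c12, c02]
  have s3 : bS1 al 3 = 0 := by
    have h : (C 3 : Lam K) - 2 - 1 = 0 := by
      rw [show (C 3 : Lam K) = 3 from map_ofNat C 3]
      norm_num
    simp [bS1, Ico13, Ico12, c34, c13, c23, c12, c02]
    right
    exact h
  have s11 : bS2 al 1 1 = 0 := by
    have h' : qS2 al 1 1 = 0 := by
      simp only [qS2, Finset.Ico_self, Finset.sum_empty, Nat.cast_one, sub_self, mul_zero, C_0,
        zero_mul, add_zero]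
    rw [bS2, h', mul_zero]
  have s12 : bS2 al 1 2 = 0 := by
    have h : ((1 : K) + 2 * 2 - 2 * 1 - 3) = 0 := by norm_num
    have h' : qS2 al 1 2 = 0 := by
      simp only [qS2, Finset.Ico_self, Finset.sum_empty, Nat.cast_one, sub_self, mul_zero, C_0,
        zero_mul, add_zero, Ico12, Finset.sum_singleton, Nat.cast_ofNat, h]
    rw [bS2, h', mul_zero]
  have s111 : bS3 al 1 1 1 = 0 := by
    have h : ((1 : K) + 1 + 1 - 3) = 0 := by norm_num
    simp only [bS3, Nat.cast_one, h, mul_zero, C_0, zero_mul]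
  obtain ⟨d0, d1, d2, _⟩ := hD
  obtain ⟨k0, k1, k2, _⟩ := h3
  obtain ⟨l0, l1, l2, l3, _⟩ := h22
  have e0 : r.parts = 0 → pp K r = 1 := fun h => by simp [pp, h]
  have e1 : r.parts = {1} → pp K r = X 1 := fun h => by simp [pp, h]
  have e11 : r.parts = {1, 1} → pp K r = X 1 * X 1 := fun h => by simp [pp, h]
  have e2 : r.parts = {2} → pp K r = X 2 := fun h => by simp [pp, h]
  have e111 : r.parts = {1, 1, 1} → pp K r = X 1 * (X 1 * X 1) := fun h => by simp [pp, h]
  have e12 : r.parts = {1, 2} → pp K r = X 1 * X 2 := fun h => by simp [pp, h]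
  have e3 : r.parts = {3} → pp K r = X 3 := fun h => by simp [pp, h]
  fin_cases s
  · simp [Sh] at hn
  · have hn' : n < 2 := by simpa [Sh] using hn
    change Dop al (pp K r) = 0
    rcases small_parts r (by omega) with h | h | h | h | h | h | h
    · rw [e0 h.1, d0]
    · rw [e1 h.1, ap1 _ d0, d1, b1]
    all_goals omega
  · have hn' : n < 3 := by simpa [Sh] using hn
    change K3 al (pp K r) = 0
    rcases small_parts r (by omega) with h | h | h | h | h | h | h
    · rw [e0 h.1, k0]
    · rw [e1 h.1, ap1 _ k0, k1, t1]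
    · rw [e11 h.1, ap2 _ k0, k1, k2, t1, t11]
      ring
    · rw [e2 h.1, ap1 _ k0, k1, t2]
    all_goals omega
  · have hn' : n < 4 := by simpa [Sh] using hn
    change K22 al (pp K r) = 0
    rcases small_parts r (by omega) with h | h | h | h | h | h | h
    · rw [e0 h.1, l0]
    · rw [e1 h.1, ap1 _ l0, l1, s1]
    · rw [e11 h.1, ap2 _ l0, l1, l2, s1, s11, b1]
      ring
    · rw [e2 h.1, ap1 _ l0, l1, s2]
    · rw [e111 h.1, ap3 _ l0, l1, l2, l3, s1, s11, s111, b1]
      ring
    · rw [e12 h.1, ap2 _ l0, l1, l1, l2, s1, s2, s12, b1]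
      ring
    · rw [e3 h.1, ap1 _ l0, l1, s3]

/-! ### The series `phi` -/

theorem pa_hom (a : Fin 3) {n : ℕ} (r : n.Partition) :
    IsWeightedHomogeneous W (pa (K := K) a r) (if a = 2 then n else 0) := by
  have h : ∀ s : Multiset ℕ, IsWeightedHomogeneous W ((s.map fun k => (X (a, k) : B3 K)).prod)
      (if a = 2 then s.sum else 0) := by
    intro s
    induction s using Multiset.induction_on with
    | empty =>
      simp only [Multiset.map_zero, Multiset.prod_zero, Multiset.sum_zero, ite_self]
      exact isWeightedHomogeneous_one K W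
    | cons b s ih =>
      rw [Multiset.map_cons, Multiset.prod_cons]
      have h1 := (isWeightedHomogeneous_X K W (a, b)).mul ih
      have h2 : W (a, b) + (if a = 2 then s.sum else 0) = if a = 2 then (b ::ₘ s).sum else 0 := by
        unfold W
        split_ifs
        · rw [Multiset.sum_cons]
        · rfl
      rwa [h2] at h1
  have h1 := h r.parts
  rwa [r.parts_sum] at h1

theorem Ja_hom {n : ℕ} (J : n.Partition → n.Partition → K) (l : n.Partition) (a : Fin 3) :
    IsWeightedHomogeneous W (Ja J l a) (if a = 2 then n else 0) := by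
  unfold Ja
  refine IsWeightedHomogeneous.sum _ _ _ fun r _ => ?_
  have h1 := (isWeightedHomogeneous_C (R := K) W (J l r)).mul (pa_hom a r)
  rwa [zero_add] at h1

theorem phi_hom (al : K) (J : (n : ℕ) → n.Partition → n.Partition → K) (n : ℕ) :
    IsWeightedHomogeneous W (PowerSeries.coeff n (phi al J)) n := by
  unfold phi
  rw [PowerSeries.coeff_mk]
  refine IsWeightedHomogeneous.sum _ _ _ fun l _ => ?_
  have h1 := (isWeightedHomogeneous_C (R := K) W (nrm al (J n) l)⁻¹).mul
    (((Ja_hom (J n) l 0).mul (Ja_hom (J n) l 1)).mul (Ja_hom (J n) l 2))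
  have h2 : 0 + ((if (0 : Fin 3) = 2 then n else 0) + (if (1 : Fin 3) = 2 then n else 0) +
      (if (2 : Fin 3) = 2 then n else 0)) = n := by
    simp
  rwa [h2] at h1

theorem sp_pa0 (k : ℕ) {n : ℕ} (r : n.Partition) :
    sp K k (pa 0 r) = Polynomial.C (ix (pp K r)) := by
  unfold pa pp
  rw [map_multiset_prod, map_multiset_prod, map_multiset_prod, Multiset.map_map, Multiset.map_map,
    Multiset.map_map]
  congr 2
  funext j
  simp only [Function.comp_apply]
  rw [sp_X, ix_X, spv, if_pos rfl]

theorem sp_pa1 (k : ℕ) {n : ℕ} (r : n.Partition) :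
    sp K k (pa 1 r) = Polynomial.C (iy (pp K r)) := by
  unfold pa pp
  rw [map_multiset_prod, map_multiset_prod, map_multiset_prod, Multiset.map_map, Multiset.map_map,
    Multiset.map_map]
  congr 2
  funext j
  simp only [Function.comp_apply]
  rw [sp_X, iy_X, spv, if_neg (by simp), if_pos rfl]

theorem sp_pa2 (k : ℕ) {n : ℕ} (r : n.Partition) (j : ℕ) :
    ∃ c : K, (sp K k (pa 2 r)).coeff j = C c := by
  have h : ∀ s : Multiset ℕ, ∃ g : Polynomial K,
      sp K k ((s.map fun k => (X (2, k) : B3 K)).prod) = g.map C := by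
    intro s
    induction s using Multiset.induction_on with
    | empty => exact ⟨1, by simp⟩
    | cons b s ih =>
      obtain ⟨g, hg⟩ := ih
      rw [Multiset.map_cons, Multiset.prod_cons, map_mul, hg, sp_X]
      have h1 : ∃ g' : Polynomial K, spv K k (2, b) = g'.map C := by
        unfold spv
        rw [if_neg (by simp), if_neg (by simp)]
        split_ifs
        · exact ⟨1, by simp⟩
        · exact ⟨Polynomial.X, by simp⟩
        · exact ⟨0, by simp⟩
      obtain ⟨g', hg'⟩ := h1
      exact ⟨g' * g, by rw [hg', Polynomial.map_mul]⟩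
  obtain ⟨g, hg⟩ := h r.parts
  refine ⟨g.coeff j, ?_⟩
  unfold pa
  rw [hg, Polynomial.coeff_map]

theorem sp_Ja0 (k : ℕ) {n : ℕ} (J : n.Partition → n.Partition → K) (l : n.Partition) :
    sp K k (Ja J l 0) = Polynomial.C (ix (toL (J l))) := by
  unfold Ja toL
  rw [map_sum, map_sum, map_sum]
  refine Finset.sum_congr rfl fun r _ => ?_
  rw [map_mul, sp_C, sp_pa0, map_mul, ix_C, Polynomial.C_mul]

theorem sp_Ja1 (k : ℕ) {n : ℕ} (J : n.Partition → n.Partition → K) (l : n.Partition) :
    sp K k (Ja J l 1) = Polynomial.C (iy (toL (J l))) := by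
  unfold Ja toL
  rw [map_sum, map_sum, map_sum]
  refine Finset.sum_congr rfl fun r _ => ?_
  rw [map_mul, sp_C, sp_pa1, map_mul, iy_C, Polynomial.C_mul]

theorem sp_phi_mem (al : K) (J : (n : ℕ) → n.Partition → n.Partition → K) (k n j : ℕ) :
    (sp K k (PowerSeries.coeff n (phi al J))).coeff j ∈ SB K n := by
  unfold phi
  rw [PowerSeries.coeff_mk, map_sum, Polynomial.finsetSum_coeff]
  refine sum_mem fun l _ => ?_
  rw [map_mul, map_mul, map_mul, sp_C, sp_Ja0, sp_Ja1, Polynomial.coeff_C_mul, ← Polynomial.C_mul,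
    Polynomial.coeff_C_mul]
  refine SB_C_mul ?_ _
  have h1 : ∃ c : K, (sp K k (Ja (J n) l 2)).coeff j = C c := by
    choose c hc using fun r : n.Partition => sp_pa2 (K := K) k r j
    refine ⟨∑ r, J n l r * c r, ?_⟩
    unfold Ja
    rw [map_sum, Polynomial.finsetSum_coeff, map_sum]
    refine Finset.sum_congr rfl fun r _ => ?_
    rw [map_mul, sp_C, Polynomial.coeff_C_mul, hc, C_mul]
  obtain ⟨c, hc⟩ := h1
  rw [hc, mul_comm]
  exact SB_C_mul (SB_toL _ _) _

theorem AA_mem {al : K} (O : Lam K →ₗ[K] Lam K) (n : ℕ)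
    (hO : ∀ v : n.Partition → K, ∃ v' : n.Partition → K, O (toL v) = toL v') :
    PowerSeries.coeff n (AA al O) ∈ SB K n := by
  classical
  unfold AA
  rw [PowerSeries.coeff_mk]
  refine sum_mem fun r _ => ?_
  rw [mul_assoc]
  refine SB_C_mul ?_ _
  obtain ⟨v', hv'⟩ := hO (Pi.single r (1 : K))
  rw [toL_single] at hv'
  rw [hv', ← toL_single]
  exact SB_toL _ _

/-- the coefficient of `w ^ j` -/
def cf (j : ℕ) (F : PowerSeries (Polynomial (B2 K))) : PowerSeries (B2 K) :=
  PowerSeries.mk fun n => (PowerSeries.coeff n F).coeff j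

theorem cf_mul (j : ℕ) (F G : PowerSeries (Polynomial (B2 K))) :
    cf j (F * G) = ∑ p ∈ Finset.HasAntidiagonal.antidiagonal j, cf p.1 F * cf p.2 G := by
  ext1 n
  unfold cf
  rw [PowerSeries.coeff_mk, PowerSeries.coeff_mul, Polynomial.finsetSum_coeff, map_sum]
  simp only [PowerSeries.coeff_mul, PowerSeries.coeff_mk, Polynomial.coeff_mul]
  rw [Finset.sum_comm]

/-- the specialisation of a series -/
def sps (k : ℕ) (F : PowerSeries (B3 K)) : PowerSeries (Polynomial (B2 K)) :=
  PowerSeries.map (sp K k : B3 K →+* Polynomial (B2 K)) F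

theorem sps_mul (k : ℕ) (F G : PowerSeries (B3 K)) : sps k (F * G) = sps k F * sps k G :=
  map_mul _ _ _

theorem coeff_sps (k n : ℕ) (F : PowerSeries (B3 K)) :
    PowerSeries.coeff n (sps k F) = sp K k (PowerSeries.coeff n F) := by
  unfold sps
  rw [PowerSeries.coeff_map]
  rfl

/-- the series `AA` are the coefficients of the specialised `phi` -/
theorem cf_phi {al : K} (hPhi : PhiSt K al) (hG : GradeSt K al) (hD : BrDSt K al)
    (h3 : BrK3St K al) (h22 : BrK22St K al) (J : (n : ℕ) → n.Partition → n.Partition → K)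
    (hJ : ∀ n, IsJack al n (J n)) (k : ℕ) (hk : 2 ≤ k) (j : ℕ) (s : Fin 4)
    (hs : Sh s = Multiset.replicate j k) :
    cf j (sps k (phi al J)) = AA al (Kop al s) := by
  ext1 n
  unfold cf
  rw [PowerSeries.coeff_mk, coeff_sps]
  have hsum : (Sh s).sum = j * k := by rw [hs, Multiset.sum_replicate, smul_eq_mul]
  rcases Nat.lt_or_ge n (j * k) with hn | hn
  · rw [extract_zero k hk _ n (phi_hom al J n) j hn]
    unfold AA
    rw [PowerSeries.coeff_mk]
    symm
    refine Finset.sum_eq_zero fun r _ => ?_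
    rw [vanish hD h3 h22 s (by rw [hsum]; exact hn) r, map_zero, mul_zero]
  · refine SB_ext (sp_phi_mem al J k n j) (AA_mem _ n (Kop_grade hG s n)) fun t m => ?_
    let v : n.Partition :=
      { parts := Multiset.replicate j k + Multiset.replicate (n - j * k) 1
        parts_pos := by
          intro i hi
          rcases Multiset.mem_add.1 hi with h | h
          · rw [Multiset.eq_of_mem_replicate h]
            omega
          · rw [Multiset.eq_of_mem_replicate h]
            exact Nat.one_pos
        parts_sum := by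
          rw [Multiset.sum_add, Multiset.sum_replicate, Multiset.sum_replicate, smul_eq_mul,
            smul_eq_mul]
          omega }
    have hv : v.parts = Multiset.replicate j k + Multiset.replicate (n - j * k) 1 := rfl
    have hsh : IsSh s v := by
      unfold IsSh
      rw [hv, hsum, hs]
    rw [← extract k hk _ n (phi_hom al J n) j t m v hv]
    exact hPhi J hJ s n t m v hsh

theorem phi_zero {al : K} (J : (n : ℕ) → n.Partition → n.Partition → K)
    (hJ : ∀ n, IsJack al n (J n)) : PowerSeries.coeff 0 (phi al J) = 1 := by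
  classical
  have hp : ∀ r : Nat.Partition 0, r.parts = 0 := fun r => by
    rw [Multiset.eq_zero_iff_forall_notMem]
    intro i hi
    have h1 := r.parts_pos hi
    have h2 := Multiset.le_sum_of_mem hi
    rw [r.parts_sum] at h2
    omega
  have hu : ∀ r : Nat.Partition 0, r = ones 0 := fun r => Nat.Partition.ext (by
    rw [hp, hp])
  have huniv : (Finset.univ : Finset (Nat.Partition 0)) = {ones 0} := by
    ext r
    exact ⟨fun _ => Finset.mem_singleton.2 (hu r), fun _ => Finset.mem_univ r⟩
  set j : K := J 0 (ones 0) (ones 0) with hj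
  have h1 : j * mc K (ones 0) (ones 0) = 1 := by
    have h := (hJ 0).norm (ones 0)
    rw [huniv, Finset.sum_singleton] at h
    simpa using h
  have h2 : mc K (ones 0) (ones 0) = 1 := by
    unfold mc
    rw [hp]
    simp only [Multiset.map_zero, Multiset.prod_zero]
    have h3 : pvec (ones 0) = 0 := by
      ext i
      exact i.elim0
    rw [h3, ← C_1, coeff_C, if_pos rfl]
  rw [h2, mul_one] at h1
  have hw : wtp al (ones 0) = 1 := by
    unfold wtp zed
    rw [hp]
    simp
  have hpa : ∀ a : Fin 3, pa (K := K) a (ones 0) = 1 := fun a => by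
    unfold pa
    rw [hp]
    simp
  have hja : ∀ a : Fin 3, Ja (J 0) (ones 0) a = 1 := fun a => by
    unfold Ja
    rw [huniv, Finset.sum_singleton, hpa, ← hj, h1, C_1, one_mul]
  have hn : nrm al (J 0) (ones 0) = 1 := by
    unfold nrm
    rw [huniv, Finset.sum_singleton, hw, ← hj, h1]
    norm_num
  unfold phi
  rw [PowerSeries.coeff_mk, huniv, Finset.sum_singleton, hja, hja, hja, hn, inv_one, C_1]
  ring

theorem psi_hom {al : K} (J : (n : ℕ) → n.Partition → n.Partition → K)
    (hJ : ∀ n, IsJack al n (J n)) (psi : PowerSeries (B3 K)) (hpsi : IsPsi al J psi) (n : ℕ) :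
    IsWeightedHomogeneous W (PowerSeries.coeff n psi) n := by
  induction n using Nat.strong_induction_on with
  | _ n ih =>
    have h1 := hpsi n
    rw [PowerSeries.coeff_mul, Finset.Nat.sum_antidiagonal_eq_sum_range_succ
      (fun i j => PowerSeries.coeff i psi * PowerSeries.coeff j (phi al J)),
      Finset.sum_range_succ, Nat.sub_self, phi_zero J hJ, mul_one] at h1
    have h2 : PowerSeries.coeff n psi = C (al * n) * PowerSeries.coeff n (phi al J) -
        ∑ i ∈ Finset.range n, PowerSeries.coeff i psi * PowerSeries.coeff (n - i) (phi al J) := by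
      rw [← h1]
      ring
    rw [h2]
    refine (weightedHomogeneousSubmodule K W n).sub_mem ?_ ?_
    · have h3 := (isWeightedHomogeneous_C (R := K) W (al * n)).mul (phi_hom al J n)
      rw [zero_add] at h3
      exact h3
    · refine sum_mem fun i hi => ?_
      have hi' := Finset.mem_range.1 hi
      have h3 := (ih i hi').mul (phi_hom al J (n - i))
      have h4 : i + (n - i) = n := by omega
      rw [h4] at h3
      exact h3

/-! ### The derivation -/

/-- `al t d/dt` -/
def th (al : K) (F : PowerSeries (B2 K)) : PowerSeries (B2 K) :=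
  PowerSeries.mk fun n => C (al * n) * PowerSeries.coeff n F

theorem coeff_th (al : K) (F : PowerSeries (B2 K)) (n : ℕ) :
    PowerSeries.coeff n (th al F) = C (al * n) * PowerSeries.coeff n F := by
  unfold th
  rw [PowerSeries.coeff_mk]

theorem th_mul (al : K) (F G : PowerSeries (B2 K)) :
    th al (F * G) = th al F * G + F * th al G := by
  ext1 n
  rw [coeff_th, map_add, PowerSeries.coeff_mul, PowerSeries.coeff_mul, PowerSeries.coeff_mul,
    Finset.mul_sum, ← Finset.sum_add_distrib]
  refine Finset.sum_congr rfl fun p hp => ?_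
  rw [coeff_th, coeff_th]
  have h1 : p.1 + p.2 = n := Finset.HasAntidiagonal.mem_antidiagonal.1 hp
  rw [← h1, Nat.cast_add, mul_add, C_add]
  ring

theorem th_sub (al : K) (F G : PowerSeries (B2 K)) : th al (F - G) = th al F - th al G := by
  ext1 n
  rw [map_sub, coeff_th, coeff_th, coeff_th, map_sub]
  ring

theorem th_const (al : K) (c : B2 K) (F : PowerSeries (B2 K)) :
    th al (PowerSeries.C c * F) = PowerSeries.C c * th al F := by
  ext1 n
  rw [coeff_th, PowerSeries.coeff_C_mul, PowerSeries.coeff_C_mul, coeff_th]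
  ring

end

end Pool.Agent.MJR.ExtrM

namespace Pool.Agent.MJR

open MvPolynomial ExtrM

noncomputable section

/-- The coefficients of `psi` at classes of rank at most two. -/
theorem extr (K : Type) [Field K] [CharZero K] (al : K) (hal : al ≠ 0) (hPhi : PhiSt K al)
    (hA : RecASt K al) (hS : RecSSt K al) (hG : GradeSt K al) (hD : BrDSt K al)
    (h3 : BrK3St K al) (h22 : BrK22St K al) : ExtrSt K al := by
  intro J hJ psi hpsi n t m v hn
  have hcf := cf_phi hPhi hG hD h3 h22 J hJ
  have a20 : cf 0 (sps 2 (phi al J)) = AA al LinearMap.id := hcf 2 le_rfl 0 0 rfl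
  have a21 : cf 1 (sps 2 (phi al J)) = AA al (Dop al) := hcf 2 le_rfl 1 1 rfl
  have a22 : cf 2 (sps 2 (phi al J)) = AA al (K22 al) := hcf 2 le_rfl 2 3 rfl
  have a30 : cf 0 (sps 3 (phi al J)) = AA al LinearMap.id := hcf 3 (by norm_num) 0 0 rfl
  have a31 : cf 1 (sps 3 (phi al J)) = AA al (K3 al) := hcf 3 (by norm_num) 1 2 rfl
  set A0 : PowerSeries (B2 K) := AA al LinearMap.id with hA0
  -- cancellation of `A0`
  have hcan : ∀ X Y : PowerSeries (B2 K), X * A0 = Y * A0 → X = Y := by
    intro X Y hXY
    have h1 : A0 ≠ 0 := by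
      intro h0
      have h2 := a20
      have h4 : PowerSeries.coeff 0 (cf 0 (sps 2 (phi al J))) = 1 := by
        unfold cf
        rw [PowerSeries.coeff_mk, coeff_sps, phi_zero J hJ, map_one, Polynomial.coeff_one_zero]
      rw [h2, h0, map_zero] at h4
      exact zero_ne_one h4
    exact mul_right_cancel₀ h1 hXY
  -- the equation for `psi`
  have heq : ∀ k j : ℕ, ∑ p ∈ Finset.HasAntidiagonal.antidiagonal j, cf p.1 (sps k psi) * cf p.2 (sps k (phi al J))
      = th al (cf j (sps k (phi al J))) := by
    intro k j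
    rw [← cf_mul, ← sps_mul]
    ext1 n
    rw [coeff_th]
    unfold cf
    rw [PowerSeries.coeff_mk, PowerSeries.coeff_mk, coeff_sps, coeff_sps, hpsi n, map_mul, sp_C,
      Polynomial.coeff_C_mul]
  have q20 := heq 2 0
  have q21 := heq 2 1
  have q22 := heq 2 2
  have q30 := heq 3 0
  have q31 := heq 3 1
  have d0 : Finset.HasAntidiagonal.antidiagonal 0 = ({(0, 0)} : Finset (ℕ × ℕ)) := rfl
  have d1 : Finset.HasAntidiagonal.antidiagonal 1 = ({(0, 1), (1, 0)} : Finset (ℕ × ℕ)) := rfl
  have d2 : Finset.HasAntidiagonal.antidiagonal 2 = ({(0, 2), (1, 1), (2, 0)} : Finset (ℕ × ℕ)) := rfl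
  rw [d0, Finset.sum_singleton] at q20 q30
  rw [d1, Finset.sum_pair (by decide)] at q21 q31
  rw [d2, Finset.sum_insert (by decide), Finset.sum_pair (by decide)] at q22
  simp only [] at q20 q30 q21 q31 q22
  rw [a20] at q20 q21 q22
  rw [a21] at q21 q22
  rw [a22] at q22
  rw [a30] at q30 q31
  rw [a31] at q31
  obtain ⟨s1, _, _⟩ := hS (Dop al)
  obtain ⟨s2, _, _⟩ := hS (K3 al)
  obtain ⟨s3, _, _⟩ := hS (K22 al)
  rw [← hA0] at s1 s2 s3
  -- `Psi1`
  have r1 : cf 1 (sps 2 psi) = th al (SS al (Dop al)) := by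
    apply hcan
    rw [s1, th_mul, ← q20] at q21
    linear_combination q21
  have r2 : cf 1 (sps 3 psi) = th al (SS al (K3 al)) := by
    apply hcan
    rw [s2, th_mul, ← q30] at q31
    linear_combination q31
  have r3 : cf 2 (sps 2 psi) =
      th al (SS al (K22 al) - PowerSeries.C (C (2 : K)⁻¹) * SS al (Dop al) ^ 2) := by
    apply hcan
    have e2 : PowerSeries.C (C (2 : K)⁻¹ : B2 K) * 2 = 1 := by
      have : (2 : PowerSeries (B2 K)) = PowerSeries.C (C (2 : K)) := by
        rw [map_ofNat C 2, map_ofNat PowerSeries.C 2]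
      rw [this, ← map_mul, ← C_mul, inv_mul_cancel₀ two_ne_zero, C_1, map_one]
    rw [th_sub, th_const, pow_two, th_mul]
    rw [s3, th_mul, ← q20, s1, r1] at q22
    linear_combination q22 + (SS al (Dop al) * th al (SS al (Dop al)) * A0) * e2
  have r0 : cf 0 (sps 2 psi) = PowerSeries.mk fun k =>
      if k = 0 then 0 else X ((0 : Fin 2), k) * X ((1 : Fin 2), k) := by
    apply hcan
    rw [q20]
    ext1 n
    rw [coeff_th, hA0, hA LinearMap.id n, PowerSeries.coeff_mul,
      Finset.Nat.sum_antidiagonal_eq_sum_range_succ (fun i j => PowerSeries.coeff i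
        (PowerSeries.mk fun k => if k = 0 then 0 else
          (X ((0 : Fin 2), k) * X ((1 : Fin 2), k) : B2 K)) *
          PowerSeries.coeff j (AA al LinearMap.id))]
    have e1 : ∀ k, PowerSeries.coeff k (AA al (comm (LinearMap.id : Lam K →ₗ[K] Lam K) n)) = 0 := by
      intro k
      rw [comm_id]
      unfold AA
      rw [PowerSeries.coeff_mk]
      exact Finset.sum_eq_zero fun r _ => by simp
    have e2 : ∀ i k, PowerSeries.coeff k
        (AA al (comm (LinearMap.id : Lam K →ₗ[K] Lam K) i)) = 0 := by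
      intro i k
      rw [comm_id]
      unfold AA
      rw [PowerSeries.coeff_mk]
      exact Finset.sum_eq_zero fun r _ => by simp
    simp only [e2, add_zero, PowerSeries.coeff_mk]
    rw [Finset.range_eq_Ico, Finset.sum_eq_sum_Ico_succ_bot (Nat.succ_pos n)]
    rw [if_pos rfl, zero_mul, zero_add]
    have e3 : Finset.Ico (0 + 1) (n + 1) = Finset.Icc 1 n := by
      ext i
      simp only [Finset.mem_Ico, Finset.mem_Icc]
      omega
    rw [e3]
    refine Finset.sum_congr rfl fun k hk => ?_
    rw [if_neg (by have := (Finset.mem_Icc.1 hk).1; omega)]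
    ring
  have hext : ∀ (k : ℕ), 2 ≤ k → ∀ j : ℕ, v.parts = Multiset.replicate j k +
      Multiset.replicate (n - j * k) 1 →
      hc psi t m v = coeff (expo2 t m) (PowerSeries.coeff n (cf j (sps k psi))) := by
    intro k hk j hv
    unfold hc cf
    rw [PowerSeries.coeff_mk, coeff_sps]
    exact extract k hk _ n (psi_hom J hJ psi hpsi n) j t m v hv
  refine ⟨fun hv => ?_, fun hv => ?_, fun hv => ?_, fun hv => ?_⟩
  · rw [hext 2 le_rfl 0 hv, r0, PowerSeries.coeff_mk, if_neg (by omega)]
  · rw [hext 2 le_rfl 1 hv, r1, coeff_th]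
  · rw [hext 3 (by norm_num) 1 hv, r2, coeff_th]
  · rw [hext 2 le_rfl 2 hv, r3, coeff_th]

end

end Pool.Agent.MJR
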