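import Pool.Agent.MJR.St

/-!
The form is anisotropic over `ℚ(al)`.
-/

namespace Pool.Agent.MJR

open scoped Nat

noncomputable section

theorem AnisoM.zed_pos {n : ℕ} (r : n.Partition) : 0 < zed r := by
  unfold zed
  refine Finset.prod_pos fun i hi => ?_
  have h1 : 0 < i := r.parts_pos (Multiset.mem_toFinset.1 hi)
  positivity

theorem anisoM : AnisoSt := by
  intro n v h
  obtain ⟨b, hb⟩ := IsLocalization.exist_integer_multiples_of_finite
    (nonZeroDivisors (Polynomial ℚ)) v
  choose f hf using hb
  have hb0 : (b : Polynomial ℚ) ≠ 0 := nonZeroDivisors.ne_zero b.2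
  have hinj : Function.Injective (algebraMap (Polynomial ℚ) (RatFunc ℚ)) :=
    RatFunc.algebraMap_injective ℚ
  have h1 : ∑ r, f r ^ 2 * (Polynomial.X ^ r.parts.card * ((zed r : ℕ) : Polynomial ℚ)) = 0 := by
    apply hinj
    rw [map_sum, map_zero]
    have h2 : ∀ r : n.Partition, algebraMap (Polynomial ℚ) (RatFunc ℚ)
        (f r ^ 2 * (Polynomial.X ^ r.parts.card * ((zed r : ℕ) : Polynomial ℚ))) =
        algebraMap (Polynomial ℚ) (RatFunc ℚ) b ^ 2 * (v r ^ 2 * wtp RatFunc.X r) := by
      intro r
      rw [map_mul, map_mul, map_pow, map_pow, map_natCast, RatFunc.algebraMap_X, hf r,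
        Algebra.smul_def]
      unfold wtp
      ring
    rw [Finset.sum_congr rfl fun r _ => h2 r, ← Finset.mul_sum, h, mul_zero]
  funext r
  have h3 : f r = 0 := by
    refine Polynomial.eq_zero_of_infinite_isRoot _ ?_
    refine Set.Infinite.mono ?_ (Set.Ioi_infinite (0 : ℚ))
    intro q hq
    have hq0 : (0 : ℚ) < q := hq
    have h4 := congrArg (Polynomial.eval q) h1
    rw [Polynomial.eval_finsetSum, Polynomial.eval_zero] at h4
    have h5 := (Finset.sum_eq_zero_iff_of_nonneg (fun s _ => ?_)).1 h4 r (Finset.mem_univ r)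
    · rw [Polynomial.eval_mul, Polynomial.eval_pow, Polynomial.eval_mul, Polynomial.eval_pow,
        Polynomial.eval_X, Polynomial.eval_natCast] at h5
      have h6 : q ^ r.parts.card * ((zed r : ℕ) : ℚ) ≠ 0 := by
        have := AnisoM.zed_pos r
        positivity
      have h7 := (mul_eq_zero.1 h5).resolve_right h6
      exact pow_eq_zero_iff (two_ne_zero) |>.1 h7
    · rw [Polynomial.eval_mul, Polynomial.eval_pow, Polynomial.eval_mul, Polynomial.eval_pow,
        Polynomial.eval_X, Polynomial.eval_natCast]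
      positivity
  have h4 := hf r
  rw [h3, map_zero, Algebra.smul_def] at h4
  have h5 : algebraMap (Polynomial ℚ) (RatFunc ℚ) b ≠ 0 := by
    intro h0
    exact hb0 (hinj (h0.trans (map_zero _).symm))
  exact (mul_eq_zero.1 h4.symm).resolve_left h5

end

end Pool.Agent.MJR
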