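import Pool.Agent.MJR.BrBase

/-!
Brackets of the Laplace-Beltrami operator.
-/

set_option autoImplicit false

namespace Pool.Agent.MJR

open BrB

open MvPolynomial

noncomputable section

variable {K : Type} [Field K]

theorem comm_smulH (al : K) (r k : ℕ) :
    comm (H al r) k = Tr ∘ₗ (ad k ((Z al) ^ (r + 1))) ∘ₗ cW := by
  unfold H
  exact comm_T _ k

theorem ad_pow2 (al : K) (k : ℕ) :
    ad k ((Z al) ^ 2) = Lw (uu al k) * Z al + Z al * Lw (uu al k) := by
  rw [pow_two, ad_mul, ad_Z]

theorem Lw_mul (u v : LW K) : Lw u * Lw v = Lw (u * v) := by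
  apply LinearMap.ext
  intro g
  simp only [Module.End.mul_apply, Lw_apply]
  ring

theorem ad_pow2_2 (al : K) (k l : ℕ) :
    ad l (ad k ((Z al) ^ 2)) = (2 : K) • Lw (uu al k * uu al l) := by
  rw [ad_pow2, ad_add, ad_mul, ad_mul, ad_Lw, ad_Z, zero_mul, mul_zero, Lw_mul, Lw_mul, zero_add,
    add_zero, mul_comm (uu al l), two_smul]

theorem ad_smul (c : K) (k : ℕ) (A : Module.End K (LW K)) : ad k (c • A) = c • ad k A := by
  apply LinearMap.ext
  intro g
  unfold ad
  simp only [LinearMap.sub_apply, Module.End.mul_apply, LinearMap.smul_apply, Lw_apply, smul_sub,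
    mul_smul_comm]

theorem Tr_uu_mul (al : K) (k l : ℕ) (f : Lam K) :
    Tr (uu al k * uu al l * Polynomial.C f) = C (al ^ 2 * k * l) * X (k + l) * f := by
  unfold uu
  rw [Polynomial.monomial_mul_monomial]
  rcases eq_or_ne (k + l) 0 with h | h
  · have hk : k = 0 := by omega
    have hl : l = 0 := by omega
    subst hk hl
    simp
  · have : Polynomial.monomial (k + l) (C (al * k) * C (al * l) : Lam K) * Polynomial.C f
        = Polynomial.monomial (k + l) (C (al * k) * C (al * l) * f) := by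
      rw [mul_comm, Polynomial.C_mul_monomial, mul_comm f]
    rw [this, Tr_monomial _ _ h, ← C_mul]
    have h2 : al * k * (al * l) = al ^ 2 * k * l := by ring
    rw [h2]
    ring

theorem CC (a b : K) (f : Lam K) : C a * (C b * f) = C (a * b) * f := by
  rw [← mul_assoc, ← C_mul]

/-- the sum of all `p_a p_(m-a)` -/
def sg (K : Type) [Field K] (m : ℕ) : Lam K := ∑ a ∈ Finset.Ico 1 m, X a * X (m - a)

theorem sg_weight (m : ℕ) :
    2 * ∑ a ∈ Finset.Ico 1 m, C (a : K) * (X a * X (m - a) : Lam K) = C (m : K) * sg K m := by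
  have h1 : ∑ a ∈ Finset.Ico 1 m, C (a : K) * (X a * X (m - a) : Lam K)
      = ∑ a ∈ Finset.Ico 1 m, C ((m - a : ℕ) : K) * (X a * X (m - a) : Lam K) := by
    refine Finset.sum_bij' (fun a _ => m - a) (fun a _ => m - a) ?_ ?_ ?_ ?_ ?_
    · intro a ha
      rw [Finset.mem_Ico] at ha ⊢
      omega
    · intro a ha
      rw [Finset.mem_Ico] at ha ⊢
      omega
    · intro a ha
      rw [Finset.mem_Ico] at ha
      show m - (m - a) = a
      omega
    · intro a ha
      rw [Finset.mem_Ico] at ha
      show m - (m - a) = a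
      omega
    · intro a ha
      rw [Finset.mem_Ico] at ha
      have : m - (m - a) = a := by omega
      rw [this]
      ring
  calc 2 * ∑ a ∈ Finset.Ico 1 m, C (a : K) * (X a * X (m - a) : Lam K)
      = ∑ a ∈ Finset.Ico 1 m, C (a : K) * (X a * X (m - a) : Lam K)
        + ∑ a ∈ Finset.Ico 1 m, C (a : K) * (X a * X (m - a) : Lam K) := by ring
    _ = ∑ a ∈ Finset.Ico 1 m, C (a : K) * (X a * X (m - a) : Lam K)
        + ∑ a ∈ Finset.Ico 1 m, C ((m - a : ℕ) : K) * (X a * X (m - a) : Lam K) := by rw [← h1]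
    _ = C (m : K) * sg K m := by
      rw [← Finset.sum_add_distrib, sg, Finset.mul_sum]
      apply Finset.sum_congr rfl
      intro a ha
      rw [Finset.mem_Ico] at ha
      rw [← add_mul, ← C_add, ← Nat.cast_add]
      congr 3
      congr 1
      omega

/-- `Z w^k` -/
theorem Z_uu (al : K) (k : ℕ) :
    Z al (uu al k) = Polynomial.monomial k (C (al * (al - 1) * k * k))
      + ∑ a ∈ Finset.Ico 1 k, Polynomial.monomial a (C (al * k) * X (k - a)) := by
  unfold uu
  rw [Z_monomial]
  have : U al (C (al * k) : Lam K) = 0 := by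
    have h : (C (al * k) : Lam K) = algebraMap K (Lam K) (al * k) := rfl
    rw [h, Derivation.map_algebraMap]
  rw [this, mul_zero, add_zero, ← C_mul]
  have h2 : (al - 1) * k * (al * k) = al * (al - 1) * k * k := by ring
  rw [h2]
  congr 1
  apply Finset.sum_congr rfl
  intro a _
  rw [mul_comm]

theorem Tr_Z_uu (al : K) (k : ℕ) :
    Tr (Z al (uu al k)) = C (al * (al - 1) * k * k) * X k + C (al * k) * sg K k := by
  rw [Z_uu, map_add, map_sum]
  congr 1
  · rcases eq_or_ne k 0 with h | h
    · subst h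
      rw [Tr_monomial_zero]
      simp
    · rw [Tr_monomial _ _ h, mul_comm]
  · rw [sg, Finset.mul_sum]
    apply Finset.sum_congr rfl
    intro a ha
    rw [Finset.mem_Ico] at ha
    rw [Tr_monomial _ _ (by omega)]
    ring

theorem choose_two_cast [CharZero K] (m : ℕ) : ((m.choose 2 : ℕ) : K) = m * (m - 1) / 2 :=
  Nat.cast_choose_two K m

theorem brD [CharZero K] {al : K} (hal : al ≠ 0) : BrDSt K al := by
  have h2 : (2 : K) ≠ 0 := two_ne_zero
  have hc1 : ∀ i, comm (Dop al) i = (2 * al)⁻¹ • (Tr ∘ₗ (ad i ((Z al) ^ 2)) ∘ₗ cW)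
      - ((al - 1) / 2) • LinearMap.mulLeft K (C (i : K) * X i) := by
    intro i
    unfold Dop
    rw [comm_sub, comm_smul, comm_smul, comm_smulH, comm_E]
  have hc2 : ∀ i j, comm (comm (Dop al) i) j = LinearMap.mulLeft K (bD2 al i j) := by
    intro i j
    rw [hc1, comm_sub, comm_smul, comm_smul, comm_mulLeft, smul_zero, sub_zero, comm_T, ad_pow2_2]
    apply LinearMap.ext
    intro f
    simp only [LinearMap.smul_apply, LinearMap.comp_apply, cW_apply, Lw_apply, map_smul,
      LinearMap.mulLeft_apply, Tr_uu_mul]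
    rw [smul_smul, smul_eq_C_mul, bD2, ← mul_assoc, ← mul_assoc, ← C_mul]
    congr 3
    field_simp
  refine ⟨?_, ?_, ?_, ?_⟩
  · have h1 : H al 1 1 = 0 := by
      unfold H
      have : cW (1 : Lam K) = Polynomial.C 1 := rfl
      rw [LinearMap.comp_apply, LinearMap.comp_apply, this, pow_succ, Module.End.mul_apply, Z_one,
        map_zero, map_zero]
    unfold Dop
    rw [LinearMap.sub_apply, LinearMap.smul_apply, LinearMap.smul_apply, h1, E_one, smul_zero,
      smul_zero, sub_zero]
  · intro i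
    rw [hc1, ad_pow2]
    have e1 : (Tr ∘ₗ (Lw (uu al i) * Z al + Z al * Lw (uu al i)) ∘ₗ cW) (1 : Lam K)
        = Tr (Z al (uu al i)) := by
      have : cW (1 : Lam K) = Polynomial.C 1 := rfl
      rw [LinearMap.comp_apply, LinearMap.comp_apply, this, LinearMap.add_apply,
        Module.End.mul_apply, Module.End.mul_apply, Z_one, map_zero, zero_add, Lw_apply,
        Polynomial.C_1, mul_one]
    rw [LinearMap.sub_apply, LinearMap.smul_apply, LinearMap.smul_apply, e1, Tr_Z_uu,
      LinearMap.mulLeft_apply, mul_one, bD1]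
    have h3 : ∑ a ∈ Finset.Ico 1 i, C (a : K) * (X a * X (i - a) : Lam K)
        = C ((i : K) / 2) * sg K i := by
      have h4 := sg_weight (K := K) i
      have h5 : (C (2 : K)⁻¹ : Lam K) * 2 = 1 := by
        have : (2 : Lam K) = C 2 := (map_ofNat (C : K →+* Lam K) 2).symm
        rw [this, ← C_mul, inv_mul_cancel₀ h2, C_1]
      calc ∑ a ∈ Finset.Ico 1 i, C (a : K) * (X a * X (i - a) : Lam K)
          = (C (2 : K)⁻¹ * 2) * ∑ a ∈ Finset.Ico 1 i, C (a : K) * (X a * X (i - a) : Lam K) := by
            rw [h5, one_mul]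
        _ = C (2 : K)⁻¹ * (C (i : K) * sg K i) := by rw [mul_assoc, h4]
        _ = C ((i : K) / 2) * sg K i := by
            rw [← mul_assoc, ← C_mul]
            congr 2
            ring
    rw [h3, choose_two_cast, smul_eq_C_mul, smul_eq_C_mul, mul_add, CC, CC, CC]
    have e2 : (2 * al)⁻¹ * (al * i) = (i : K) / 2 := by field_simp
    have e3 : (2 * al)⁻¹ * (al * (al - 1) * i * i) = (al - 1) / 2 * i
        + (al - 1) * ((i : K) * (i - 1) / 2) := by
      field_simp
      ring
    rw [e2, e3, C_add]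
    have e4 : C ((al - 1) / 2 * (i : K)) * (X i : Lam K) = C ((al - 1) / 2 * i) * X i := rfl
    ring
  · intro i j
    rw [hc2, LinearMap.mulLeft_apply, mul_one]
  · intro i j k
    rw [hc2, comm_mulLeft]

end

end Pool.Agent.MJR
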