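import Pool.Agent.MJR.BrDM

/-!
Brackets of the operator of the class `(3, 1^(n-3))`.
-/

set_option autoImplicit false

namespace Pool.Agent.MJR

open BrB

open MvPolynomial

noncomputable section

variable {K : Type} [Field K]

theorem ad_pow3 (al : K) (k : ℕ) :
    ad k ((Z al) ^ 3) = Lw (uu al k) * Z al * Z al + Z al * Lw (uu al k) * Z al
      + Z al * Z al * Lw (uu al k) := by
  have h : (Z al) ^ 3 = Z al * Z al * Z al := by
    rw [pow_succ, pow_two]
  rw [h, ad_mul, ad_mul, ad_Z, add_mul]

theorem ad_pow3_2 (al : K) (k l : ℕ) :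
    ad l (ad k ((Z al) ^ 3)) = (2 : K) • (Lw (uu al k * uu al l) * Z al)
      + Lw (uu al k) * Z al * Lw (uu al l) + Lw (uu al l) * Z al * Lw (uu al k)
      + (2 : K) • (Z al * Lw (uu al k * uu al l)) := by
  rw [ad_pow3]
  simp only [ad_add, ad_mul, ad_Z, ad_Lw, zero_mul, mul_zero, add_zero, zero_add]
  apply LinearMap.ext
  intro g
  simp only [LinearMap.add_apply, LinearMap.smul_apply, Module.End.mul_apply, Lw_apply, two_smul,
    map_add]
  have h1 : ∀ x : LW K, uu al l * (uu al k * x) = uu al k * uu al l * x := by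
    intro x
    ring
  have h2 : ∀ x : LW K, uu al k * (uu al l * x) = uu al k * uu al l * x := by
    intro x
    ring
  simp only [h1, h2]
  abel

theorem ad_pow3_3 (al : K) (k l m : ℕ) :
    ad m (ad l (ad k ((Z al) ^ 3))) = (6 : K) • Lw (uu al k * uu al l * uu al m) := by
  rw [ad_pow3_2]
  simp only [ad_add, ad_mul, ad_Z, ad_Lw, ad_smul, zero_mul, mul_zero, add_zero, zero_add]
  apply LinearMap.ext
  intro g
  simp only [LinearMap.add_apply, LinearMap.smul_apply, Module.End.mul_apply, Lw_apply]
  have h1 : ∀ x : LW K, uu al k * (uu al m * (uu al l * x)) = uu al k * uu al l * uu al m * x := by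
    intro x
    ring
  have h2 : ∀ x : LW K, uu al l * (uu al m * (uu al k * x)) = uu al k * uu al l * uu al m * x := by
    intro x
    ring
  have h3 : ∀ x : LW K, uu al k * uu al l * (uu al m * x) = uu al k * uu al l * uu al m * x := by
    intro x
    ring
  have h4 : ∀ x : LW K, uu al m * (uu al k * uu al l * x) = uu al k * uu al l * uu al m * x := by
    intro x
    ring
  simp only [h1, h2, h3, h4, ← add_smul, ← two_smul K (uu al k * uu al l * uu al m * g)]
  generalize uu al k * uu al l * uu al m * g = y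
  rw [show (6 : K) = 2 + 1 + 1 + 2 by norm_num, add_smul, add_smul, add_smul, one_smul]

/-- the triple sum -/
def tri (K : Type) [Field K] (g : ℕ → ℕ → ℕ → Lam K) (m : ℕ) : Lam K :=
  ∑ c ∈ Finset.Ico 1 m, ∑ d ∈ Finset.Ico 1 (m - c), g c d (m - c - d)

theorem tri_swap12 (g : ℕ → ℕ → ℕ → Lam K) (m : ℕ) :
    tri K g m = tri K (fun c d e => g d c e) m := by
  unfold tri
  rw [Finset.sum_sigma', Finset.sum_sigma']
  refine Finset.sum_bij' (fun x _ => ⟨x.2, x.1⟩) (fun x _ => ⟨x.2, x.1⟩) ?_ ?_ ?_ ?_ ?_
  · intro x hx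
    simp only [Finset.mem_sigma, Finset.mem_Ico] at hx ⊢
    omega
  · intro x hx
    simp only [Finset.mem_sigma, Finset.mem_Ico] at hx ⊢
    omega
  · intro x _
    rfl
  · intro x _
    rfl
  · intro x hx
    simp only [Finset.mem_sigma, Finset.mem_Ico] at hx
    have : m - x.2 - x.1 = m - x.1 - x.2 := by omega
    simp only [this]

theorem tri_swap23 (g : ℕ → ℕ → ℕ → Lam K) (m : ℕ) :
    tri K g m = tri K (fun c d e => g c e d) m := by
  unfold tri
  apply Finset.sum_congr rfl
  intro c hc
  refine Finset.sum_bij' (fun d _ => m - c - d) (fun d _ => m - c - d) ?_ ?_ ?_ ?_ ?_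
  · intro a ha
    rw [Finset.mem_Ico] at ha ⊢
    omega
  · intro a ha
    rw [Finset.mem_Ico] at ha ⊢
    omega
  · intro a ha
    rw [Finset.mem_Ico] at ha
    show m - c - (m - c - a) = a
    omega
  · intro a ha
    rw [Finset.mem_Ico] at ha
    show m - c - (m - c - a) = a
    omega
  · intro a ha
    rw [Finset.mem_Ico] at ha
    have : m - c - (m - c - a) = a := by omega
    simp only [this]

theorem tri_weight (m : ℕ) :
    3 * tri K (fun c d e => C (c : K) * (X c * X d * X e)) m
      = C (m : K) * tri K (fun c d e => X c * X d * X e) m := by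
  have h1 : tri K (fun c d e => C (c : K) * (X c * X d * X e)) m
      = tri K (fun c d e => C (d : K) * (X c * X d * X e)) m := by
    rw [tri_swap12]
    unfold tri
    apply Finset.sum_congr rfl
    intro c _
    apply Finset.sum_congr rfl
    intro d _
    ring
  have h2 : tri K (fun c d e => C (d : K) * (X c * X d * X e)) m
      = tri K (fun c d e => C (e : K) * (X c * X d * X e)) m := by
    rw [tri_swap23]
    unfold tri
    apply Finset.sum_congr rfl
    intro c _
    apply Finset.sum_congr rfl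
    intro d _
    ring
  calc 3 * tri K (fun c d e => C (c : K) * (X c * X d * X e)) m
      = tri K (fun c d e => C (c : K) * (X c * X d * X e)) m
        + tri K (fun c d e => C (c : K) * (X c * X d * X e)) m
        + tri K (fun c d e => C (c : K) * (X c * X d * X e)) m := by ring
    _ = tri K (fun c d e => C (c : K) * (X c * X d * X e)) m
        + tri K (fun c d e => C (d : K) * (X c * X d * X e)) m
        + tri K (fun c d e => C (e : K) * (X c * X d * X e)) m := by rw [← h1, ← h2, ← h1]
    _ = C (m : K) * tri K (fun c d e => X c * X d * X e) m := by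
      unfold tri
      rw [← Finset.sum_add_distrib, ← Finset.sum_add_distrib, Finset.mul_sum]
      apply Finset.sum_congr rfl
      intro c hc
      rw [← Finset.sum_add_distrib, ← Finset.sum_add_distrib, Finset.mul_sum]
      apply Finset.sum_congr rfl
      intro d hd
      rw [Finset.mem_Ico] at hc hd
      rw [← add_mul, ← add_mul, ← C_add, ← C_add, ← Nat.cast_add, ← Nat.cast_add]
      have : c + d + (m - c - d) = m := by omega
      rw [this]

theorem choose_three_cast [CharZero K] (m : ℕ) :
    ((m.choose 3 : ℕ) : K) = m * (m - 1) * (m - 2) / 6 := by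
  induction m with
  | zero => simp
  | succ n ih =>
    rw [Nat.choose_succ_succ' n 2, Nat.cast_add, ih, choose_two_cast, Nat.cast_succ]
    field_simp
    ring

theorem sum_Ico_sub (m : ℕ) [CharZero K] :
    ∑ a ∈ Finset.Ico 1 m, ((m - a : ℕ) : K) = m * (m - 1) / 2 := by
  induction m with
  | zero => simp
  | succ n ih =>
    rcases Nat.eq_zero_or_pos n with h | h
    · subst h
      simp
    · rw [Finset.sum_Ico_succ_top h]
      have : ∑ a ∈ Finset.Ico 1 n, ((n + 1 - a : ℕ) : K)
          = ∑ a ∈ Finset.Ico 1 n, (((n - a : ℕ) : K) + 1) := by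
        apply Finset.sum_congr rfl
        intro a ha
        rw [Finset.mem_Ico] at ha
        rw [← Nat.cast_succ]
        congr 1
        omega
      rw [this, Finset.sum_add_distrib, ih]
      have h3 : n + 1 - n = 1 := by omega
      rw [h3, Finset.sum_const, Nat.card_Ico, nsmul_eq_mul, Nat.cast_one, mul_one, Nat.cast_succ,
        Nat.cast_pred h]
      field_simp
      ring

/-- `Tr (Z w^a f)` for `a ≥ 1` -/
theorem Tr_Z_monomial (al : K) (a : ℕ) (f : Lam K) (ha : 1 ≤ a) :
    Tr (Z al (Polynomial.monomial a f)) = C ((al - 1) * a) * (X a * f)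
      + Tr (Polynomial.X ^ a * U al f) + sg K a * f := by
  rw [Z_monomial, map_add, map_add, Tr_monomial _ _ (by omega)]
  congr 1
  · congr 1
    ring
  · rw [map_sum, sg, Finset.sum_mul]
    apply Finset.sum_congr rfl
    intro b hb
    rw [Finset.mem_Ico] at hb
    rw [Tr_monomial _ _ (by omega)]
    ring

theorem U_C3 (al c : K) : U al (C c : Lam K) = 0 := by
  have h : (C c : Lam K) = algebraMap K (Lam K) c := rfl
  rw [h, Derivation.map_algebraMap]

theorem U_CX (al c : K) (j : ℕ) : U al (C c * X j : Lam K) = Polynomial.monomial j (C (c * (al * j))) := by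
  rw [Derivation.leibniz, U_C3, smul_zero, add_zero]
  have : U al (X j : Lam K) = uu al j := by
    unfold U uu
    rw [mkDerivation_X]
  rw [this, uu, Polynomial.smul_monomial, smul_eq_mul, ← C_mul]

theorem Tr_ZZ_uu [CharZero K] (al : K) (k : ℕ) :
    Tr (Z al (Z al (uu al k))) = C (al * k) * (C ((al - 1) ^ 2 * k * k + al * k * (k - 1) / 2) * X k
      + C ((al - 1) * k) * sg K k
      + C (al - 1) * ∑ a ∈ Finset.Ico 1 k, C (a : K) * (X a * X (k - a))
      + tri K (fun c d e => X c * X d * X e) k) := by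
  rcases Nat.eq_zero_or_pos k with h0 | h0
  · subst h0
    have : uu al 0 = 0 := by
      unfold uu
      simp
    rw [this, map_zero, map_zero, map_zero]
    simp
  rw [Z_uu, map_add, map_add, map_sum, map_sum, Tr_Z_monomial _ _ _ h0, U_C3, mul_zero, map_zero,
    add_zero]
  have h1 : ∑ a ∈ Finset.Ico 1 k, Tr (Z al (Polynomial.monomial a (C (al * k) * X (k - a))))
      = ∑ a ∈ Finset.Ico 1 k, (C (al * k) * (C (al - 1) * (C (a : K) * (X a * X (k - a))))
        + C (al * k * (al * ((k - a : ℕ) : K))) * X k + C (al * k) * (sg K a * X (k - a))) := by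
    apply Finset.sum_congr rfl
    intro a ha
    rw [Finset.mem_Ico] at ha
    rw [Tr_Z_monomial _ _ _ (by omega), U_CX]
    have e1 : (Polynomial.X ^ a * Polynomial.monomial (k - a) (C (al * k * (al * ((k - a : ℕ) : K))))
        : LW K) = Polynomial.monomial k (C (al * k * (al * ((k - a : ℕ) : K)))) := by
      rw [← Polynomial.C_mul_X_pow_eq_monomial, ← Polynomial.C_mul_X_pow_eq_monomial]
      have : Polynomial.X ^ k = (Polynomial.X ^ a * Polynomial.X ^ (k - a) : LW K) := by
        rw [← pow_add]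
        congr 1
        omega
      rw [this]
      ring
    rw [e1, Tr_monomial _ _ (by omega), C_mul (a := al - 1)]
    ring
  have h2 : ∑ a ∈ Finset.Ico 1 k, (sg K a * X (k - a) : Lam K)
      = tri K (fun c d e => X c * X d * X e) k := by
    have h3 : ∑ a ∈ Finset.Ico 1 k, (sg K a * X (k - a) : Lam K)
        = ∑ a ∈ Finset.Ico 1 k, ∑ b ∈ Finset.Ico 1 a, (X b * X (a - b) * X (k - a) : Lam K) := by
      apply Finset.sum_congr rfl
      intro a _
      rw [sg, Finset.sum_mul]
    rw [h3]
    unfold tri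
    rw [Finset.sum_sigma', Finset.sum_sigma']
    refine Finset.sum_bij' (fun x _ => ⟨x.2, x.1 - x.2⟩) (fun x _ => ⟨x.1 + x.2, x.1⟩) ?_ ?_ ?_ ?_ ?_
    · intro x hx
      simp only [Finset.mem_sigma, Finset.mem_Ico] at hx ⊢
      omega
    · intro x hx
      simp only [Finset.mem_sigma, Finset.mem_Ico] at hx ⊢
      omega
    · rintro ⟨a, b⟩ hx
      simp only [Finset.mem_sigma, Finset.mem_Ico] at hx
      simp only [Sigma.mk.injEq, heq_eq_eq, and_true]
      omega
    · rintro ⟨a, b⟩ hx
      simp only [Finset.mem_sigma, Finset.mem_Ico] at hx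
      simp only [Sigma.mk.injEq, heq_eq_eq, true_and]
      omega
    · rintro ⟨a, b⟩ hx
      simp only [Finset.mem_sigma, Finset.mem_Ico] at hx
      have : k - b - (a - b) = k - a := by omega
      simp only [this]
  have h4 : ∑ a ∈ Finset.Ico 1 k, (C (al * k * (al * ((k - a : ℕ) : K))) * X k : Lam K)
      = C (al * k * (al * (k * (k - 1) / 2))) * X k := by
    rw [← Finset.sum_mul, ← map_sum, ← Finset.mul_sum, ← Finset.mul_sum, sum_Ico_sub]
  rw [h1, Finset.sum_add_distrib, Finset.sum_add_distrib, h4, ← Finset.mul_sum, ← Finset.mul_sum,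
    ← Finset.mul_sum, h2]
  have e2 : (C (al * k * (al * (k * (k - 1) / 2))) : Lam K)
      = C (al * k) * C (al * k * (k - 1) / 2) := by
    rw [← C_mul]
    congr 1
    ring
  have e3 : (C ((al - 1) ^ 2 * k * k + al * k * (k - 1) / 2) : Lam K)
      = C ((al - 1) * k) * C ((al - 1) * k) + C (al * k * (k - 1) / 2) := by
    rw [← C_mul, ← C_add]
    congr 1
    ring
  have e4 : (C (al * (al - 1) * k * k) : Lam K) = C (al * k) * C ((al - 1) * k) := by
    rw [← C_mul]
    congr 1
    ring
  rw [e2, e3, e4]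
  ring

theorem comm_Dop (al : K) (i : ℕ) : comm (Dop al) i = (2 * al)⁻¹ • (Tr ∘ₗ (ad i ((Z al) ^ 2)) ∘ₗ cW)
      - ((al - 1) / 2) • LinearMap.mulLeft K (C (i : K) * X i) := by
  unfold Dop
  rw [comm_sub, comm_smul, comm_smul, comm_smulH, comm_E]

theorem comm2_Dop [CharZero K] {al : K} (hal : al ≠ 0) (i j : ℕ) :
    comm (comm (Dop al) i) j = LinearMap.mulLeft K (bD2 al i j) := by
  have h2 : (2 : K) ≠ 0 := two_ne_zero
  rw [comm_Dop, comm_sub, comm_smul, comm_smul, comm_mulLeft, smul_zero, sub_zero, comm_T,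
    ad_pow2_2]
  apply LinearMap.ext
  intro f
  simp only [LinearMap.smul_apply, LinearMap.comp_apply, cW_apply, Lw_apply, map_smul,
    LinearMap.mulLeft_apply, Tr_uu_mul]
  rw [smul_smul, smul_eq_C_mul, bD2, ← mul_assoc, ← mul_assoc, ← C_mul]
  congr 3
  field_simp

theorem comm_K3 (al : K) (i : ℕ) : comm (K3 al) i = (3 : K)⁻¹ •
    (al⁻¹ • (Tr ∘ₗ (ad i ((Z al) ^ 3)) ∘ₗ cW) - (6 * (al - 1)) • comm (Dop al) i
      - al • (LinearMap.mulLeft K (C (i : K) * X i) ∘ₗ E K
          + E K ∘ₗ LinearMap.mulLeft K (C (i : K) * X i) - LinearMap.mulLeft K (C (i : K) * X i))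
      - (al - 1) ^ 2 • LinearMap.mulLeft K (C (i : K) * X i)) := by
  unfold K3
  rw [comm_smul, comm_sub, comm_sub, comm_sub, comm_smul, comm_smul, comm_smul, comm_smul,
    comm_smulH, comm_sub, comm_comp, comm_E]

theorem comm2_K3 [CharZero K] {al : K} (hal : al ≠ 0) (i j : ℕ) :
    comm (comm (K3 al) i) j = (3 : K)⁻¹ •
    (al⁻¹ • (Tr ∘ₗ (ad j (ad i ((Z al) ^ 3))) ∘ₗ cW)
      - LinearMap.mulLeft K (C (6 * (al - 1)) * bD2 al i j + C (2 * al * i * j) * (X i * X j))) := by
  rw [comm_K3]
  simp only [comm_smul, comm_sub, comm_add, comm_comp, comm_mulLeft, comm_E, comm_T,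
    comm2_Dop hal, smul_zero, sub_zero]
  congr 1
  apply LinearMap.ext
  intro f
  simp only [LinearMap.sub_apply, LinearMap.add_apply, LinearMap.smul_apply, LinearMap.comp_apply,
    LinearMap.mulLeft_apply, LinearMap.zero_apply, map_zero, smul_eq_C_mul]
  have e1 : (C (2 * al * i * j) : Lam K) = 2 * C al * C (i : K) * C (j : K) := by
    rw [C_mul, C_mul, C_mul]
    have : (C (2 : K) : Lam K) = 2 := map_ofNat (C : K →+* Lam K) 2
    rw [this]
  rw [e1]
  ring

theorem Lw_smul_apply (c : K) (u g : LW K) : (c • Lw u) g = c • (u * g) := rfl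

theorem comm3_K3 [CharZero K] {al : K} (hal : al ≠ 0) (i j k : ℕ) :
    comm (comm (comm (K3 al) i) j) k = LinearMap.mulLeft K (bT3 al i j k) := by
  have h3 : (3 : K) ≠ 0 := three_ne_zero
  rw [comm2_K3 hal, comm_smul, comm_sub, comm_mulLeft, sub_zero, comm_smul, comm_T, ad_pow3_3]
  apply LinearMap.ext
  intro f
  simp only [LinearMap.smul_apply, LinearMap.comp_apply, cW_apply, Lw_apply, map_smul,
    LinearMap.mulLeft_apply]
  have h1 : Tr (uu al i * uu al j * uu al k * Polynomial.C f)
      = C (al ^ 3 * i * j * k) * X (i + j + k) * f := by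
    unfold uu
    rw [Polynomial.monomial_mul_monomial, Polynomial.monomial_mul_monomial]
    have e0 : Polynomial.monomial (i + j + k) (C (al * i) * C (al * j) * C (al * k) : Lam K)
        * Polynomial.C f
        = Polynomial.monomial (i + j + k) (C (al * i) * C (al * j) * C (al * k) * f) := by
      rw [mul_comm, Polynomial.C_mul_monomial, mul_comm f]
    rw [e0]
    rcases eq_or_ne (i + j + k) 0 with h | h
    · have hi : i = 0 := by omega
      have hj : j = 0 := by omega
      have hk : k = 0 := by omega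
      subst hi hj hk
      simp
    · rw [Tr_monomial _ _ h, ← C_mul, ← C_mul]
      have h2 : al * i * (al * j) * (al * k) = al ^ 3 * i * j * k := by ring
      rw [h2]
      ring
  rw [h1, smul_smul, smul_smul, smul_eq_C_mul, bT3, ← mul_assoc, ← mul_assoc, ← C_mul]
  congr 3
  field_simp
  ring

theorem Tr_uZu [CharZero K] (al : K) (i j : ℕ) (hi : 1 ≤ i) :
    Tr (uu al i * Z al (uu al j)) = C (al * i * (al * j)) * (C ((al - 1) * j) * X (i + j)
      + ∑ a ∈ Finset.Ico 1 j, X a * X (i + j - a)) := by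
  rw [Z_uu, mul_add, map_add, Finset.mul_sum, map_sum, mul_add, Finset.mul_sum]
  congr 1
  · unfold uu
    rw [Polynomial.monomial_mul_monomial, Tr_monomial _ _ (by omega), ← C_mul, CC, mul_comm]
    congr 2
    ring
  · refine Finset.sum_bij' (fun d _ => j - d) (fun d _ => j - d) ?_ ?_ ?_ ?_ ?_
    · intro a ha
      rw [Finset.mem_Ico] at ha ⊢
      omega
    · intro a ha
      rw [Finset.mem_Ico] at ha ⊢
      omega
    · intro a ha
      rw [Finset.mem_Ico] at ha
      show j - (j - a) = a
      omega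
    · intro a ha
      rw [Finset.mem_Ico] at ha
      show j - (j - a) = a
      omega
    · intro a ha
      rw [Finset.mem_Ico] at ha
      unfold uu
      rw [Polynomial.monomial_mul_monomial, Tr_monomial _ _ (by omega)]
      have : i + j - (j - a) = i + a := by omega
      rw [this, C_mul (a := al * i)]
      ring

theorem Tr_Zuu [CharZero K] (al : K) (i j : ℕ) (hi : 1 ≤ i) :
    Tr (Z al (uu al i * uu al j)) = C (al * i * (al * j)) * (C ((al - 1) * ((i : K) + j)) * X (i + j)
      + sg K (i + j)) := by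
  unfold uu
  rw [Polynomial.monomial_mul_monomial, ← C_mul, Tr_Z_monomial _ _ _ (by omega), U_C3, mul_zero,
    map_zero, add_zero, Nat.cast_add]
  ring

theorem sg_split (i j : ℕ) (hi : 1 ≤ i) (hj : 1 ≤ j) :
    sg K (i + j) = ∑ a ∈ Finset.Ico 1 i, X a * X (i + j - a)
      + ∑ a ∈ Finset.Ico 1 j, X a * X (i + j - a) + X i * X j := by
  unfold sg
  have h1 : ∑ a ∈ Finset.Ico 1 (i + j), (X a * X (i + j - a) : Lam K)
      = ∑ a ∈ Finset.Ico 1 i, X a * X (i + j - a)
        + ∑ a ∈ Finset.Ico i (i + j), X a * X (i + j - a) := by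
    rw [Finset.sum_Ico_consecutive _ hi (by omega)]
  have h2 : ∑ a ∈ Finset.Ico i (i + j), (X a * X (i + j - a) : Lam K)
      = X i * X (i + j - i) + ∑ a ∈ Finset.Ico (i + 1) (i + j), X a * X (i + j - a) := by
    rw [Finset.sum_eq_sum_Ico_succ_bot (by omega)]
  have h3 : ∑ a ∈ Finset.Ico (i + 1) (i + j), (X a * X (i + j - a) : Lam K)
      = ∑ a ∈ Finset.Ico 1 j, X a * X (i + j - a) := by
    refine Finset.sum_bij' (fun d _ => i + j - d) (fun d _ => i + j - d) ?_ ?_ ?_ ?_ ?_
    · intro a ha
      rw [Finset.mem_Ico] at ha ⊢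
      omega
    · intro a ha
      rw [Finset.mem_Ico] at ha ⊢
      omega
    · intro a ha
      rw [Finset.mem_Ico] at ha
      show i + j - (i + j - a) = a
      omega
    · intro a ha
      rw [Finset.mem_Ico] at ha
      show i + j - (i + j - a) = a
      omega
    · intro a ha
      rw [Finset.mem_Ico] at ha
      have : i + j - (i + j - a) = a := by omega
      rw [this]
      ring
  rw [h1, h2, h3]
  have : i + j - i = j := by omega
  rw [this]
  ring

theorem brK3 [CharZero K] {al : K} (hal : al ≠ 0) : BrK3St K al := by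
  have h2 : (2 : K) ≠ 0 := two_ne_zero
  have h3 : (3 : K) ≠ 0 := three_ne_zero
  have h6 : (6 : K) ≠ 0 := by norm_num
  obtain ⟨hD1, hD2, -, -⟩ := brD (K := K) hal
  have hc1 : cW (1 : Lam K) = Polynomial.C 1 := rfl
  refine ⟨?_, ?_, ?_, ?_, ?_⟩
  · have h1 : H al 2 1 = 0 := by
      unfold H
      rw [LinearMap.comp_apply, LinearMap.comp_apply, hc1, pow_succ, Module.End.mul_apply, Z_one,
        map_zero, map_zero]
    unfold K3
    simp only [LinearMap.sub_apply, LinearMap.smul_apply, LinearMap.comp_apply, h1, hD1, E_one,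
      map_zero, smul_zero, sub_zero]
  · intro i
    have e1 : (Tr ∘ₗ (ad i ((Z al) ^ 3)) ∘ₗ cW) (1 : Lam K) = Tr (Z al (Z al (uu al i))) := by
      rw [ad_pow3]
      simp only [LinearMap.comp_apply, hc1, LinearMap.add_apply, Module.End.mul_apply, Z_one,
        map_zero, zero_add, Lw_apply, mul_zero]
      rw [Polynomial.C_1, mul_one]
    rw [comm_K3]
    simp only [LinearMap.sub_apply, LinearMap.add_apply, LinearMap.smul_apply,
      LinearMap.comp_apply (f := E K), LinearMap.comp_apply (g := E K), e1, hD2,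
      LinearMap.mulLeft_apply, E_one, mul_zero, mul_one, zero_add]
    have e2 : E K (C (i : K) * X i) = C ((i : K) * i) * X i := by
      rw [E_mul, E_X, CC]
      have : E K (C (i : K)) = 0 := by
        have h : E K (C (i : K)) = (mkDerivation K fun k : ℕ => (k : K) • (X k : Lam K)) (C (i : K)) := rfl
        have h' : (C (i : K) : Lam K) = algebraMap K (Lam K) i := rfl
        rw [h, h', Derivation.map_algebraMap]
      rw [this, mul_zero, add_zero]
    rw [e2, Tr_ZZ_uu, bD1, bT1]
    have e3 : ∑ c ∈ Finset.Ico 1 i, ∑ d ∈ Finset.Ico 1 (i - c),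
        C (c : K) * (X c * X d * X (i - c - d))
        = C ((i : K) / 3) * tri K (fun c d e => X c * X d * X e) i := by
      have h4 := tri_weight (K := K) i
      have h5 : (C (3 : K)⁻¹ : Lam K) * 3 = 1 := by
        have : (3 : Lam K) = C 3 := (map_ofNat (C : K →+* Lam K) 3).symm
        rw [this, ← C_mul, inv_mul_cancel₀ h3, C_1]
      have h6 : ∑ c ∈ Finset.Ico 1 i, ∑ d ∈ Finset.Ico 1 (i - c),
          C (c : K) * (X c * X d * X (i - c - d))
          = tri K (fun c d e => C (c : K) * (X c * X d * X e)) i := rfl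
      rw [h6]
      calc tri K (fun c d e => C (c : K) * (X c * X d * X e)) i
          = (C (3 : K)⁻¹ * 3) * tri K (fun c d e => C (c : K) * (X c * X d * X e)) i := by
            rw [h5, one_mul]
        _ = C (3 : K)⁻¹ * (C (i : K) * tri K (fun c d e => X c * X d * X e) i) := by
            rw [mul_assoc, h4]
        _ = C ((i : K) / 3) * tri K (fun c d e => X c * X d * X e) i := by
            rw [CC]
            congr 2
            ring
    have e4 : sg K i * C (i : K) = C 2 * ∑ a ∈ Finset.Ico 1 i, C (a : K) * (X a * X (i - a) : Lam K) := by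
      rw [mul_comm, ← sg_weight]
      congr 1
    rw [e3]
    set s1 : Lam K := ∑ a ∈ Finset.Ico 1 i, C (a : K) * (X a * X (i - a) : Lam K) with hs1
    set t1 : Lam K := tri K (fun c d e => X c * X d * X e) i with ht1
    rw [choose_two_cast, choose_three_cast]
    have e5 : (C ((al - 1) * (i : K)) * sg K i : Lam K) = C (2 * (al - 1)) * s1 := by
      rw [C_mul, mul_assoc, mul_comm (C (i : K)), e4, CC]
      congr 2
      ring
    rw [e5]
    simp only [smul_eq_C_mul]
    have e6 : (C (3 : K)⁻¹ * (C al⁻¹ * (C (al * (i : K)) * (C ((al - 1) ^ 2 * i * i + al * i * (i - 1) / 2)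
        * X i + C (2 * (al - 1)) * s1 + C (al - 1) * s1 + t1))
        - C (6 * (al - 1)) * (s1 + C ((al - 1) * ((i : K) * (i - 1) / 2)) * X i)
        - C al * (C ((i : K) * i) * X i - C (i : K) * X i) - C ((al - 1) ^ 2) * (C (i : K) * X i)) : Lam K)
        = C ((3 : K)⁻¹ * (al⁻¹ * (al * i) * ((al - 1) ^ 2 * i * i + al * i * (i - 1) / 2)
            - 6 * (al - 1) * ((al - 1) * ((i : K) * (i - 1) / 2)) - al * (i * i - i)
            - (al - 1) ^ 2 * i)) * X i
          + C ((3 : K)⁻¹ * (al⁻¹ * (al * i) * (3 * (al - 1)) - 6 * (al - 1))) * s1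
          + C ((3 : K)⁻¹ * (al⁻¹ * (al * i))) * t1 := by
      simp only [C_mul, C_add, C_sub]
      have : (C (3 : K) : Lam K) = 2 + 1 := by
        rw [show (3 : K) = 2 + 1 by norm_num, C_add, C_1]
        congr 1
      have h2' : (C (2 : K) : Lam K) = 2 := map_ofNat (C : K →+* Lam K) 2
      rw [this, h2']
      ring
    rw [e6]
    have f1 : (3 : K)⁻¹ * (al⁻¹ * (al * i) * ((al - 1) ^ 2 * i * i + al * i * (i - 1) / 2)
            - 6 * (al - 1) * ((al - 1) * ((i : K) * (i - 1) / 2)) - al * (i * i - i)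
            - (al - 1) ^ 2 * i) = (al + 2 * (al - 1) ^ 2) * (i * (i - 1) * (i - 2) / 6) := by
      field_simp
      ring
    have f2 : (3 : K)⁻¹ * (al⁻¹ * (al * i) * (3 * (al - 1)) - 6 * (al - 1))
        = (al - 1) * ((i : K) - 2) := by
      field_simp
      ring
    have f3 : (3 : K)⁻¹ * (al⁻¹ * (al * i)) = (i : K) / 3 := by
      field_simp
    rw [f1, f2, f3]
    ring
  · intro i j
    rw [comm2_K3 hal]
    rcases Nat.eq_zero_or_pos i with hi | hi
    · subst hi
      have e0 : uu al 0 = (0 : LW K) := by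
        unfold uu
        simp
      rw [ad_pow3_2, e0]
      have e1 : (Lw (0 : LW K)) = 0 := by
        apply LinearMap.ext
        intro g
        rw [Lw_apply, zero_mul]
        rfl
      simp [e1, bT2, bD2]
    rcases Nat.eq_zero_or_pos j with hj | hj
    · subst hj
      have e0 : uu al 0 = (0 : LW K) := by
        unfold uu
        simp
      rw [ad_pow3_2, e0]
      have e1 : (Lw (0 : LW K)) = 0 := by
        apply LinearMap.ext
        intro g
        rw [Lw_apply, zero_mul]
        rfl
      simp [e1, bT2, bD2]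
    have e1 : (Tr ∘ₗ (ad j (ad i ((Z al) ^ 3))) ∘ₗ cW) (1 : Lam K)
        = Tr (uu al i * Z al (uu al j)) + Tr (uu al j * Z al (uu al i))
          + C 2 * Tr (Z al (uu al i * uu al j)) := by
      rw [ad_pow3_2]
      simp only [LinearMap.comp_apply, hc1, LinearMap.add_apply, LinearMap.smul_apply,
        Module.End.mul_apply, Z_one, map_zero, smul_zero, zero_add, Lw_apply, mul_zero, map_add,
        map_smul, smul_eq_C_mul]
      rw [Polynomial.C_1, mul_one, mul_one, mul_one]
    rw [LinearMap.smul_apply, LinearMap.sub_apply, LinearMap.smul_apply, e1, Tr_uZu al i j hi,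
      Tr_uZu al j i hj, Tr_Zuu al i j hi, sg_split i j hi hj, LinearMap.mulLeft_apply, mul_one,
      bT2, qT2, bD2, add_comm j i]
    set P : Lam K := ∑ a ∈ Finset.Ico 1 i, X a * X (i + j - a) with hP
    set Q : Lam K := ∑ a ∈ Finset.Ico 1 j, X a * X (i + j - a) with hQ
    simp only [smul_eq_C_mul]
    have h2' : (C (2 : K) : Lam K) = 2 := map_ofNat (C : K →+* Lam K) 2
    have e6 : (C (3 : K)⁻¹ * (C al⁻¹ * (C (al * i * (al * j)) * (C ((al - 1) * (j : K)) * X (i + j) + Q)
        + C (al * j * (al * i)) * (C ((al - 1) * (i : K)) * X (i + j) + P)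
        + C 2 * (C (al * i * (al * j)) * (C ((al - 1) * ((i : K) + j)) * X (i + j)
          + (P + Q + X i * X j))))
        - (C (6 * (al - 1)) * (C (al * i * j) * X (i + j)) + C (2 * al * i * j) * (X i * X j))) : Lam K)
        = C ((3 : K)⁻¹ * (al⁻¹ * (al * i * (al * j)) * ((al - 1) * (3 * (i + j)))
            - 6 * (al - 1) * (al * i * j))) * X (i + j)
          + C ((3 : K)⁻¹ * (al⁻¹ * (al * i * (al * j)) * 3)) * (P + Q)
          + C ((3 : K)⁻¹ * (al⁻¹ * (al * i * (al * j)) * 2 - 2 * al * i * j)) * (X i * X j) := by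
      simp only [C_mul, C_add, C_sub]
      have : (C (3 : K) : Lam K) = 2 + 1 := by
        rw [show (3 : K) = 2 + 1 by norm_num, C_add, C_1]
        congr 1
      rw [this, h2']
      ring
    rw [e6]
    have f1 : (3 : K)⁻¹ * (al⁻¹ * (al * i * (al * j)) * ((al - 1) * (3 * (i + j)))
            - 6 * (al - 1) * (al * i * j)) = al * i * j * ((al - 1) * ((i : K) + j - 2)) := by
      field_simp
      ring
    have f2 : (3 : K)⁻¹ * (al⁻¹ * (al * i * (al * j)) * 3) = al * i * j := by
      field_simp
    have f3 : (3 : K)⁻¹ * (al⁻¹ * (al * i * (al * j)) * 2 - 2 * al * i * j) = 0 := by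
      field_simp
      ring
    rw [f1, f2, f3, C_0, zero_mul, add_zero, C_mul (a := al * i * j)]
    ring
  · intro i j k
    rw [comm3_K3 hal, LinearMap.mulLeft_apply, mul_one]
  · intro i j k l
    rw [comm3_K3 hal, comm_mulLeft]

end

end Pool.Agent.MJR
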