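import Pool.Agent.MJR.Basic
import Pool.Agent.MJR.St

/-!
The operators `H` are self-adjoint.
-/

namespace Pool.Agent.MJR

open MvPolynomial
open scoped Nat

noncomputable section

namespace FormM

variable {K : Type} [Field K]

/-- the weight of a monomial -/
def W (al : K) (m : ℕ →₀ ℕ) : K := m.prod fun i k => (al * i) ^ k * (k ! : K)

lemma W_add_single (al : K) (m : ℕ →₀ ℕ) (k : ℕ) :
    W al (m + Finsupp.single k 1) = W al m * (al * k) * (m k + 1) := by
  classical
  have h0 : ∀ (m : ℕ →₀ ℕ) (s : Finset ℕ), m.support ⊆ s →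
      W al m = ∏ i ∈ s, (al * i) ^ (m i) * ((m i) ! : K) := by
    intro m s hs
    unfold W
    rw [Finsupp.prod_of_support_subset _ hs]
    intro i _
    simp
  have h1 := h0 (m + Finsupp.single k 1) (insert k m.support) (by
    intro i hi
    rw [Finsupp.mem_support_iff, Finsupp.add_apply] at hi
    rw [Finset.mem_insert, Finsupp.mem_support_iff]
    by_cases hik : i = k
    · exact Or.inl hik
    · right
      intro h
      apply hi
      rw [h, Finsupp.single_apply, if_neg (fun h => hik h.symm), add_zero])
  have h2 := h0 m (insert k m.support) (Finset.subset_insert _ _)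
  rw [h1, h2, ← Finset.mul_prod_erase _ _ (Finset.mem_insert_self k m.support),
    ← Finset.mul_prod_erase _ (fun i => (al * i) ^ (m i) * ((m i) ! : K))
      (Finset.mem_insert_self k m.support)]
  have h3 : ∏ x ∈ (insert k m.support).erase k,
      (al * (x : K)) ^ ((m + Finsupp.single k 1 : ℕ →₀ ℕ) x) *
        (((m + Finsupp.single k 1 : ℕ →₀ ℕ) x) ! : K) =
      ∏ x ∈ (insert k m.support).erase k, (al * (x : K)) ^ (m x) * ((m x) ! : K) := by
    refine Finset.prod_congr rfl fun x hx => ?_
    have hxk : x ≠ k := Finset.ne_of_mem_erase hx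
    rw [Finsupp.add_apply, Finsupp.single_apply, if_neg (fun h => hxk h.symm), add_zero]
  rw [h3, Finsupp.add_apply, Finsupp.single_eq_same, pow_succ, Nat.factorial_succ]
  push_cast
  ring

/-- the form on `Lam` -/
def B (al : K) : Lam K →ₗ[K] Lam K →ₗ[K] K :=
  (basisMonomials ℕ K).constr K fun m => W al m • lcoeff K m

lemma B_monomial (al : K) (m : ℕ →₀ ℕ) (g : Lam K) :
    B al (monomial m 1) g = W al m * coeff m g := by
  have h : B al (basisMonomials ℕ K m) = W al m • lcoeff K m :=
    (basisMonomials ℕ K).constr_basis K _ m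
  rw [coe_basisMonomials] at h
  rw [h]
  rfl

lemma B_symm (al : K) (f g : Lam K) : B al f g = B al g f := by
  classical
  have h : B al = (B al).flip := by
    refine (basisMonomials ℕ K).ext fun m => (basisMonomials ℕ K).ext fun m' => ?_
    rw [LinearMap.flip_apply, coe_basisMonomials, B_monomial, B_monomial, coeff_monomial,
      coeff_monomial]
    by_cases hm : m = m'
    · subst hm
      rfl
    · rw [if_neg hm, if_neg (fun h => hm h.symm), mul_zero, mul_zero]
  conv_lhs => rw [h]
  rfl

lemma B_X_mul (al : K) (k : ℕ) (f g : Lam K) :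
    B al (X k * f) g = B al f (C (al * k) * pderiv k g) := by
  have h : B al ∘ₗ LinearMap.mulLeft K (X k : Lam K) =
      (B al).compl₂ (LinearMap.mulLeft K (C (al * k) : Lam K) ∘ₗ
        (pderiv k : Derivation K (Lam K) (Lam K)).toLinearMap) := by
    refine (basisMonomials ℕ K).ext fun m => LinearMap.ext fun g => ?_
    rw [coe_basisMonomials, LinearMap.comp_apply, LinearMap.mulLeft_apply,
      LinearMap.compl₂_apply, LinearMap.comp_apply, LinearMap.mulLeft_apply, X, monomial_mul,
      one_mul, add_comm (Finsupp.single k 1) m, B_monomial, B_monomial, coeff_C_mul,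
      W_add_single]
    have h1 : coeff m ((pderiv k : Derivation K (Lam K) (Lam K)).toLinearMap g) =
        coeff (m + Finsupp.single k 1) g * (m k + 1) := coeff_pderiv g m
    rw [h1]
    ring
  exact LinearMap.congr_fun (LinearMap.congr_fun h f) g

lemma coeff_U (al : K) (j : ℕ) (f : Lam K) : (U al f).coeff j = C (al * j) * pderiv j f := by
  classical
  induction f using MvPolynomial.induction_on with
  | C c => rw [U_C, pderiv_C, Polynomial.coeff_zero, mul_zero]
  | add p q hp hq => rw [map_add, Polynomial.coeff_add, hp, hq, map_add, mul_add]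
  | mul_X p k hp =>
    rw [U_mul, Polynomial.coeff_add, Polynomial.coeff_C_mul, Polynomial.coeff_C_mul, hp,
      pderiv_mul, pderiv_X, U_X, Polynomial.coeff_monomial]
    by_cases hkj : k = j
    · subst hkj
      rw [if_pos rfl, Pi.single_eq_same]
      ring
    · rw [if_neg hkj, Pi.single_eq_of_ne (fun h => hkj h)]
      ring

/-- the form on `LW` -/
def BW (al : K) : LW K →ₗ[K] LW K →ₗ[K] K :=
  Polynomial.lsum fun j =>
    (B al).compl₂ ((Polynomial.lcoeff (Lam K) j).restrictScalars K)

lemma BW_monomial (al : K) (j : ℕ) (f : Lam K) (G : LW K) :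
    BW al (Polynomial.monomial j f) G = B al f (G.coeff j) := by
  unfold BW
  rw [Polynomial.lsum_apply, Polynomial.sum_monomial_index]
  · rfl
  · exact map_zero _

lemma BW_symm (al : K) (F G : LW K) : BW al F G = BW al G F := by
  induction F using Polynomial.induction_on' with
  | add p q hp hq => rw [map_add, LinearMap.add_apply, hp, hq, map_add]
  | monomial j f =>
    induction G using Polynomial.induction_on' with
    | add p q hp hq => rw [map_add, hp, hq, map_add, LinearMap.add_apply]
    | monomial l g =>
      rw [BW_monomial, BW_monomial, Polynomial.coeff_monomial, Polynomial.coeff_monomial]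
      by_cases h : l = j
      · subst h
        rw [if_pos rfl, if_pos rfl, B_symm]
      · rw [if_neg h, if_neg (fun h' => h h'.symm), map_zero, map_zero]

/-- `Tr` is adjoint to `U`. -/
lemma B_Tr (al : K) (F : LW K) (g : Lam K) : B al (Tr F) g = BW al F (U al g) := by
  induction F using Polynomial.induction_on' with
  | add p q hp hq => rw [map_add, map_add, LinearMap.add_apply, hp, hq, map_add,
      LinearMap.add_apply]
  | monomial j f =>
    rw [BW_monomial, coeff_U]
    rcases eq_or_ne j 0 with rfl | hj
    · rw [Polynomial.monomial_zero_left, Tr_C]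
      simp
    · rw [Tr_monomial j hj, B_X_mul]

lemma coeff_Z_monomial (al : K) (j l : ℕ) (f : Lam K) :
    (Z al (Polynomial.monomial j f)).coeff l =
      if l = j then C ((al - 1) * j) * f else if j < l then C (al * ((l - j : ℕ) : K)) *
        pderiv (l - j) f else if 1 ≤ l then X (j - l) * f else 0 := by
  classical
  rw [Z_monomial, Polynomial.coeff_add, Polynomial.coeff_add, Polynomial.coeff_monomial,
    Polynomial.coeff_X_pow_mul', Polynomial.finset_sum_coeff]
  simp only [Polynomial.coeff_monomial]
  rw [Finset.sum_ite_eq' (Finset.Ico 1 j) l (fun a => X (j - a) * f)]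
  rcases lt_trichotomy l j with h | h | h
  · rw [if_neg h.ne', if_neg (by omega : ¬ j ≤ l), if_neg h.ne, if_neg (by omega : ¬ j < l)]
    by_cases h1 : 1 ≤ l
    · rw [if_pos h1, if_pos (Finset.mem_Ico.2 ⟨h1, h⟩)]
      ring
    · rw [if_neg h1, if_neg (fun h2 => h1 (Finset.mem_Ico.1 h2).1)]
      ring
  · subst h
    rw [if_pos rfl, if_pos le_rfl, if_pos rfl, Nat.sub_self, coeff_U,
      if_neg (fun h2 => absurd (Finset.mem_Ico.1 h2).2 (lt_irrefl _))]
    simp
  · rw [if_neg h.ne, if_pos h.le, if_neg h.ne', if_pos h, coeff_U,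
      if_neg (fun h2 => absurd (Finset.mem_Ico.1 h2).2 (by omega))]
    ring

lemma B_zero_left (al : K) (g : Lam K) : B al 0 g = 0 := by
  rw [map_zero, LinearMap.zero_apply]

lemma BW_Z_monomial (al : K) (j l : ℕ) (hj : 1 ≤ j) (hl : 1 ≤ l) (f g : Lam K) :
    BW al (Z al (Polynomial.monomial j f)) (Polynomial.monomial l g) =
      BW al (Polynomial.monomial j f) (Z al (Polynomial.monomial l g)) := by
  rw [BW_symm, BW_monomial, BW_monomial, coeff_Z_monomial, coeff_Z_monomial]
  rcases lt_trichotomy l j with h | h | h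
  · rw [if_neg h.ne, if_neg (by omega), if_pos hl, if_neg h.ne', if_pos h, B_symm, B_X_mul]
  · subst h
    rw [if_pos rfl, if_pos rfl, ← smul_eq_C_mul, ← smul_eq_C_mul, map_smul, map_smul, B_symm]
  · rw [if_neg h.ne', if_pos h, if_neg h.ne, if_neg (by omega), if_pos hj, ← B_X_mul, B_symm]

/-- the positive elements -/
def P (K : Type) [Field K] : Submodule K (LW K) :=
  Submodule.span K {G | ∃ (j : ℕ) (f : Lam K), 1 ≤ j ∧ G = Polynomial.monomial j f}

lemma mem_P {G : LW K} : G ∈ P K ↔ G.coeff 0 = 0 := by
  constructor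
  · intro h
    induction h using Submodule.span_induction with
    | mem G hG =>
      obtain ⟨j, f, hj, rfl⟩ := hG
      rw [Polynomial.coeff_monomial, if_neg (by omega)]
    | zero => exact Polynomial.coeff_zero 0
    | add a b _ _ ha hb => rw [Polynomial.coeff_add, ha, hb, add_zero]
    | smul c a _ ha => rw [Polynomial.coeff_smul, ha, smul_zero]
  · intro h
    rw [← Polynomial.sum_monomial_eq G, Polynomial.sum_def]
    refine Submodule.sum_mem _ fun j hj => ?_
    refine Submodule.subset_span ⟨j, _, ?_, rfl⟩
    rcases Nat.eq_zero_or_pos j with h0 | h0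
    · subst h0
      exact absurd h (Polynomial.mem_support_iff.1 hj)
    · exact h0

lemma Z_mem (al : K) {F : LW K} (hF : F ∈ P K) : Z al F ∈ P K := by
  induction hF using Submodule.span_induction with
  | mem G hG =>
    obtain ⟨j, f, hj, rfl⟩ := hG
    rw [mem_P, coeff_Z_monomial, if_neg (by omega), if_neg (by omega), if_neg (by omega)]
  | zero => rw [map_zero]; exact Submodule.zero_mem _
  | add a b _ _ ha hb => rw [map_add]; exact Submodule.add_mem _ ha hb
  | smul c a _ ha => rw [map_smul]; exact Submodule.smul_mem _ _ ha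

lemma U_mem (al : K) (f : Lam K) : U al f ∈ P K := by
  rw [mem_P, coeff_U]
  simp

/-- `Z` is symmetric. -/
lemma BW_Z (al : K) {F G : LW K} (hF : F ∈ P K) (hG : G ∈ P K) :
    BW al (Z al F) G = BW al F (Z al G) := by
  induction hF using Submodule.span_induction with
  | mem F hF =>
    obtain ⟨j, f, hj, rfl⟩ := hF
    induction hG using Submodule.span_induction with
    | mem G hG =>
      obtain ⟨l, g, hl, rfl⟩ := hG
      exact BW_Z_monomial al j l hj hl f g
    | zero => simp only [map_zero]
    | add a b _ _ ha hb => rw [map_add, ha, hb, map_add, map_add]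
    | smul c a _ ha => rw [map_smul, ha, map_smul, map_smul]
  | zero => simp only [map_zero, LinearMap.zero_apply]
  | add a b _ _ ha hb =>
    rw [map_add, map_add, LinearMap.add_apply, ha, hb, map_add, LinearMap.add_apply]
  | smul c a _ ha =>
    rw [map_smul, map_smul, LinearMap.smul_apply, ha, map_smul, LinearMap.smul_apply]

lemma BW_Z_pow (al : K) (r : ℕ) {F G : LW K} (hF : F ∈ P K) (hG : G ∈ P K) :
    (Z al ^ r) F ∈ P K ∧ BW al ((Z al ^ r) F) G = BW al F ((Z al ^ r) G) := by
  induction r generalizing F G with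
  | zero => exact ⟨hF, rfl⟩
  | succ r ih =>
    refine ⟨?_, ?_⟩
    · rw [pow_succ, Module.End.mul_apply]
      exact (ih (Z_mem al hF) hG).1
    · rw [pow_succ, Module.End.mul_apply, (ih (Z_mem al hF) hG).2,
        BW_Z al hF (ih hG hG).1, ← Module.End.mul_apply, ← pow_succ', pow_succ]

theorem B_H (al : K) (r : ℕ) (f g : Lam K) : B al (H al r f) g = B al f (H al r g) := by
  rw [H_succ_apply, B_Tr, (BW_Z_pow al r (U_mem al f) (U_mem al g)).2, BW_symm, ← B_Tr,
    ← H_succ_apply, B_symm]

lemma W_expo (al : K) {n : ℕ} (r : n.Partition) : W al (expo r) = wtp al r := by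
  classical
  unfold W wtp expo zed
  rw [← Multiset.toFinset_sum_count_eq, ← Finset.prod_pow_eq_pow_sum, Nat.cast_prod,
    ← Finset.prod_mul_distrib, Finsupp.prod]
  refine Finset.prod_congr ?_ fun i _ => ?_
  · exact Multiset.toFinsupp_support _
  · rw [Multiset.toFinsupp_apply]
    push_cast
    ring

end FormM

open FormM in
theorem formM (K : Type) [Field K] (al : K) : FormSt K al := by
  intro r n p q
  rw [← W_expo, ← W_expo, ← B_monomial, ← B_monomial, ← pp_eq_monomial, ← pp_eq_monomial,
    ← B_H, B_symm]

end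

end Pool.Agent.MJR
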