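import Pool.Agent.MJR.Basic
import Pool.Agent.MJR.St

/-!
The operators `H` preserve the span of the `p_r` with `r` a partition of `n`.
-/

namespace Pool.Agent.MJR

open MvPolynomial
open scoped Nat

noncomputable section

namespace GradeM

variable {K : Type} [Field K]

/-- the product of the power sums of the elements of `s` -/
def mon (K : Type) [Field K] (s : Multiset ℕ) : Lam K := (s.map fun k => (X k : Lam K)).prod

lemma mon_cons (k : ℕ) (s : Multiset ℕ) : mon K (k ::ₘ s) = X k * mon K s := by
  unfold mon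
  rw [Multiset.map_cons, Multiset.prod_cons]

lemma mon_zero : mon K 0 = 1 := by
  unfold mon
  simp

/-- the elements of weight `n` -/
def S (K : Type) [Field K] (n : ℕ) : Submodule K (Lam K) :=
  Submodule.span K {f | ∃ s : Multiset ℕ, 0 ∉ s ∧ s.sum = n ∧ f = mon K s}

/-- the elements of weight `n` -/
def T (K : Type) [Field K] (n : ℕ) : Submodule K (LW K) :=
  Submodule.span K {G | ∃ (j : ℕ) (s : Multiset ℕ), 0 ∉ s ∧ j + s.sum = n ∧
    G = Polynomial.monomial j (mon K s)}

lemma mem_S {n : ℕ} {s : Multiset ℕ} (h0 : 0 ∉ s) (hs : s.sum = n) : mon K s ∈ S K n :=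
  Submodule.subset_span ⟨s, h0, hs, rfl⟩

lemma mem_T {n j : ℕ} {s : Multiset ℕ} (h0 : 0 ∉ s) (hs : j + s.sum = n) :
    (Polynomial.monomial j (mon K s) : LW K) ∈ T K n :=
  Submodule.subset_span ⟨j, s, h0, hs, rfl⟩

lemma mulX_T {k m n : ℕ} (hk : k ≠ 0) (hn : m + k = n) {G : LW K} (hG : G ∈ T K m) :
    Polynomial.C (X k) * G ∈ T K n := by
  induction hG using Submodule.span_induction with
  | mem G hG =>
    obtain ⟨j, s, h0, hs, rfl⟩ := hG
    rw [Polynomial.C_mul_monomial, ← mon_cons]
    refine mem_T ?_ ?_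
    · rw [Multiset.mem_cons]
      rintro (h | h)
      · exact hk h.symm
      · exact h0 h
    · rw [Multiset.sum_cons]
      omega
  | zero => rw [mul_zero]; exact Submodule.zero_mem _
  | add a b _ _ ha hb => rw [mul_add]; exact Submodule.add_mem _ ha hb
  | smul c a _ ha => rw [mul_smul_comm]; exact Submodule.smul_mem _ _ ha

lemma mulw_T {j m n : ℕ} (hn : m + j = n) {G : LW K} (hG : G ∈ T K m) :
    Polynomial.X ^ j * G ∈ T K n := by
  induction hG using Submodule.span_induction with
  | mem G hG =>
    obtain ⟨i, s, h0, hs, rfl⟩ := hG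
    have h1 : (Polynomial.X ^ j * Polynomial.monomial i (mon K s) : LW K) =
        Polynomial.monomial (i + j) (mon K s) := by
      rw [Polynomial.X_pow_mul_monomial]
    rw [h1]
    refine mem_T h0 ?_
    omega
  | zero => rw [mul_zero]; exact Submodule.zero_mem _
  | add a b _ _ ha hb => rw [mul_add]; exact Submodule.add_mem _ ha hb
  | smul c a _ ha => rw [mul_smul_comm]; exact Submodule.smul_mem _ _ ha

lemma mulC_T {n : ℕ} (c : K) {G : LW K} (hG : G ∈ T K n) :
    Polynomial.C (C c) * G ∈ T K n := by
  have h : Polynomial.C (C c) * G = c • G := by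
    rw [← Polynomial.smul_eq_C_mul, ← algebraMap_eq, algebraMap_smul]
  rw [h]
  exact Submodule.smul_mem _ _ hG

lemma U_mon (al : K) (s : Multiset ℕ) (h0 : 0 ∉ s) : U al (mon K s) ∈ T K s.sum := by
  induction s using Multiset.induction_on with
  | empty => rw [mon_zero, U_one]; exact Submodule.zero_mem _
  | cons k s ih =>
    rw [Multiset.mem_cons, not_or] at h0
    have hk : k ≠ 0 := fun h => h0.1 h.symm
    rw [mon_cons, U_mul, U_X]
    refine Submodule.add_mem _ (mulX_T hk ?_ (ih h0.2)) ?_
    · rw [Multiset.sum_cons]; omega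
    · have h1 : Polynomial.C (mon K s) * Polynomial.monomial k (C (al * (k : K))) =
          Polynomial.C (C (al * (k : K))) * Polynomial.monomial k (mon K s) := by
        rw [Polynomial.C_mul_monomial, Polynomial.C_mul_monomial, mul_comm]
      rw [h1]
      refine mulC_T _ (mem_T h0.2 ?_)
      rw [Multiset.sum_cons]

lemma Z_T (al : K) {n : ℕ} {G : LW K} (hG : G ∈ T K n) : Z al G ∈ T K n := by
  induction hG using Submodule.span_induction with
  | mem G hG =>
    obtain ⟨j, s, h0, hs, rfl⟩ := hG
    rw [Z_monomial]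
    refine Submodule.add_mem _ (Submodule.add_mem _ ?_ ?_) ?_
    · rw [← Polynomial.C_mul_monomial]
      exact mulC_T _ (mem_T h0 hs)
    · exact mulw_T (by omega) (U_mon al s h0)
    · refine Submodule.sum_mem _ fun a ha => ?_
      rw [Finset.mem_Ico] at ha
      rw [← mon_cons]
      refine mem_T ?_ ?_
      · rw [Multiset.mem_cons]
        rintro (h | h)
        · omega
        · exact h0 h
      · rw [Multiset.sum_cons]
        omega
  | zero => rw [map_zero]; exact Submodule.zero_mem _
  | add a b _ _ ha hb => rw [map_add]; exact Submodule.add_mem _ ha hb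
  | smul c a _ ha => rw [map_smul]; exact Submodule.smul_mem _ _ ha

lemma Zpow_T (al : K) {n : ℕ} (r : ℕ) {G : LW K} (hG : G ∈ T K n) : (Z al ^ r) G ∈ T K n := by
  induction r with
  | zero => rw [pow_zero]; exact hG
  | succ r ih => rw [pow_succ', Module.End.mul_apply]; exact Z_T al ih

lemma Tr_T {n : ℕ} {G : LW K} (hG : G ∈ T K n) : Tr G ∈ S K n := by
  induction hG using Submodule.span_induction with
  | mem G hG =>
    obtain ⟨j, s, h0, hs, rfl⟩ := hG
    rcases eq_or_ne j 0 with rfl | hj
    · rw [Polynomial.monomial_zero_left, Tr_C]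
      exact Submodule.zero_mem _
    · rw [Tr_monomial j hj, ← mon_cons]
      refine mem_S ?_ ?_
      · rw [Multiset.mem_cons]
        rintro (h | h)
        · exact hj h.symm
        · exact h0 h
      · rw [Multiset.sum_cons]
        exact hs
  | zero => rw [map_zero]; exact Submodule.zero_mem _
  | add a b _ _ ha hb => rw [map_add]; exact Submodule.add_mem _ ha hb
  | smul c a _ ha => rw [map_smul]; exact Submodule.smul_mem _ _ ha

lemma C_S {n : ℕ} {f : Lam K} (hf : f ∈ S K n) : (Polynomial.C f : LW K) ∈ T K n := by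
  induction hf using Submodule.span_induction with
  | mem f hf =>
    obtain ⟨s, h0, hs, rfl⟩ := hf
    rw [← Polynomial.monomial_zero_left]
    exact mem_T h0 (by omega)
  | zero => rw [map_zero]; exact Submodule.zero_mem _
  | add a b _ _ ha hb => rw [map_add]; exact Submodule.add_mem _ ha hb
  | smul c a _ ha => rw [← Polynomial.smul_C]; exact Submodule.smul_mem _ _ ha

lemma toL_mem {n : ℕ} (v : n.Partition → K) : toL v ∈ S K n := by
  unfold toL
  refine Submodule.sum_mem _ fun r _ => ?_
  rw [← smul_eq_C_mul]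
  refine Submodule.smul_mem _ _ (mem_S (s := r.parts) ?_ r.parts_sum)
  exact fun h => absurd (r.parts_pos h) (lt_irrefl 0)

lemma exists_toL {n : ℕ} {f : Lam K} (hf : f ∈ S K n) : ∃ v : n.Partition → K, f = toL v := by
  classical
  induction hf using Submodule.span_induction with
  | mem f hf =>
    obtain ⟨s, h0, hs, rfl⟩ := hf
    refine ⟨Pi.single ⟨s, fun {i} hi => Nat.pos_of_ne_zero fun h => h0 (h ▸ hi), hs⟩ 1, ?_⟩
    rw [toL_single]
    rfl
  | zero =>
    refine ⟨0, ?_⟩
    unfold toL
    simp
  | add a b _ _ ha hb =>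
    obtain ⟨u, rfl⟩ := ha
    obtain ⟨v, rfl⟩ := hb
    exact ⟨u + v, (toL_add u v).symm⟩
  | smul c a _ ha =>
    obtain ⟨u, rfl⟩ := ha
    exact ⟨c • u, (toL_smul c u).symm⟩

end GradeM

open GradeM in
theorem gradeM (K : Type) [Field K] (al : K) : GradeSt K al := by
  intro r n v
  refine exists_toL ?_
  rw [H_apply]
  exact Tr_T (Zpow_T al (r + 1) (C_S (toL_mem v)))

end

end Pool.Agent.MJR
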