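import Pool.Agent.MJR.Defs
import Pool.Agent.MJR.GDefs

/-!
Basic rules for the operators.
-/

namespace Pool.Agent.MJR

open MvPolynomial
open scoped Nat

noncomputable section

variable {K : Type} [Field K]

theorem U_X (al : K) (k : ℕ) : U al (X k) = Polynomial.monomial k (C (al * k)) := by
  unfold U
  rw [mkDerivation_X]

theorem U_C (al c : K) : U al (C c) = 0 := by
  have h : (C c : Lam K) = algebraMap K (Lam K) c := rfl
  rw [h, Derivation.map_algebraMap]

theorem U_one (al : K) : U al 1 = 0 := by
  rw [← C_1, U_C]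

theorem U_mul (al : K) (f g : Lam K) :
    U al (f * g) = Polynomial.C f * U al g + Polynomial.C g * U al f := by
  rw [Derivation.leibniz, Polynomial.smul_eq_C_mul, Polynomial.smul_eq_C_mul]

theorem Z_monomial (al : K) (j : ℕ) (f : Lam K) :
    Z al (Polynomial.monomial j f) = Polynomial.monomial j (C ((al - 1) * j) * f) +
        Polynomial.X ^ j * U al f + ∑ a ∈ Finset.Ico 1 j, Polynomial.monomial a (X (j - a) * f) := by
  unfold Z
  rw [Polynomial.lsum_apply, Polynomial.sum_monomial_index]
  · rfl
  · exact map_zero _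

theorem Z_C (al : K) (f : Lam K) : Z al (Polynomial.C f) = U al f := by
  have h := Z_monomial al 0 f
  rw [Polynomial.monomial_zero_left] at h
  rw [h]
  simp

theorem Z_one (al : K) : Z al 1 = 0 := by
  rw [← Polynomial.C_1, Z_C, U_one]

theorem Z_X_pow (al : K) (j : ℕ) :
    Z al (Polynomial.X ^ j) = Polynomial.monomial j (C ((al - 1) * j)) +
      ∑ a ∈ Finset.Ico 1 j, Polynomial.monomial a (X (j - a)) := by
  have h := Z_monomial al j 1
  rw [Polynomial.monomial_one_right_eq_X_pow] at h
  rw [h, U_one]
  simp

theorem Tr_monomial (j : ℕ) (hj : j ≠ 0) (f : Lam K) :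
    Tr (Polynomial.monomial j f) = X j * f := by
  unfold Tr
  rw [Polynomial.lsum_apply, Polynomial.sum_monomial_index]
  · rw [if_neg hj]
    rfl
  · exact map_zero _

theorem Tr_C (f : Lam K) : Tr (Polynomial.C f) = 0 := by
  unfold Tr
  rw [← Polynomial.monomial_zero_left, Polynomial.lsum_apply, Polynomial.sum_monomial_index]
  · rw [if_pos rfl]
    rfl
  · exact map_zero _

theorem Tr_X_pow (j : ℕ) (hj : j ≠ 0) : Tr (Polynomial.X ^ j : LW K) = X j := by
  rw [← Polynomial.monomial_one_right_eq_X_pow, Tr_monomial j hj, mul_one]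

/-- `Tr` is linear over `Lam`. -/
theorem Tr_C_mul (f : Lam K) (G : LW K) : Tr (Polynomial.C f * G) = f * Tr G := by
  induction G using Polynomial.induction_on' with
  | add p q hp hq => rw [mul_add, map_add, hp, hq, map_add, mul_add]
  | monomial j g =>
    rcases eq_or_ne j 0 with rfl | hj
    · rw [Polynomial.monomial_zero_left, ← Polynomial.C_mul, Tr_C, Tr_C, mul_zero]
    · rw [Polynomial.C_mul_monomial, Tr_monomial j hj, Tr_monomial j hj]
      ring

/-- The basic commutation rule `[Z, p_k] = al k w^k`. -/
theorem Z_X_mul (al : K) (k : ℕ) (G : LW K) :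
    Z al (Polynomial.C (X k) * G) =
      Polynomial.C (X k) * Z al G + Polynomial.C (C (al * k)) * Polynomial.X ^ k * G := by
  induction G using Polynomial.induction_on' with
  | add p q hp hq =>
    rw [mul_add, map_add, hp, hq, map_add]
    ring
  | monomial j g =>
    rw [Polynomial.C_mul_monomial, Z_monomial, Z_monomial, U_mul, U_X, mul_add, mul_add,
      Finset.mul_sum]
    have e1 : Polynomial.C (X k : Lam K) * Polynomial.monomial j (C ((al - 1) * (j : K)) * g)
        = Polynomial.monomial j (C ((al - 1) * (j : K)) * (X k * g)) := by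
      rw [Polynomial.C_mul_monomial]
      congr 1
      ring
    have e2 : ∀ a ∈ Finset.Ico 1 j,
        Polynomial.C (X k : Lam K) * Polynomial.monomial a (X (j - a) * g)
        = Polynomial.monomial a (X (j - a) * (X k * g)) := by
      intro a _
      rw [Polynomial.C_mul_monomial]
      congr 1
      ring
    have e3 : Polynomial.X ^ j * (Polynomial.C g * Polynomial.monomial k (C (al * (k : K))))
        = Polynomial.C (C (al * (k : K))) * Polynomial.X ^ k * Polynomial.monomial j g := by
      rw [← Polynomial.C_mul_X_pow_eq_monomial, ← Polynomial.C_mul_X_pow_eq_monomial]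
      ring
    rw [mul_add, e1, Finset.sum_congr rfl e2, e3]
    ring

theorem H_apply (al : K) (r : ℕ) (f : Lam K) :
    H al r f = Tr ((Z al ^ (r + 1)) (Polynomial.C f)) := rfl

theorem H_zero_apply (al : K) (f : Lam K) : H al 0 f = Tr (U al f) := by
  rw [H_apply, zero_add, pow_one, Z_C]

theorem H_succ_apply (al : K) (r : ℕ) (f : Lam K) :
    H al r f = Tr ((Z al ^ r) (U al f)) := by
  rw [H_apply, pow_succ, Module.End.mul_apply, Z_C]

theorem H_one (al : K) (r : ℕ) : H al r 1 = 0 := by
  rw [H_succ_apply, U_one, map_zero, map_zero]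

theorem E_X_mul (k : ℕ) (f : Lam K) :
    E K (X k * f) = X k * E K f + C (k : K) * (X k * f) := by
  change (mkDerivation K fun k : ℕ => (k : K) • (X k : Lam K)) (X k * f) = _
  rw [Derivation.leibniz, mkDerivation_X, smul_eq_mul, smul_eq_mul, smul_eq_C_mul]
  change X k * E K f + f * (C (k : K) * X k) = _
  ring

theorem E_one : E K 1 = 0 := by
  change (mkDerivation K fun k : ℕ => (k : K) • (X k : Lam K)) 1 = _
  exact Derivation.map_one_eq_zero _

/-- `H 0 = al E`. -/
theorem H_zero (al : K) : H al 0 = al • E K := by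
  apply LinearMap.ext
  intro f
  rw [LinearMap.smul_apply]
  induction f using MvPolynomial.induction_on with
  | C c =>
    have h1 : E K (C c : Lam K) = 0 := by
      have : (C c : Lam K) = c • 1 := by rw [smul_eq_C_mul, mul_one]
      rw [this, map_smul, E_one, smul_zero]
    rw [h1, H_zero_apply, U_C, map_zero, smul_zero]
  | add p q hp hq => rw [map_add, hp, hq, map_add, smul_add]
  | mul_X p k hp =>
    rw [mul_comm p, E_X_mul, H_zero_apply, U_mul, map_add, Tr_C_mul, Tr_C_mul, U_X,
      ← H_zero_apply, hp]
    rcases eq_or_ne k 0 with rfl | hk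
    · simp
    · rw [Tr_monomial k hk, smul_add, smul_eq_C_mul, smul_eq_C_mul, C_mul]
      simp only [smul_eq_C_mul]
      ring

theorem comm_apply (O : Lam K →ₗ[K] Lam K) (k : ℕ) (f : Lam K) :
    comm O k f = O (X k * f) - X k * O f := rfl

theorem apply_X_mul (O : Lam K →ₗ[K] Lam K) (k : ℕ) (f : Lam K) :
    O (X k * f) = X k * O f + comm O k f := by
  rw [comm_apply]
  ring

theorem comm_add (O O' : Lam K →ₗ[K] Lam K) (k : ℕ) : comm (O + O') k = comm O k + comm O' k := by
  apply LinearMap.ext
  intro f
  simp only [comm_apply, LinearMap.add_apply]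
  ring

theorem comm_sub (O O' : Lam K →ₗ[K] Lam K) (k : ℕ) : comm (O - O') k = comm O k - comm O' k := by
  apply LinearMap.ext
  intro f
  simp only [comm_apply, LinearMap.sub_apply]
  ring

theorem comm_smul (c : K) (O : Lam K →ₗ[K] Lam K) (k : ℕ) : comm (c • O) k = c • comm O k := by
  apply LinearMap.ext
  intro f
  simp only [comm_apply, LinearMap.smul_apply, smul_eq_C_mul]
  ring

theorem comm_comp (O O' : Lam K →ₗ[K] Lam K) (k : ℕ) :
    comm (O ∘ₗ O') k = O ∘ₗ comm O' k + comm O k ∘ₗ O' := by
  apply LinearMap.ext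
  intro f
  simp only [comm_apply, LinearMap.comp_apply, LinearMap.add_apply, map_sub]
  ring

theorem comm_id (k : ℕ) : comm (LinearMap.id : Lam K →ₗ[K] Lam K) k = 0 := by
  apply LinearMap.ext
  intro f
  simp [comm_apply]

theorem comm_mulLeft (g : Lam K) (k : ℕ) : comm (LinearMap.mulLeft K g) k = 0 := by
  apply LinearMap.ext
  intro f
  simp only [comm_apply, LinearMap.mulLeft_apply, LinearMap.zero_apply]
  ring

/-- The brackets commute. -/
theorem comm_comm (O : Lam K →ₗ[K] Lam K) (i j : ℕ) :
    comm (comm O i) j = comm (comm O j) i := by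
  apply LinearMap.ext
  intro f
  simp only [comm_apply]
  have h : (X i * (X j * f) : Lam K) = X j * (X i * f) := by ring
  rw [h]
  ring

/-- A linear operator commuting with all `p_k` is a multiplication. -/
theorem eq_mulLeft_of_comm (O : Lam K →ₗ[K] Lam K) (h : ∀ k, comm O k = 0) :
    O = LinearMap.mulLeft K (O 1) := by
  apply LinearMap.ext
  intro f
  rw [LinearMap.mulLeft_apply]
  induction f using MvPolynomial.induction_on with
  | C c =>
    have : (C c : Lam K) = c • 1 := by rw [smul_eq_C_mul, mul_one]
    rw [this, map_smul, smul_eq_C_mul, smul_eq_C_mul]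
    ring
  | add p q hp hq => rw [map_add, hp, hq, mul_add]
  | mul_X p k hp =>
    rw [mul_comm p, apply_X_mul, h k, LinearMap.zero_apply, hp]
    ring

/-! ### Positivity -/

theorem mem_PS_iff {σ : Type} (al : K) (f : MvPolynomial σ K) :
    f ∈ PS al ↔ ∀ m, coeff m f ∈ Nb al := Iff.rfl

theorem natCast_mem_Nb (al : K) (n : ℕ) : (n : K) ∈ Nb al := natCast_mem _ n

theorem b_mem_Nb (al : K) : al - 1 ∈ Nb al := by
  refine ⟨Polynomial.X, ?_⟩
  simp

theorem al_mem_Nb (al : K) : al ∈ Nb al := by
  have h : al = (al - 1) + 1 := by ring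
  rw [h]
  exact add_mem (by simpa using b_mem_Nb al) (one_mem _)

theorem C_mem_PS {σ : Type} (al : K) {c : K} (hc : c ∈ Nb al) :
    (C c : MvPolynomial σ K) ∈ PS al := by
  classical
  intro m
  rw [coeff_C]
  split_ifs
  · exact hc
  · exact zero_mem _

theorem X_mem_PS {σ : Type} (al : K) (k : σ) : (X k : MvPolynomial σ K) ∈ PS al := by
  classical
  intro m
  rw [coeff_X]
  split_ifs
  · exact one_mem _
  · exact zero_mem _

/-! ### Coefficient vectors -/

theorem pp_eq_monomial {n : ℕ} (r : n.Partition) : pp K r = monomial (expo r) 1 := by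
  unfold pp expo
  generalize r.parts = s
  induction s using Multiset.induction_on with
  | empty => simp
  | cons a s ih =>
    rw [Multiset.map_cons, Multiset.prod_cons, ih, ← Multiset.singleton_add, map_add,
      Multiset.toFinsupp_singleton]
    rw [X, monomial_mul, one_mul]

theorem expo_injective {n : ℕ} : Function.Injective (expo (n := n)) := by
  intro a b h
  have h2 : a.parts = b.parts := Multiset.toFinsupp.injective h
  exact Nat.Partition.ext h2

theorem coeff_pp {n : ℕ} [DecidableEq n.Partition] (r m : n.Partition) :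
    coeff (expo m) (pp K r) = if r = m then 1 else 0 := by
  classical
  rw [pp_eq_monomial, coeff_monomial]
  by_cases h : r = m
  · rw [if_pos h, if_pos (by rw [h])]
  · rw [if_neg h, if_neg (fun h' => h (expo_injective h'))]

theorem coeff_toL {n : ℕ} (v : n.Partition → K) (m : n.Partition) :
    coeff (expo m) (toL v) = v m := by
  classical
  unfold toL
  rw [coeff_sum, Finset.sum_eq_single m]
  · rw [coeff_C_mul, coeff_pp, if_pos rfl, mul_one]
  · intro r _ hr
    rw [coeff_C_mul, coeff_pp, if_neg hr, mul_zero]
  · intro h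
    exact absurd (Finset.mem_univ m) h

theorem toL_injective {n : ℕ} : Function.Injective (toL (K := K) (n := n)) := by
  intro u v h
  funext m
  rw [← coeff_toL u m, h, coeff_toL]

/-- If `f` is in the span of the `p_r`, it is determined by its coefficients. -/
theorem eq_toL_coeff {n : ℕ} (f : Lam K) (v : n.Partition → K) (h : f = toL v) :
    f = toL (fun m : n.Partition => coeff (expo m) f) := by
  conv_lhs => rw [h]
  congr 1
  funext m
  rw [h, coeff_toL]

theorem toL_add {n : ℕ} (u v : n.Partition → K) : toL (u + v) = toL u + toL v := by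
  unfold toL
  simp only [Pi.add_apply, C_add, add_mul, Finset.sum_add_distrib]

theorem toL_smul {n : ℕ} (c : K) (v : n.Partition → K) : toL (c • v) = c • toL v := by
  unfold toL
  simp only [Pi.smul_apply, smul_eq_mul, C_mul, Finset.smul_sum, smul_eq_C_mul, mul_assoc]

theorem toL_single {n : ℕ} [DecidableEq n.Partition] (r : n.Partition) :
    toL (Pi.single r (1 : K)) = pp K r := by
  unfold toL
  rw [Finset.sum_eq_single r]
  · simp
  · intro q _ hq
    simp [Pi.single_eq_of_ne hq]
  · intro h
    exact absurd (Finset.mem_univ r) h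

theorem E_pp {n : ℕ} (r : n.Partition) : E K (pp K r) = C (n : K) * pp K r := by
  have h : ∀ s : Multiset ℕ, E K (s.map fun k => (X k : Lam K)).prod
      = C ((s.sum : ℕ) : K) * (s.map fun k => (X k : Lam K)).prod := by
    intro s
    induction s using Multiset.induction_on with
    | empty => simp [E_one]
    | cons a s ih =>
      rw [Multiset.map_cons, Multiset.prod_cons, E_X_mul, ih, Multiset.sum_cons, Nat.cast_add,
        C_add]
      ring
  unfold pp
  rw [h, r.parts_sum]

theorem E_toL {n : ℕ} (v : n.Partition → K) : E K (toL v) = C (n : K) * toL v := by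
  unfold toL
  rw [map_sum, Finset.mul_sum]
  refine Finset.sum_congr rfl fun r _ => ?_
  rw [← smul_eq_C_mul, map_smul, E_pp, smul_eq_C_mul, smul_eq_C_mul]
  ring

theorem ix_X (k : ℕ) : ix (X k : Lam K) = X (0, k) := by
  unfold ix
  rw [rename_X]

theorem iy_X (k : ℕ) : iy (X k : Lam K) = X (1, k) := by
  unfold iy
  rw [rename_X]

theorem ix_C (c : K) : ix (C c : Lam K) = C c := by
  unfold ix
  rw [rename_C]

theorem iy_C (c : K) : iy (C c : Lam K) = C c := by
  unfold iy
  rw [rename_C]

end

end Pool.Agent.MJR
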