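import Pool.Agent.MJR.St
import Pool.Agent.MJR.Basic

/-!
The coefficients `h` are in `ℕ[b]` if one of the three partitions has rank at most two.
-/

namespace Pool.Agent.MJR

open MvPolynomial
open scoped Nat

noncomputable section

variable {K : Type} [Field K]

theorem h_mem {al : K} (hEx : ExtrSt K al) (hPos : PosPsiSt K al) (hSym : SymSt K al)
    (hSh : ShapeSt) {J : (n : ℕ) → n.Partition → n.Partition → K} (hJ : ∀ n, IsJack al n (J n))
    {psi : PowerSeries (B3 K)} (hpsi : IsPsi al J psi) {n : ℕ} (hn : 1 ≤ n)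
    (t m v : n.Partition)
    (h : n ≤ t.parts.card + 2 ∨ n ≤ m.parts.card + 2 ∨ n ≤ v.parts.card + 2) :
    hc psi t m v ∈ Nb al := by
  have hv : ∀ t m v : n.Partition, n ≤ v.parts.card + 2 → hc psi t m v ∈ Nb al := by
    intro t m v hv
    obtain ⟨s, hs⟩ := hSh n v hv
    obtain ⟨e0, e1, e2, e3⟩ := hEx J hJ psi hpsi n t m v hn
    obtain ⟨p1, p2, p3⟩ := hPos n hn
    fin_cases s
    · rw [e0 hs]
      exact mul_mem (X_mem_PS al _) (X_mem_PS al _) _
    · rw [e1 hs]
      exact p1 _
    · rw [e2 hs]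
      exact p2 _
    · rw [e3 hs]
      exact p3 _
  have s1 : ∀ t m v : n.Partition, hc psi t m v = hc psi m t v :=
    fun t m v => (hSym J hJ psi hpsi n t m v).1
  have s2 : ∀ t m v : n.Partition, hc psi t m v = hc psi t v m :=
    fun t m v => (hSym J hJ psi hpsi n t m v).2
  rcases h with h | h | h
  · rw [s1 t m v, s2 m t v]
    exact hv m v t h
  · rw [s2 t m v]
    exact hv t v m h
  · exact hv t m v h

end

end Pool.Agent.MJR
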