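import Pool.Agent.MJR.St
import Pool.Agent.MJR.Basic

/-!
The operators `H 0`, `H 1`, `H 2` are triangular.
-/

namespace Pool.Agent.MJR

open MvPolynomial

noncomputable section

namespace HTriM

variable {K : Type} [Field K]

theorem coeff_zero_U (al : K) (f : Lam K) : (U al f).coeff 0 = 0 := by
  induction f using MvPolynomial.induction_on with
  | C c => rw [U_C, Polynomial.coeff_zero]
  | add p q hp hq => rw [map_add, Polynomial.coeff_add, hp, hq, add_zero]
  | mul_X p k hp =>
    rw [U_mul, Polynomial.coeff_add, Polynomial.coeff_C_mul, Polynomial.coeff_C_mul, hp, mul_zero,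
      add_zero, U_X, Polynomial.coeff_monomial]
    rcases eq_or_ne k 0 with rfl | hk
    · simp
    · rw [if_neg hk, mul_zero]

theorem coeff_zero_Z (al : K) (G : LW K) : (Z al G).coeff 0 = 0 := by
  induction G using Polynomial.induction_on' with
  | add p q hp hq => rw [map_add, Polynomial.coeff_add, hp, hq, add_zero]
  | monomial j g =>
    rw [Z_monomial, Polynomial.coeff_add, Polynomial.coeff_add, Polynomial.mul_coeff_zero,
      coeff_zero_U, mul_zero, add_zero, Polynomial.coeff_monomial, Polynomial.finsetSum_coeff]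
    have h1 : (if j = 0 then C ((al - 1) * (j : K)) * g else 0) = 0 := by
      rcases eq_or_ne j 0 with rfl | hj
      · simp
      · rw [if_neg hj]
    have h2 : ∑ a ∈ Finset.Ico 1 j, (Polynomial.monomial a (X (j - a) * g)).coeff 0 = 0 := by
      refine Finset.sum_eq_zero fun a ha => ?_
      have : a ≠ 0 := by
        have := (Finset.mem_Ico.mp ha).1
        omega
      rw [Polynomial.coeff_monomial, if_neg this]
    rw [h1, h2, add_zero]

theorem evi_monomial {n : ℕ} (i : Fin n) (j : ℕ) (g : Lam K) :
    evi K i (Polynomial.monomial j g) = ev K n g * X i ^ j := by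
  unfold evi
  rw [Polynomial.coe_eval₂RingHom, Polynomial.eval₂_monomial]
  rfl

theorem evi_C {n : ℕ} (i : Fin n) (g : Lam K) : evi K i (Polynomial.C g) = ev K n g := by
  rw [← Polynomial.monomial_zero_left, evi_monomial, pow_zero, mul_one]

theorem evi_smul {n : ℕ} (i : Fin n) (c : K) (G : LW K) : evi K i (c • G) = c • evi K i G := by
  have h : c • G = Polynomial.C (C c) * G := by
    rw [← Polynomial.smul_eq_C_mul]
    rw [← algebraMap_eq, algebraMap_smul]
  have h2 : ev K n (C c) = C c := (ev K n).commutes c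
  rw [h, map_mul, evi_C, smul_eq_C_mul, h2]

theorem ev_X (n j : ℕ) : ev K n (X j) = ∑ i : Fin n, X i ^ j := by
  unfold ev
  rw [aeval_X]
  rfl

theorem sum_evi (n : ℕ) (G : LW K) :
    ∑ i : Fin n, evi K i G = ev K n (Tr G) + (n : K) • ev K n (G.coeff 0) := by
  induction G using Polynomial.induction_on' with
  | add p q hp hq =>
    simp only [map_add, Finset.sum_add_distrib, hp, hq, Polynomial.coeff_add, smul_add]
    abel
  | monomial j g =>
    simp only [evi_monomial]
    rw [← Finset.mul_sum, ← ev_X, Polynomial.coeff_monomial]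
    rcases eq_or_ne j 0 with rfl | hj
    · rw [if_pos rfl, Polynomial.monomial_zero_left, Tr_C, map_zero, zero_add, ev_X]
      simp only [pow_zero, Finset.sum_const, Finset.card_univ, Fintype.card_fin, nsmul_eq_mul,
        mul_one]
      rw [smul_eq_C_mul, mul_comm, map_natCast]
    · rw [if_neg hj, map_zero, smul_zero, add_zero, Tr_monomial j hj, map_mul, mul_comm]

/-- The polynomials in `w` without constant coefficient, all of whose evaluations are
dominated by `l`. -/
def Gd (K : Type) [Field K] {n : ℕ} (l : n.Partition) (G : LW K) : Prop :=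
  G.coeff 0 = 0 ∧ ∀ i : Fin n, evi K i G ∈ DomSub K l

theorem gd_Z {al : K} (hI : IntSt K al) (hY : YDomSt K al) {n : ℕ} {l : n.Partition} {G : LW K}
    (hG : Gd K l G) : Gd K l (Z al G) := by
  refine ⟨coeff_zero_Z al G, fun i => ?_⟩
  have h := hI n i G
  rw [hG.1, map_zero, sub_zero, map_add, evi_smul] at h
  have h2 : evi K i (Z al G) = Yop al i (evi K i G) - (n : K) • evi K i G := by
    rw [h, add_sub_cancel_right]
  rw [h2]
  exact Submodule.sub_mem _ (hY n l i _ (hG.2 i)) (Submodule.smul_mem _ _ (hG.2 i))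

theorem gd_Z_C {al : K} (hI : IntSt K al) (hY : YDomSt K al) {n : ℕ} {l : n.Partition} {f : Lam K}
    (hf : ev K n f ∈ DomSub K l) : Gd K l (Z al (Polynomial.C f)) := by
  refine ⟨coeff_zero_Z al _, fun i => ?_⟩
  have h := hI n i (Polynomial.C f)
  rw [Polynomial.coeff_C_zero, sub_self, smul_zero, add_zero, evi_C] at h
  rw [← h]
  exact hY n l i _ hf

theorem gd_pow {al : K} (hI : IntSt K al) (hY : YDomSt K al) {n : ℕ} {l : n.Partition} {f : Lam K}
    (hf : ev K n f ∈ DomSub K l) (r : ℕ) : Gd K l ((Z al ^ (r + 1)) (Polynomial.C f)) := by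
  induction r with
  | zero =>
    rw [zero_add, pow_one]
    exact gd_Z_C hI hY hf
  | succ r ih =>
    rw [pow_succ', Module.End.mul_apply]
    exact gd_Z hI hY ih

end HTriM

open HTriM in
theorem hTriM (K : Type) [Field K] (al : K) (hI : IntSt K al) (hY : YDomSt K al) :
    HTriSt K al := by
  intro n l f hf r _
  have h := gd_pow hI hY hf r
  have h2 := sum_evi n ((Z al ^ (r + 1)) (Polynomial.C f))
  rw [h.1, map_zero, smul_zero, add_zero] at h2
  rw [H_apply, ← h2]
  exact Submodule.sum_mem _ fun i _ => h.2 i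

end

end Pool.Agent.MJR
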