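import Pool.Agent.MJR.St
import Pool.Agent.MJR.Basic

/-!
The Jack functions are eigenvectors of the operators of rank at most two, with eigenvalues
the coefficients of the Jack functions.
-/

namespace Pool.Agent.MJR

open MvPolynomial
open scoped Nat

noncomputable section

variable {K : Type} [Field K]

namespace IdentM

/-! ### The coefficient of `x_1 ... x_n` -/

/-- exponent of a squarefree monomial -/
def ind {n : ℕ} (S : Finset (Fin n)) : Fin n →₀ ℕ :=
  Finsupp.equivFunOnFinite.symm fun i => if i ∈ S then 1 else 0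

theorem ind_apply {n : ℕ} (S : Finset (Fin n)) (i : Fin n) : ind S i = if i ∈ S then 1 else 0 :=
  rfl

theorem pvec_ones (n : ℕ) : pvec (ones n) = ind Finset.univ := by
  apply Finsupp.ext
  intro i
  rw [ind_apply, if_pos (Finset.mem_univ i)]
  change (srt (ones n)).getD i 0 = 1
  have h : srt (ones n) = List.replicate n 1 := by
    unfold srt
    have h1 : (ones n).parts = Multiset.replicate n 1 := rfl
    rw [h1]
    apply List.eq_replicate_iff.mpr
    constructor
    · rw [Multiset.length_sort, Multiset.card_replicate]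
    · intro b hb
      rw [Multiset.mem_sort] at hb
      exact Multiset.eq_of_mem_replicate hb
  rw [h, List.getD_replicate]
  exact i.2

theorem coeff_psum_pow {n : ℕ} (k : ℕ) (S : Finset (Fin n)) (hS : S.card = k) :
    coeff (ind S) ((psum (Fin n) K 1) ^ k) = (k ! : K) := by
  classical
  induction k generalizing S with
  | zero =>
    have h : S = ∅ := Finset.card_eq_zero.mp hS
    have h2 : ind (∅ : Finset (Fin n)) = 0 := by
      apply Finsupp.ext
      intro i
      rw [ind_apply]
      simp
    rw [h, h2, pow_zero, coeff_zero_one]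
    simp
  | succ k ih =>
    rw [pow_succ', psum]
    simp only [pow_one]
    rw [Finset.sum_mul, coeff_sum]
    have h1 : ∀ i ∈ Finset.univ, coeff (ind S) ((X i : RX K n) * (∑ i : Fin n, X i) ^ k)
        = if i ∈ S then (k ! : K) else 0 := by
      intro i _
      rw [coeff_X_mul']
      have h3 : (i ∈ (ind S).support) ↔ i ∈ S := by
        rw [Finsupp.mem_support_iff, ind_apply]
        by_cases h : i ∈ S <;> simp [h]
      by_cases h : i ∈ S
      · rw [if_pos (h3.mpr h), if_pos h]
        have h4 : ind S - Finsupp.single i 1 = ind (S.erase i) := by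
          apply Finsupp.ext
          intro j
          rw [Finsupp.tsub_apply, ind_apply, ind_apply, Finsupp.single_apply]
          by_cases hij : i = j
          · subst hij
            simp [h]
          · simp [hij, Finset.mem_erase, Ne.symm hij]
        rw [h4]
        have h5 := ih (S.erase i) (by rw [Finset.card_erase_of_mem h, hS]; rfl)
        rw [psum] at h5
        simp only [pow_one] at h5
        exact h5
      · rw [if_neg (fun h' => h (h3.mp h')), if_neg h]
    rw [Finset.sum_congr rfl h1, Finset.sum_ite_mem, Finset.univ_inter, Finset.sum_const, hS,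
      Nat.factorial_succ]
    push_cast
    rw [nsmul_eq_mul]
    push_cast
    ring

theorem mc_ones_ones (n : ℕ) : mc K (ones n) (ones n) = (n ! : K) := by
  unfold mc
  have h1 : (ones n).parts = Multiset.replicate n 1 := rfl
  rw [pvec_ones, h1, Multiset.map_replicate, Multiset.prod_replicate]
  exact coeff_psum_pow n Finset.univ (by rw [Finset.card_univ, Fintype.card_fin])

theorem mc_ones_of_ne {n : ℕ} (r : n.Partition) (hr : r ≠ ones n) : mc K r (ones n) = 0 := by
  classical
  have h1 : ∃ k ∈ r.parts, 2 ≤ k := by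
    by_contra hcon
    push Not at hcon
    apply hr
    apply Nat.Partition.ext
    have h2 : ∀ k ∈ r.parts, k = 1 := by
      intro k hk
      have h3 := hcon k hk
      have h4 := r.parts_pos hk
      omega
    have h5 : r.parts = Multiset.replicate (Multiset.card r.parts) 1 :=
      Multiset.eq_replicate_card.mpr h2
    have h6 : Multiset.card r.parts = n := by
      have h7 := r.parts_sum
      rw [h5, Multiset.sum_replicate] at h7
      simpa using h7
    rw [h5, h6]
    rfl
  obtain ⟨k, hk, hk2⟩ := h1
  unfold mc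
  obtain ⟨s, hs⟩ := Multiset.exists_cons_of_mem hk
  rw [hs, Multiset.map_cons, Multiset.prod_cons, psum, Finset.sum_mul, coeff_sum]
  apply Finset.sum_eq_zero
  intro i _
  rw [pvec_ones, X_pow_eq_monomial, coeff_monomial_mul']
  rw [if_neg]
  intro h
  have h2 := h i
  rw [Finsupp.single_eq_same, ind_apply, if_pos (Finset.mem_univ i)] at h2
  omega

theorem J_ones [CharZero K] {al : K} {n : ℕ} {J : n.Partition → n.Partition → K}
    (hJ : IsJack al n J) (l : n.Partition) : J l (ones n) = 1 := by
  classical
  have h := hJ.norm l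
  rw [Finset.sum_eq_single (ones n), mc_ones_ones] at h
  · have h2 : ((n ! : ℕ) : K) ≠ 0 := by
      exact_mod_cast Nat.factorial_ne_zero n
    have h3 : J l (ones n) * ((n ! : ℕ) : K) = 1 * ((n ! : ℕ) : K) := by
      rw [one_mul]
      exact h
    exact mul_right_cancel₀ h2 h3
  · intro r _ hr
    rw [mc_ones_of_ne r hr, mul_zero]
  · intro h
    exact absurd (Finset.mem_univ _) h

/-! ### Self-adjoint operators and eigenvectors -/

/-- preserves the span and is self-adjoint -/
def SA (al : K) (n : ℕ) (T : Lam K →ₗ[K] Lam K) : Prop :=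
  (∀ v : n.Partition → K, ∃ v' : n.Partition → K, T (toL v) = toL v') ∧
  ∀ p q : n.Partition, wtp al q * coeff (expo q) (T (pp K p)) =
    wtp al p * coeff (expo p) (T (pp K q))

theorem SA.add {al : K} {n : ℕ} {S T : Lam K →ₗ[K] Lam K} (hS : SA al n S) (hT : SA al n T) :
    SA al n (S + T) := by
  constructor
  · intro v
    obtain ⟨a, ha⟩ := hS.1 v
    obtain ⟨b, hb⟩ := hT.1 v
    refine ⟨a + b, ?_⟩
    rw [LinearMap.add_apply, ha, hb, toL_add]
  · intro p q
    rw [LinearMap.add_apply, LinearMap.add_apply, coeff_add, coeff_add, mul_add, mul_add,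
      hS.2 p q, hT.2 p q]

theorem SA.smul {al : K} {n : ℕ} {T : Lam K →ₗ[K] Lam K} (c : K) (hT : SA al n T) :
    SA al n (c • T) := by
  constructor
  · intro v
    obtain ⟨b, hb⟩ := hT.1 v
    refine ⟨c • b, ?_⟩
    rw [LinearMap.smul_apply, hb, toL_smul]
  · intro p q
    rw [LinearMap.smul_apply, LinearMap.smul_apply, coeff_smul, coeff_smul, smul_eq_mul,
      smul_eq_mul]
    have h := hT.2 p q
    linear_combination c * h

theorem SA.sub {al : K} {n : ℕ} {S T : Lam K →ₗ[K] Lam K} (hS : SA al n S) (hT : SA al n T) :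
    SA al n (S - T) := by
  have h : S - T = S + (-1 : K) • T := by
    apply LinearMap.ext
    intro f
    rw [LinearMap.sub_apply, LinearMap.add_apply, LinearMap.smul_apply, smul_eq_C_mul, C_neg,
      C_1]
    ring
  rw [h]
  exact hS.add (hT.smul _)

theorem SA.id (al : K) (n : ℕ) : SA al n LinearMap.id := by
  classical
  constructor
  · intro v
    exact ⟨v, rfl⟩
  · intro p q
    rw [LinearMap.id_apply, LinearMap.id_apply, coeff_pp, coeff_pp]
    by_cases h : p = q
    · subst h
      rfl
    · rw [if_neg h, if_neg (Ne.symm h), mul_zero, mul_zero]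

theorem pp_eq_toL {n : ℕ} (p : n.Partition) : ∃ v : n.Partition → K, pp K p = toL v := by
  classical
  exact ⟨Pi.single p 1, (toL_single p).symm⟩

theorem apply_toL {n : ℕ} (T : Lam K →ₗ[K] Lam K) (v : n.Partition → K) (q : n.Partition) :
    coeff (expo q) (T (toL v)) = ∑ s, v s * coeff (expo q) (T (pp K s)) := by
  unfold toL
  rw [map_sum, coeff_sum]
  refine Finset.sum_congr rfl fun s _ => ?_
  rw [← smul_eq_C_mul, map_smul, coeff_smul, smul_eq_mul]

theorem SA.sq {al : K} {n : ℕ} {T : Lam K →ₗ[K] Lam K} (hT : SA al n T) :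
    SA al n (T ∘ₗ T) := by
  constructor
  · intro v
    obtain ⟨b, hb⟩ := hT.1 v
    obtain ⟨c, hc⟩ := hT.1 b
    exact ⟨c, by rw [LinearMap.comp_apply, hb, hc]⟩
  · intro p q
    have key : ∀ p q : n.Partition, coeff (expo q) (T (T (pp K p))) =
        ∑ s : n.Partition, coeff (expo s) (T (pp K p)) * coeff (expo q) (T (pp K s)) := by
      intro p q
      obtain ⟨v, hv⟩ := pp_eq_toL (K := K) p
      obtain ⟨b, hb⟩ := hT.1 v
      rw [hv, hb, apply_toL]
      refine Finset.sum_congr rfl fun s _ => ?_
      rw [coeff_toL]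
    rw [LinearMap.comp_apply, LinearMap.comp_apply, key p q, key q p, Finset.mul_sum,
      Finset.mul_sum]
    refine Finset.sum_congr rfl fun s _ => ?_
    have h1 := hT.2 s q
    have h2 := hT.2 p s
    linear_combination coeff (expo s) (T (pp K p)) * h1 + coeff (expo s) (T (pp K q)) * h2

/-- all `J l` are eigenvectors -/
def Eig {n : ℕ} (J : n.Partition → n.Partition → K) (T : Lam K →ₗ[K] Lam K) : Prop :=
  ∀ l, ∃ k : K, T (toL (J l)) = C k * toL (J l)

theorem Eig.add {n : ℕ} {J : n.Partition → n.Partition → K} {S T : Lam K →ₗ[K] Lam K}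
    (hS : Eig J S) (hT : Eig J T) : Eig J (S + T) := by
  intro l
  obtain ⟨a, ha⟩ := hS l
  obtain ⟨b, hb⟩ := hT l
  exact ⟨a + b, by rw [LinearMap.add_apply, ha, hb, C_add, add_mul]⟩

theorem Eig.smul {n : ℕ} {J : n.Partition → n.Partition → K} {T : Lam K →ₗ[K] Lam K} (c : K)
    (hT : Eig J T) : Eig J (c • T) := by
  intro l
  obtain ⟨b, hb⟩ := hT l
  exact ⟨c * b, by rw [LinearMap.smul_apply, hb, C_mul, smul_eq_C_mul, mul_assoc]⟩

theorem Eig.sub {n : ℕ} {J : n.Partition → n.Partition → K} {S T : Lam K →ₗ[K] Lam K}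
    (hS : Eig J S) (hT : Eig J T) : Eig J (S - T) := by
  have h : S - T = S + (-1 : K) • T := by
    apply LinearMap.ext
    intro f
    rw [LinearMap.sub_apply, LinearMap.add_apply, LinearMap.smul_apply, smul_eq_C_mul, C_neg,
      C_1]
    ring
  rw [h]
  exact hS.add (hT.smul _)

theorem Eig.comp {n : ℕ} {J : n.Partition → n.Partition → K} {S T : Lam K →ₗ[K] Lam K}
    (hS : Eig J S) (hT : Eig J T) : Eig J (S ∘ₗ T) := by
  intro l
  obtain ⟨a, ha⟩ := hS l
  obtain ⟨b, hb⟩ := hT l
  refine ⟨a * b, ?_⟩
  rw [LinearMap.comp_apply, hb, ← smul_eq_C_mul, map_smul, ha, smul_eq_C_mul, C_mul]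
  ring

theorem Eig.id {n : ℕ} (J : n.Partition → n.Partition → K) : Eig J LinearMap.id := by
  intro l
  exact ⟨1, by rw [C_1, one_mul]; rfl⟩

theorem J_ne_zero [CharZero K] {al : K} {n : ℕ} {J : n.Partition → n.Partition → K}
    (hJ : IsJack al n J) (l : n.Partition) : J l ≠ 0 := by
  intro h
  have h1 := J_ones hJ l
  rw [h] at h1
  exact zero_ne_one h1

theorem wtp_ones (al : K) (n : ℕ) : wtp al (ones n) = al ^ n * (n ! : K) := by
  unfold wtp zed
  have h1 : (ones n).parts = Multiset.replicate n 1 := rfl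
  rw [h1, Multiset.card_replicate]
  rcases Nat.eq_zero_or_pos n with rfl | hn
  · simp
  · rw [Multiset.toFinset_replicate, if_neg hn.ne', Finset.prod_singleton,
      Multiset.count_replicate_self]
    simp

theorem wtp_ne_zero [CharZero K] {al : K} (hal : al ≠ 0) {n : ℕ} (r : n.Partition) :
    wtp al r ≠ 0 := by
  unfold wtp
  refine mul_ne_zero (pow_ne_zero _ hal) ?_
  rw [Nat.cast_ne_zero]
  unfold zed
  rw [Finset.prod_ne_zero_iff]
  intro i hi
  refine mul_ne_zero (pow_ne_zero _ ?_) (Nat.factorial_ne_zero _)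
  rw [Multiset.mem_toFinset] at hi
  exact (r.parts_pos hi).ne'

theorem pp_ones (n : ℕ) : pp K (ones n) = X 1 ^ n := by
  unfold pp
  have h1 : (ones n).parts = Multiset.replicate n 1 := rfl
  rw [h1, Multiset.map_replicate, Multiset.prod_replicate]

theorem zed_ne_zero {n : ℕ} (r : n.Partition) : zed r ≠ 0 := by
  unfold zed
  rw [Finset.prod_ne_zero_iff]
  intro i hi
  refine mul_ne_zero (pow_ne_zero _ ?_) (Nat.factorial_ne_zero _)
  rw [Multiset.mem_toFinset] at hi
  exact (r.parts_pos hi).ne'

theorem card_le {n : ℕ} (r : n.Partition) : r.parts.card ≤ n := by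
  have h : ∀ s : Multiset ℕ, (∀ i ∈ s, 0 < i) → s.card ≤ s.sum := by
    intro s
    induction s using Multiset.induction_on with
    | empty => intro _; simp
    | cons a s ih =>
      intro h
      rw [Multiset.card_cons, Multiset.sum_cons]
      have h1 := ih fun i hi => h i (Multiset.mem_cons_of_mem hi)
      have h2 := h a (Multiset.mem_cons_self a s)
      omega
  have h1 := h r.parts fun i hi => r.parts_pos hi
  rwa [r.parts_sum] at h1

end IdentM

open IdentM

theorem ident (K : Type) [Field K] [CharZero K] (al : K) (hal : al ≠ 0) (hA : Aniso K al)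
    (hF : FormSt K al) (hG : GradeSt K al) (hT : HTriSt K al) (hSort : SortSt K)
    (hInj : InjSt K) (hOrd : DomOrdSt) (hLin : LinAlgSt K) (hK : KoneSt K al) :
    IdentSt K al ∧ JInjSt K al := by
  classical
  have main : ∀ (n : ℕ) (J : n.Partition → n.Partition → K), IsJack al n J →
      (∀ v : n.Partition → K, (∀ l, ∑ r, J l r * v r = 0) → v = 0) ∧
      (∀ r : ℕ, r ≤ 2 → Eig J (H al r)) := by
    intro n J hJ
    obtain ⟨o1, o2, o3⟩ := hOrd n
    have h := hLin n.Partition (wtp al) (mc K) Dom J o1 o2 o3 (hA n) (hInj n) hJ.orth hJ.tri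
      (J_ne_zero hJ)
    refine ⟨h.1, ?_⟩
    intro r hr l
    have h2 := h.2 (fun p q => coeff (expo q) (H al r (pp K p))) (fun p q => hF r n p q) ?_ l
    · obtain ⟨k, hk⟩ := h2
      refine ⟨k, ?_⟩
      obtain ⟨v', hv'⟩ := hG r n (J l)
      have h3 : v' = k • J l := by
        funext m
        have h4 := hk m
        have h5 := apply_toL (H al r) (J l) m
        rw [hv', coeff_toL] at h5
        rw [h5, Pi.smul_apply, smul_eq_mul]
        exact h4
      rw [hv', h3, toL_smul, smul_eq_C_mul]
    · intro l v hv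
      have h3 := (hSort n l v).mp hv
      have h4 := hT n l (toL v) h3 r hr
      obtain ⟨v', hv'⟩ := hG r n v
      rw [hv'] at h4
      have h5 := (hSort n l v').mpr h4
      intro m hm
      have h6 := h5 m hm
      have h7 : ∀ q, v' q = ∑ s, v s * coeff (expo q) (H al r (pp K s)) := by
        intro q
        have h8 := apply_toL (H al r) v q
        rw [hv', coeff_toL] at h8
        exact h8
      simp only [h7] at h6
      exact h6
  refine ⟨?_, fun n J hJ => (main n J hJ).1⟩
  intro n J hJ
  have hH := (main n J hJ).2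
  -- all operators are self-adjoint and have the `J l` as eigenvectors
  have sH : ∀ r, SA al n (H al r) := fun r => ⟨hG r n, hF r n⟩
  have hE : E K = al⁻¹ • H al 0 := by
    rw [H_zero, smul_smul, inv_mul_cancel₀ hal, one_smul]
  have sE : SA al n (E K) := by
    rw [hE]
    exact (sH 0).smul _
  have eE : Eig J (E K) := by
    rw [hE]
    exact (hH 0 (by norm_num)).smul _
  have sD : SA al n (Dop al) := ((sH 1).smul _).sub (sE.smul _)
  have eD : Eig J (Dop al) := ((hH 1 (by norm_num)).smul _).sub (eE.smul _)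
  have sEE : SA al n (E K ∘ₗ E K - E K) := sE.sq.sub sE
  have eEE : Eig J (E K ∘ₗ E K - E K) := (eE.comp eE).sub eE
  have s3 : SA al n (K3 al) :=
    (((((sH 2).smul _).sub (sD.smul _)).sub (sEE.smul _)).sub (sE.smul _)).smul _
  have e3 : Eig J (K3 al) :=
    ((((((hH 2 le_rfl).smul _).sub (eD.smul _)).sub (eEE.smul _)).sub (eE.smul _))).smul _
  have s22 : SA al n (K22 al) :=
    ((((sD.sq.sub (s3.smul _)).sub (sD.smul _)).sub (sEE.smul _))).smul _
  have e22 : Eig J (K22 al) :=
    (((((eD.comp eD).sub (e3.smul _)).sub (eD.smul _)).sub (eEE.smul _))).smul _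
  have sK : ∀ s : Fin 4, SA al n (Kop al s) := by
    intro s
    fin_cases s
    · exact SA.id al n
    · exact sD
    · exact s3
    · exact s22
  have eK : ∀ s : Fin 4, Eig J (Kop al s) := by
    intro s
    fin_cases s
    · exact Eig.id J
    · exact eD
    · exact e3
    · exact e22
  intro s v hv l
  obtain ⟨k, hk⟩ := eK s l
  rw [hk]
  congr 2
  -- compare the coefficients of `p_1 ^ n`
  have h1 : coeff (expo (ones n)) (Kop al s (toL (J l))) = k := by
    rw [hk, coeff_C_mul, coeff_toL, J_ones hJ, mul_one]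
  rw [apply_toL] at h1
  have h2 : wtp al (ones n) * k = ∑ p, J l p * (wtp al p * coeff (expo p) (Kop al s (pp K (ones n)))) := by
    rw [← h1, Finset.mul_sum]
    refine Finset.sum_congr rfl fun p _ => ?_
    have h3 := (sK s).2 p (ones n)
    linear_combination J l p * h3
  rw [pp_ones, hK s n v hv, Finset.sum_eq_single v] at h2
  · rw [coeff_C_mul, coeff_pp, if_pos rfl, mul_one, wtp_ones] at h2
    unfold wtp at h2
    have h4 : (zed v : K) ≠ 0 := by exact_mod_cast zed_ne_zero v
    have h5 : al ^ n = al ^ (v.parts.card) * al ^ (n - v.parts.card) := by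
      rw [← pow_add, Nat.add_sub_cancel' (card_le v)]
    have h6 : (n ! : K) ≠ 0 := by exact_mod_cast Nat.factorial_ne_zero n
    have h7 : al ^ n * (n ! : K) ≠ 0 := mul_ne_zero (pow_ne_zero _ hal) h6
    apply mul_left_cancel₀ h7
    rw [h2, h5]
    field_simp
  · intro q _ hq
    rw [coeff_C_mul, coeff_pp, if_neg (Ne.symm hq), mul_zero, mul_zero, mul_zero]
  · intro h
    exact absurd (Finset.mem_univ _) h

end

end Pool.Agent.MJR
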