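import Pool.Agent.MJR.St

/-!
The power sums are linearly independent.
-/

namespace Pool.Agent.MJR

open MvPolynomial
open scoped Nat

noncomputable section

namespace InjM

/-- the sorted list has the parts of the partition -/
theorem srt_coe {n : ℕ} (q : n.Partition) : ((srt q : List ℕ) : Multiset ℕ) = q.parts :=
  Multiset.sort_eq _ _

theorem srt_len {n : ℕ} (q : n.Partition) : (srt q).length = q.parts.card := by
  rw [← srt_coe q, Multiset.coe_card]

theorem srt_pos {n : ℕ} (q : n.Partition) (j : ℕ) (h : j < (srt q).length) : 0 < (srt q)[j] := by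
  refine q.parts_pos ?_
  rw [← srt_coe q, Multiset.mem_coe]
  exact List.getElem_mem h

theorem srt_le {n : ℕ} (q : n.Partition) : (srt q).length ≤ n := by
  have h1 : ∀ l : List ℕ, (∀ a ∈ l, 0 < a) → l.length ≤ l.sum := by
    intro l
    induction l with
    | nil => intro _; simp
    | cons a l ih =>
      intro h
      have h2 := ih fun b hb => h b (List.mem_cons_of_mem _ hb)
      have h3 := h a List.mem_cons_self
      simp only [List.length_cons, List.sum_cons]
      omega
  have h2 : (srt q).sum = n := by
    rw [← Multiset.sum_coe, srt_coe, q.parts_sum]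
  have h3 := h1 (srt q) fun a ha => q.parts_pos (by
    rw [← srt_coe q, Multiset.mem_coe]
    exact ha)
  omega

theorem pvec_apply {n : ℕ} (m : n.Partition) (i : Fin n) : pvec m i = (srt m).getD i 0 := rfl

/-- the parts as a multiset indexed by the positions -/
theorem parts_eq {n : ℕ} (q : n.Partition) :
    q.parts = (Finset.univ : Finset (Fin (srt q).length)).val.map fun j => (srt q)[j.1] := by
  rw [← srt_coe q]
  have h : (srt q) = List.ofFn fun j : Fin (srt q).length => (srt q)[j.1] := by
    rw [List.ofFn_getElem]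
  conv_lhs => rw [h]
  rw [Fin.univ_val_map]

variable (K : Type) [Field K]

/-- the product of power sums as a sum over the maps from the parts to the variables -/
theorem prod_eq {n : ℕ} (q : n.Partition) :
    (q.parts.map fun k => psum (Fin n) K k).prod =
      ∑ f : Fin (srt q).length → Fin n,
        monomial (∑ j, Finsupp.single (f j) ((srt q)[j.1])) (1 : K) := by
  rw [parts_eq q, Multiset.map_map]
  change ∏ j : Fin (srt q).length, psum (Fin n) K ((srt q)[j.1]) = _
  simp only [psum]
  rw [Finset.prod_univ_sum, Fintype.piFinset_univ]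
  refine Finset.sum_congr rfl fun f _ => ?_
  rw [monomial_sum_one]
  refine Finset.prod_congr rfl fun j _ => ?_
  rw [X_pow_eq_monomial]

/-- the coefficient as a number of maps -/
theorem mc_eq {n : ℕ} (q m : n.Partition) : mc K q m =
    ((Finset.univ.filter fun f : Fin (srt q).length → Fin n =>
      ∑ j, Finsupp.single (f j) ((srt q)[j.1]) = pvec m).card : K) := by
  unfold mc
  rw [prod_eq, coeff_sum]
  simp only [coeff_monomial]
  rw [Finset.sum_ite, Finset.sum_const_zero, add_zero, Finset.sum_const, nsmul_eq_mul, mul_one]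

theorem sum_apply {n c : ℕ} (f : Fin c → Fin n) (a : Fin c → ℕ) (i : Fin n) :
    (∑ j, Finsupp.single (f j) (a j)) i = ∑ j, if f j = i then a j else 0 := by
  rw [Finsupp.finsetSum_apply]
  refine Finset.sum_congr rfl fun j _ => ?_
  rw [Finsupp.single_apply]

/-- the diagonal coefficients -/
theorem mc_diag [CharZero K] {n : ℕ} (r : n.Partition) : mc K r r ≠ 0 := by
  rw [mc_eq, Nat.cast_ne_zero, Finset.card_ne_zero]
  refine ⟨fun j => Fin.castLE (srt_le r) j, Finset.mem_filter.2 ⟨Finset.mem_univ _, ?_⟩⟩
  ext i
  rw [sum_apply, pvec_apply]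
  by_cases hi : i.1 < (srt r).length
  · rw [Finset.sum_eq_single ⟨i.1, hi⟩]
    · rw [List.getD_eq_getElem _ _ hi]
      exact if_pos (Fin.ext rfl)
    · intro j _ hj
      refine if_neg fun h => hj (Fin.ext ?_)
      have h' : (Fin.castLE (srt_le r) j).1 = i.1 := by rw [h]
      exact h'
    · intro h
      exact absurd (Finset.mem_univ _) h
  · rw [Finset.sum_eq_zero, List.getD_eq_default _ _ (not_lt.1 hi)]
    intro j _
    refine if_neg fun h => hi ?_
    rw [← h]
    exact j.2

/-- triangularity -/
theorem mc_tri {n : ℕ} (q r : n.Partition) (h : mc K q r ≠ 0)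
    (hc : q.parts.card ≤ r.parts.card) : q = r := by
  rw [mc_eq] at h
  have h1 : (Finset.univ.filter fun f : Fin (srt q).length → Fin n =>
      ∑ j, Finsupp.single (f j) ((srt q)[j.1]) = pvec r).Nonempty := by
    rw [Finset.nonempty_iff_ne_empty]
    intro h2
    rw [h2] at h
    exact h (by simp)
  obtain ⟨f, hf⟩ := h1
  have hf := (Finset.mem_filter.1 hf).2
  have hv : ∀ i : Fin n, (∑ j, if f j = i then (srt q)[j.1] else 0) = (srt r).getD i 0 := by
    intro i
    rw [← pvec_apply, ← hf, sum_apply]
  have hlt : ∀ j, (f j).1 < (srt r).length := by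
    intro j
    by_contra hcon
    have h2 := hv (f j)
    rw [List.getD_eq_default _ _ (not_lt.1 hcon)] at h2
    have h3 := (Finset.sum_eq_zero_iff.1 h2) j (Finset.mem_univ _)
    rw [if_pos rfl] at h3
    exact (srt_pos q j.1 j.2).ne' h3
  let g : Fin (srt q).length → Fin (srt r).length := fun j => ⟨(f j).1, hlt j⟩
  have hsur : Function.Surjective g := by
    intro i
    have hin : i.1 < n := lt_of_lt_of_le i.2 (srt_le r)
    have h2 := hv ⟨i.1, hin⟩
    rw [List.getD_eq_getElem _ _ i.2] at h2
    have h3 : (∑ j, if f j = ⟨i.1, hin⟩ then (srt q)[j.1] else 0) ≠ 0 := by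
      rw [h2]
      exact (srt_pos r i.1 i.2).ne'
    obtain ⟨j, _, hj⟩ := Finset.exists_ne_zero_of_sum_ne_zero h3
    refine ⟨j, ?_⟩
    by_contra hcon
    refine hj (if_neg fun h4 => hcon (Fin.ext ?_))
    change (f j).1 = i.1
    rw [h4]
  have hcard : Fintype.card (Fin (srt q).length) = Fintype.card (Fin (srt r).length) := by
    refine le_antisymm ?_ (Fintype.card_le_of_surjective g hsur)
    rw [Fintype.card_fin, Fintype.card_fin, srt_len, srt_len]
    exact hc
  have hbij : Function.Bijective g := (Fintype.bijective_iff_surjective_and_card g).2 ⟨hsur, hcard⟩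
  have hval : ∀ j : Fin (srt q).length, (srt q)[j.1] = (srt r)[(g j).1] := by
    intro j
    have h2 := hv (f j)
    rw [List.getD_eq_getElem _ _ (hlt j)] at h2
    change (srt q)[j.1] = (srt r)[(f j).1]'(hlt j)
    rw [← h2, Finset.sum_eq_single j]
    · rw [if_pos rfl]
    · intro j' _ hj'
      refine if_neg fun h3 => hj' (hbij.1 (Fin.ext ?_))
      change (f j').1 = (f j).1
      rw [h3]
    · intro h3
      exact absurd (Finset.mem_univ _) h3
  ext1
  rw [parts_eq q, parts_eq r]
  have h5 : (Finset.univ : Finset (Fin (srt q).length)).val.map (Equiv.ofBijective g hbij) =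
      (Finset.univ : Finset (Fin (srt r).length)).val := Multiset.map_univ_val_equiv _
  rw [← h5, Multiset.map_map]
  refine Multiset.map_congr rfl fun j _ => ?_
  exact hval j

end InjM

/-- the power sums are linearly independent -/
theorem injM (K : Type) [Field K] [CharZero K] : InjSt K := by
  classical
  intro n v hv
  by_contra hne
  have h1 : (Finset.univ.filter fun r : n.Partition => v r ≠ 0).Nonempty := by
    rw [Finset.nonempty_iff_ne_empty]
    intro h2
    refine hne (funext fun r => ?_)
    by_contra h3
    have h4 : r ∈ Finset.univ.filter fun r : n.Partition => v r ≠ 0 :=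
      Finset.mem_filter.2 ⟨Finset.mem_univ _, h3⟩
    rw [h2] at h4
    exact absurd h4 (Finset.notMem_empty _)
  obtain ⟨r, hr, hmax⟩ := Finset.exists_max_image _ (fun r : n.Partition => r.parts.card) h1
  have hr := (Finset.mem_filter.1 hr).2
  have h2 := hv r
  rw [Finset.sum_eq_single r] at h2
  · rcases mul_eq_zero.1 h2 with h3 | h3
    · exact hr h3
    · exact InjM.mc_diag K r h3
  · intro q _ hq
    by_contra h3
    have h4 := mul_ne_zero_iff.1 h3
    exact hq (InjM.mc_tri K q r h4.2 (hmax q (Finset.mem_filter.2 ⟨Finset.mem_univ _, h4.1⟩)))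
  · intro h3
    exact absurd (Finset.mem_univ _) h3

end

end Pool.Agent.MJR
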