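import Pool.Agent.MJR.XDefs
import Pool.Agent.MJR.St
import Pool.Agent.MJR.Basic

/-!
# MJR, module IntM: intertwining of `Z` with the Heckman operators (helper60)
-/

set_option autoImplicit false
set_option linter.unusedSectionVars false

namespace Pool.Agent.MJR

namespace IntM

open MvPolynomial

variable {K : Type} [Field K] {n : ℕ}

theorem ev_X (k : ℕ) : ev K n (X k) = psum (Fin n) K k := by
  unfold ev
  rw [aeval_X]

theorem evi_C (i : Fin n) (f : Lam K) : evi K i (Polynomial.C f) = ev K n f := by
  unfold evi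
  rw [Polynomial.coe_eval₂RingHom, Polynomial.eval₂_C]
  rfl

theorem evi_X (i : Fin n) : evi K i Polynomial.X = X i := by
  unfold evi
  rw [Polynomial.coe_eval₂RingHom, Polynomial.eval₂_X]

theorem evi_X_pow (i : Fin n) (j : ℕ) : evi K i (Polynomial.X ^ j) = X i ^ j := by
  rw [map_pow, evi_X]

theorem smul_LW (c : K) (G : LW K) : c • G = Polynomial.C (C c) * G := by
  rw [Algebra.smul_def]
  rfl

theorem evi_smul (i : Fin n) (c : K) (G : LW K) : evi K i (c • G) = c • evi K i G := by
  rw [smul_LW, map_mul, evi_C, smul_eq_C_mul]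
  congr 1
  unfold ev
  rw [aeval_C]
  rfl

theorem evi_monomial (i : Fin n) (j : ℕ) (f : Lam K) :
    evi K i (Polynomial.monomial j f) = ev K n f * X i ^ j := by
  rw [← Polynomial.C_mul_X_pow_eq_monomial, map_mul, map_pow, evi_C, evi_X]

theorem Yop_apply (al : K) (i : Fin n) (F : RX K n) :
    Yop al i F = al • (X i * pderiv i F) + ∑ l ∈ Finset.univ.erase i, Nop K i l F := by
  unfold Yop
  rw [LinearMap.add_apply, LinearMap.smul_apply, LinearMap.sum_apply]
  rfl

theorem X_mul_pderiv_psum (i : Fin n) (k : ℕ) :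
    X i * pderiv i (psum (Fin n) K k) = C (k : K) * X i ^ k := by
  unfold psum
  rw [map_sum, Finset.mul_sum, Finset.sum_eq_single i]
  · rw [Derivation.leibniz_pow, pderiv_X_self, smul_eq_mul, mul_one]
    rcases k with _ | k
    · simp
    · rw [Nat.add_sub_cancel, nsmul_eq_mul, map_natCast]
      ring
  · intro l _ hl
    rw [Derivation.leibniz_pow, pderiv_X_of_ne hl]
    simp
  · intro h
    exact absurd (Finset.mem_univ i) h

theorem Yop_psum_mul (h : NopMulSt K) (al : K) (i : Fin n) (k : ℕ) (F : RX K n) :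
    Yop al i (psum (Fin n) K k * F) =
      psum (Fin n) K k * Yop al i F + C (al * k) * X i ^ k * F := by
  rw [Yop_apply, Yop_apply]
  have h1 : ∀ l ∈ Finset.univ.erase i, Nop K i l (psum (Fin n) K k * F) =
      psum (Fin n) K k * Nop K i l F := by
    intro l hl
    exact h n i l (Finset.ne_of_mem_erase hl).symm _ F (rename_psum _ _ k (Equiv.swap i l))
  rw [Finset.sum_congr rfl h1, ← Finset.mul_sum, Derivation.leibniz, smul_eq_mul, smul_eq_mul]
  have h2 : X i * (psum (Fin n) K k * pderiv i F + F * pderiv i (psum (Fin n) K k)) =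
      psum (Fin n) K k * (X i * pderiv i F) + C (k : K) * X i ^ k * F := by
    rw [← X_mul_pderiv_psum]
    ring
  rw [h2, smul_add, smul_eq_C_mul, smul_eq_C_mul, C_mul]
  simp only [smul_eq_C_mul]
  ring

theorem Nop_X_pow (i l : Fin n) (hl : l ≠ i) (j : ℕ) :
    Nop K i l (X i ^ j) = ∑ a ∈ Finset.range j, X i ^ (a + 1) * X l ^ (j - 1 - a) := by
  unfold Nop
  have h1 : (X i ^ j : RX K n) = basisMonomials (Fin n) K (Finsupp.single i j) := by
    rw [coe_basisMonomials, X_pow_eq_monomial]
  rw [h1, Module.Basis.constr_basis]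
  unfold nopMon
  have h2 : (Finsupp.single i j) l = 0 := Finsupp.single_eq_of_ne hl
  have h3 : (Finsupp.single i j) i = j := Finsupp.single_eq_same
  rw [h2, h3, Finset.Ico_eq_empty_of_le (Nat.zero_le j), Finset.sum_empty, sub_zero,
    Nat.Ico_zero_eq_range]
  refine Finset.sum_congr rfl fun a _ => ?_
  have h4 : ((Finsupp.single i j).update i (a + 1)).update l (j + 0 - 1 - a) =
      Finsupp.single i (a + 1) + Finsupp.single l (j - 1 - a) := by
    ext m
    rw [Finsupp.coe_update, Finsupp.coe_update, Finsupp.add_apply]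
    by_cases hm : m = l
    · subst hm
      rw [Function.update_self, Finsupp.single_eq_same, Finsupp.single_eq_of_ne hl]
      omega
    · rw [Function.update_of_ne hm, Finsupp.single_eq_of_ne hm, add_zero]
      by_cases hi : m = i
      · subst hi
        rw [Function.update_self, Finsupp.single_eq_same]
      · rw [Function.update_of_ne hi, Finsupp.single_eq_of_ne hi, Finsupp.single_eq_of_ne hi]
  rw [h4, X_pow_eq_monomial, X_pow_eq_monomial, monomial_mul, one_mul]

theorem Nop_sum (i : Fin n) (m : ℕ) :
    ∑ l ∈ Finset.univ.erase i, Nop K i l (X i ^ (m + 1)) =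
      ∑ a ∈ Finset.range m, X i ^ (a + 1) * psum (Fin n) K (m - a) +
        C (n : K) * X i ^ (m + 1) - C ((m + 1 : ℕ) : K) * X i ^ (m + 1) := by
  rw [Finset.sum_congr rfl fun l hl => Nop_X_pow i l (Finset.ne_of_mem_erase hl) (m + 1),
    Finset.sum_comm]
  have h1 : ∀ a ∈ Finset.range (m + 1),
      ∑ l ∈ Finset.univ.erase i, (X i ^ (a + 1) * X l ^ (m + 1 - 1 - a) : RX K n) =
      X i ^ (a + 1) * psum (Fin n) K (m - a) - X i ^ (m + 1) := by
    intro a ha
    rw [← Finset.mul_sum, Nat.add_sub_cancel]
    have h2 : psum (Fin n) K (m - a) = X i ^ (m - a) +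
        ∑ l ∈ Finset.univ.erase i, X l ^ (m - a) := by
      unfold psum
      exact (Finset.add_sum_erase _ _ (Finset.mem_univ i)).symm
    have h3 : (X i ^ (m + 1) : RX K n) = X i ^ (a + 1) * X i ^ (m - a) := by
      rw [← pow_add]
      congr 1
      have := Finset.mem_range.1 ha
      omega
    rw [h2, h3]
    ring
  rw [Finset.sum_congr rfl h1, Finset.sum_sub_distrib, Finset.sum_const, Finset.card_range,
    Finset.sum_range_succ, Nat.sub_self, psum_zero, Fintype.card_fin, nsmul_eq_mul, map_natCast,
    map_natCast]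
  ring

/-- the statement for one polynomial -/
def P (al : K) (i : Fin n) (G : LW K) : Prop :=
  Yop al i (evi K i G) = evi K i (Z al G + (n : K) • (G - Polynomial.C (G.coeff 0)))

theorem P_add {al : K} {i : Fin n} {G G' : LW K} (h : P al i G) (h' : P al i G') :
    P al i (G + G') := by
  unfold P at h h' ⊢
  rw [map_add, map_add, h, h', ← map_add, map_add (Z al), Polynomial.coeff_add, Polynomial.C_add]
  congr 1
  module

theorem P_smul {al : K} {i : Fin n} {G : LW K} (c : K) (h : P al i G) : P al i (c • G) := by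
  unfold P at h ⊢
  rw [evi_smul, map_smul, h, ← evi_smul, map_smul (Z al), Polynomial.coeff_smul]
  congr 1
  have h1 : Polynomial.C (c • G.coeff 0) = c • (Polynomial.C (G.coeff 0) : LW K) := by
    rw [Polynomial.smul_C]
  rw [h1]
  module

theorem P_X_mul (h : NopMulSt K) {al : K} {i : Fin n} {G : LW K} (k : ℕ) (hG : P al i G) :
    P al i (Polynomial.C (X k) * G) := by
  unfold P at hG ⊢
  rw [map_mul, evi_C, ev_X, Yop_psum_mul h, hG, Z_X_mul, Polynomial.coeff_C_mul,
    Polynomial.C_mul]
  have h1 : (C (al * k) * X i ^ k * evi K i G : RX K n) =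
      evi K i (Polynomial.C (C (al * k)) * Polynomial.X ^ k * G) := by
    have h0 : evi K i (Polynomial.C (C (al * k)) * Polynomial.X ^ k * G) =
        evi K i (Polynomial.C (C (al * k))) * evi K i (Polynomial.X ^ k) * evi K i G := by
      rw [map_mul, map_mul]
    rw [h0, evi_X_pow, evi_C]
    congr 2
    unfold ev
    rw [aeval_C]
    rfl
  have h2 : psum (Fin n) K k = evi K i (Polynomial.C (X k)) := by rw [evi_C, ev_X]
  rw [h1, h2, ← map_mul, ← map_add]
  congr 1
  have h3 : (n : K) • (Polynomial.C (X k : Lam K) * G -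
      Polynomial.C (X k) * Polynomial.C (G.coeff 0)) =
      Polynomial.C (X k : Lam K) * ((n : K) • (G - Polynomial.C (G.coeff 0))) := by
    rw [mul_smul_comm, mul_sub]
  rw [h3]
  ring

theorem P_X_pow (al : K) (i : Fin n) (j : ℕ) : P al i (Polynomial.X ^ j) := by
  unfold P
  rw [evi_X_pow, Yop_apply]
  rcases j with _ | m
  · rw [pow_zero, pow_zero, Z_one, Polynomial.coeff_one_zero, Polynomial.C_1, sub_self, smul_zero,
      add_zero, map_zero, Derivation.map_one_eq_zero, mul_zero, smul_zero, zero_add]
    refine Finset.sum_eq_zero fun l hl => ?_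
    have h1 := Nop_X_pow (K := K) i l (Finset.ne_of_mem_erase hl) 0
    rw [pow_zero, Finset.range_zero, Finset.sum_empty] at h1
    exact h1
  · rw [Nop_sum, Z_X_pow, Polynomial.coeff_X_pow, if_neg (Nat.succ_ne_zero m).symm,
      Polynomial.C_0, sub_zero, map_add, map_add, evi_smul, evi_X_pow, evi_monomial,
      map_sum, Derivation.leibniz_pow, pderiv_X_self, smul_eq_mul, mul_one, Nat.add_sub_cancel]
    have h1 : ∑ a ∈ Finset.Ico 1 (m + 1), evi K i (Polynomial.monomial a (X (m + 1 - a))) =
        ∑ a ∈ Finset.range m, X i ^ (a + 1) * psum (Fin n) K (m - a) := by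
      rw [Finset.sum_Ico_eq_sum_range, Nat.add_sub_cancel]
      refine Finset.sum_congr rfl fun a _ => ?_
      rw [evi_monomial, ev_X, add_comm 1 a, Nat.add_sub_add_right]
      ring
    have h2 : ev K n (C ((al - 1) * ((m + 1 : ℕ) : K))) = C ((al - 1) * ((m + 1 : ℕ) : K)) := by
      unfold ev
      rw [aeval_C]
      rfl
    rw [h1, h2, nsmul_eq_mul, smul_eq_C_mul, smul_eq_C_mul, C_mul, C_sub, C_1]
    simp only [map_natCast]
    ring

end IntM

open IntM in
/-- intertwining -/
theorem intM (K : Type) [Field K] (al : K) (h : NopMulSt K) : IntSt K al := by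
  intro n i G
  show P al i G
  induction G using Polynomial.induction_on' with
  | add p q hp hq => exact P_add hp hq
  | monomial j f =>
    induction f using MvPolynomial.induction_on with
    | C c =>
      have h1 : (Polynomial.monomial j (MvPolynomial.C c) : LW K) = c • Polynomial.X ^ j := by
        rw [smul_LW, Polynomial.C_mul_X_pow_eq_monomial]
      rw [h1]
      exact P_smul c (P_X_pow al i j)
    | add p q hp hq =>
      rw [map_add]
      exact P_add hp hq
    | mul_X p k hp =>
      have h1 : (Polynomial.monomial j (p * MvPolynomial.X k) : LW K) =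
          Polynomial.C (MvPolynomial.X k) * Polynomial.monomial j p := by
        rw [Polynomial.C_mul_monomial, mul_comm]
      rw [h1]
      exact P_X_mul h k hp

end Pool.Agent.MJR
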