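import Pool.Agent.MJR.St
import Pool.Agent.MJR.Basic

/-!
The operators of rank at most two on `p_1^n`.
-/

namespace Pool.Agent.MJR

open MvPolynomial
open scoped Nat

noncomputable section

variable {K : Type} [Field K]

private theorem koneM_base (P : Lam K →ₗ[K] Lam K) (b : Lam K) (h1 : P 1 = b)
    (h : comm P 1 = 0) (n : ℕ) : P (X 1 ^ n) = C ((n.choose 0 : ℕ) : K) * b * X 1 ^ (n - 0) := by
  rw [Nat.choose_zero_right, Nat.cast_one, C_1, one_mul, Nat.sub_zero]
  induction n with
  | zero => rw [pow_zero, h1, mul_one]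
  | succ n ih =>
    rw [pow_succ', apply_X_mul, ih, h, LinearMap.zero_apply]
    ring

private theorem koneM_step (P : Lam K →ₗ[K] Lam K) (j : ℕ) (b : Lam K) (h1 : P 1 = 0)
    (h : ∀ n : ℕ, comm P 1 (X 1 ^ n) = C ((n.choose j : ℕ) : K) * b * X 1 ^ (n - j)) (n : ℕ) :
    P (X 1 ^ n) = C ((n.choose (j + 1) : ℕ) : K) * b * X 1 ^ (n - (j + 1)) := by
  induction n with
  | zero => simp [h1]
  | succ n ih =>
    rw [pow_succ', apply_X_mul, ih, h, Nat.choose_succ_succ, Nat.cast_add, C_add,
      Nat.add_sub_add_right]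
    rcases Nat.lt_or_ge n (j + 1) with hn | hn
    · rw [Nat.choose_eq_zero_of_lt hn]
      simp
    · obtain ⟨m, rfl⟩ := Nat.exists_eq_add_of_le hn
      have e1 : j + 1 + m - (j + 1) = m := by omega
      have e2 : j + 1 + m - j = m + 1 := by omega
      rw [e1, e2]
      ring

private theorem koneM_zed {n : ℕ} (r : n.Partition) (S : Finset ℕ) (h : ∀ i ∈ r.parts, i ∈ S) :
    zed r = ∏ i ∈ S, i ^ (r.parts.count i) * (r.parts.count i)! := by
  unfold zed
  refine Finset.prod_subset (fun i hi => h i (Multiset.mem_toFinset.1 hi)) ?_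
  intro i _ hi
  rw [Multiset.mem_toFinset] at hi
  rw [Multiset.count_eq_zero_of_notMem hi]
  simp

private theorem koneM_le {n : ℕ} (s : Fin 4) (v : n.Partition) (h : IsSh s v) :
    (Sh s).sum ≤ n := by
  have h1 := v.parts_sum
  rw [h, Multiset.sum_add] at h1
  omega

variable [CharZero K]

private theorem koneM_choose (n k c : ℕ) (hk : k ≤ n) (hc : c ≠ 0) :
    ((n ! : ℕ) : K) / ((c * (n - k)! : ℕ) : K) = ((k ! : ℕ) : K) / (c : K) * (n.choose k : K) := by
  have h1 := Nat.choose_mul_factorial_mul_factorial hk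
  have h2 : ((n - k)! : K) ≠ 0 := by exact_mod_cast Nat.factorial_ne_zero _
  have h3 : (c : K) ≠ 0 := by exact_mod_cast hc
  rw [← h1]
  push_cast
  field_simp

theorem kone_of {al : K} (hD : BrDSt K al) (h3 : BrK3St K al) (h22 : BrK22St K al) :
    KoneSt K al := by
  have z1 : bD1 al 1 = 0 := by simp [bD1]
  have z2 : bD2 al 1 1 = C al * X 2 := by simp [bD2]
  have t1 : bT1 al 1 = 0 := by simp [bT1]
  have t2 : bT2 al 1 1 = 0 := by
    have : (1 : K) + 1 - 2 = 0 := by norm_num
    simp [bT2, qT2, this]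
  have t3 : bT3 al 1 1 1 = C (2 * al ^ 2) * X 3 := by simp [bT3]
  have s1 : bS1 al 1 = 0 := by simp [bS1]
  have s2 : bS2 al 1 1 = 0 := by simp [bS2, qS2]
  have s3 : bS3 al 1 1 1 = 0 := by
    have : (1 : K) + 1 + 1 - 3 = 0 := by norm_num
    simp [bS3, this]
  have kD : ∀ n : ℕ, Dop al (X 1 ^ n) =
      C ((n.choose 2 : ℕ) : K) * (C al * X 2) * X 1 ^ (n - 2) := by
    have a2 := koneM_base (comm (comm (Dop al) 1) 1) (C al * X 2)
      ((hD.2.2.1 1 1).trans z2) (hD.2.2.2 1 1 1)
    have a1 := koneM_step (comm (Dop al) 1) 0 _ ((hD.2.1 1).trans z1) a2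
    exact koneM_step (Dop al) 1 _ hD.1 a1
  have k3 : ∀ n : ℕ, K3 al (X 1 ^ n) =
      C ((n.choose 3 : ℕ) : K) * (C (2 * al ^ 2) * X 3) * X 1 ^ (n - 3) := by
    have a3 := koneM_base (comm (comm (comm (K3 al) 1) 1) 1) (C (2 * al ^ 2) * X 3)
      ((h3.2.2.2.1 1 1 1).trans t3) (h3.2.2.2.2 1 1 1 1)
    have a2 := koneM_step (comm (comm (K3 al) 1) 1) 0 _ ((h3.2.2.1 1 1).trans t2) a3
    have a1 := koneM_step (comm (K3 al) 1) 1 _ ((h3.2.1 1).trans t1) a2
    exact koneM_step (K3 al) 2 _ h3.1 a1
  have k22 : ∀ n : ℕ, K22 al (X 1 ^ n) =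
      C ((n.choose 4 : ℕ) : K) * (C (3 * al ^ 2) * X 2 ^ 2) * X 1 ^ (n - 4) := by
    have a4 := koneM_base (comm (comm (comm (comm (K22 al) 1) 1) 1) 1) (C (3 * al ^ 2) * X 2 ^ 2)
      (by
        rw [h22.2.2.2.2.1 1 1 1 1, z2]
        simp only [C_mul, C_pow]
        have : (C (3 : K) : Lam K) = 3 := by
          rw [show (3 : K) = ((3 : ℕ) : K) by norm_num, map_natCast]
          norm_num
        rw [this]
        ring) (h22.2.2.2.2.2 1 1 1 1 1)
    have a3 := koneM_step (comm (comm (comm (K22 al) 1) 1) 1) 0 _ (by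
      rw [h22.2.2.2.1 1 1 1, s3, z1]
      ring) a4
    have a2 := koneM_step (comm (comm (K22 al) 1) 1) 1 _ (by
      rw [h22.2.2.1 1 1, s2, z1]
      ring) a3
    have a1 := koneM_step (comm (K22 al) 1) 2 _ ((h22.2.1 1).trans s1) a2
    exact koneM_step (K22 al) 3 _ h22.1 a1
  intro s n v hv
  have hle := koneM_le s v hv
  unfold IsSh at hv
  fin_cases s
  · have hS : (Sh 0 : Multiset ℕ) = 0 := rfl
    change v.parts = Sh 0 + Multiset.replicate (n - (Sh 0).sum) 1 at hv
    rw [hS, Multiset.sum_zero, Nat.sub_zero, zero_add] at hv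
    have hz : zed v = n ! := by
      rw [koneM_zed v {1} (by
        intro i hi
        rw [hv] at hi
        rw [Multiset.eq_of_mem_replicate hi]
        exact Finset.mem_singleton_self 1), Finset.prod_singleton, hv,
        Multiset.count_replicate_self]
      simp
    have hp : pp K v = X 1 ^ n := by
      unfold pp
      rw [hv, Multiset.map_replicate, Multiset.prod_replicate]
    have hn : ((n ! : ℕ) : K) ≠ 0 := by exact_mod_cast Nat.factorial_ne_zero n
    rw [hz, hp, hv, Multiset.card_replicate, Nat.sub_self, pow_zero, one_mul, div_self hn, C_1,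
      one_mul]
    rfl
  · have hS : (Sh 1 : Multiset ℕ) = {2} := rfl
    change v.parts = Sh 1 + Multiset.replicate (n - (Sh 1).sum) 1 at hv
    change (Sh 1).sum ≤ n at hle
    rw [hS, Multiset.sum_singleton] at hv hle
    have hz : zed v = 2 * (n - 2)! := by
      rw [koneM_zed v {1, 2} (by
        intro i hi
        rw [hv, Multiset.mem_add, Multiset.mem_singleton] at hi
        rcases hi with rfl | hi
        · simp
        · rw [Multiset.eq_of_mem_replicate hi]
          simp), Finset.prod_pair (by norm_num), hv]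
      simp [Multiset.count_replicate]
      ring
    have hp : pp K v = X 2 * X 1 ^ (n - 2) := by
      unfold pp
      rw [hv, Multiset.map_add, Multiset.prod_add, Multiset.map_replicate,
        Multiset.prod_replicate, Multiset.map_singleton, Multiset.prod_singleton]
    have hc : n - v.parts.card = 1 := by
      rw [hv, Multiset.card_add, Multiset.card_replicate, Multiset.card_singleton]
      omega
    change Dop al (X 1 ^ n) = _
    rw [kD, hz, hp, hc, koneM_choose n 2 2 hle (by norm_num)]
    have e1 : ((2 ! : ℕ) : K) / ((2 : ℕ) : K) = 1 := by norm_num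
    rw [e1, pow_one, one_mul, C_mul]
    ring
  · have hS : (Sh 2 : Multiset ℕ) = {3} := rfl
    change v.parts = Sh 2 + Multiset.replicate (n - (Sh 2).sum) 1 at hv
    change (Sh 2).sum ≤ n at hle
    rw [hS, Multiset.sum_singleton] at hv hle
    have hz : zed v = 3 * (n - 3)! := by
      rw [koneM_zed v {1, 3} (by
        intro i hi
        rw [hv, Multiset.mem_add, Multiset.mem_singleton] at hi
        rcases hi with rfl | hi
        · simp
        · rw [Multiset.eq_of_mem_replicate hi]
          simp), Finset.prod_pair (by norm_num), hv]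
      simp [Multiset.count_replicate]
      ring
    have hp : pp K v = X 3 * X 1 ^ (n - 3) := by
      unfold pp
      rw [hv, Multiset.map_add, Multiset.prod_add, Multiset.map_replicate,
        Multiset.prod_replicate, Multiset.map_singleton, Multiset.prod_singleton]
    have hc : n - v.parts.card = 2 := by
      rw [hv, Multiset.card_add, Multiset.card_replicate, Multiset.card_singleton]
      omega
    change K3 al (X 1 ^ n) = _
    rw [k3, hz, hp, hc, koneM_choose n 3 3 hle (by norm_num)]
    have e1 : ((3 ! : ℕ) : K) / ((3 : ℕ) : K) = 2 := by norm_num [Nat.factorial]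
    rw [e1]
    simp only [C_mul, C_pow]
    ring
  · have hS : (Sh 3 : Multiset ℕ) = {2, 2} := rfl
    change v.parts = Sh 3 + Multiset.replicate (n - (Sh 3).sum) 1 at hv
    change (Sh 3).sum ≤ n at hle
    have hs : (({2, 2} : Multiset ℕ)).sum = 4 := rfl
    rw [hS, hs] at hv hle
    have hz : zed v = 8 * (n - 4)! := by
      rw [koneM_zed v {1, 2} (by
        intro i hi
        rw [hv, Multiset.mem_add] at hi
        rcases hi with hi | hi
        · have : i = 2 := by simpa using hi
          rw [this]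
          simp
        · rw [Multiset.eq_of_mem_replicate hi]
          simp), Finset.prod_pair (by norm_num), hv]
      simp [Multiset.count_replicate]
      ring
    have hp : pp K v = X 2 ^ 2 * X 1 ^ (n - 4) := by
      unfold pp
      rw [hv, Multiset.map_add, Multiset.prod_add, Multiset.map_replicate,
        Multiset.prod_replicate]
      simp
      ring
    have hc : n - v.parts.card = 2 := by
      rw [hv, Multiset.card_add, Multiset.card_replicate]
      have : Multiset.card ({2, 2} : Multiset ℕ) = 2 := rfl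
      omega
    change K22 al (X 1 ^ n) = _
    rw [k22, hz, hp, hc, koneM_choose n 4 8 hle (by norm_num)]
    have e1 : ((4 ! : ℕ) : K) / ((8 : ℕ) : K) = 3 := by norm_num [Nat.factorial]
    rw [e1]
    simp only [C_mul, C_pow]
    ring

end

end Pool.Agent.MJR
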