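import Pool.Agent.MJR.St

/-!
# MJR, module LinAlgM: the abstract eigenvector theorem (helper60)
-/

set_option autoImplicit false
set_option linter.unusedSectionVars false

namespace Pool.Agent.MJR

namespace LinAlgM

open Finset Module

variable {K : Type} [Field K] {I : Type} [Fintype I] [DecidableEq I]

/-- the subspace of the vectors whose expansion is supported on the elements below `l` -/
def T (R : I → I → K) (D : I → I → Prop) (l : I) : Submodule K (I → K) where
  carrier := {v | ∀ m, ¬ D m l → ∑ r, v r * R r m = 0}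
  add_mem' := by
    intro a b ha hb m hm
    have h : ∑ r, (a + b) r * R r m = ∑ r, a r * R r m + ∑ r, b r * R r m := by
      rw [← Finset.sum_add_distrib]
      exact Finset.sum_congr rfl fun r _ => by rw [Pi.add_apply]; ring
    rw [h, ha m hm, hb m hm, add_zero]
  zero_mem' := by
    intro m _
    simp
  smul_mem' := by
    intro c a ha m hm
    have h : ∑ r, (c • a) r * R r m = c * ∑ r, a r * R r m := by
      rw [Finset.mul_sum]
      exact Finset.sum_congr rfl fun r _ => by rw [Pi.smul_apply, smul_eq_mul]; ring
    rw [h, ha m hm, mul_zero]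

theorem mem_T {R : I → I → K} {D : I → I → Prop} {l : I} {v : I → K} :
    v ∈ T R D l ↔ ∀ m, ¬ D m l → ∑ r, v r * R r m = 0 := Iff.rfl

/-- the coordinates below `l` -/
def rest (R : I → I → K) (D : I → I → Prop) (l : I) :
    T R D l →ₗ[K] ({m // D m l} → K) where
  toFun v := fun m => ∑ r, v.1 r * R r m.1
  map_add' := by
    intro a b
    funext m
    show ∑ r, (a.1 + b.1) r * R r m.1 = ∑ r, a.1 r * R r m.1 + ∑ r, b.1 r * R r m.1
    rw [← Finset.sum_add_distrib]
    exact Finset.sum_congr rfl fun r _ => by rw [Pi.add_apply]; ring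
  map_smul' := by
    intro c a
    funext m
    show ∑ r, (c • a.1) r * R r m.1 = c * ∑ r, a.1 r * R r m.1
    rw [Finset.mul_sum]
    exact Finset.sum_congr rfl fun r _ => by rw [Pi.smul_apply, smul_eq_mul]; ring

theorem rest_inj {R : I → I → K} {D : I → I → Prop}
    (hR : ∀ v : I → K, (∀ m, ∑ r, v r * R r m = 0) → v = 0) (l : I) :
    Function.Injective (rest R D l) := by
  rw [injective_iff_map_eq_zero]
  intro v hv
  refine Subtype.ext (hR v.1 fun m => ?_)
  by_cases hm : D m l
  · exact congrFun hv ⟨m, hm⟩
  · exact v.2 m hm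

/-- the expansion of the pairing -/
theorem pair_sum {ι : Type} [Fintype ι] (w : I → K) (c : ι → K) (J : ι → I → K) (v : I → K) :
    ∑ r, (∑ l, c l • J l) r * v r * w r = ∑ l, c l * ∑ r, J l r * v r * w r := by
  have h : ∀ r, (∑ l, c l • J l) r * v r * w r = ∑ l, c l * (J l r * v r * w r) := by
    intro r
    rw [Finset.sum_apply, Finset.sum_mul, Finset.sum_mul]
    exact Finset.sum_congr rfl fun l _ => by rw [Pi.smul_apply, smul_eq_mul]; ring
  rw [Finset.sum_congr rfl fun r _ => h r, Finset.sum_comm]
  exact Finset.sum_congr rfl fun l _ => by rw [Finset.mul_sum]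

theorem lin_indep (w : I → K) (J : I → I → K)
    (haniso : ∀ v : I → K, ∑ r, v r ^ 2 * w r = 0 → v = 0)
    (horth : ∀ l m, l ≠ m → ∑ r, J l r * J m r * w r = 0) (hnz : ∀ l, J l ≠ 0) :
    LinearIndependent K J := by
  rw [Fintype.linearIndependent_iff]
  intro c hc m
  have h1 := pair_sum w c J (J m)
  have h3 : ∑ l, c l * ∑ r, J l r * J m r * w r = c m * ∑ r, J m r * J m r * w r := by
    refine Finset.sum_eq_single m ?_ ?_
    · intro l _ hl
      rw [horth l m hl, mul_zero]
    · intro h
      exact absurd (Finset.mem_univ m) h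
  rw [hc, h3] at h1
  have h4 : ∑ r, (0 : I → K) r * J m r * w r = 0 := by simp
  rw [h4] at h1
  rcases mul_eq_zero.1 h1.symm with h2 | h2
  · exact h2
  · exfalso
    refine hnz m (haniso (J m) ?_)
    rw [← h2]
    exact Finset.sum_congr rfl fun r _ => by ring

theorem J_mem {R : I → I → K} {D : I → I → Prop} {J : I → I → K}
    (htrans : ∀ a b c, D a b → D b c → D a c)
    (htri : ∀ l m, ¬ D m l → ∑ r, J l r * R r m = 0) {l m : I} (h : D m l) : J m ∈ T R D l :=
  fun k hk => htri m k fun h' => hk (htrans k m l h' h)

theorem span_J (w : I → K) (R : I → I → K) (D : I → I → Prop) (J : I → I → K)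
    (htrans : ∀ a b c, D a b → D b c → D a c)
    (haniso : ∀ v : I → K, ∑ r, v r ^ 2 * w r = 0 → v = 0)
    (hR : ∀ v : I → K, (∀ m, ∑ r, v r * R r m = 0) → v = 0)
    (horth : ∀ l m, l ≠ m → ∑ r, J l r * J m r * w r = 0)
    (htri : ∀ l m, ¬ D m l → ∑ r, J l r * R r m = 0) (hnz : ∀ l, J l ≠ 0)
    (l : I) (v : I → K) (hv : v ∈ T R D l) :
    ∃ c : I → K, (∀ m, ¬ D m l → c m = 0) ∧ v = ∑ m, c m • J m := by
  classical
  let F : {m // D m l} → T R D l := fun m => ⟨J m.1, J_mem htrans htri m.2⟩
  have hF : LinearIndependent K F := by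
    refine LinearIndependent.of_comp (T R D l).subtype ?_
    exact (lin_indep w J haniso horth hnz).comp _ Subtype.val_injective
  have h1 : Fintype.card {m // D m l} ≤ finrank K (T R D l) := hF.fintype_card_le_finrank
  have h2 : finrank K (T R D l) ≤ Fintype.card {m // D m l} := by
    have h3 := LinearMap.finrank_le_finrank_of_injective (rest_inj (R := R) (D := D) hR l)
    rwa [Module.finrank_fintype_fun_eq_card] at h3
  have h3 : Submodule.span K (Set.range F) = ⊤ :=
    hF.span_eq_top_of_card_eq_finrank' (le_antisymm h1 h2)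
  have h4 : (⟨v, hv⟩ : T R D l) ∈ Submodule.span K (Set.range F) := by
    rw [h3]
    exact Submodule.mem_top
  rw [Submodule.mem_span_range_iff_exists_fun] at h4
  obtain ⟨c, hc⟩ := h4
  have hc' : ∑ m, c m • J m.1 = v := by
    have h5 := congrArg (T R D l).subtype hc
    rw [map_sum] at h5
    exact h5
  refine ⟨fun m => if h : D m l then c ⟨m, h⟩ else 0, fun m hm => dif_neg hm, ?_⟩
  rw [← hc']
  have h6 : ∀ m : {m // D m l}, c m • J m.1 =
      (if h : D m.1 l then c ⟨m.1, h⟩ else 0) • J m.1 := by
    intro m
    rw [dif_pos m.2]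
  rw [Finset.sum_congr rfl fun m _ => h6 m]
  refine (Finset.sum_subtype (Finset.univ.filter fun m => D m l)
    (fun m => by rw [Finset.mem_filter]; simp)
    (fun m => (if h : D m l then c ⟨m, h⟩ else 0) • J m)).symm.trans ?_
  refine Finset.sum_subset (Finset.filter_subset _ _) ?_
  intro m _ hm
  have h8 : ¬ D m l := fun h => hm (Finset.mem_filter.2 ⟨Finset.mem_univ m, h⟩)
  rw [dif_neg h8, zero_smul]

end LinAlgM

open LinAlgM in
/-- the abstract eigenvector theorem -/
theorem linAlg (K : Type) [Field K] : LinAlgSt K := by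
  intro I _ _ w R D J hrefl htrans hanti haniso hR horth htri hnz
  have hli := lin_indep w J haniso horth hnz
  refine ⟨?_, ?_⟩
  · intro v hv
    have h1 : LinearIndependent K (Matrix.of J).row := hli
    have h2 := Matrix.linearIndependent_rows_iff_isUnit.1 h1
    have h3 := Matrix.mulVec_injective_iff_isUnit.2 h2
    refine h3 ?_
    funext l
    rw [Matrix.mulVec_zero]
    exact hv l
  · intro O hO hT l
    have hJT : ∀ m, J m ∈ T R D m := fun m => htri m
    have hOT : ∀ m, (fun r => ∑ s, J m s * O s r) ∈ T R D m := fun m k hk =>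
      hT m (J m) (htri m) k hk
    obtain ⟨c, hc, hcs⟩ := span_J w R D J htrans haniso hR horth htri hnz l _ (hOT l)
    -- the pairing is self-adjoint
    have hsa : ∀ m, ∑ r, (∑ s, J l s * O s r) * J m r * w r =
        ∑ s, (∑ r, J m r * O r s) * J l s * w s := by
      intro m
      have h1 : ∀ r, (∑ s, J l s * O s r) * J m r * w r =
          ∑ s, J l s * J m r * (w r * O s r) := by
        intro r
        rw [Finset.sum_mul, Finset.sum_mul]
        exact Finset.sum_congr rfl fun s _ => by ring
      have h2 : ∀ s, (∑ r, J m r * O r s) * J l s * w s =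
          ∑ r, J l s * J m r * (w s * O r s) := by
        intro s
        rw [Finset.sum_mul, Finset.sum_mul]
        exact Finset.sum_congr rfl fun r _ => by ring
      rw [Finset.sum_congr rfl fun r _ => h1 r, Finset.sum_congr rfl fun s _ => h2 s,
        Finset.sum_comm]
      refine Finset.sum_congr rfl fun s _ => Finset.sum_congr rfl fun r _ => ?_
      rw [hO s r]
    have hcm : ∀ m, m ≠ l → c m = 0 := by
      intro m hm
      by_cases hml : D m l
      · have hlm : ¬ D l m := fun h => hm (hanti m l hml h)
        obtain ⟨d, hd, hds⟩ := span_J w R D J htrans haniso hR horth htri hnz m _ (hOT m)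
        have h1 : ∑ r, (∑ s, J l s * O s r) * J m r * w r = 0 := by
          rw [hsa m]
          have h2 := pair_sum w d J (J l)
          rw [← hds] at h2
          rw [h2]
          refine Finset.sum_eq_zero fun k _ => ?_
          by_cases hk : k = l
          · rw [hk, hd l hlm, zero_mul]
          · rw [horth k l hk, mul_zero]
        have h3 := pair_sum w c J (J m)
        rw [← hcs] at h3
        rw [h1] at h3
        have h4 : ∑ k, c k * ∑ r, J k r * J m r * w r = c m * ∑ r, J m r * J m r * w r := by
          refine Finset.sum_eq_single m ?_ ?_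
          · intro k _ hk
            rw [horth k m hk, mul_zero]
          · intro h
            exact absurd (Finset.mem_univ m) h
        rw [h4] at h3
        rcases mul_eq_zero.1 h3.symm with h5 | h5
        · exact h5
        · exfalso
          refine hnz m (haniso (J m) ?_)
          rw [← h5]
          exact Finset.sum_congr rfl fun r _ => by ring
      · exact hc m hml
    refine ⟨c l, fun m => ?_⟩
    have h1 : ∑ k, c k • J k = c l • J l := by
      refine Finset.sum_eq_single l ?_ ?_
      · intro k _ hk
        rw [hcm k hk, zero_smul]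
      · intro h
        exact absurd (Finset.mem_univ l) h
    rw [h1] at hcs
    have h2 := congrFun hcs m
    rw [Pi.smul_apply, smul_eq_mul] at h2
    exact h2

end Pool.Agent.MJR
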