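import Pool.Agent.MJR.St

/-!
The divided difference operators `Nop`: characterisation and the rule for products.
-/

set_option autoImplicit false

namespace Pool.Agent.MJR

open MvPolynomial

noncomputable section

namespace NopMul

variable {K : Type} [Field K] {n : ℕ}

/-- the monomial with the exponents `s`, `t` at `i`, `l` -/
def M (K : Type) [Field K] (e : Fin n →₀ ℕ) (i l : Fin n) (s t : ℕ) : RX K n :=
  monomial ((e.update i s).update l t) (1 : K)

theorem X_i_mul (e : Fin n →₀ ℕ) (i l : Fin n) (h : i ≠ l) (s t : ℕ) :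
    (X i : RX K n) * M K e i l s t = M K e i l (s + 1) t := by
  unfold M
  rw [X, monomial_mul, one_mul]
  refine congrArg (fun d : Fin n →₀ ℕ => (monomial d (1 : K) : RX K n)) ?_
  ext j
  rw [Finsupp.add_apply, Finsupp.single_apply, Finsupp.update_apply, Finsupp.update_apply,
    Finsupp.update_apply, Finsupp.update_apply]
  by_cases h1 : j = l
  · subst h1
    rw [if_neg h, if_pos rfl, if_pos rfl, zero_add]
  · rw [if_neg h1, if_neg h1]
    by_cases h2 : j = i
    · subst h2
      rw [if_pos rfl, if_pos rfl, if_pos rfl, add_comm]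
    · rw [if_neg (Ne.symm h2), if_neg h2, if_neg h2, zero_add]

theorem X_l_mul (e : Fin n →₀ ℕ) (i l : Fin n) (h : i ≠ l) (s t : ℕ) :
    (X l : RX K n) * M K e i l s t = M K e i l s (t + 1) := by
  unfold M
  rw [X, monomial_mul, one_mul]
  refine congrArg (fun d : Fin n →₀ ℕ => (monomial d (1 : K) : RX K n)) ?_
  ext j
  rw [Finsupp.add_apply, Finsupp.single_apply, Finsupp.update_apply, Finsupp.update_apply,
    Finsupp.update_apply, Finsupp.update_apply]
  by_cases h1 : j = l
  · subst h1
    rw [if_pos rfl, if_pos rfl, if_pos rfl, add_comm]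
  · rw [if_neg h1, if_neg h1, if_neg (Ne.symm h1), zero_add]

theorem M_self (e : Fin n →₀ ℕ) (i l : Fin n) :
    M K e i l (e i) (e l) = monomial e (1 : K) := by
  unfold M
  refine congrArg (fun d : Fin n →₀ ℕ => (monomial d (1 : K) : RX K n)) ?_
  ext j
  rw [Finsupp.update_apply, Finsupp.update_apply]
  by_cases h1 : j = l
  · subst h1
    rw [if_pos rfl]
  · rw [if_neg h1]
    by_cases h2 : j = i
    · subst h2
      rw [if_pos rfl]
    · rw [if_neg h2]

theorem M_swap (e : Fin n →₀ ℕ) (i l : Fin n) :
    M K e i l (e l) (e i) = rename (Equiv.swap i l) (monomial e (1 : K)) := by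
  unfold M
  rw [rename_monomial]
  refine congrArg (fun d : Fin n →₀ ℕ => (monomial d (1 : K) : RX K n)) ?_
  ext j
  rw [Finsupp.update_apply, Finsupp.update_apply]
  have hj : j = Equiv.swap i l (Equiv.swap i l j) := (Equiv.swap_apply_self i l j).symm
  rw [hj, Finsupp.mapDomain_apply (Equiv.injective _), ← hj]
  by_cases h1 : j = l
  · subst h1
    rw [if_pos rfl, Equiv.swap_apply_right]
  · rw [if_neg h1]
    by_cases h2 : j = i
    · subst h2
      rw [if_pos rfl, Equiv.swap_apply_left]
    · rw [if_neg h2, Equiv.swap_apply_of_ne_of_ne h2 h1]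

theorem sum_aux (e : Fin n →₀ ℕ) (i l : Fin n) (h : i ≠ l) (a b : ℕ)
    (hab : a ≤ b) (hb : b ≤ e i + e l) :
    (X i - X l : RX K n) * ∑ c ∈ Finset.Ico a b,
      monomial ((e.update i (c + 1)).update l (e i + e l - 1 - c)) (1 : K) =
    M K e i l (b + 1) (e i + e l - b) - M K e i l (a + 1) (e i + e l - a) := by
  have h1 : ∀ c ∈ Finset.Ico a b, (X i - X l : RX K n) *
      monomial ((e.update i (c + 1)).update l (e i + e l - 1 - c)) (1 : K) =
      M K e i l (c + 1 + 1) (e i + e l - (c + 1)) - M K e i l (c + 1) (e i + e l - c) := by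
    intro c hc
    rw [Finset.mem_Ico] at hc
    have h2 : e i + e l - 1 - c = e i + e l - (c + 1) := by omega
    have h3 : e i + e l - c = e i + e l - (c + 1) + 1 := by omega
    rw [h2, sub_mul, h3, ← X_l_mul e i l h, ← X_i_mul e i l h (c + 1)]
    rfl
  rw [Finset.mul_sum, Finset.sum_congr rfl h1]
  exact Finset.sum_Ico_sub (fun c => M K e i l (c + 1) (e i + e l - c)) hab

theorem mon (e : Fin n →₀ ℕ) (i l : Fin n) (h : i ≠ l) :
    (X i - X l : RX K n) * nopMon K i l e =
      X i * (monomial e (1 : K) - rename (Equiv.swap i l) (monomial e (1 : K))) := by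
  unfold nopMon
  rw [mul_sub, mul_sub, ← M_swap, ← M_self e i l, X_i_mul e i l h, X_i_mul e i l h]
  rcases le_total (e l) (e i) with h1 | h1
  · rw [Finset.Ico_eq_empty_of_le h1, Finset.sum_empty, mul_zero, sub_zero,
      sum_aux e i l h _ _ h1 (by omega)]
    rw [show e i + e l - e i = e l by omega, show e i + e l - e l = e i by omega]
  · rw [Finset.Ico_eq_empty_of_le h1, Finset.sum_empty, mul_zero, zero_sub,
      sum_aux e i l h _ _ h1 (by omega)]
    rw [show e i + e l - e i = e l by omega, show e i + e l - e l = e i by omega, neg_sub]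

theorem X_sub_ne (i l : Fin n) (h : i ≠ l) : (X i - X l : RX K n) ≠ 0 := by
  intro h0
  have h1 : (X i : RX K n) = X l := sub_eq_zero.1 h0
  exact h (X_injective h1)

end NopMul

/-- the characterisation of `Nop` -/
theorem nop_char {K : Type} [Field K] {n : ℕ} (i l : Fin n) (h : i ≠ l) (F : RX K n) :
    (X i - X l : RX K n) * Nop K i l F = X i * (F - rename (Equiv.swap i l) F) := by
  have key : LinearMap.mulLeft K (X i - X l : RX K n) ∘ₗ Nop K i l =
      LinearMap.mulLeft K (X i : RX K n) ∘ₗ
        (LinearMap.id - (rename (Equiv.swap i l) : RX K n →ₐ[K] RX K n).toLinearMap) := by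
    refine (basisMonomials (Fin n) K).ext fun e => ?_
    have h1 : Nop K i l (basisMonomials (Fin n) K e) = nopMon K i l e :=
      (basisMonomials (Fin n) K).constr_basis K _ e
    rw [LinearMap.comp_apply, h1, coe_basisMonomials]
    exact NopMul.mon e i l h
  exact LinearMap.congr_fun key F

/-- `Nop` commutes with multiplication by functions symmetric in `x_i, x_l`. -/
theorem nopMul (K : Type) [Field K] : NopMulSt K := by
  intro n i l h S F hS
  apply mul_left_cancel₀ (NopMul.X_sub_ne (K := K) i l h)
  rw [nop_char i l h, map_mul, hS]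
  calc (X i : RX K n) * (S * F - S * rename (Equiv.swap i l) F)
      = S * (X i * (F - rename (Equiv.swap i l) F)) := by ring
    _ = S * ((X i - X l) * Nop K i l F) := by rw [nop_char i l h]
    _ = (X i - X l) * (S * Nop K i l F) := by ring

/-- the values on constants -/
theorem nop_one {K : Type} [Field K] {n : ℕ} (i l : Fin n) (h : i ≠ l) :
    Nop K i l (1 : RX K n) = 0 := by
  apply mul_left_cancel₀ (NopMul.X_sub_ne (K := K) i l h)
  rw [nop_char i l h, map_one, sub_self, mul_zero, mul_zero]

/-- the values on the powers of `x_i` -/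
theorem nop_X_pow {K : Type} [Field K] {n : ℕ} (i l : Fin n) (h : i ≠ l) (j : ℕ) :
    Nop K i l ((X i : RX K n) ^ j) = ∑ a ∈ Finset.Icc 1 j, (X i : RX K n) ^ a * X l ^ (j - a) := by
  apply mul_left_cancel₀ (NopMul.X_sub_ne (K := K) i l h)
  rw [nop_char i l h, map_pow, rename_X, Equiv.swap_apply_left]
  have h1 : ∀ m ≤ j, (X i - X l : RX K n) * ∑ a ∈ Finset.Icc 1 m, (X i : RX K n) ^ a * X l ^ (j - a) =
      X i * (X i ^ m * X l ^ (j - m) - X l ^ j) := by
    intro m
    induction m with
    | zero =>
      intro _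
      rw [Finset.Icc_eq_empty (by omega), Finset.sum_empty, mul_zero, Nat.sub_zero, pow_zero,
        one_mul, sub_self, mul_zero]
    | succ m ih =>
      intro hm
      rw [Finset.sum_Icc_succ_top (by omega), mul_add, ih (by omega)]
      have h2 : j - m = j - (m + 1) + 1 := by omega
      rw [h2]
      ring
  rw [h1 j le_rfl, Nat.sub_self, pow_zero, mul_one]

end

end Pool.Agent.MJR
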