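import Pool.Agent.MJR.St

/-!
Module `OrdM`: dominance is an order relation; partitions of `n` with at least `n - 2` parts.
-/

set_option autoImplicit false

namespace Pool.Agent.MJR

namespace OrdM

theorem list_eq : ∀ (l l' : List ℕ), (∀ x ∈ l, 0 < x) → (∀ x ∈ l', 0 < x) →
    (∀ k : ℕ, (l.take k).sum = (l'.take k).sum) → l = l'
  | [], [], _, _, _ => rfl
  | [], b :: t, _, h', hs => by
    have h1 := hs 1
    have h2 := h' b List.mem_cons_self
    simp at h1
    omega
  | a :: t, [], h, _, hs => by
    have h1 := hs 1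
    have h2 := h a List.mem_cons_self
    simp at h1
    omega
  | a :: t, b :: t', h, h', hs => by
    have h1 : a = b := by
      have h2 := hs 1
      simpa using h2
    subst h1
    have h3 := list_eq t t' (fun x hx => h x (List.mem_cons_of_mem _ hx))
      (fun x hx => h' x (List.mem_cons_of_mem _ hx)) fun k => by
        have h2 := hs (k + 1)
        simp only [List.take_succ_cons, List.sum_cons] at h2
        omega
    rw [h3]

theorem srt_pos {n : ℕ} (a : n.Partition) : ∀ x ∈ srt a, 0 < x := by
  intro x hx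
  unfold srt at hx
  rw [Multiset.mem_sort] at hx
  exact a.parts_pos hx

theorem srt_coe {n : ℕ} (a : n.Partition) : ((srt a : List ℕ) : Multiset ℕ) = a.parts := by
  unfold srt
  exact Multiset.sort_eq _ _

/-- a multiset of numbers `≥ 2` whose sum is at most the number of elements plus `2` -/
theorem small (m : Multiset ℕ) (h : ∀ x ∈ m, 2 ≤ x) (hs : m.sum ≤ m.card + 2) :
    m = 0 ∨ m = {2} ∨ m = {3} ∨ m = {2, 2} := by
  have h1 : m.card • 2 ≤ m.sum := Multiset.card_nsmul_le_sum h
  rw [smul_eq_mul] at h1
  have h2 : m.card ≤ 2 := by omega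
  obtain h3 | h3 | h3 : m.card = 0 ∨ m.card = 1 ∨ m.card = 2 := by omega
  · exact Or.inl (Multiset.card_eq_zero.1 h3)
  · obtain ⟨a, rfl⟩ := Multiset.card_eq_one.1 h3
    have h4 := h a (Multiset.mem_singleton_self a)
    rw [Multiset.sum_singleton, Multiset.card_singleton] at hs
    obtain rfl | rfl : a = 2 ∨ a = 3 := by omega
    · exact Or.inr (Or.inl rfl)
    · exact Or.inr (Or.inr (Or.inl rfl))
  · obtain ⟨a, b, rfl⟩ := Multiset.card_eq_two.1 h3
    have h4 := h a (by simp)
    have h5 := h b (by simp)
    have h6 : ({a, b} : Multiset ℕ).sum = a + b := by simp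
    rw [h6, h3] at hs
    obtain ⟨rfl, rfl⟩ : a = 2 ∧ b = 2 := by omega
    exact Or.inr (Or.inr (Or.inr rfl))

end OrdM

theorem domOrd : DomOrdSt := by
  intro n
  refine ⟨fun a k => le_rfl, fun a b c hab hbc k => (hab k).trans (hbc k), fun a b hab hba => ?_⟩
  have h1 : srt a = srt b := OrdM.list_eq _ _ (OrdM.srt_pos a) (OrdM.srt_pos b)
    fun k => le_antisymm (hab k) (hba k)
  apply Nat.Partition.ext
  rw [← OrdM.srt_coe a, ← OrdM.srt_coe b, h1]

theorem shapeM : ShapeSt := by
  intro n v hv
  have h1 : v.parts = v.parts.filter (fun x => ¬ x = 1) + Multiset.replicate (v.parts.count 1) 1 := by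
    have h2 := Multiset.filter_add_not (fun x => x = 1) v.parts
    have h3 : v.parts.filter (fun x => x = 1) = Multiset.replicate (v.parts.count 1) 1 :=
      Multiset.filter_eq' v.parts 1
    rw [h3, add_comm] at h2
    exact h2.symm
  have hsum : n = (v.parts.filter (fun x => ¬ x = 1)).sum + v.parts.count 1 := by
    have h2 := v.parts_sum
    rw [h1, Multiset.sum_add, Multiset.sum_replicate, smul_eq_mul, mul_one] at h2
    have h3 : Multiset.count 1 (v.parts.filter (fun x => ¬ x = 1) +
        Multiset.replicate (v.parts.count 1) 1) = v.parts.count 1 := by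
      rw [← h1]
    exact h2.symm
  have hcard : v.parts.card = (v.parts.filter (fun x => ¬ x = 1)).card + v.parts.count 1 := by
    have h2 := congrArg Multiset.card h1
    rwa [Multiset.card_add, Multiset.card_replicate] at h2
  have hm : ∀ x ∈ v.parts.filter (fun x => ¬ x = 1), 2 ≤ x := by
    intro x hx
    obtain ⟨h2, h3⟩ := Multiset.mem_filter.1 hx
    have h4 := v.parts_pos h2
    omega
  have key : ∀ s : Fin 4, v.parts.filter (fun x => ¬ x = 1) = Sh s → IsSh s v := by
    intro s hs
    unfold IsSh
    rw [hs] at h1 hsum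
    have h2 : n - (Sh s).sum = v.parts.count 1 := by omega
    rw [h2]
    exact h1
  rcases OrdM.small _ hm (by omega) with h | h | h | h
  · exact ⟨0, key 0 h⟩
  · exact ⟨1, key 1 h⟩
  · exact ⟨2, key 2 h⟩
  · exact ⟨3, key 3 h⟩

end Pool.Agent.MJR
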