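import Pool.Agent.MJR.St
import Pool.Agent.MJR.Basic

/-!
The coefficients of `phi` at a class of rank at most two (module PhiM, helper6).
-/

set_option linter.unusedVariables false

namespace Pool.Agent.MJR

open MvPolynomial
open scoped Nat

noncomputable section

variable {K : Type} [Field K]

namespace PhiM

theorem prod_X {σ : Type} [DecidableEq σ] (f : ℕ → σ) (s : Multiset ℕ) :
    (s.map fun k => (X (f k) : MvPolynomial σ K)).prod =
      monomial (Multiset.toFinsupp (s.map f)) 1 := by
  induction s using Multiset.induction_on with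
  | empty => simp
  | cons a s ih =>
    rw [Multiset.map_cons, Multiset.prod_cons, ih, Multiset.map_cons, ← Multiset.singleton_add,
      map_add, Multiset.toFinsupp_singleton]
    rw [X, monomial_mul, one_mul]

theorem cnt {q : ℕ} (a b : Fin q) (k : ℕ) (s : Multiset ℕ) :
    Multiset.count (a, k) (s.map fun k => (b, k)) = if a = b then Multiset.count k s else 0 := by
  split_ifs with h
  · subst h
    exact Multiset.count_map_eq_count' (fun k => (a, k)) s (fun x y h => (Prod.mk.inj h).2) k
  · rw [Multiset.count_eq_zero]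
    intro h'
    obtain ⟨x, -, hx⟩ := Multiset.mem_map.1 h'
    exact h (Prod.mk.inj hx).1.symm

theorem expo3_inj {n : ℕ} {t m v t' m' v' : n.Partition}
    (h : expo3 t m v = expo3 t' m' v') : t = t' ∧ m = m' ∧ v = v' := by
  have key : ∀ (a : Fin 3) (k : ℕ), expo3 t m v (a, k) = expo3 t' m' v' (a, k) :=
    fun a k => DFunLike.congr_fun h (a, k)
  simp only [expo3, Multiset.toFinsupp_apply, Multiset.count_add, cnt] at key
  refine ⟨Nat.Partition.ext (Multiset.ext.2 fun k => ?_),
    Nat.Partition.ext (Multiset.ext.2 fun k => ?_), Nat.Partition.ext (Multiset.ext.2 fun k => ?_)⟩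
  · simpa using key 0 k
  · simpa using key 1 k
  · simpa using key 2 k

theorem coeff_Ja {n : ℕ} (J : n.Partition → n.Partition → K) (l t m v : n.Partition) :
    coeff (expo3 t m v) (Ja J l 0 * Ja J l 1 * Ja J l 2) = J l t * J l m * J l v := by
  classical
  have h1 : ∀ r r' r'' : n.Partition,
      (pa 0 r * pa 1 r' * pa 2 r'' : B3 K) = monomial (expo3 r r' r'') 1 := by
    intro r r' r''
    unfold pa expo3
    rw [prod_X (K := K) (fun k => ((0 : Fin 3), k)), prod_X (K := K) (fun k => ((1 : Fin 3), k)),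
      prod_X (K := K) (fun k => ((2 : Fin 3), k)), monomial_mul, monomial_mul, one_mul, one_mul,
      map_add, map_add]
  have h2 : Ja J l 0 * Ja J l 1 * Ja J l 2 = ∑ r, ∑ r', ∑ r'',
      C (J l r * J l r' * J l r'') * (monomial (expo3 r r' r'') 1 : B3 K) := by
    unfold Ja
    rw [Finset.sum_mul_sum, Finset.sum_mul]
    refine Finset.sum_congr rfl fun r _ => ?_
    rw [Finset.sum_mul]
    refine Finset.sum_congr rfl fun r' _ => ?_
    rw [Finset.mul_sum]
    refine Finset.sum_congr rfl fun r'' _ => ?_
    rw [← h1, C_mul, C_mul]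
    ring
  have h3 : ∀ r r' r'' : n.Partition, coeff (expo3 t m v) (monomial (expo3 r r' r'') (1 : K)) =
      if r = t then (if r' = m then (if r'' = v then 1 else 0) else 0) else 0 := by
    intro r r' r''
    rw [coeff_monomial]
    by_cases h : expo3 r r' r'' = expo3 t m v
    · obtain ⟨e1, e2, e3⟩ := expo3_inj h
      rw [if_pos h, if_pos e1, if_pos e2, if_pos e3]
    · rw [if_neg h]
      split_ifs with e1 e2 e3
      · exact absurd (by rw [e1, e2, e3]) h
      · rfl
      · rfl
      · rfl
  rw [h2]
  simp only [coeff_sum, coeff_C_mul, h3, mul_ite, mul_one, mul_zero]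
  rw [Finset.sum_eq_single t, Finset.sum_eq_single m, Finset.sum_eq_single v]
  · simp
  · intro b _ hb
    simp [hb]
  · intro h
    exact absurd (Finset.mem_univ v) h
  · intro b _ hb
    simp [hb]
  · intro h
    exact absurd (Finset.mem_univ m) h
  · intro b _ hb
    simp [hb]
  · intro h
    exact absurd (Finset.mem_univ t) h

theorem expo2_iff {n : ℕ} (t m r : n.Partition) (e : ℕ →₀ ℕ) :
    Multiset.toFinsupp (r.parts.map fun k => ((0 : Fin 2), k)) +
      e.mapDomain (fun k => ((1 : Fin 2), k)) = expo2 t m ↔ r = t ∧ e = expo m := by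
  have hinj : Function.Injective fun k : ℕ => ((1 : Fin 2), k) := fun x y h => (Prod.mk.inj h).2
  have h0 : ∀ k, e.mapDomain (fun k => ((1 : Fin 2), k)) ((0 : Fin 2), k) = 0 := by
    intro k
    refine Finsupp.mapDomain_of_notMem_range _ _ ?_
    rintro ⟨x, hx⟩
    exact absurd (Prod.mk.inj hx).1 (by decide)
  have h1 : ∀ k, e.mapDomain (fun k => ((1 : Fin 2), k)) ((1 : Fin 2), k) = e k := fun k =>
    Finsupp.mapDomain_apply hinj e k
  constructor
  · intro h
    have key : ∀ (a : Fin 2) (k : ℕ), _ := fun a k => DFunLike.congr_fun h (a, k)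
    simp only [expo2, Finsupp.add_apply, Multiset.toFinsupp_apply, Multiset.count_add, cnt] at key
    refine ⟨Nat.Partition.ext (Multiset.ext.2 fun k => ?_), Finsupp.ext fun k => ?_⟩
    · have h2 := key 0 k
      rw [h0] at h2
      simpa using h2
    · have h2 := key 1 k
      rw [h1] at h2
      unfold expo
      rw [Multiset.toFinsupp_apply]
      simpa using h2
  · rintro ⟨rfl, rfl⟩
    refine Finsupp.ext fun x => ?_
    obtain ⟨a, k⟩ := x
    simp only [expo2, Finsupp.add_apply, Multiset.toFinsupp_apply, Multiset.count_add, cnt]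
    have ha : a = 0 ∨ a = 1 := by
      revert a
      decide
    rcases ha with rfl | rfl
    · rw [h0]
      simp
    · rw [h1]
      unfold expo
      rw [Multiset.toFinsupp_apply]
      simp

theorem coeff_ixiy {n : ℕ} [DecidableEq n.Partition] (t m r : n.Partition) (g : Lam K) :
    coeff (expo2 t m) (ix (pp K r) * iy g) = if r = t then coeff (expo m) g else 0 := by
  classical
  have h1 : ix (pp K r) = monomial (Multiset.toFinsupp (r.parts.map fun k => ((0 : Fin 2), k)))
      (1 : K) := by
    unfold pp ix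
    rw [map_multiset_prod, Multiset.map_map, ← prod_X]
    congr 1
    refine Multiset.map_congr rfl fun k _ => ?_
    rw [Function.comp_apply, rename_X]
  rw [h1]
  induction g using MvPolynomial.induction_on' with
  | monomial e c =>
    unfold iy
    rw [rename_monomial, monomial_mul, one_mul, coeff_monomial, coeff_monomial]
    by_cases hr : r = t
    · rw [if_pos hr]
      by_cases he : e = expo m
      · rw [if_pos he, if_pos ((expo2_iff t m r e).2 ⟨hr, he⟩)]
      · rw [if_neg he, if_neg (fun h => he ((expo2_iff t m r e).1 h).2)]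
    · rw [if_neg hr, if_neg (fun h => hr ((expo2_iff t m r e).1 h).1)]
  | add p q hp hq =>
    rw [map_add, mul_add, coeff_add, hp, hq]
    split_ifs
    · rw [coeff_add]
    · rw [add_zero]

end PhiM

open PhiM

/-- the square norms of the Jack functions are not zero -/
theorem nrm_ne_zero [CharZero K] {al : K} (hA : Aniso K al) {n : ℕ}
    {J : n.Partition → n.Partition → K} (hJ : IsJack al n J) (l : n.Partition) :
    nrm al J l ≠ 0 := by
  intro h
  have h1 := hA n (J l) h
  have h2 := hJ.norm l
  rw [h1] at h2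
  simp only [Pi.zero_apply, zero_mul, Finset.sum_const_zero] at h2
  have h3 : ((n ! : ℕ) : K) ≠ 0 := Nat.cast_ne_zero.2 (Nat.factorial_ne_zero n)
  exact h3 h2.symm

theorem dualOrth' [CharZero K] {al : K} (hA : Aniso K al) {n : ℕ} [DecidableEq n.Partition]
    {J : n.Partition → n.Partition → K} (hJ : IsJack al n J) (r q : n.Partition) :
    ∑ l, wtp al r * J l r * (nrm al J l)⁻¹ * J l q = if r = q then 1 else 0 := by
  obtain ⟨P, hP⟩ : ∃ P : Matrix n.Partition n.Partition K, P = fun l r => J l r := ⟨_, rfl⟩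
  obtain ⟨Q, hQ⟩ : ∃ Q : Matrix n.Partition n.Partition K,
      Q = fun r l => wtp al r * J l r * (nrm al J l)⁻¹ := ⟨_, rfl⟩
  have hPQ : P * Q = 1 := by
    ext l k
    rw [Matrix.mul_apply, Matrix.one_apply, hP, hQ]
    have h1 : ∑ r, J l r * (wtp al r * J k r * (nrm al J k)⁻¹) =
        (∑ r, J l r * J k r * wtp al r) * (nrm al J k)⁻¹ := by
      rw [Finset.sum_mul]
      refine Finset.sum_congr rfl fun r _ => ?_
      ring
    rw [h1]
    split_ifs with h
    · subst h
      have h2 : ∑ r, J l r * J l r * wtp al r = nrm al J l := by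
        unfold nrm
        refine Finset.sum_congr rfl fun r _ => ?_
        ring
      rw [h2]
      exact mul_inv_cancel₀ (nrm_ne_zero hA hJ l)
    · rw [hJ.orth l k h, zero_mul]
  have hQP : Q * P = 1 := mul_eq_one_comm.1 hPQ
  have h1 := congrFun (congrFun hQP r) q
  rw [Matrix.mul_apply, Matrix.one_apply, hP, hQ] at h1
  exact h1

theorem wtp_ne_zero' [CharZero K] {al : K} (hA : Aniso K al) {n : ℕ}
    {J : n.Partition → n.Partition → K} (hJ : IsJack al n J) (r : n.Partition) :
    wtp al r ≠ 0 := by
  classical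
  intro h
  have h1 := dualOrth' hA hJ r r
  rw [if_pos rfl, h] at h1
  simp at h1

/-- dual orthogonality -/
theorem dualOrth [CharZero K] {al : K} (hA : Aniso K al) {n : ℕ} [DecidableEq n.Partition]
    {J : n.Partition → n.Partition → K} (hJ : IsJack al n J) (r q : n.Partition) :
    ∑ l, (nrm al J l)⁻¹ * (J l r * J l q) = if r = q then (wtp al r)⁻¹ else 0 := by
  have h1 := dualOrth' hA hJ r q
  have h2 : ∑ l, wtp al r * J l r * (nrm al J l)⁻¹ * J l q =
      wtp al r * ∑ l, (nrm al J l)⁻¹ * (J l r * J l q) := by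
    rw [Finset.mul_sum]
    refine Finset.sum_congr rfl fun l _ => ?_
    ring
  rw [h2] at h1
  have hw := wtp_ne_zero' hA hJ r
  rw [← mul_right_inj' hw, h1]
  split_ifs
  · rw [mul_inv_cancel₀ hw]
  · rw [mul_zero]

/-- the power sums in terms of the Jack functions -/
theorem pp_eq_sum_toL [CharZero K] {al : K} (hA : Aniso K al) {n : ℕ}
    {J : n.Partition → n.Partition → K} (hJ : IsJack al n J) (t : n.Partition) :
    pp K t = ∑ l, (wtp al t * J l t * (nrm al J l)⁻¹) • toL (J l) := by
  classical
  have h1 : ∀ l, (wtp al t * J l t * (nrm al J l)⁻¹) • toL (J l) =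
      ∑ q, C (wtp al t * J l t * (nrm al J l)⁻¹ * J l q) * pp K q := by
    intro l
    unfold toL
    rw [Finset.smul_sum]
    refine Finset.sum_congr rfl fun q _ => ?_
    rw [smul_eq_C_mul, ← mul_assoc, ← C_mul]
  rw [Finset.sum_congr rfl fun l _ => h1 l, Finset.sum_comm]
  have h2 : ∀ q, ∑ l, C (wtp al t * J l t * (nrm al J l)⁻¹ * J l q) * pp K q =
      C (if t = q then (1 : K) else 0) * pp K q := by
    intro q
    rw [← Finset.sum_mul, ← dualOrth' hA hJ t q, map_sum]
  rw [Finset.sum_congr rfl fun q _ => h2 q, Finset.sum_eq_single t]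
  · rw [if_pos rfl, C_1, one_mul]
  · intro q _ hq
    rw [if_neg (Ne.symm hq), C_0, zero_mul]
  · intro h
    exact absurd (Finset.mem_univ t) h

/-- the structure constants with a class of rank at most two -/
theorem phiLevel [CharZero K] {al : K} (hId : IdentSt K al) (hA : Aniso K al) {n : ℕ}
    {J : n.Partition → n.Partition → K} (hJ : IsJack al n J) (s : Fin 4) (t m v : n.Partition)
    (hs : IsSh s v) :
    ∑ l, (nrm al J l)⁻¹ * (J l t * J l m * J l v) =
      (wtp al t)⁻¹ * coeff (expo m) (Kop al s (pp K t)) := by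
  have hw := wtp_ne_zero' hA hJ t
  have hO : coeff (expo m) (Kop al s (pp K t)) =
      ∑ l, wtp al t * J l t * (nrm al J l)⁻¹ * (J l v * J l m) := by
    rw [pp_eq_sum_toL hA hJ t, map_sum, coeff_sum]
    refine Finset.sum_congr rfl fun l _ => ?_
    rw [map_smul, coeff_smul, hId n J hJ s v hs l, coeff_C_mul, coeff_toL, smul_eq_mul]
  rw [hO, Finset.mul_sum]
  refine Finset.sum_congr rfl fun l _ => ?_
  have h1 : (wtp al t)⁻¹ * (wtp al t * J l t * (nrm al J l)⁻¹ * (J l v * J l m)) =
      ((wtp al t)⁻¹ * wtp al t) * ((nrm al J l)⁻¹ * (J l t * J l m * J l v)) := by ring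
  rw [h1, inv_mul_cancel₀ hw, one_mul]

/-- the coefficients of `AA` -/
theorem coeff_AA (al : K) (O : Lam K →ₗ[K] Lam K) {n : ℕ} (t m : n.Partition) :
    coeff (expo2 t m) (PowerSeries.coeff n (AA al O)) =
      (wtp al t)⁻¹ * coeff (expo m) (O (pp K t)) := by
  classical
  unfold AA
  rw [PowerSeries.coeff_mk, coeff_sum]
  have hR : ∀ r, coeff (expo2 t m) (C (wtp al r)⁻¹ * ix (pp K r) * iy (O (pp K r))) =
      if r = t then (wtp al r)⁻¹ * coeff (expo m) (O (pp K r)) else 0 := by
    intro r
    rw [mul_assoc, coeff_C_mul, coeff_ixiy]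
    split_ifs
    · rfl
    · rw [mul_zero]
  rw [Finset.sum_congr rfl fun r _ => hR r, Finset.sum_ite_eq', if_pos (Finset.mem_univ t)]

/-- the coefficients of `phi` -/
theorem coeff_phi (al : K) (J : (n : ℕ) → n.Partition → n.Partition → K) {n : ℕ}
    (t m v : n.Partition) :
    coeff (expo3 t m v) (PowerSeries.coeff n (phi al J)) =
      ∑ l, (nrm al (J n) l)⁻¹ * (J n l t * J n l m * J n l v) := by
  unfold phi
  rw [PowerSeries.coeff_mk, coeff_sum]
  refine Finset.sum_congr rfl fun l _ => ?_
  rw [coeff_C_mul, coeff_Ja]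

theorem phiM (K : Type) [Field K] [CharZero K] (al : K) (hal : al ≠ 0) (hId : IdentSt K al)
    (hA : Aniso K al) : PhiSt K al := by
  intro J hJ s n t m v hs
  rw [coeff_phi, coeff_AA, phiLevel hId hA (hJ n) s t m v hs]

end

end Pool.Agent.MJR
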