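import Pool.Agent.MJR.St
import Pool.Agent.MJR.Basic

/-!
Positivity of the coefficients of `AA` (helper82).
-/

set_option autoImplicit false
set_option linter.unusedVariables false

namespace Pool.Agent.MJR

open MvPolynomial
open scoped Nat

noncomputable section

namespace PiM

variable {K : Type} [Field K]

private theorem AA_zero (al : K) : AA al (0 : Lam K →ₗ[K] Lam K) = 0 := by
  ext n
  simp [AA]

private theorem A0 (al : K) : PowerSeries.coeff 0 (AA al LinearMap.id) = (1 : B2 K) := by
  have hp : ∀ r : Nat.Partition 0, r.parts = 0 := by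
    intro r
    refine Multiset.eq_zero_of_forall_notMem fun i hi => ?_
    have h1 := Multiset.le_sum_of_mem hi
    rw [r.parts_sum] at h1
    have h2 := r.parts_pos hi
    omega
  have h1 : ∀ r : Nat.Partition 0,
      (C (wtp al r)⁻¹ * ix (pp K r) * iy ((LinearMap.id : Lam K →ₗ[K] Lam K) (pp K r)) : B2 K) = 1 := by
    intro r
    have h2 : pp K r = 1 := by simp [pp, hp r]
    have h3 : wtp al r = 1 := by simp [wtp, zed, hp r]
    rw [h3, LinearMap.id_apply, h2, map_one, map_one]
    simp
  have h4 : Fintype.card (Nat.Partition 0) = 1 := by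
    rw [Fintype.card_eq_one_iff]
    exact ⟨ones 0, fun r => Nat.Partition.ext (by rw [hp r, hp (ones 0)])⟩
  unfold AA
  rw [PowerSeries.coeff_mk, Finset.sum_congr rfl fun r _ => h1 r, Finset.sum_const,
    Finset.card_univ, h4, one_smul]

private theorem fac (al : K) (n k : ℕ) (hk : k ≤ n) :
    ∃ c ∈ Nb al, al ^ n * (n ! : K) = c * (al ^ k * (k ! : K)) := by
  obtain ⟨d, hd⟩ := Nat.factorial_dvd_factorial hk
  refine ⟨al ^ (n - k) * (d : K), mul_mem (pow_mem (al_mem_Nb al) _) (natCast_mem_Nb al d), ?_⟩
  rw [hd, Nat.cast_mul]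
  have : al ^ n = al ^ (n - k) * al ^ k := by rw [← pow_add]; congr 1; omega
  rw [this]
  ring

private theorem stepA (al : K) (hA : RecASt K al) :
    ∀ n : ℕ, C (al ^ n * (n ! : K)) * PowerSeries.coeff n (AA al LinearMap.id) ∈
      (PS al : Subsemiring (B2 K)) := by
  intro n
  induction n using Nat.strong_induction_on with
  | _ n ih =>
    rcases n with _ | n
    · rw [A0]
      simp only [pow_zero, Nat.factorial_zero, Nat.cast_one, mul_one, C_1]
      exact one_mem _
    · have h1 : C (al ^ (n + 1) * ((n + 1)! : K)) *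
          PowerSeries.coeff (n + 1) (AA al LinearMap.id) =
          ∑ k ∈ Finset.Icc 1 (n + 1), (X (0, k) * X (1, k)) * (C (al ^ n * (n ! : K)) *
            PowerSeries.coeff (n + 1 - k) (AA al LinearMap.id)) := by
        have h2 := hA LinearMap.id (n + 1)
        have h3 : (C (al ^ (n + 1) * ((n + 1)! : K)) : B2 K) =
            C (al ^ n * (n ! : K)) * C (al * ((n + 1 : ℕ) : K)) := by
          rw [← C_mul, Nat.factorial_succ, Nat.cast_mul]
          congr 1
          ring
        rw [h3, mul_assoc, h2, Finset.mul_sum]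
        refine Finset.sum_congr rfl fun k _ => ?_
        rw [comm_id, AA_zero, map_zero]
        ring
      rw [h1]
      refine sum_mem fun k hk => mul_mem (mul_mem (X_mem_PS al _) (X_mem_PS al _)) ?_
      rw [Finset.mem_Icc] at hk
      obtain ⟨c, hc, hc2⟩ := fac al n (n + 1 - k) (by omega)
      rw [hc2, C_mul, mul_assoc]
      exact mul_mem (C_mem_PS al hc) (ih (n + 1 - k) (by omega))

private theorem prodS (al : K) (S A : PowerSeries (B2 K))
    (hAn : ∀ n : ℕ, C (al ^ n * (n ! : K)) * PowerSeries.coeff n A ∈ PS al) (c : K) (w : ℕ)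
    (h0 : ∀ i < w, PowerSeries.coeff i S = 0)
    (h1 : ∀ i, C c * PowerSeries.coeff i S ∈ PS al) (n : ℕ) (hn : w ≤ n) :
    C (c * (al ^ (n - w) * ((n - w)! : K))) * PowerSeries.coeff n (S * A) ∈ PS al := by
  rw [PowerSeries.coeff_mul, Finset.mul_sum]
  refine sum_mem fun ij hij => ?_
  rw [Finset.HasAntidiagonal.mem_antidiagonal] at hij
  rcases lt_or_ge ij.1 w with h | h
  · rw [h0 _ h, zero_mul, mul_zero]
    exact zero_mem _
  · obtain ⟨e, he, he2⟩ := fac al (n - w) ij.2 (by omega)
    have : (C (c * (al ^ (n - w) * ((n - w)! : K))) *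
        (PowerSeries.coeff ij.1 S * PowerSeries.coeff ij.2 A) : B2 K) =
        C c * PowerSeries.coeff ij.1 S * (C e * (C (al ^ ij.2 * (ij.2 ! : K)) *
          PowerSeries.coeff ij.2 A)) := by
      rw [he2]
      simp only [C_mul]
      ring
    rw [this]
    exact mul_mem (h1 _) (mul_mem (C_mem_PS al he) (hAn _))

private theorem zedS {n : ℕ} (r : n.Partition) (s : Finset ℕ) (h : r.parts.toFinset ⊆ s) :
    zed r = ∏ i ∈ s, i ^ (r.parts.count i) * (r.parts.count i)! := by
  unfold zed
  refine Finset.prod_subset h fun i _ hi => ?_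
  rw [Multiset.mem_toFinset] at hi
  rw [Multiset.count_eq_zero_of_notMem hi]
  simp

/-- the case of a class with one or two parts larger than one -/
private theorem main (al : K) (hA : RecASt K al) (hS : RecSSt K al) (O : Lam K →ₗ[K] Lam K)
    (c : K) (w : ℕ) (h0 : ∀ i < w, PowerSeries.coeff i (SS al O) = 0)
    (h1 : ∀ i, C c * PowerSeries.coeff i (SS al O) ∈ (PS al : Subsemiring (B2 K))) (n : ℕ)
    (hn : w ≤ n) :
    C (c * (al ^ (n - w) * ((n - w)! : K))) * PowerSeries.coeff n (AA al O) ∈ PS al := by
  rw [(hS O).1]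
  exact prodS al _ _ (stepA al hA) c w h0 h1 n hn

private theorem Dop1 (al : K) : Dop al 1 = 0 := by
  unfold Dop
  rw [LinearMap.sub_apply, LinearMap.smul_apply, LinearMap.smul_apply, H_one, E_one, smul_zero,
    smul_zero, sub_zero]

private theorem K31 (al : K) : K3 al 1 = 0 := by
  unfold K3
  simp only [LinearMap.smul_apply, LinearMap.sub_apply, LinearMap.comp_apply, H_one, E_one, Dop1,
    map_zero, smul_zero, sub_zero]

private theorem K221 (al : K) : K22 al 1 = 0 := by
  unfold K22
  simp only [LinearMap.smul_apply, LinearMap.sub_apply, LinearMap.comp_apply, K31, E_one, Dop1,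
    map_zero, smul_zero, sub_zero]

end PiM

open PiM in
/-- Positivity of the coefficients of `AA`. -/
theorem piM (K : Type) [Field K] [CharZero K] (al : K) (hal : al ≠ 0) (hA : RecASt K al)
    (hS : RecSSt K al)
    (hP : ∀ n : ℕ, 1 ≤ n →
      (C (2 * al) * PowerSeries.coeff n (SS al (Dop al)) ∈ PS al ∧
        C (3 * al) * PowerSeries.coeff n (SS al (K3 al)) ∈ PS al ∧
        C (8 * al) * PowerSeries.coeff n
          (SS al (K22 al) - PowerSeries.C (C (2 : K)⁻¹) * SS al (Dop al) ^ 2) ∈ PS al) ∧
      (n < 2 → PowerSeries.coeff n (SS al (Dop al)) = 0) ∧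
      (n < 3 → PowerSeries.coeff n (SS al (K3 al)) = 0) ∧
      (n < 4 → PowerSeries.coeff n
        (SS al (K22 al) - PowerSeries.C (C (2 : K)⁻¹) * SS al (Dop al) ^ 2) = 0)) :
    PiSt K al := by
  -- the constant coefficients
  have z1 : PowerSeries.coeff 0 (SS al (Dop al)) = 0 := by
    rw [(hS _).2.1, Dop1, map_zero]
  have z2 : PowerSeries.coeff 0 (SS al (K3 al)) = 0 := by
    rw [(hS _).2.1, K31, map_zero]
  have z3 : PowerSeries.coeff 0 (SS al (K22 al)) = 0 := by
    rw [(hS _).2.1, K221, map_zero]
  have dV : ∀ i < 2, PowerSeries.coeff i (SS al (Dop al)) = 0 := by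
    intro i hi
    rcases Nat.eq_zero_or_pos i with rfl | h
    · exact z1
    · exact (hP i h).2.1 hi
  have dP : ∀ i, C (2 * al) * PowerSeries.coeff i (SS al (Dop al)) ∈
      (PS al : Subsemiring (B2 K)) := by
    intro i
    rcases Nat.eq_zero_or_pos i with rfl | h
    · rw [z1, mul_zero]; exact zero_mem _
    · exact (hP i h).1.1
  have tV : ∀ i < 3, PowerSeries.coeff i (SS al (K3 al)) = 0 := by
    intro i hi
    rcases Nat.eq_zero_or_pos i with rfl | h
    · exact z2
    · exact (hP i h).2.2.1 hi
  have tP : ∀ i, C (3 * al) * PowerSeries.coeff i (SS al (K3 al)) ∈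
      (PS al : Subsemiring (B2 K)) := by
    intro i
    rcases Nat.eq_zero_or_pos i with rfl | h
    · rw [z2, mul_zero]; exact zero_mem _
    · exact (hP i h).1.2.1
  -- the square
  have sqc : ∀ i, PowerSeries.coeff i (SS al (Dop al) ^ 2) =
      ∑ ab ∈ Finset.HasAntidiagonal.antidiagonal i, PowerSeries.coeff ab.1 (SS al (Dop al)) *
        PowerSeries.coeff ab.2 (SS al (Dop al)) := by
    intro i
    rw [pow_two, PowerSeries.coeff_mul]
  have sqV : ∀ i < 4, PowerSeries.coeff i (SS al (Dop al) ^ 2) = 0 := by
    intro i hi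
    rw [sqc]
    refine Finset.sum_eq_zero fun ab hab => ?_
    rw [Finset.HasAntidiagonal.mem_antidiagonal] at hab
    rcases lt_or_ge ab.1 2 with h | h
    · rw [dV _ h, zero_mul]
    · rw [dV ab.2 (by omega), mul_zero]
  have sqP : ∀ i, C ((2 * al) * (2 * al)) * PowerSeries.coeff i (SS al (Dop al) ^ 2) ∈
      (PS al : Subsemiring (B2 K)) := by
    intro i
    rw [sqc, Finset.mul_sum]
    refine sum_mem fun ab _ => ?_
    rw [C_mul, mul_mul_mul_comm]
    exact mul_mem (dP _) (dP _)
  have spl : ∀ i, PowerSeries.coeff i (SS al (K22 al)) =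
      PowerSeries.coeff i
        (SS al (K22 al) - PowerSeries.C (C (2 : K)⁻¹) * SS al (Dop al) ^ 2) +
      C (2 : K)⁻¹ * PowerSeries.coeff i (SS al (Dop al) ^ 2) := by
    intro i
    rw [map_sub, PowerSeries.coeff_C_mul]
    ring
  have kV : ∀ i < 4, PowerSeries.coeff i (SS al (K22 al)) = 0 := by
    intro i hi
    rcases Nat.eq_zero_or_pos i with rfl | h
    · exact z3
    · rw [spl, (hP i h).2.2.2 hi, sqV i hi, mul_zero, add_zero]
  have kP : ∀ i, C (8 * (al * al)) * PowerSeries.coeff i (SS al (K22 al)) ∈
      (PS al : Subsemiring (B2 K)) := by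
    intro i
    rcases Nat.eq_zero_or_pos i with rfl | h
    · rw [z3, mul_zero]; exact zero_mem _
    · have e1 : C (8 * (al * al)) * PowerSeries.coeff i (SS al (K22 al)) =
          C al * (C (8 * al) * PowerSeries.coeff i
            (SS al (K22 al) - PowerSeries.C (C (2 : K)⁻¹) * SS al (Dop al) ^ 2)) +
          C ((2 * al) * (2 * al)) * PowerSeries.coeff i (SS al (Dop al) ^ 2) := by
        have e2 : (C ((2 * al) * (2 * al)) : B2 K) = C (8 * (al * al)) * C (2 : K)⁻¹ := by
          rw [← C_mul]
          congr 1
          have h2 : (2 : K) ≠ 0 := two_ne_zero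
          field_simp
          ring
        have e3 : (C (8 * (al * al)) : B2 K) = C al * C (8 * al) := by
          rw [← C_mul]
          congr 1
          ring
        rw [e2, mul_assoc, ← mul_assoc (C al), ← e3, ← mul_add, ← spl]
      rw [e1]
      exact add_mem (mul_mem (C_mem_PS al (al_mem_Nb al)) (hP i h).1.2.2) (sqP i)
  intro s n v hv
  have hsum := v.parts_sum
  have key : ∀ s : Fin 4, IsSh s v →
      C (wtp al v) * PowerSeries.coeff n (AA al (Kop al s)) ∈ (PS al : Subsemiring (B2 K)) := by
    intro s hv
    unfold IsSh at hv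
    fin_cases s
    · have e0 : Sh (⟨0, by decide⟩ : Fin 4) = 0 := rfl
      change v.parts = Sh (⟨0, by decide⟩ : Fin 4) + Multiset.replicate
        (n - (Sh (⟨0, by decide⟩ : Fin 4)).sum) 1 at hv
      rw [e0, Multiset.sum_zero, zero_add, Nat.sub_zero] at hv
      have hw : wtp al v = al ^ n * (n ! : K) := by
        unfold wtp
        rw [zedS v {1} (by
          intro i hi
          rw [Multiset.mem_toFinset, hv] at hi
          rw [Multiset.eq_of_mem_replicate hi]
          simp), hv]
        simp
      rw [hw]
      exact stepA al hA n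
    · have e0 : Sh (⟨1, by decide⟩ : Fin 4) = {2} := rfl
      change v.parts = Sh (⟨1, by decide⟩ : Fin 4) + Multiset.replicate
        (n - (Sh (⟨1, by decide⟩ : Fin 4)).sum) 1 at hv
      rw [e0, Multiset.sum_singleton] at hv
      rw [hv, Multiset.sum_add, Multiset.sum_singleton, Multiset.sum_replicate, smul_eq_mul,
        mul_one] at hsum
      have hw : wtp al v = (2 * al) * (al ^ (n - 2) * ((n - 2)! : K)) := by
        unfold wtp
        rw [zedS v {1, 2} (by
          intro i hi
          rw [Multiset.mem_toFinset, hv, Multiset.mem_add] at hi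
          rcases hi with hi | hi
          · rw [Multiset.mem_singleton.1 hi]; simp
          · rw [Multiset.eq_of_mem_replicate hi]; simp), hv]
        rw [Finset.prod_pair (by decide), Multiset.card_add, Multiset.card_singleton,
          Multiset.card_replicate, Multiset.count_add, Multiset.count_add,
          Multiset.count_replicate, Multiset.count_replicate, Multiset.count_singleton,
          Multiset.count_singleton]
        simp
        ring
      rw [hw]
      exact main al hA hS (Dop al) (2 * al) 2 dV dP n (by omega)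
    · have e0 : Sh (⟨2, by decide⟩ : Fin 4) = {3} := rfl
      change v.parts = Sh (⟨2, by decide⟩ : Fin 4) + Multiset.replicate
        (n - (Sh (⟨2, by decide⟩ : Fin 4)).sum) 1 at hv
      rw [e0, Multiset.sum_singleton] at hv
      rw [hv, Multiset.sum_add, Multiset.sum_singleton, Multiset.sum_replicate, smul_eq_mul,
        mul_one] at hsum
      have hw : wtp al v = (3 * al) * (al ^ (n - 3) * ((n - 3)! : K)) := by
        unfold wtp
        rw [zedS v {1, 3} (by
          intro i hi
          rw [Multiset.mem_toFinset, hv, Multiset.mem_add] at hi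
          rcases hi with hi | hi
          · rw [Multiset.mem_singleton.1 hi]; simp
          · rw [Multiset.eq_of_mem_replicate hi]; simp), hv]
        rw [Finset.prod_pair (by decide), Multiset.card_add, Multiset.card_singleton,
          Multiset.card_replicate, Multiset.count_add, Multiset.count_add,
          Multiset.count_replicate, Multiset.count_replicate, Multiset.count_singleton,
          Multiset.count_singleton]
        simp
        ring
      rw [hw]
      exact main al hA hS (K3 al) (3 * al) 3 tV tP n (by omega)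
    · have e0 : Sh (⟨3, by decide⟩ : Fin 4) = {2, 2} := rfl
      change v.parts = Sh (⟨3, by decide⟩ : Fin 4) + Multiset.replicate
        (n - (Sh (⟨3, by decide⟩ : Fin 4)).sum) 1 at hv
      have e1 : ({2, 2} : Multiset ℕ).sum = 4 := by simp
      rw [e0, e1] at hv
      rw [hv, Multiset.sum_add, e1, Multiset.sum_replicate, smul_eq_mul,
        mul_one] at hsum
      have hw : wtp al v = (8 * (al * al)) * (al ^ (n - 4) * ((n - 4)! : K)) := by
        unfold wtp
        rw [zedS v {1, 2} (by
          intro i hi
          rw [Multiset.mem_toFinset, hv, Multiset.mem_add] at hi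
          rcases hi with hi | hi
          · have : i = 2 := by simpa using hi
            rw [this]; simp
          · rw [Multiset.eq_of_mem_replicate hi]; simp), hv]
        have c1 : Multiset.count 1 ({2, 2} : Multiset ℕ) = 0 := by decide
        have c2 : Multiset.count 2 ({2, 2} : Multiset ℕ) = 2 := by decide
        have c3 : Multiset.card ({2, 2} : Multiset ℕ) = 2 := by decide
        rw [Finset.prod_pair (by decide), Multiset.card_add, c3,
          Multiset.card_replicate, Multiset.count_add, Multiset.count_add,
          Multiset.count_replicate, Multiset.count_replicate, c1, c2]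
        simp
        ring
      rw [hw]
      exact main al hA hS (K22 al) (8 * (al * al)) 4 kV kP n (by omega)
  exact key s hv

end

end Pool.Agent.MJR
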