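import Pool.Agent.MJR.PosPsi12

/-!
Divided positivity of the three series of the closed forms: the closed forms times
`2 / n`, `3 / n`, `8 / n` are positive, and the first coefficients vanish.
-/

namespace Pool.Agent.MJR

open MvPolynomial

noncomputable section

variable {K : Type} [Field K]

namespace PiPosM

/-! ### Symmetric double sums -/

theorem reflect {M : Type} [AddCommMonoid M] (n : ℕ) (f : ℕ → M) :
    ∑ k ∈ Finset.Ico 1 n, f k = ∑ k ∈ Finset.Ico 1 n, f (n - k) := by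
  refine Finset.sum_nbij' (fun k => n - k) (fun k => n - k) ?_ ?_ ?_ ?_ ?_
  · intro k hk
    rw [Finset.mem_Ico] at hk ⊢
    omega
  · intro k hk
    rw [Finset.mem_Ico] at hk ⊢
    omega
  · intro k hk
    rw [Finset.mem_Ico] at hk
    show n - (n - k) = k
    omega
  · intro k hk
    rw [Finset.mem_Ico] at hk
    show n - (n - k) = k
    omega
  · intro k hk
    rw [Finset.mem_Ico] at hk
    show f k = f (n - (n - k))
    congr 1
    omega

theorem C_inv_mul {σ : Type} {c : K} (hc : c ≠ 0) (f : MvPolynomial σ K) :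
    C c⁻¹ * (C c * f) = f := by
  rw [← mul_assoc, ← C_mul, inv_mul_cancel₀ hc, C_1, one_mul]

theorem C_two {σ : Type} : (C (2 : K) : MvPolynomial σ K) = 2 := by
  rw [← Nat.cast_ofNat (R := K), C_eq_coe_nat, Nat.cast_ofNat]

theorem C_three {σ : Type} : (C (3 : K) : MvPolynomial σ K) = 3 := by
  rw [← Nat.cast_ofNat (R := K), C_eq_coe_nat, Nat.cast_ofNat]

theorem C_two_mul {σ : Type} (f : MvPolynomial σ K) : C (2 : K) * f = f + f := by
  rw [C_two, two_mul]

theorem C_three_mul {σ : Type} (f : MvPolynomial σ K) : C (3 : K) * f = f + f + f := by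
  rw [C_three]
  ring

theorem symm2 [CharZero K] {σ : Type} (n : ℕ) (w c : ℕ → K) (g : ℕ → MvPolynomial σ K)
    (hw : ∀ k ∈ Finset.Ico 1 n, w k + w (n - k) = 2 * c k)
    (hg : ∀ k ∈ Finset.Ico 1 n, g (n - k) = g k) :
    ∑ k ∈ Finset.Ico 1 n, C (w k) * g k = ∑ k ∈ Finset.Ico 1 n, C (c k) * g k := by
  have h2 : (2 : K) ≠ 0 := two_ne_zero
  have h : C (2 : K) * ∑ k ∈ Finset.Ico 1 n, C (w k) * g k
      = C (2 : K) * ∑ k ∈ Finset.Ico 1 n, C (c k) * g k := by
    have e : ∑ k ∈ Finset.Ico 1 n, C (w k) * g k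
        = ∑ k ∈ Finset.Ico 1 n, C (w (n - k)) * g k := by
      rw [reflect n]
      refine Finset.sum_congr rfl fun k hk => ?_
      rw [hg k hk]
    have e2 : C (2 : K) * ∑ k ∈ Finset.Ico 1 n, C (w k) * g k
        = ∑ k ∈ Finset.Ico 1 n, C (w k) * g k + ∑ k ∈ Finset.Ico 1 n, C (w (n - k)) * g k := by
      rw [← e, C_two_mul]
    rw [e2, ← Finset.sum_add_distrib, Finset.mul_sum]
    refine Finset.sum_congr rfl fun k hk => ?_
    rw [← add_mul, ← C_add, hw k hk, C_mul, mul_assoc]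
  rw [← C_inv_mul h2 (∑ k ∈ Finset.Ico 1 n, C (w k) * g k), h, C_inv_mul h2]

/-- Half of a symmetric sum is positive if half of the middle term is positive. -/
theorem half [CharZero K] {σ : Type} (al : K) (n : ℕ) (f : ℕ → MvPolynomial σ K)
    (hf : ∀ k ∈ Finset.Ico 1 n, f (n - k) = f k) (hp : ∀ k ∈ Finset.Ico 1 n, f k ∈ PS al)
    (hd : ∀ k ∈ Finset.Ico 1 n, 2 * k = n → C (2 : K)⁻¹ * f k ∈ PS al) :
    C (2 : K)⁻¹ * ∑ k ∈ Finset.Ico 1 n, f k ∈ PS al := by
  have h2 : (2 : K) ≠ 0 := two_ne_zero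
  have e : ∑ k ∈ Finset.Ico 1 n, f k
      = C (2 : K) * ∑ k ∈ Finset.Ico 1 n, (if 2 * k < n then f k else 0)
        + ∑ k ∈ Finset.Ico 1 n, (if 2 * k = n then f k else 0) := by
    have e1 : ∑ k ∈ Finset.Ico 1 n, (if n < 2 * k then f k else 0)
        = ∑ k ∈ Finset.Ico 1 n, (if 2 * k < n then f k else 0) := by
      rw [reflect n]
      refine Finset.sum_congr rfl fun k hk => ?_
      rw [hf k hk]
      rw [Finset.mem_Ico] at hk
      by_cases h : 2 * k < n
      · rw [if_pos h, if_pos (by omega)]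
      · rw [if_neg h, if_neg (by omega)]
    have e2 : C (2 : K) * ∑ k ∈ Finset.Ico 1 n, (if 2 * k < n then f k else 0)
        = ∑ k ∈ Finset.Ico 1 n, (if 2 * k < n then f k else 0)
          + ∑ k ∈ Finset.Ico 1 n, (if n < 2 * k then f k else 0) := by
      rw [e1, C_two_mul]
    rw [e2, ← Finset.sum_add_distrib, ← Finset.sum_add_distrib]
    refine Finset.sum_congr rfl fun k hk => ?_
    rcases Nat.lt_trichotomy (2 * k) n with h | h | h
    · rw [if_pos h, if_neg (by omega), if_neg (by omega), add_zero, add_zero]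
    · rw [if_neg (by omega), if_neg (by omega), if_pos h, add_zero, zero_add]
    · rw [if_neg (by omega), if_pos h, if_neg (by omega), add_zero, zero_add]
  rw [e, mul_add, C_inv_mul h2]
  refine add_mem (sum_mem fun k hk => ?_) ?_
  · split_ifs
    · exact hp k hk
    · exact zero_mem _
  · rw [Finset.mul_sum]
    refine sum_mem fun k hk => ?_
    split_ifs with h
    · exact hd k hk h
    · rw [mul_zero]
      exact zero_mem _

/-! ### Symmetric triple sums -/

/-- The triples of positive integers with sum `n`. -/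
def T (n : ℕ) : Finset (ℕ × ℕ × ℕ) :=
  (Finset.range (n + 1) ×ˢ Finset.range (n + 1) ×ˢ Finset.range (n + 1)).filter
    fun t => t.1 + t.2.1 + t.2.2 = n ∧ 1 ≤ t.1 ∧ 1 ≤ t.2.1 ∧ 1 ≤ t.2.2

theorem mem_T {n : ℕ} {t : ℕ × ℕ × ℕ} :
    t ∈ T n ↔ t.1 + t.2.1 + t.2.2 = n ∧ 1 ≤ t.1 ∧ 1 ≤ t.2.1 ∧ 1 ≤ t.2.2 := by
  unfold T
  rw [Finset.mem_filter, Finset.mem_product, Finset.mem_product, Finset.mem_range,
    Finset.mem_range, Finset.mem_range]
  constructor
  · exact fun h => h.2
  · intro h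
    refine ⟨⟨by omega, by omega, by omega⟩, h⟩

theorem sumT {M : Type} [AddCommMonoid M] (n : ℕ) (f : ℕ → ℕ → ℕ → M) :
    ∑ k ∈ Finset.Ico 1 n, ∑ l ∈ Finset.Ico 1 (n - k), f k l (n - k - l)
      = ∑ t ∈ T n, f t.1 t.2.1 t.2.2 := by
  rw [Finset.sum_sigma']
  refine Finset.sum_nbij' (fun p => (p.1, p.2, n - p.1 - p.2)) (fun t => ⟨t.1, t.2.1⟩)
    ?_ ?_ ?_ ?_ ?_
  · intro p hp
    rw [Finset.mem_sigma, Finset.mem_Ico, Finset.mem_Ico] at hp
    rw [mem_T]
    show p.1 + p.2 + (n - p.1 - p.2) = n ∧ 1 ≤ p.1 ∧ 1 ≤ p.2 ∧ 1 ≤ n - p.1 - p.2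
    omega
  · intro t ht
    rw [mem_T] at ht
    rw [Finset.mem_sigma, Finset.mem_Ico, Finset.mem_Ico]
    show (1 ≤ t.1 ∧ t.1 < n) ∧ 1 ≤ t.2.1 ∧ t.2.1 < n - t.1
    omega
  · intro p _
    rfl
  · intro t ht
    rw [mem_T] at ht
    obtain ⟨a, b, c⟩ := t
    have h : n - a - b = c := by
      have h0 : a + b + c = n := ht.1
      omega
    show (a, b, n - a - b) = (a, b, c)
    rw [h]
  · intro p _
    rfl

theorem rotT {M : Type} [AddCommMonoid M] (n : ℕ) (F : ℕ × ℕ × ℕ → M) :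
    ∑ t ∈ T n, F t = ∑ t ∈ T n, F (t.2.1, t.2.2, t.1) := by
  refine Finset.sum_nbij' (fun t => (t.2.2, t.1, t.2.1)) (fun t => (t.2.1, t.2.2, t.1))
    ?_ ?_ ?_ ?_ ?_
  · intro t ht
    rw [mem_T] at ht ⊢
    show t.2.2 + t.1 + t.2.1 = n ∧ 1 ≤ t.2.2 ∧ 1 ≤ t.1 ∧ 1 ≤ t.2.1
    omega
  · intro t ht
    rw [mem_T] at ht ⊢
    show t.2.1 + t.2.2 + t.1 = n ∧ 1 ≤ t.2.1 ∧ 1 ≤ t.2.2 ∧ 1 ≤ t.1
    omega
  · intro t _
    rfl
  · intro t _
    rfl
  · intro t _
    rfl

theorem symm3 [CharZero K] {σ : Type} (n : ℕ) (w : ℕ × ℕ × ℕ → K) (c : K)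
    (g : ℕ × ℕ × ℕ → MvPolynomial σ K)
    (hw : ∀ t ∈ T n, w t + w (t.2.1, t.2.2, t.1) + w (t.2.2, t.1, t.2.1) = 3 * c)
    (hg : ∀ t ∈ T n, g (t.2.1, t.2.2, t.1) = g t) :
    ∑ t ∈ T n, C (w t) * g t = C c * ∑ t ∈ T n, g t := by
  have h3 : (3 : K) ≠ 0 := three_ne_zero
  have e1 : ∑ t ∈ T n, C (w t) * g t = ∑ t ∈ T n, C (w (t.2.1, t.2.2, t.1)) * g t := by
    rw [rotT n]
    refine Finset.sum_congr rfl fun t ht => ?_
    rw [hg t ht]
  have e2 : ∑ t ∈ T n, C (w (t.2.1, t.2.2, t.1)) * g t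
      = ∑ t ∈ T n, C (w (t.2.2, t.1, t.2.1)) * g t := by
    rw [rotT n]
    refine Finset.sum_congr rfl fun t ht => ?_
    rw [hg t ht]
  have h : C (3 : K) * ∑ t ∈ T n, C (w t) * g t = C (3 : K) * (C c * ∑ t ∈ T n, g t) := by
    have e3 : C (3 : K) * ∑ t ∈ T n, C (w t) * g t
        = ∑ t ∈ T n, C (w t) * g t + ∑ t ∈ T n, C (w (t.2.1, t.2.2, t.1)) * g t
          + ∑ t ∈ T n, C (w (t.2.2, t.1, t.2.1)) * g t := by
      rw [← e2, ← e1, C_three_mul]
    rw [e3, ← Finset.sum_add_distrib, ← Finset.sum_add_distrib, ← mul_assoc, ← C_mul,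
      Finset.mul_sum]
    refine Finset.sum_congr rfl fun t ht => ?_
    rw [← add_mul, ← add_mul, ← C_add, ← C_add, hw t ht]
  rw [← C_inv_mul h3 (∑ t ∈ T n, C (w t) * g t), h, C_inv_mul h3]

/-- A third of a cyclically symmetric sum is positive if a third of the middle term is. -/
theorem third [CharZero K] {σ : Type} (al : K) (n : ℕ) (F : ℕ × ℕ × ℕ → MvPolynomial σ K)
    (hF : ∀ t ∈ T n, F (t.2.1, t.2.2, t.1) = F t) (hp : ∀ t ∈ T n, F t ∈ PS al)
    (hd : ∀ k : ℕ, 1 ≤ k → 3 * k = n → C (3 : K)⁻¹ * F (k, k, k) ∈ PS al) :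
    C (3 : K)⁻¹ * ∑ t ∈ T n, F t ∈ PS al := by
  have h3 : (3 : K) ≠ 0 := three_ne_zero
  have e1 : ∑ t ∈ T n, (if t.1 < t.2.1 ∧ t.1 ≤ t.2.2 then F t else 0)
      = ∑ t ∈ T n, (if t.2.1 < t.2.2 ∧ t.2.1 ≤ t.1 then F t else 0) := by
    rw [rotT n]
    refine Finset.sum_congr rfl fun t ht => ?_
    rw [hF t ht]
  have e2 : ∑ t ∈ T n, (if t.2.1 < t.2.2 ∧ t.2.1 ≤ t.1 then F t else 0)
      = ∑ t ∈ T n, (if t.2.2 < t.1 ∧ t.2.2 ≤ t.2.1 then F t else 0) := by
    rw [rotT n]
    refine Finset.sum_congr rfl fun t ht => ?_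
    rw [hF t ht]
  have e : ∑ t ∈ T n, F t
      = C (3 : K) * ∑ t ∈ T n, (if t.1 < t.2.1 ∧ t.1 ≤ t.2.2 then F t else 0)
        + ∑ t ∈ T n, (if t.1 = t.2.1 ∧ t.1 = t.2.2 then F t else 0) := by
    have e3 : C (3 : K) * ∑ t ∈ T n, (if t.1 < t.2.1 ∧ t.1 ≤ t.2.2 then F t else 0)
        = ∑ t ∈ T n, (if t.1 < t.2.1 ∧ t.1 ≤ t.2.2 then F t else 0)
          + ∑ t ∈ T n, (if t.2.1 < t.2.2 ∧ t.2.1 ≤ t.1 then F t else 0)
          + ∑ t ∈ T n, (if t.2.2 < t.1 ∧ t.2.2 ≤ t.2.1 then F t else 0) := by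
      rw [← e2, ← e1, C_three_mul]
    rw [e3, ← Finset.sum_add_distrib, ← Finset.sum_add_distrib, ← Finset.sum_add_distrib]
    refine Finset.sum_congr rfl fun t _ => ?_
    by_cases a1 : t.1 < t.2.1 ∧ t.1 ≤ t.2.2
    · rw [if_pos a1, if_neg (by omega), if_neg (by omega), if_neg (by omega)]
      simp only [add_zero]
    · rw [if_neg a1]
      by_cases a2 : t.2.1 < t.2.2 ∧ t.2.1 ≤ t.1
      · rw [if_pos a2, if_neg (by omega), if_neg (by omega)]
        simp only [add_zero, zero_add]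
      · rw [if_neg a2]
        by_cases a3 : t.2.2 < t.1 ∧ t.2.2 ≤ t.2.1
        · rw [if_pos a3, if_neg (by omega)]
          simp only [add_zero, zero_add]
        · rw [if_neg a3, if_pos (by omega)]
          simp only [add_zero, zero_add]
  rw [e, mul_add, C_inv_mul h3]
  refine add_mem (sum_mem fun t ht => ?_) ?_
  · split_ifs
    · exact hp t ht
    · exact zero_mem _
  · rw [Finset.mul_sum]
    refine sum_mem fun t ht => ?_
    split_ifs with h
    · obtain ⟨a, b, c⟩ := t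
      have h1 : a = b := h.1
      have h2 : a = c := h.2
      rw [mem_T] at ht
      have h4 : a + b + c = n := ht.1
      have h5 : 1 ≤ a := ht.2.1
      subst h1 h2
      exact hd a h5 (by omega)
    · rw [mul_zero]
      exact zero_mem _

/-! ### Casts -/

theorem cast_sub_one {a : ℕ} (ha : 1 ≤ a) : ((a - 1 : ℕ) : K) = (a : K) - 1 := by
  rw [Nat.cast_sub ha, Nat.cast_one]

theorem choose_div [CharZero K] (n r : ℕ) (hn : 1 ≤ n) :
    ((r + 1 : ℕ) : K) / (n : K) * (n.choose (r + 1) : K) = ((n - 1).choose r : K) := by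
  obtain ⟨m, rfl⟩ : ∃ m, n = m + 1 := ⟨n - 1, by omega⟩
  have h0 : ((m + 1 : ℕ) : K) ≠ 0 := Nat.cast_ne_zero.mpr (by omega)
  have h := Nat.add_one_mul_choose_eq m r
  have h1 : ((m + 1 : ℕ) : K) * (m.choose r : K) = ((m + 1).choose (r + 1) : K) * ((r + 1 : ℕ) : K) := by
    exact_mod_cast h
  rw [Nat.add_sub_cancel]
  rw [div_mul_eq_mul_div, div_eq_iff h0]
  rw [mul_comm, ← h1]
  ring

/-- `3 * C(i, 3) = i * (i - 1) * (i - 2) / 2`. -/
theorem choose_three [CharZero K] (i : ℕ) (hi : 1 ≤ i) :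
    3 * (i.choose 3 : K) = (i : K) * ((i : K) - 1) * ((i : K) - 2) / 2 := by
  have h0 : (i : K) ≠ 0 := Nat.cast_ne_zero.mpr (by omega)
  have h := choose_div (K := K) i 2 hi
  rw [Nat.cast_choose_two, cast_sub_one hi] at h
  have h1 : ((2 + 1 : ℕ) : K) = 3 := by norm_num
  rw [h1, div_mul_eq_mul_div, div_eq_iff h0] at h
  rw [h]
  ring

theorem scale [CharZero K] (al c : K) (n : ℕ) (hn : 1 ≤ n) (A R : B2 K)
    (h : C (al * n) * A = R) : C (c * al) * A = C (c / (n : K)) * R := by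
  have h0 : (n : K) ≠ 0 := Nat.cast_ne_zero.mpr (by omega)
  rw [← h, ← mul_assoc, ← C_mul]
  congr 2
  field_simp

theorem zero_of [CharZero K] (al : K) (hal : al ≠ 0) (n : ℕ) (hn : 1 ≤ n) (A : B2 K)
    (h : C (al * n) * A = 0) : A = 0 := by
  have h0 : al * (n : K) ≠ 0 := mul_ne_zero hal (Nat.cast_ne_zero.mpr (by omega))
  rw [← C_inv_mul h0 A, h, mul_zero]

/-! ### The operator `D` -/

theorem bD1_scaled [CharZero K] (al : K) (n : ℕ) (hn : 1 ≤ n) :
    C (2 / (n : K)) * bD1 al n ∈ PS al := by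
  have h0 : (n : K) ≠ 0 := Nat.cast_ne_zero.mpr (by omega)
  have e := symm2 (K := K) n (fun k => (k : K)) (fun _ => (n : K) / 2)
    (fun k => (X k * X (n - k) : Lam K))
    (by
      intro k hk
      rw [Finset.mem_Ico] at hk
      rw [Nat.cast_sub hk.2.le]
      ring)
    (by
      intro k hk
      rw [Finset.mem_Ico] at hk
      show (X (n - k) * X (n - (n - k)) : Lam K) = X k * X (n - k)
      rw [Nat.sub_sub_self hk.2.le, mul_comm])
  unfold bD1
  rw [e, mul_add, ← Finset.mul_sum, ← mul_assoc, ← C_mul]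
  have e1 : 2 / (n : K) * ((n : K) / 2) = 1 := by field_simp
  have e2 : C (2 / (n : K)) * (C ((al - 1) * (n.choose 2 : K)) * X n : Lam K)
      = C ((al - 1) * ((n - 1).choose 1 : K)) * X n := by
    rw [← mul_assoc, ← C_mul, ← choose_div n 1 hn]
    congr 2
    push_cast
    ring
  rw [e1, e2, C_1, one_mul]
  refine add_mem (sum_mem fun k _ => mul_mem (X_mem_PS al _) (X_mem_PS al _)) ?_
  exact mul_mem (C_mem_PS al (mul_mem (b_mem_Nb al) (natCast_mem_Nb al _))) (X_mem_PS al _)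

theorem part1 [CharZero K] (al : K) (n : ℕ) (hn : 1 ≤ n) :
    C (2 / (n : K)) * (X (0, n) * iy (bD1 al n)
      + ∑ k ∈ Finset.Ico 1 n, C (k : K) * (X (0, k) * X (0, n - k) * X (1, n)) : B2 K)
      ∈ PS al := by
  have h0 : (n : K) ≠ 0 := Nat.cast_ne_zero.mpr (by omega)
  rw [mul_add]
  refine add_mem ?_ ?_
  · have h : C (2 / (n : K)) * (X (0, n) * iy (bD1 al n) : B2 K)
        = X (0, n) * iy (C (2 / (n : K)) * bD1 al n) := by
      rw [map_mul, iy_C]
      ring
    rw [h]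
    exact mul_mem (X_mem_PS al _) (PosPsi12.iy_mem al (bD1_scaled al n hn))
  · have e := symm2 (K := K) n (fun k => (k : K)) (fun _ => (n : K) / 2)
      (fun k => (X (0, k) * X (0, n - k) * X (1, n) : B2 K))
      (by
        intro k hk
        rw [Finset.mem_Ico] at hk
        rw [Nat.cast_sub hk.2.le]
        ring)
      (by
        intro k hk
        rw [Finset.mem_Ico] at hk
        show (X (0, n - k) * X (0, n - (n - k)) * X (1, n) : B2 K)
          = X (0, k) * X (0, n - k) * X (1, n)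
        rw [Nat.sub_sub_self hk.2.le]
        ring)
    rw [e, ← Finset.mul_sum, ← mul_assoc, ← C_mul]
    have e1 : 2 / (n : K) * ((n : K) / 2) = 1 := by field_simp
    rw [e1, C_1, one_mul]
    exact sum_mem fun k _ => mul_mem (mul_mem (X_mem_PS al _) (X_mem_PS al _)) (X_mem_PS al _)

/-! ### The operator `K3` -/

theorem qT2_symm (al : K) (i j : ℕ) : qT2 al i j = qT2 al j i := by
  unfold qT2
  have h1 : ∀ a : ℕ, j + i - a = i + j - a := fun a => by omega
  have h2 : (j : K) + i - 2 = (i : K) + j - 2 := by ring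
  simp only [h1, h2, add_comm j i]
  ring

theorem qT2_half [CharZero K] (al : K) (k : ℕ) (hk : 1 ≤ k) :
    C (2 : K)⁻¹ * qT2 al k k ∈ PS al := by
  have h2 : (2 : K) ≠ 0 := two_ne_zero
  have e : qT2 al k k = C (2 : K) * (∑ a ∈ Finset.Ico 1 k, X a * X (k + k - a)
      + C ((al - 1) * ((k - 1 : ℕ) : K)) * X (k + k)) := by
    unfold qT2
    rw [cast_sub_one hk, mul_add, C_two_mul, ← mul_assoc, ← C_mul]
    congr 3
    ring
  rw [e, C_inv_mul h2]
  refine add_mem (sum_mem fun a _ => mul_mem (X_mem_PS al _) (X_mem_PS al _)) ?_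
  exact mul_mem (C_mem_PS al (mul_mem (b_mem_Nb al) (natCast_mem_Nb al _))) (X_mem_PS al _)

theorem bT1_scaled [CharZero K] (al : K) (n : ℕ) (hn : 1 ≤ n) :
    C (3 / (n : K)) * bT1 al n ∈ PS al := by
  have h0 : (n : K) ≠ 0 := Nat.cast_ne_zero.mpr (by omega)
  have h2 : (2 : K) ≠ 0 := two_ne_zero
  unfold bT1
  rw [mul_add, mul_add]
  refine add_mem (add_mem ?_ ?_) ?_
  · rw [sumT n (fun c d e => C (c : K) * (X c * X d * X e : Lam K))]
    have e := symm3 (K := K) n (fun t => (t.1 : K)) ((n : K) / 3)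
      (fun t => (X t.1 * X t.2.1 * X t.2.2 : Lam K))
      (by
        intro t ht
        rw [mem_T] at ht
        show (t.1 : K) + (t.2.1 : K) + (t.2.2 : K) = 3 * ((n : K) / 3)
        rw [← ht.1]
        push_cast
        ring)
      (by
        intro t _
        show (X t.2.1 * X t.2.2 * X t.1 : Lam K) = X t.1 * X t.2.1 * X t.2.2
        ring)
    rw [e, ← mul_assoc, ← C_mul]
    have e1 : 3 / (n : K) * ((n : K) / 3) = 1 := by field_simp
    rw [e1, C_1, one_mul]
    exact sum_mem fun t _ => mul_mem (mul_mem (X_mem_PS al _) (X_mem_PS al _)) (X_mem_PS al _)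
  · have e := symm2 (K := K) n (fun k => (k : K)) (fun _ => (n : K) / 2)
      (fun k => (X k * X (n - k) : Lam K))
      (by
        intro k hk
        rw [Finset.mem_Ico] at hk
        rw [Nat.cast_sub hk.2.le]
        ring)
      (by
        intro k hk
        rw [Finset.mem_Ico] at hk
        show (X (n - k) * X (n - (n - k)) : Lam K) = X k * X (n - k)
        rw [Nat.sub_sub_self hk.2.le, mul_comm])
    have e1 : C (3 / (n : K)) * (C ((al - 1) * ((n : K) - 2))
          * ∑ a ∈ Finset.Ico 1 n, C (a : K) * (X a * X (n - a)) : Lam K)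
        = C ((al - 1) * (3 : ℕ)) * (C (2 : K)⁻¹
          * ∑ a ∈ Finset.Ico 1 n, C ((n : K) - 2) * (X a * X (n - a))) := by
      rw [e, ← Finset.mul_sum, ← Finset.mul_sum, ← mul_assoc, ← mul_assoc, ← mul_assoc,
        ← mul_assoc, ← C_mul, ← C_mul, ← C_mul, ← C_mul]
      congr 2
      push_cast
      field_simp
    rw [e1]
    refine mul_mem (C_mem_PS al (mul_mem (b_mem_Nb al) (natCast_mem_Nb al _))) ?_
    refine half al n (fun a => C ((n : K) - 2) * (X a * X (n - a) : Lam K)) ?_ ?_ ?_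
    · intro k hk
      rw [Finset.mem_Ico] at hk
      show C ((n : K) - 2) * (X (n - k) * X (n - (n - k)) : Lam K)
        = C ((n : K) - 2) * (X k * X (n - k))
      rw [Nat.sub_sub_self hk.2.le, mul_comm (X (n - k))]
    · intro k hk
      rw [Finset.mem_Ico] at hk
      have h : (n : K) - 2 = ((n - 2 : ℕ) : K) := by
        rw [Nat.cast_sub (by omega)]
        norm_num
      show C ((n : K) - 2) * (X k * X (n - k) : Lam K) ∈ PS al
      rw [h]
      exact mul_mem (C_mem_PS al (natCast_mem_Nb al _)) (mul_mem (X_mem_PS al _) (X_mem_PS al _))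
    · intro k hk hkn
      rw [Finset.mem_Ico] at hk
      show C (2 : K)⁻¹ * (C ((n : K) - 2) * (X k * X (n - k) : Lam K)) ∈ PS al
      have h : (2 : K)⁻¹ * ((n : K) - 2) = ((k - 1 : ℕ) : K) := by
        rw [← hkn, cast_sub_one hk.1]
        push_cast
        field_simp
      rw [← mul_assoc, ← C_mul, h]
      exact mul_mem (C_mem_PS al (natCast_mem_Nb al _)) (mul_mem (X_mem_PS al _) (X_mem_PS al _))
  · have e2 : C (3 / (n : K)) * (C ((al + 2 * (al - 1) ^ 2) * (n.choose 3 : K)) * X n : Lam K)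
        = C ((al + (2 : ℕ) * (al - 1) ^ 2) * ((n - 1).choose 2 : K)) * X n := by
      rw [← mul_assoc, ← C_mul, ← choose_div n 2 hn]
      congr 2
      push_cast
      ring
    rw [e2]
    exact mul_mem (C_mem_PS al (mul_mem (add_mem (al_mem_Nb al) (mul_mem (natCast_mem_Nb al _)
      (pow_mem (b_mem_Nb al) 2))) (natCast_mem_Nb al _))) (X_mem_PS al _)

/-- The triple sum in the variables `x`. -/
def tauX (K : Type) [Field K] (n : ℕ) : B2 K :=
  ∑ t ∈ T n, X (0, t.1) * X (0, t.2.1) * X (0, t.2.2)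

theorem triple_x [CharZero K] (n : ℕ) (c : K) :
    (∑ k ∈ Finset.Ico 1 n, ∑ l ∈ Finset.Ico 1 (n - k),
        C ((k : K) * c) * (X (0, k) * X (0, l) * X (0, n - k - l) * X (1, n)) : B2 K)
      = C ((n : K) / 3 * c) * (tauX K n * X (1, n)) := by
  rw [sumT n (fun k l m => C ((k : K) * c) * (X (0, k) * X (0, l) * X (0, m) * X (1, n) : B2 K))]
  have e := symm3 (K := K) n (fun t => (t.1 : K) * c) ((n : K) / 3 * c)
    (fun t => (X (0, t.1) * X (0, t.2.1) * X (0, t.2.2) * X (1, n) : B2 K))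
    (by
      intro t ht
      rw [mem_T] at ht
      show (t.1 : K) * c + (t.2.1 : K) * c + (t.2.2 : K) * c = 3 * ((n : K) / 3 * c)
      rw [← ht.1]
      push_cast
      ring)
    (by
      intro t _
      show (X (0, t.2.1) * X (0, t.2.2) * X (0, t.1) * X (1, n) : B2 K)
        = X (0, t.1) * X (0, t.2.1) * X (0, t.2.2) * X (1, n)
      ring)
  rw [e]
  unfold tauX
  rw [Finset.sum_mul]

theorem tauX_mem (al : K) (n : ℕ) : tauX K n ∈ PS al := by
  unfold tauX
  exact sum_mem fun t _ => mul_mem (mul_mem (X_mem_PS al _) (X_mem_PS al _)) (X_mem_PS al _)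

theorem part2 [CharZero K] (al : K) (n : ℕ) (hn : 1 ≤ n) :
    C (3 / (n : K)) * (X (0, n) * iy (bT1 al n)
      + ∑ k ∈ Finset.Ico 1 n, C (k : K) * (X (0, k) * X (0, n - k) * iy (qT2 al k (n - k)))
      + ∑ k ∈ Finset.Ico 1 n, ∑ l ∈ Finset.Ico 1 (n - k),
        C (k : K) * (X (0, k) * X (0, l) * X (0, n - k - l) * X (1, n)) : B2 K) ∈ PS al := by
  have h0 : (n : K) ≠ 0 := Nat.cast_ne_zero.mpr (by omega)
  have h2 : (2 : K) ≠ 0 := two_ne_zero
  rw [mul_add, mul_add]
  refine add_mem (add_mem ?_ ?_) ?_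
  · have h : C (3 / (n : K)) * (X (0, n) * iy (bT1 al n) : B2 K)
        = X (0, n) * iy (C (3 / (n : K)) * bT1 al n) := by
      rw [map_mul, iy_C]
      ring
    rw [h]
    exact mul_mem (X_mem_PS al _) (PosPsi12.iy_mem al (bT1_scaled al n hn))
  · have hsym : ∀ k ∈ Finset.Ico 1 n,
        (X (0, n - k) * X (0, n - (n - k)) * iy (qT2 al (n - k) (n - (n - k))) : B2 K)
          = X (0, k) * X (0, n - k) * iy (qT2 al k (n - k)) := by
      intro k hk
      rw [Finset.mem_Ico] at hk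
      rw [Nat.sub_sub_self hk.2.le, qT2_symm al (n - k) k]
      ring
    have e := symm2 (K := K) n (fun k => (k : K)) (fun _ => (n : K) / 2)
      (fun k => (X (0, k) * X (0, n - k) * iy (qT2 al k (n - k)) : B2 K))
      (by
        intro k hk
        rw [Finset.mem_Ico] at hk
        rw [Nat.cast_sub hk.2.le]
        ring)
      hsym
    have e1 : C (3 / (n : K)) * (∑ k ∈ Finset.Ico 1 n,
          C (k : K) * (X (0, k) * X (0, n - k) * iy (qT2 al k (n - k))) : B2 K)
        = C ((3 : ℕ) : K) * (C (2 : K)⁻¹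
          * ∑ k ∈ Finset.Ico 1 n, X (0, k) * X (0, n - k) * iy (qT2 al k (n - k))) := by
      rw [e, ← Finset.mul_sum, ← mul_assoc, ← mul_assoc, ← C_mul, ← C_mul]
      congr 2
      push_cast
      field_simp
    rw [e1]
    refine mul_mem (C_mem_PS al (natCast_mem_Nb al _)) ?_
    refine half al n _ hsym ?_ ?_
    · intro k hk
      rw [Finset.mem_Ico] at hk
      exact mul_mem (mul_mem (X_mem_PS al _) (X_mem_PS al _))
        (PosPsi12.iy_mem al (PosPsi12.qT2_mem al k (n - k) hk.1 (by omega)))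
    · intro k hk hkn
      rw [Finset.mem_Ico] at hk
      have hnk : n - k = k := by omega
      have h : C (2 : K)⁻¹ * (X (0, k) * X (0, n - k) * iy (qT2 al k (n - k)) : B2 K)
          = X (0, k) * X (0, k) * iy (C (2 : K)⁻¹ * qT2 al k k) := by
        rw [hnk, map_mul, iy_C]
        ring
      rw [h]
      exact mul_mem (mul_mem (X_mem_PS al _) (X_mem_PS al _))
        (PosPsi12.iy_mem al (qT2_half al k hk.1))
  · have e := triple_x (K := K) n 1
    simp only [mul_one] at e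
    rw [e, ← mul_assoc, ← C_mul]
    have e1 : 3 / (n : K) * ((n : K) / 3) = 1 := by field_simp
    rw [e1, C_1, one_mul]
    exact mul_mem (tauX_mem al n) (X_mem_PS al _)

/-! ### The operator `K22` -/

/-- `(4 / 3) * (n - 3)` times a symmetric triple sum is positive. -/
theorem four_thirds [CharZero K] {σ : Type} (al : K) (n : ℕ) (v : ℕ → σ) :
    C (4 / 3 * ((n : K) - 3)) * (∑ t ∈ T n, X (v t.1) * X (v t.2.1) * X (v t.2.2) :
      MvPolynomial σ K) ∈ PS al := by
  have h3 : (3 : K) ≠ 0 := three_ne_zero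
  have e : C (4 / 3 * ((n : K) - 3)) * (∑ t ∈ T n, X (v t.1) * X (v t.2.1) * X (v t.2.2) :
      MvPolynomial σ K)
      = C (3 : K)⁻¹ * ∑ t ∈ T n, C (4 * ((n : K) - 3)) * (X (v t.1) * X (v t.2.1) * X (v t.2.2)) := by
    rw [← Finset.mul_sum, ← mul_assoc, ← C_mul]
    congr 2
    ring
  rw [e]
  refine third al n (fun t => C (4 * ((n : K) - 3)) * (X (v t.1) * X (v t.2.1) * X (v t.2.2)))
    ?_ ?_ ?_
  · intro t _
    show C (4 * ((n : K) - 3)) * (X (v t.2.1) * X (v t.2.2) * X (v t.1))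
      = C (4 * ((n : K) - 3)) * (X (v t.1) * X (v t.2.1) * X (v t.2.2))
    ring
  · intro t ht
    rw [mem_T] at ht
    have h : 4 * ((n : K) - 3) = ((4 * (n - 3) : ℕ) : K) := by
      rw [Nat.cast_mul, Nat.cast_sub (by omega)]
      norm_num
    show C (4 * ((n : K) - 3)) * (X (v t.1) * X (v t.2.1) * X (v t.2.2)) ∈ PS al
    rw [h]
    exact mul_mem (C_mem_PS al (natCast_mem_Nb al _))
      (mul_mem (mul_mem (X_mem_PS al _) (X_mem_PS al _)) (X_mem_PS al _))
  · intro k hk hkn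
    have h : (3 : K)⁻¹ * (4 * ((n : K) - 3)) = ((4 * (k - 1) : ℕ) : K) := by
      rw [← hkn, Nat.cast_mul 4 (k - 1), cast_sub_one hk]
      push_cast
      field_simp
    show C (3 : K)⁻¹ * (C (4 * ((n : K) - 3)) * (X (v k) * X (v k) * X (v k))) ∈ PS al
    rw [← mul_assoc, ← C_mul, h]
    exact mul_mem (C_mem_PS al (natCast_mem_Nb al _))
      (mul_mem (mul_mem (X_mem_PS al _) (X_mem_PS al _)) (X_mem_PS al _))

theorem bS1_scaled [CharZero K] (al : K) (n : ℕ) (hn : 1 ≤ n) :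
    C (8 / (n : K)) * bS1 al n ∈ PS al := by
  have h0 : (n : K) ≠ 0 := Nat.cast_ne_zero.mpr (by omega)
  have h2 : (2 : K) ≠ 0 := two_ne_zero
  unfold bS1
  rw [mul_add, mul_add]
  refine add_mem (add_mem ?_ ?_) ?_
  · rw [sumT n (fun c d e => C ((c.choose 2 : K) + d * (c - 1 : K)) * (X c * X d * X e : Lam K))]
    have e := symm3 (K := K) n (fun t => (t.1.choose 2 : K) + t.2.1 * ((t.1 : K) - 1))
      ((n : K) * ((n : K) - 3) / 6)
      (fun t => (X t.1 * X t.2.1 * X t.2.2 : Lam K))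
      (by
        intro t ht
        rw [mem_T] at ht
        show ((t.1.choose 2 : K) + t.2.1 * ((t.1 : K) - 1))
          + ((t.2.1.choose 2 : K) + t.2.2 * ((t.2.1 : K) - 1))
          + ((t.2.2.choose 2 : K) + t.1 * ((t.2.2 : K) - 1)) = 3 * ((n : K) * ((n : K) - 3) / 6)
        rw [← ht.1, Nat.cast_choose_two, Nat.cast_choose_two, Nat.cast_choose_two]
        push_cast
        ring)
      (by
        intro t _
        show (X t.2.1 * X t.2.2 * X t.1 : Lam K) = X t.1 * X t.2.1 * X t.2.2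
        ring)
    rw [e, ← mul_assoc, ← C_mul]
    have e1 : 8 / (n : K) * ((n : K) * ((n : K) - 3) / 6) = 4 / 3 * ((n : K) - 3) := by
      field_simp
      ring
    rw [e1]
    exact four_thirds al n (fun k => k)
  · have e := symm2 (K := K) n
      (fun i => 3 * (i.choose 3 : K) + i * ((n - i - 1).choose 2 : K)
          + (i.choose 2 : K) * ((n : K) - i - 1))
      (fun i => (n : K) / 4 * ((2 * (i - 1).choose 2 + 2 * (n - i - 1).choose 2
          + (i - 1) * (n - i - 1) : ℕ) : K))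
      (fun k => (X k * X (n - k) : Lam K))
      (by
        intro k hk
        rw [Finset.mem_Ico] at hk
        have k1 : 1 ≤ n - k := by omega
        have k2 : n - (n - k) = k := by omega
        have c1 := choose_three (K := K) k hk.1
        have c2 := choose_three (K := K) (n - k) k1
        show (3 * (k.choose 3 : K) + k * ((n - k - 1).choose 2 : K)
            + (k.choose 2 : K) * ((n : K) - k - 1))
          + (3 * ((n - k).choose 3 : K) + ((n - k : ℕ) : K) * ((n - (n - k) - 1).choose 2 : K)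
            + ((n - k).choose 2 : K) * ((n : K) - ((n - k : ℕ) : K) - 1))
          = 2 * ((n : K) / 4 * ((2 * (k - 1).choose 2 + 2 * (n - k - 1).choose 2
            + (k - 1) * (n - k - 1) : ℕ) : K))
        rw [c1, c2, k2]
        push_cast
        rw [Nat.cast_choose_two, Nat.cast_choose_two, Nat.cast_choose_two, Nat.cast_choose_two,
          cast_sub_one hk.1, cast_sub_one k1, Nat.cast_sub hk.2.le]
        ring)
      (by
        intro k hk
        rw [Finset.mem_Ico] at hk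
        show (X (n - k) * X (n - (n - k)) : Lam K) = X k * X (n - k)
        rw [Nat.sub_sub_self hk.2.le, mul_comm])
    rw [e, ← mul_assoc, ← C_mul, Finset.mul_sum]
    refine sum_mem fun k _ => ?_
    rw [← mul_assoc, ← C_mul]
    have e1 : ∀ N : ℕ, 8 / (n : K) * (al - 1) * ((n : K) / 4 * (N : K))
        = (al - 1) * ((2 * N : ℕ) : K) := by
      intro N
      push_cast
      field_simp
      ring
    rw [e1]
    exact mul_mem (C_mem_PS al (mul_mem (b_mem_Nb al) (natCast_mem_Nb al _)))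
      (mul_mem (X_mem_PS al _) (X_mem_PS al _))
  · have e2 : C (8 / (n : K)) * (C ((al + 3 * (al - 1) ^ 2) * (n.choose 4 : K)) * X n : Lam K)
        = C ((al + (3 : ℕ) * (al - 1) ^ 2) * (((2 : ℕ) : K) * ((n - 1).choose 3 : K))) * X n := by
      rw [← mul_assoc, ← C_mul, ← choose_div n 3 hn]
      congr 2
      push_cast
      ring
    rw [e2]
    exact mul_mem (C_mem_PS al (mul_mem (add_mem (al_mem_Nb al) (mul_mem (natCast_mem_Nb al _)
      (pow_mem (b_mem_Nb al) 2))) (mul_mem (natCast_mem_Nb al _) (natCast_mem_Nb al _))))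
      (X_mem_PS al _)

theorem qS2_symm [CharZero K] (al : K) (i j : ℕ) (hi : 1 ≤ i) (hj : 1 ≤ j) :
    qS2 al i j = qS2 al j i := by
  have hzero : ∑ a ∈ Finset.Ico 1 (i + j), C (((i + j : ℕ) : K) - 2 * a) * (X a * X (i + j - a) : Lam K)
      = 0 := by
    have e := symm2 (K := K) (i + j) (fun a => ((i + j : ℕ) : K) - 2 * a) (fun _ => 0)
      (fun a => (X a * X (i + j - a) : Lam K))
      (by
        intro k hk
        rw [Finset.mem_Ico] at hk
        rw [Nat.cast_sub hk.2.le]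
        ring)
      (by
        intro k hk
        rw [Finset.mem_Ico] at hk
        show (X (i + j - k) * X (i + j - (i + j - k)) : Lam K) = X k * X (i + j - k)
        rw [Nat.sub_sub_self hk.2.le, mul_comm])
    rw [e]
    simp only [C_0, zero_mul, Finset.sum_const_zero]
  have hsplit : ∑ a ∈ Finset.Ico 1 (i + j), C (((i + j : ℕ) : K) - 2 * a) * (X a * X (i + j - a) : Lam K)
      = ∑ a ∈ Finset.Ico 1 j, C (((i + j : ℕ) : K) - 2 * a) * (X a * X (i + j - a) : Lam K)
        + (C (((i + j : ℕ) : K) - 2 * j) * (X j * X i)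
        + ∑ a ∈ Finset.Ico (j + 1) (i + j),
            C (((i + j : ℕ) : K) - 2 * a) * (X a * X (i + j - a) : Lam K)) := by
    rw [← Finset.sum_Ico_consecutive _ hj (show j ≤ i + j by omega),
      Finset.sum_eq_sum_Ico_succ_bot (show j < i + j by omega), Nat.add_sub_cancel]
  have hrefl : ∑ a ∈ Finset.Ico (j + 1) (i + j),
        C (((i + j : ℕ) : K) - 2 * a) * (X a * X (i + j - a) : Lam K)
      = - ∑ a ∈ Finset.Ico 1 i, C (((i + j : ℕ) : K) - 2 * a) * (X a * X (i + j - a) : Lam K) := by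
    rw [← Finset.sum_neg_distrib]
    refine Finset.sum_nbij' (fun a => i + j - a) (fun a => i + j - a) ?_ ?_ ?_ ?_ ?_
    · intro a ha
      rw [Finset.mem_Ico] at ha ⊢
      omega
    · intro a ha
      rw [Finset.mem_Ico] at ha ⊢
      omega
    · intro a ha
      rw [Finset.mem_Ico] at ha
      show i + j - (i + j - a) = a
      omega
    · intro a ha
      rw [Finset.mem_Ico] at ha
      show i + j - (i + j - a) = a
      omega
    · intro a ha
      rw [Finset.mem_Ico] at ha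
      show C (((i + j : ℕ) : K) - 2 * a) * (X a * X (i + j - a) : Lam K)
        = - (C (((i + j : ℕ) : K) - 2 * ((i + j - a : ℕ) : K))
          * (X (i + j - a) * X (i + j - (i + j - a)) : Lam K))
      have h1 : i + j - (i + j - a) = a := by omega
      have h2 : ((i + j : ℕ) : K) - 2 * ((i + j - a : ℕ) : K)
          = - (((i + j : ℕ) : K) - 2 * a) := by
        rw [Nat.cast_sub (show a ≤ i + j by omega)]
        ring
      rw [h1, h2, C_neg]
      ring
  rw [hsplit, hrefl] at hzero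
  have e1 : ∑ a ∈ Finset.Ico 1 i, C (((j : K) + 2 * i - 2 * a - 3)) * (X a * X (i + j - a) : Lam K)
      = ∑ a ∈ Finset.Ico 1 i, C ((i : K) - 3) * (X a * X (i + j - a) : Lam K)
        + ∑ a ∈ Finset.Ico 1 i, C (((i + j : ℕ) : K) - 2 * a) * (X a * X (i + j - a) : Lam K) := by
    rw [← Finset.sum_add_distrib]
    refine Finset.sum_congr rfl fun a _ => ?_
    rw [← add_mul, ← C_add]
    congr 2
    push_cast
    ring
  have e2 : ∑ a ∈ Finset.Ico 1 j, C (((i : K) + 2 * j - 2 * a - 3)) * (X a * X (i + j - a) : Lam K)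
      = ∑ a ∈ Finset.Ico 1 j, C ((j : K) - 3) * (X a * X (i + j - a) : Lam K)
        + ∑ a ∈ Finset.Ico 1 j, C (((i + j : ℕ) : K) - 2 * a) * (X a * X (i + j - a) : Lam K) := by
    rw [← Finset.sum_add_distrib]
    refine Finset.sum_congr rfl fun a _ => ?_
    rw [← add_mul, ← C_add]
    congr 2
    push_cast
    ring
  have e3 : C (((i : K) - 1)) * (X i * X j : Lam K)
      = C (((j : K) - 1)) * (X j * X i) + C (((i + j : ℕ) : K) - 2 * j) * (X j * X i) := by
    rw [← add_mul, ← C_add, mul_comm (X i) (X j)]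
    congr 2
    push_cast
    ring
  have e4 : (al - 1) * (((j : K) - 1) * (j - 2) + ((i : K) - 1) * (i - 2) + ((j : K) - 1) * (i - 1))
      = (al - 1) * (((i : K) - 1) * (i - 2) + ((j : K) - 1) * (j - 2) + ((i : K) - 1) * (j - 1)) := by
    ring
  unfold qS2
  simp only [add_comm j i]
  rw [e1, e2, e3, e4]
  linear_combination hzero

theorem qS2_mem [CharZero K] (al : K) (i j : ℕ) (hi : 1 ≤ i) (hj : 1 ≤ j) :
    qS2 al i j ∈ PS al := by
  have hXX : ∀ a b : ℕ, (X a * X b : Lam K) ∈ PS al := fun a b =>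
    mul_mem (X_mem_PS al _) (X_mem_PS al _)
  have hb : C ((al - 1) * (((i : K) - 1) * (i - 2) + ((j : K) - 1) * (j - 2)
      + ((i : K) - 1) * (j - 1))) * (X (i + j) : Lam K) ∈ PS al := by
    have h : ((i : K) - 1) * (i - 2) + ((j : K) - 1) * (j - 2) + ((i : K) - 1) * (j - 1)
        = ((2 * (i - 1).choose 2 + 2 * (j - 1).choose 2 + (i - 1) * (j - 1) : ℕ) : K) := by
      push_cast
      rw [Nat.cast_choose_two, Nat.cast_choose_two, cast_sub_one hi, cast_sub_one hj]
      ring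
    rw [h]
    exact mul_mem (C_mem_PS al (mul_mem (b_mem_Nb al) (natCast_mem_Nb al _))) (X_mem_PS al _)
  have hc : C ((i : K) - 1) * (X i * X j : Lam K) ∈ PS al := by
    rw [← cast_sub_one hi]
    exact mul_mem (C_mem_PS al (natCast_mem_Nb al _)) (hXX _ _)
  have h2 : ∀ a ∈ Finset.Ico 1 j,
      C ((i : K) + 2 * j - 2 * a - 3) * (X a * X (i + j - a) : Lam K) ∈ PS al := by
    intro a ha
    rw [Finset.mem_Ico] at ha
    have h : (i : K) + 2 * j - 2 * a - 3 = ((i - 1 + 2 * (j - a - 1) : ℕ) : K) := by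
      push_cast
      rw [cast_sub_one hi, cast_sub_one (show 1 ≤ j - a by omega), Nat.cast_sub ha.2.le]
      ring
    rw [h]
    exact mul_mem (C_mem_PS al (natCast_mem_Nb al _)) (hXX _ _)
  unfold qS2
  refine add_mem ?_ hb
  rcases Nat.lt_or_ge i 2 with h1 | h1
  · have hi1 : i = 1 := by omega
    subst hi1
    rw [Finset.Ico_self, Finset.sum_empty, zero_add]
    exact add_mem (sum_mem h2) hc
  rcases Nat.lt_or_ge i 3 with h3 | h3
  · have hi2 : i = 2 := by omega
    subst hi2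
    have hs : Finset.Ico 1 2 = {1} := rfl
    rw [hs, Finset.sum_singleton]
    rcases Nat.lt_or_ge j 2 with h4 | h4
    · have hj1 : j = 1 := by omega
      subst hj1
      rw [Finset.Ico_self, Finset.sum_empty, add_zero]
      have h5 : C (((2 : ℕ) : K) - 3) * (X 1 * X (2 + 1 - 1) : Lam K)
          + C (((2 : ℕ) : K) - 1) * (X 2 * X 1) = 0 := by
        have h6 : (2 + 1 - 1 : ℕ) = 2 := rfl
        rw [h6, mul_comm (X 1 : Lam K) (X 2), ← add_mul, ← C_add]
        have h7 : ((2 : ℕ) : K) - 3 + (((2 : ℕ) : K) - 1) = 0 := by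
          push_cast
          ring
        rw [h7, C_0, zero_mul]
      rw [h5]
      exact zero_mem _
    · refine add_mem ?_ hc
      rw [Finset.sum_eq_sum_Ico_succ_bot (show 1 < j by omega), ← add_assoc, ← add_mul, ← C_add]
      refine add_mem ?_ (sum_mem fun a ha => ?_)
      · have h5 : ((2 : ℕ) : K) - 3 + (((2 : ℕ) : K) + 2 * (j : K) - 2 * ((1 : ℕ) : K) - 3)
            = ((2 * (j - 2) : ℕ) : K) := by
          rw [Nat.cast_mul, Nat.cast_sub h4]
          push_cast
          ring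
        rw [h5]
        exact mul_mem (C_mem_PS al (natCast_mem_Nb al _)) (hXX _ _)
      · refine h2 a ?_
        rw [Finset.mem_Ico] at ha ⊢
        omega
  · refine add_mem (add_mem (sum_mem fun a _ => ?_) (sum_mem h2)) hc
    have h : (i : K) - 3 = ((i - 3 : ℕ) : K) := by
      rw [Nat.cast_sub h3]
      norm_num
    rw [h]
    exact mul_mem (C_mem_PS al (natCast_mem_Nb al _)) (hXX _ _)

theorem part3 [CharZero K] (al : K) (n : ℕ) (hn : 1 ≤ n) :
    C (8 / (n : K)) * (X (0, n) * iy (bS1 al n)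
      + ∑ k ∈ Finset.Ico 1 n, C ((k : K) / 2) * (X (0, k) * X (0, n - k) * iy (qS2 al k (n - k)))
      + ∑ k ∈ Finset.Ico 1 n, ∑ l ∈ Finset.Ico 1 (n - k),
        C ((k : K) * ((n : K) - 3) / 2) * (X (0, k) * X (0, l) * X (0, n - k - l) * X (1, n)) :
        B2 K) ∈ PS al := by
  have h0 : (n : K) ≠ 0 := Nat.cast_ne_zero.mpr (by omega)
  have h2 : (2 : K) ≠ 0 := two_ne_zero
  rw [mul_add, mul_add]
  refine add_mem (add_mem ?_ ?_) ?_
  · have h : C (8 / (n : K)) * (X (0, n) * iy (bS1 al n) : B2 K)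
        = X (0, n) * iy (C (8 / (n : K)) * bS1 al n) := by
      rw [map_mul, iy_C]
      ring
    rw [h]
    exact mul_mem (X_mem_PS al _) (PosPsi12.iy_mem al (bS1_scaled al n hn))
  · have e := symm2 (K := K) n (fun k => (k : K) / 2) (fun _ => (n : K) / 4)
      (fun k => (X (0, k) * X (0, n - k) * iy (qS2 al k (n - k)) : B2 K))
      (by
        intro k hk
        rw [Finset.mem_Ico] at hk
        rw [Nat.cast_sub hk.2.le]
        ring)
      (by
        intro k hk
        rw [Finset.mem_Ico] at hk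
        show (X (0, n - k) * X (0, n - (n - k)) * iy (qS2 al (n - k) (n - (n - k))) : B2 K)
          = X (0, k) * X (0, n - k) * iy (qS2 al k (n - k))
        rw [Nat.sub_sub_self hk.2.le, qS2_symm al (n - k) k (by omega) hk.1]
        ring)
    rw [e, ← Finset.mul_sum, ← mul_assoc, ← C_mul]
    have e1 : 8 / (n : K) * ((n : K) / 4) = ((2 : ℕ) : K) := by
      push_cast
      field_simp
      norm_num
    rw [e1]
    refine mul_mem (C_mem_PS al (natCast_mem_Nb al _)) (sum_mem fun k hk => ?_)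
    rw [Finset.mem_Ico] at hk
    exact mul_mem (mul_mem (X_mem_PS al _) (X_mem_PS al _))
      (PosPsi12.iy_mem al (qS2_mem al k (n - k) hk.1 (by omega)))
  · have e := triple_x (K := K) n (((n : K) - 3) / 2)
    simp only [← mul_div_assoc] at e
    rw [e, ← mul_assoc, ← mul_assoc, ← C_mul]
    have e1 : 8 / (n : K) * ((n : K) / 3 * ((n : K) - 3) / 2) = 4 / 3 * ((n : K) - 3) := by
      field_simp
      ring
    rw [e1]
    unfold tauX
    exact mul_mem (four_thirds al n (fun k => ((0 : Fin 2), k))) (X_mem_PS al _)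

/-! ### The first coefficients -/

theorem zero1 [CharZero K] (al : K) (hal : al ≠ 0) (h1 : Psi1St K al) :
    PowerSeries.coeff 1 (SS al (Dop al)) = 0 := by
  refine zero_of al hal 1 le_rfl _ ?_
  rw [h1 1 le_rfl, Finset.Ico_self, Finset.sum_empty, add_zero]
  unfold bD1
  rw [Finset.Ico_self, Finset.sum_empty, zero_add]
  simp

theorem zero2 [CharZero K] (al : K) (hal : al ≠ 0) (h2 : Psi2St K al) (n : ℕ) (hn : 1 ≤ n)
    (h : n < 3) : PowerSeries.coeff n (SS al (K3 al)) = 0 := by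
  refine zero_of al hal n hn _ ?_
  rw [h2 n hn]
  have hs : Finset.Ico 1 2 = {1} := rfl
  have hn2 : n = 1 ∨ n = 2 := by omega
  rcases hn2 with rfl | rfl
  · unfold bT1
    simp
  · unfold bT1 qT2
    rw [hs]
    have i2 : iy (2 : Lam K) = 2 := map_ofNat iy 2
    norm_num [Nat.choose, C_two, i2]

theorem zero3 [CharZero K] (al : K) (hal : al ≠ 0) (h3 : Psi3St K al) (n : ℕ) (hn : 1 ≤ n)
    (h : n < 4) : PowerSeries.coeff n
      (SS al (K22 al) - PowerSeries.C (C (2 : K)⁻¹) * SS al (Dop al) ^ 2) = 0 := by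
  refine zero_of al hal n hn _ ?_
  rw [h3 n hn]
  have hs2 : Finset.Ico 1 2 = {1} := rfl
  have hs3 : Finset.Ico 1 3 = {1, 2} := rfl
  have hn2 : n = 1 ∨ n = 2 ∨ n = 3 := by omega
  rcases hn2 with rfl | rfl | rfl
  · unfold bS1
    simp
  · unfold bS1 qS2
    rw [hs2]
    norm_num [Nat.choose]
  · unfold bS1 qS2
    rw [hs3, Finset.sum_pair (by norm_num), Finset.sum_pair (by norm_num)]
    have i2 : iy (2 : Lam K) = 2 := map_ofNat iy 2
    have i3 : iy (3 : Lam K) = 3 := map_ofNat iy 3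
    norm_num [Nat.choose, C_two, C_three, i2, i3]
    ring

end PiPosM

open PiPosM in
theorem piPos (K : Type) [Field K] [CharZero K] (al : K) (hal : al ≠ 0) (h1 : Psi1St K al)
    (h2 : Psi2St K al) (h3 : Psi3St K al) : ∀ n : ℕ, 1 ≤ n →
    (C (2 * al) * PowerSeries.coeff n (SS al (Dop al)) ∈ PS al ∧
      C (3 * al) * PowerSeries.coeff n (SS al (K3 al)) ∈ PS al ∧
      C (8 * al) * PowerSeries.coeff n
        (SS al (K22 al) - PowerSeries.C (C (2 : K)⁻¹) * SS al (Dop al) ^ 2) ∈ PS al) ∧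
    (n < 2 → PowerSeries.coeff n (SS al (Dop al)) = 0) ∧
    (n < 3 → PowerSeries.coeff n (SS al (K3 al)) = 0) ∧
    (n < 4 → PowerSeries.coeff n
      (SS al (K22 al) - PowerSeries.C (C (2 : K)⁻¹) * SS al (Dop al) ^ 2) = 0) := by
  intro n hn
  refine ⟨⟨?_, ?_, ?_⟩, ?_, zero2 al hal h2 n hn, zero3 al hal h3 n hn⟩
  · rw [scale al 2 n hn _ _ (h1 n hn)]
    exact part1 al n hn
  · rw [scale al 3 n hn _ _ (h2 n hn)]
    exact part2 al n hn
  · rw [scale al 8 n hn _ _ (h3 n hn)]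
    exact part3 al n hn
  · intro h
    have h4 : n = 1 := by omega
    rw [h4]
    exact zero1 al hal h1

end

end Pool.Agent.MJR
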