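import Pool.Agent.MJR.St

/-!
The operators of rank at most two are positive (from the closed forms of the brackets).
-/

set_option autoImplicit false

namespace Pool.Agent.MJR

open MvPolynomial

namespace PosKM

variable {K : Type} [Field K] {al : K}

private theorem b_mem : al - 1 ∈ Nb al := ⟨Polynomial.X, by simp⟩

private theorem al_mem : al ∈ Nb al := by
  have h : 1 + (al - 1) = al := by ring
  have h1 := add_mem (one_mem (Nb al)) (b_mem (al := al))
  rwa [h] at h1

private theorem nat_mem (n : ℕ) : (n : K) ∈ Nb al := natCast_mem _ n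

private theorem C_mem {c : K} (h : c ∈ Nb al) : (C c : Lam K) ∈ PS al := by
  classical
  intro m
  rw [coeff_C]
  split_ifs
  · exact h
  · exact zero_mem _

private theorem X_mem (k : ℕ) : (X k : Lam K) ∈ PS al := by
  classical
  intro m
  rw [coeff_X]
  split_ifs
  · exact one_mem _
  · exact zero_mem _

private def Pos (al : K) (O : Lam K →ₗ[K] Lam K) : Prop :=
  ∀ m : ℕ →₀ ℕ, O (monomial m 1) ∈ PS al

private theorem pos_zero : Pos al (0 : Lam K →ₗ[K] Lam K) := fun _ => zero_mem (PS al)

private theorem pos_step {O : Lam K →ₗ[K] Lam K} (h0 : O 1 ∈ PS al)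
    (h : ∀ k, Pos al (comm O k)) : Pos al O := by
  have key : ∀ (k : ℕ) (m : ℕ →₀ ℕ), O (monomial m 1) ∈ PS al →
      O (monomial (Finsupp.single k 1 + m) 1) ∈ PS al := by
    intro k m hm
    have h1 : (monomial (Finsupp.single k 1 + m) (1 : K) : Lam K) = X k * monomial m 1 := by
      rw [X, monomial_mul, one_mul]
    have h2 : O (X k * monomial m 1) = comm O k (monomial m 1) + X k * O (monomial m 1) := by
      show O (X k * monomial m 1) = O (X k * monomial m 1) - X k * O (monomial m 1) +
        X k * O (monomial m 1)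
      rw [sub_add_cancel]
    rw [h1, h2]
    exact add_mem (h k m) (mul_mem (X_mem k) hm)
  intro m
  induction m using Finsupp.induction with
  | zero => exact h0
  | single_add a b f ha hb hf =>
    clear hb
    induction b with
    | zero =>
      rw [Finsupp.single_zero, zero_add]
      exact hf
    | succ b ih =>
      rw [add_comm b 1, Finsupp.single_add, add_assoc]
      exact key a _ ih

private theorem pos_all {O : Lam K →ₗ[K] Lam K} (h : Pos al O) (f : Lam K) (hf : f ∈ PS al) :
    O f ∈ PS al := by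
  rw [f.as_sum, map_sum]
  refine sum_mem fun v _ => ?_
  have h1 : (monomial v (coeff v f) : Lam K) = coeff v f • monomial v 1 := by
    rw [smul_monomial, smul_eq_mul, mul_one]
  rw [h1, LinearMap.map_smul, smul_eq_C_mul]
  exact mul_mem (C_mem (hf v)) (h v)

private theorem sub_cast {m n : ℕ} (h : n ≤ m) : ∃ t : ℕ, (m : K) - n = t := by
  obtain ⟨t, rfl⟩ := Nat.exists_eq_add_of_le h
  exact ⟨t, by push_cast; ring⟩

private theorem bD1_mem (m : ℕ) : bD1 al m ∈ PS al := by
  unfold bD1
  refine add_mem (sum_mem fun a _ => mul_mem (C_mem (nat_mem a)) (mul_mem (X_mem _) (X_mem _)))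
    (mul_mem (C_mem (mul_mem b_mem (nat_mem _))) (X_mem _))

private theorem bD2_mem (i j : ℕ) : bD2 al i j ∈ PS al :=
  mul_mem (C_mem (mul_mem (mul_mem al_mem (nat_mem _)) (nat_mem _))) (X_mem _)

private theorem bT1_mem (m : ℕ) : bT1 al m ∈ PS al := by
  unfold bT1
  refine add_mem (add_mem (sum_mem fun c _ => sum_mem fun d _ => mul_mem (C_mem (nat_mem _))
    (mul_mem (mul_mem (X_mem _) (X_mem _)) (X_mem _))) ?_) ?_
  · rcases Nat.lt_or_ge m 2 with h | h
    · have h1 : Finset.Ico 1 m = ∅ := Finset.Ico_eq_empty (by omega)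
      rw [h1, Finset.sum_empty, mul_zero]
      exact zero_mem _
    · obtain ⟨t, ht⟩ := sub_cast (K := K) h
      rw [Nat.cast_ofNat] at ht
      rw [ht]
      exact mul_mem (C_mem (mul_mem b_mem (nat_mem _)))
        (sum_mem fun a _ => mul_mem (C_mem (nat_mem _)) (mul_mem (X_mem _) (X_mem _)))
  · refine mul_mem (C_mem (mul_mem (add_mem al_mem (mul_mem ?_ (pow_mem b_mem 2)))
      (nat_mem _))) (X_mem _)
    have h2 := nat_mem (al := al) 2
    rwa [Nat.cast_ofNat] at h2

private theorem bT2_mem (i j : ℕ) : bT2 al i j ∈ PS al := by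
  unfold bT2 qT2
  rcases Nat.eq_zero_or_pos i with rfl | hi
  · rw [Nat.cast_zero, mul_zero, zero_mul, C_0, zero_mul]
    exact zero_mem _
  rcases Nat.eq_zero_or_pos j with rfl | hj
  · rw [Nat.cast_zero, mul_zero, C_0, zero_mul]
    exact zero_mem _
  obtain ⟨t, ht⟩ := sub_cast (K := K) (m := i + j) (n := 2) (by omega)
  rw [Nat.cast_ofNat, Nat.cast_add] at ht
  rw [ht]
  exact mul_mem (C_mem (mul_mem (mul_mem al_mem (nat_mem _)) (nat_mem _)))
    (add_mem (add_mem (sum_mem fun a _ => mul_mem (X_mem _) (X_mem _))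
      (sum_mem fun a _ => mul_mem (X_mem _) (X_mem _)))
      (mul_mem (C_mem (mul_mem b_mem (nat_mem _))) (X_mem _)))

private theorem bT3_mem (i j k : ℕ) : bT3 al i j k ∈ PS al := by
  unfold bT3
  refine mul_mem (C_mem (mul_mem (mul_mem (mul_mem (mul_mem ?_ (pow_mem al_mem 2)) (nat_mem _))
    (nat_mem _)) (nat_mem _))) (X_mem _)
  have h2 := nat_mem (al := al) 2
  rwa [Nat.cast_ofNat] at h2

private theorem three_mem : (3 : K) ∈ Nb al := by
  have h2 := nat_mem (al := al) 3
  rwa [Nat.cast_ofNat] at h2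

private theorem bS1_mem (m : ℕ) : bS1 al m ∈ PS al := by
  unfold bS1
  refine add_mem (add_mem (sum_mem fun c hc => sum_mem fun d _ => mul_mem (C_mem ?_)
    (mul_mem (mul_mem (X_mem _) (X_mem _)) (X_mem _)))
    (mul_mem (C_mem b_mem) (sum_mem fun i hi => mul_mem (C_mem ?_) (mul_mem (X_mem _) (X_mem _)))))
    (mul_mem (C_mem (mul_mem (add_mem al_mem (mul_mem three_mem (pow_mem b_mem 2)))
      (nat_mem _))) (X_mem _))
  · rw [Finset.mem_Ico] at hc
    obtain ⟨t, ht⟩ := sub_cast (K := K) hc.1
    rw [Nat.cast_one] at ht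
    rw [ht]
    exact add_mem (nat_mem _) (mul_mem (nat_mem _) (nat_mem _))
  · rw [Finset.mem_Ico] at hi
    obtain ⟨t, ht⟩ := sub_cast (K := K) (m := m) (n := i + 1) (by omega)
    have h1 : (m : K) - i - 1 = t := by
      rw [← ht]
      push_cast
      ring
    rw [h1]
    exact add_mem (add_mem (mul_mem three_mem (nat_mem _)) (mul_mem (nat_mem _) (nat_mem _)))
      (mul_mem (nat_mem _) (nat_mem _))

private theorem bS3_mem (i j k : ℕ) : bS3 al i j k ∈ PS al := by
  unfold bS3
  rcases Nat.eq_zero_or_pos i with rfl | hi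
  · rw [Nat.cast_zero, mul_zero, zero_mul, zero_mul, zero_mul, C_0, zero_mul]
    exact zero_mem _
  rcases Nat.eq_zero_or_pos j with rfl | hj
  · rw [Nat.cast_zero, mul_zero, zero_mul, zero_mul, C_0, zero_mul]
    exact zero_mem _
  rcases Nat.eq_zero_or_pos k with rfl | hk
  · rw [Nat.cast_zero, mul_zero, zero_mul, C_0, zero_mul]
    exact zero_mem _
  obtain ⟨t, ht⟩ := sub_cast (K := K) (m := i + j + k) (n := 3) (by omega)
  rw [Nat.cast_ofNat, Nat.cast_add, Nat.cast_add] at ht
  rw [ht]
  exact mul_mem (C_mem (mul_mem (mul_mem (mul_mem (mul_mem (pow_mem al_mem 2) (nat_mem _))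
    (nat_mem _)) (nat_mem _)) (nat_mem _))) (X_mem _)

/-- folding a sum over `1 ≤ a < s` at `s / 2` -/
private theorem fold (s : ℕ) (c : K) (w : ℕ → K)
    (h1 : ∀ a, 1 ≤ a → 2 * a < s → c * (w a + w (s - a)) ∈ Nb al)
    (h2 : ∀ a, 1 ≤ a → 2 * a = s → c * w a ∈ Nb al) :
    C c * ∑ a ∈ Finset.Ico 1 s, C (w a) * (X a * X (s - a)) ∈ PS al := by
  classical
  rw [Finset.mul_sum, ← Finset.sum_filter_add_sum_filter_not (Finset.Ico 1 s) (fun a => 2 * a < s)]
  have e1 : ∑ a ∈ (Finset.Ico 1 s).filter (fun a => ¬ 2 * a < s),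
      (C c * (C (w a) * (X a * X (s - a))) : Lam K) =
      ∑ a ∈ (Finset.Ico 1 s).filter (fun a => 2 * a = s), C c * (C (w a) * (X a * X (s - a))) +
      ∑ a ∈ (Finset.Ico 1 s).filter (fun a => 2 * a < s),
        C c * (C (w (s - a)) * (X a * X (s - a))) := by
    rw [← Finset.sum_filter_add_sum_filter_not ((Finset.Ico 1 s).filter (fun a => ¬ 2 * a < s))
      (fun a => 2 * a = s), Finset.filter_filter, Finset.filter_filter]
    have e2 : (Finset.Ico 1 s).filter (fun a => ¬ 2 * a < s ∧ 2 * a = s) =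
        (Finset.Ico 1 s).filter (fun a => 2 * a = s) := by
      refine Finset.filter_congr fun a _ => ?_
      omega
    rw [e2]
    refine congrArg _ ?_
    refine Finset.sum_nbij' (fun a => s - a) (fun a => s - a) ?_ ?_ ?_ ?_ ?_
    · intro a ha
      simp only [Finset.mem_filter, Finset.mem_Ico] at ha ⊢
      omega
    · intro a ha
      simp only [Finset.mem_filter, Finset.mem_Ico] at ha ⊢
      omega
    · intro a ha
      simp only [Finset.mem_filter, Finset.mem_Ico] at ha
      omega
    · intro a ha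
      simp only [Finset.mem_filter, Finset.mem_Ico] at ha
      omega
    · intro a ha
      simp only [Finset.mem_filter, Finset.mem_Ico] at ha
      have e3 : s - (s - a) = a := by omega
      rw [e3]
      ring
  rw [e1, add_comm (∑ a ∈ (Finset.Ico 1 s).filter (fun a => 2 * a = s), _), ← add_assoc,
    ← Finset.sum_add_distrib]
  refine add_mem (sum_mem fun a ha => ?_) (sum_mem fun a ha => ?_)
  · simp only [Finset.mem_filter, Finset.mem_Ico] at ha
    have e3 : (C c * (C (w a) * (X a * X (s - a))) + C c * (C (w (s - a)) * (X a * X (s - a))) :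
        Lam K) = C (c * (w a + w (s - a))) * (X a * X (s - a)) := by
      rw [C_mul, C_add]
      ring
    rw [e3]
    exact mul_mem (C_mem (h1 a ha.1.1 ha.2)) (mul_mem (X_mem _) (X_mem _))
  · simp only [Finset.mem_filter, Finset.mem_Ico] at ha
    rw [← mul_assoc, ← C_mul]
    exact mul_mem (C_mem (h2 a ha.1.1 ha.2)) (mul_mem (X_mem _) (X_mem _))

/-- the weights of `qS2` -/
private noncomputable def w (i j a : ℕ) : K :=
  (if a < i then (i : K) - 3 else 0) + (if a < j then (i : K) + 2 * j - 2 * a - 3 else 0) +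
    (if a = i then (i : K) - 1 else 0)

private theorem sum_w (i j : ℕ) (hi : 1 ≤ i) (hj : 1 ≤ j) :
    ∑ a ∈ Finset.Ico 1 i, C ((i : K) - 3) * (X a * X (i + j - a))
    + ∑ a ∈ Finset.Ico 1 j, C ((i : K) + 2 * j - 2 * a - 3) * (X a * X (i + j - a))
    + C ((i : K) - 1) * (X i * X j) =
    (∑ a ∈ Finset.Ico 1 (i + j), C (w i j a) * (X a * X (i + j - a)) : Lam K) := by
  classical
  have e1 : ∀ a : ℕ, (C (w i j a) * (X a * X (i + j - a)) : Lam K) =
      (if a < i then C ((i : K) - 3) * (X a * X (i + j - a)) else 0) +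
      (if a < j then C ((i : K) + 2 * j - 2 * a - 3) * (X a * X (i + j - a)) else 0) +
      (if a = i then C ((i : K) - 1) * (X a * X (i + j - a)) else 0) := by
    intro a
    unfold w
    rw [C_add, C_add, add_mul, add_mul]
    split_ifs <;> simp
  have e2 : ∀ (n : ℕ) (_ : n ≤ i + j) (f : ℕ → Lam K), ∑ a ∈ Finset.Ico 1 n, f a =
      ∑ a ∈ Finset.Ico 1 (i + j), if a < n then f a else 0 := by
    intro n hn f
    rw [← Finset.sum_filter]
    refine Finset.sum_congr ?_ fun _ _ => rfl
    ext a
    simp only [Finset.mem_filter, Finset.mem_Ico]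
    omega
  have e3 : (C ((i : K) - 1) * (X i * X j) : Lam K) = ∑ a ∈ Finset.Ico 1 (i + j),
      if a = i then C ((i : K) - 1) * (X a * X (i + j - a)) else 0 := by
    rw [Finset.sum_ite_eq' (Finset.Ico 1 (i + j)) i, if_pos (Finset.mem_Ico.mpr (by omega)),
      Nat.add_sub_cancel_left]
  rw [Finset.sum_congr rfl fun a _ => e1 a, Finset.sum_add_distrib, Finset.sum_add_distrib,
    e2 i (by omega), e2 j (by omega), e3]

private theorem half_mem [CharZero K] (i j n : ℕ) (x : K) (h : x = 2 * n) :
    al * i * j / 2 * x ∈ Nb al := by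
  have h1 : al * i * j / 2 * x = al * ((i * j * n : ℕ) : K) := by
    rw [h]
    push_cast
    ring
  rw [h1]
  exact mul_mem al_mem (nat_mem _)

private theorem half_mem' [CharZero K] (i j n : ℕ) (x : K) (h : (i : K) * j * x = 2 * n) :
    al * i * j / 2 * x ∈ Nb al := by
  have h1 : al * i * j / 2 * x = al * ((n : ℕ) : K) := by
    have h2 : al * i * j / 2 * x = al * ((i : K) * j * x) / 2 := by ring
    rw [h2, h]
    ring
  rw [h1]
  exact mul_mem al_mem (nat_mem _)

private theorem even_form (t : ℕ) : ∃ r : ℕ, (t + 3) * t = 2 * r := by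
  rcases Nat.even_or_odd' t with ⟨k, hk | hk⟩
  · exact ⟨(t + 3) * k, by rw [hk]; ring⟩
  · exact ⟨(k + 2) * t, by rw [hk]; ring⟩

private theorem even_form' (t : ℕ) : ∃ r : ℕ, (t + 1) * t = 2 * r := by
  rcases Nat.even_or_odd' t with ⟨k, hk | hk⟩
  · exact ⟨(t + 1) * k, by rw [hk]; ring⟩
  · exact ⟨(k + 1) * t, by rw [hk]; ring⟩

private theorem w_pair [CharZero K] (i j a : ℕ) (ha : 1 ≤ a) (h : 2 * a < i + j) :
    al * i * j / 2 * (w i j a + w i j (i + j - a)) ∈ Nb al := by
  have hc : ((i + j - a : ℕ) : K) = i + j - a := by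
    rw [Nat.cast_sub (by omega), Nat.cast_add]
  unfold w
  rw [hc]
  rcases Nat.lt_or_ge a (min i j) with h1 | h1
  · obtain ⟨t, ht⟩ : ∃ t, i + j = a + 3 + t := ⟨i + j - (a + 3), by omega⟩
    have ht' : (i : K) + j = a + 3 + t := by exact_mod_cast ht
    rw [if_pos (by omega : a < i), if_pos (by omega : a < j), if_neg (by omega : ¬ a = i),
      if_neg (by omega : ¬ i + j - a < i), if_neg (by omega : ¬ i + j - a < j),
      if_neg (by omega : ¬ i + j - a = i)]
    exact half_mem i j t _ (by linear_combination 2 * ht')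
  · rcases Nat.lt_trichotomy i j with h2 | h2 | h2
    · rcases Nat.eq_or_lt_of_le (show i ≤ a by omega) with h3 | h3
      · obtain ⟨t, ht⟩ : ∃ t, j = 2 + t := ⟨j - 2, by omega⟩
        have ht' : (j : K) = 2 + t := by exact_mod_cast ht
        have h3' : (i : K) = a := by exact_mod_cast h3
        rw [if_neg (by omega : ¬ a < i), if_pos (by omega : a < j), if_pos (by omega : a = i),
          if_neg (by omega : ¬ i + j - a < i), if_neg (by omega : ¬ i + j - a < j),
          if_neg (by omega : ¬ i + j - a = i)]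
        exact half_mem i j t _ (by linear_combination 2 * ht' + 2 * h3')
      · obtain ⟨t, ht⟩ : ∃ t, j = 3 + t := ⟨j - 3, by omega⟩
        have ht' : (j : K) = 3 + t := by exact_mod_cast ht
        rw [if_neg (by omega : ¬ a < i), if_pos (by omega : a < j), if_neg (by omega : ¬ a = i),
          if_neg (by omega : ¬ i + j - a < i), if_pos (by omega : i + j - a < j),
          if_neg (by omega : ¬ i + j - a = i)]
        exact half_mem i j t _ (by linear_combination 2 * ht')
    · omega
    · rcases Nat.eq_or_lt_of_le (show j ≤ a by omega) with h3 | h3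
      · obtain ⟨t, ht⟩ : ∃ t, i = 2 + t := ⟨i - 2, by omega⟩
        have ht' : (i : K) = 2 + t := by exact_mod_cast ht
        rw [if_pos (by omega : a < i), if_neg (by omega : ¬ a < j), if_neg (by omega : ¬ a = i),
          if_neg (by omega : ¬ i + j - a < i), if_neg (by omega : ¬ i + j - a < j),
          if_pos (by omega : i + j - a = i)]
        exact half_mem i j t _ (by linear_combination 2 * ht')
      · obtain ⟨t, ht⟩ : ∃ t, i = 3 + t := ⟨i - 3, by omega⟩
        have ht' : (i : K) = 3 + t := by exact_mod_cast ht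
        rw [if_pos (by omega : a < i), if_neg (by omega : ¬ a < j), if_neg (by omega : ¬ a = i),
          if_pos (by omega : i + j - a < i), if_neg (by omega : ¬ i + j - a < j),
          if_neg (by omega : ¬ i + j - a = i)]
        exact half_mem i j t _ (by linear_combination 2 * ht')

private theorem w_mid [CharZero K] (i j a : ℕ) (ha : 1 ≤ a) (h : 2 * a = i + j) (hi : 1 ≤ i)
    (hj : 1 ≤ j) : al * i * j / 2 * w i j a ∈ Nb al := by
  unfold w
  rcases Nat.lt_trichotomy i j with h2 | h2 | h2
  · obtain ⟨t, ht⟩ : ∃ t, j = 3 + t := ⟨j - 3, by omega⟩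
    obtain ⟨r, hr⟩ := even_form t
    have ht' : (j : K) = 3 + t := by exact_mod_cast ht
    have hr' : ((t : K) + 3) * t = 2 * r := by exact_mod_cast hr
    have ha' : (2 : K) * a = i + j := by exact_mod_cast h
    rw [if_neg (by omega : ¬ a < i), if_pos (by omega : a < j), if_neg (by omega : ¬ a = i)]
    refine half_mem' i j (i * r) _ ?_
    push_cast
    rw [ht'] at ha' ⊢
    linear_combination (i : K) * hr' - (i : K) * (3 + t) * ha'
  · obtain ⟨t, ht⟩ : ∃ t, i = 1 + t := ⟨i - 1, by omega⟩
    obtain ⟨r, hr⟩ := even_form' t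
    have ht' : (i : K) = 1 + t := by exact_mod_cast ht
    have hr' : ((t : K) + 1) * t = 2 * r := by exact_mod_cast hr
    rw [if_neg (by omega : ¬ a < i), if_neg (by omega : ¬ a < j), if_pos (by omega : a = i)]
    refine half_mem' i j (j * r) _ ?_
    push_cast
    rw [ht']
    linear_combination (j : K) * hr'
  · obtain ⟨t, ht⟩ : ∃ t, i = 3 + t := ⟨i - 3, by omega⟩
    obtain ⟨r, hr⟩ := even_form t
    have ht' : (i : K) = 3 + t := by exact_mod_cast ht
    have hr' : ((t : K) + 3) * t = 2 * r := by exact_mod_cast hr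
    rw [if_pos (by omega : a < i), if_neg (by omega : ¬ a < j), if_neg (by omega : ¬ a = i)]
    refine half_mem' i j (j * r) _ ?_
    push_cast
    rw [ht']
    linear_combination (j : K) * hr'

private theorem last_mem [CharZero K] (i j : ℕ) (hi : 1 ≤ i) (hj : 1 ≤ j) :
    al * i * j / 2 * ((al - 1) * (((i : K) - 1) * (i - 2) + ((j : K) - 1) * (j - 2) +
      ((i : K) - 1) * (j - 1))) ∈ Nb al := by
  obtain ⟨t, ht⟩ : ∃ t, i = 1 + t := ⟨i - 1, by omega⟩
  obtain ⟨u, hu⟩ : ∃ u, j = 1 + u := ⟨j - 1, by omega⟩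
  have ht' : (i : K) = 1 + t := by exact_mod_cast ht
  have hu' : (j : K) = 1 + u := by exact_mod_cast hu
  have ht2 : (t : K) * (t - 1) = 2 * (t.choose 2 : ℕ) := by
    rw [Nat.cast_choose_two]
    ring
  have hu2 : (u : K) * (u - 1) = 2 * (u.choose 2 : ℕ) := by
    rw [Nat.cast_choose_two]
    ring
  obtain ⟨r, hr⟩ := even_form' t
  have hr' : ((t : K) + 1) * t = 2 * r := by exact_mod_cast hr
  have h1 : al * i * j / 2 * ((al - 1) * (((i : K) - 1) * (i - 2) + ((j : K) - 1) * (j - 2) +
      ((i : K) - 1) * (j - 1))) = al * ((al - 1) * ((i * j * (t.choose 2 + u.choose 2) +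
        r * (j * u) : ℕ) : K)) := by
    push_cast
    rw [ht', hu']
    linear_combination (al * (al - 1) * (1 + t) * (1 + u) / 2) * ht2 +
      (al * (al - 1) * (1 + t) * (1 + u) / 2) * hu2 + (al * (al - 1) * (1 + u) * u / 2) * hr'
  rw [h1]
  exact mul_mem al_mem (mul_mem b_mem (nat_mem _))

private theorem bS2_mem [CharZero K] (i j : ℕ) : bS2 al i j ∈ PS al := by
  unfold bS2 qS2
  rcases Nat.eq_zero_or_pos i with rfl | hi
  · rw [Nat.cast_zero, mul_zero, zero_mul, zero_div, C_0, zero_mul]
    exact zero_mem _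
  rcases Nat.eq_zero_or_pos j with rfl | hj
  · rw [Nat.cast_zero, mul_zero, zero_div, C_0, zero_mul]
    exact zero_mem _
  rw [sum_w i j hi hj, mul_add, ← mul_assoc (C (al * i * j / 2)) (C _) (X (i + j)), ← C_mul]
  exact add_mem (fold (i + j) (al * i * j / 2) (w i j) (fun a h1 h2 => w_pair i j a h1 h2)
    (fun a h1 h2 => w_mid i j a h1 h2 hi hj)) (mul_mem (C_mem (last_mem i j hi hj)) (X_mem _))

end PosKM

open PosKM in
/-- The operators of rank at most two are positive. -/
theorem posK_of {K : Type} [Field K] [CharZero K] {al : K} (hD : BrDSt K al) (h3 : BrK3St K al)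
    (h22 : BrK22St K al) : PosKSt K al := by
  obtain ⟨d0, d1, d2, d3⟩ := hD
  obtain ⟨t0, t1, t2, t3, t4⟩ := h3
  obtain ⟨s0, s1, s2, s3, s4, s5⟩ := h22
  intro s f hf
  fin_cases s
  · exact hf
  · refine pos_all (O := Dop al) (pos_step ?_ fun i => pos_step ?_ fun j => pos_step ?_ fun k => ?_)
      f hf
    · rw [d0]
      exact zero_mem _
    · rw [d1]
      exact bD1_mem _
    · rw [d2]
      exact bD2_mem _ _
    · rw [d3]
      exact pos_zero
  · refine pos_all (O := K3 al) (pos_step ?_ fun i => pos_step ?_ fun j => pos_step ?_ fun k =>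
      pos_step ?_ fun l => ?_) f hf
    · rw [t0]
      exact zero_mem _
    · rw [t1]
      exact bT1_mem _
    · rw [t2]
      exact bT2_mem _ _
    · rw [t3]
      exact bT3_mem _ _ _
    · rw [t4]
      exact pos_zero
  · refine pos_all (O := K22 al) (pos_step ?_ fun i => pos_step ?_ fun j => pos_step ?_ fun k =>
      pos_step ?_ fun l => pos_step ?_ fun m => ?_) f hf
    · rw [s0]
      exact zero_mem _
    · rw [s1]
      exact bS1_mem _
    · rw [s2]
      exact add_mem (bS2_mem _ _) (mul_mem (bD1_mem _) (bD1_mem _))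
    · rw [s3]
      exact add_mem (add_mem (add_mem (bS3_mem _ _ _) (mul_mem (bD1_mem _) (bD2_mem _ _)))
        (mul_mem (bD1_mem _) (bD2_mem _ _))) (mul_mem (bD1_mem _) (bD2_mem _ _))
    · rw [s4]
      exact add_mem (add_mem (mul_mem (bD2_mem _ _) (bD2_mem _ _))
        (mul_mem (bD2_mem _ _) (bD2_mem _ _))) (mul_mem (bD2_mem _ _) (bD2_mem _ _))
    · rw [s5]
      exact pos_zero

end Pool.Agent.MJR
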