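import Pool.Agent.MJR.St
import Pool.Agent.MJR.Basic

/-!
Positivity of the first two series of the closed forms.
-/

namespace Pool.Agent.MJR

open MvPolynomial

noncomputable section

variable {K : Type} [Field K]

namespace PosPsi12

theorem b_mul_natCast_mem_Nb (al : K) (n : ℕ) : (al - 1) * (n : K) ∈ Nb al :=
  mul_mem (b_mem_Nb al) (natCast_mem_Nb al n)

/-- `bD1` is positive. -/
theorem bD1_mem (al : K) (m : ℕ) : bD1 al m ∈ PS al := by
  unfold bD1
  refine add_mem (sum_mem fun a _ => mul_mem (C_mem_PS al (natCast_mem_Nb al a))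
    (mul_mem (X_mem_PS al _) (X_mem_PS al _))) ?_
  exact mul_mem (C_mem_PS al (b_mul_natCast_mem_Nb al _)) (X_mem_PS al _)

/-- `bT1` is positive. -/
theorem bT1_mem (al : K) (m : ℕ) : bT1 al m ∈ PS al := by
  unfold bT1
  refine add_mem (add_mem ?_ ?_) ?_
  · exact sum_mem fun c _ => sum_mem fun d _ => mul_mem (C_mem_PS al (natCast_mem_Nb al c))
      (mul_mem (mul_mem (X_mem_PS al _) (X_mem_PS al _)) (X_mem_PS al _))
  · rcases Nat.lt_or_ge m 2 with hm | hm
    · have h : Finset.Ico 1 m = ∅ := Finset.Ico_eq_empty_of_le (by omega)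
      rw [h, Finset.sum_empty, mul_zero]
      exact zero_mem _
    · have h : (m : K) - 2 = ((m - 2 : ℕ) : K) := by
        rw [Nat.cast_sub hm]
        norm_num
      rw [h]
      exact mul_mem (C_mem_PS al (b_mul_natCast_mem_Nb al _))
        (sum_mem fun a _ => mul_mem (C_mem_PS al (natCast_mem_Nb al a))
          (mul_mem (X_mem_PS al _) (X_mem_PS al _)))
  · refine mul_mem (C_mem_PS al (mul_mem (add_mem (al_mem_Nb al) (mul_mem ?_
      (pow_mem (b_mem_Nb al) 2))) (natCast_mem_Nb al _))) (X_mem_PS al _)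
    exact_mod_cast natCast_mem_Nb al 2

/-- `qT2` is positive. -/
theorem qT2_mem (al : K) (i j : ℕ) (hi : 1 ≤ i) (hj : 1 ≤ j) : qT2 al i j ∈ PS al := by
  unfold qT2
  refine add_mem (add_mem ?_ ?_) ?_
  · exact sum_mem fun a _ => mul_mem (X_mem_PS al _) (X_mem_PS al _)
  · exact sum_mem fun a _ => mul_mem (X_mem_PS al _) (X_mem_PS al _)
  · have h : (i : K) + j - 2 = ((i + j - 2 : ℕ) : K) := by
      rw [Nat.cast_sub (by omega)]
      push_cast
      ring
    rw [h]
    exact mul_mem (C_mem_PS al (b_mul_natCast_mem_Nb al _)) (X_mem_PS al _)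

/-- Renaming along an injective map preserves positivity. -/
theorem rename_mem {σ τ : Type} (al : K) (g : σ → τ) (hg : Function.Injective g)
    {f : MvPolynomial σ K} (hf : f ∈ PS al) : rename g f ∈ PS al := by
  classical
  intro m
  by_cases h : ∃ u : σ →₀ ℕ, u.mapDomain g = m
  · obtain ⟨u, rfl⟩ := h
    rw [coeff_rename_mapDomain g hg]
    exact hf u
  · rw [coeff_rename_eq_zero]
    · exact zero_mem _
    · intro u hu
      exact absurd ⟨u, hu⟩ h

/-- `iy` preserves positivity. -/
theorem iy_mem (al : K) {f : Lam K} (hf : f ∈ PS al) : iy f ∈ PS al :=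
  rename_mem al _ (fun a b h => by simpa using h) hf

/-- `ix` preserves positivity. -/
theorem ix_mem (al : K) {f : Lam K} (hf : f ∈ PS al) : ix f ∈ PS al :=
  rename_mem al _ (fun a b h => by simpa using h) hf

end PosPsi12

open PosPsi12 in
theorem posPsi12 (K : Type) [Field K] [CharZero K] (al : K) (h1 : Psi1St K al) (h2 : Psi2St K al) :
    ∀ n : ℕ, 1 ≤ n → C (al * n) * PowerSeries.coeff n (SS al (Dop al)) ∈ PS al ∧
      C (al * n) * PowerSeries.coeff n (SS al (K3 al)) ∈ PS al := by
  intro n hn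
  refine ⟨?_, ?_⟩
  · rw [h1 n hn]
    refine add_mem (mul_mem (X_mem_PS al _) (iy_mem al (bD1_mem al n))) ?_
    exact sum_mem fun k _ => mul_mem (C_mem_PS al (natCast_mem_Nb al k))
      (mul_mem (mul_mem (X_mem_PS al _) (X_mem_PS al _)) (X_mem_PS al _))
  · rw [h2 n hn]
    refine add_mem (add_mem (mul_mem (X_mem_PS al _) (iy_mem al (bT1_mem al n))) ?_) ?_
    · refine sum_mem fun k hk => ?_
      rw [Finset.mem_Ico] at hk
      exact mul_mem (C_mem_PS al (natCast_mem_Nb al k))
        (mul_mem (mul_mem (X_mem_PS al _) (X_mem_PS al _))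
          (iy_mem al (qT2_mem al k (n - k) hk.1 (by omega))))
    · exact sum_mem fun k _ => sum_mem fun l _ => mul_mem (C_mem_PS al (natCast_mem_Nb al k))
        (mul_mem (mul_mem (mul_mem (X_mem_PS al _) (X_mem_PS al _)) (X_mem_PS al _))
          (X_mem_PS al _))

end

end Pool.Agent.MJR
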