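import Pool.Agent.MJR.St
import Pool.Agent.MJR.Basic

/-!
Positivity of the third series (helper41).
-/

namespace Pool.Agent.MJR

open MvPolynomial

noncomputable section

namespace PosPsi3

variable {K : Type} [Field K]

theorem nat_mem {σ : Type} (al : K) (n : ℕ) : (C (n : K) : MvPolynomial σ K) ∈ PS al :=
  C_mem_PS al (natCast_mem_Nb al n)

theorem monomial_mem {σ : Type} (al : K) (m : σ →₀ ℕ) {c : K} (hc : c ∈ Nb al) :
    (monomial m c : MvPolynomial σ K) ∈ PS al := by
  classical
  intro e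
  rw [coeff_monomial]
  split_ifs
  · exact hc
  · exact zero_mem _

theorem rename_mem {σ τ : Type} (al : K) (g : σ → τ) {f : MvPolynomial σ K} (hf : f ∈ PS al) :
    rename g f ∈ PS al := by
  have h : rename g f = ∑ m ∈ f.support, rename g (monomial m (coeff m f)) := by
    conv_lhs => rw [f.as_sum]
    rw [map_sum]
  rw [h]
  refine sum_mem fun m _ => ?_
  rw [rename_monomial]
  exact monomial_mem al _ (hf m)

theorem iy_mem (al : K) {f : Lam K} (hf : f ∈ PS al) : iy f ∈ PS al := rename_mem al _ hf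

theorem b_mem {σ : Type} (al : K) (n : ℕ) :
    (C ((al - 1) * (n : K)) : MvPolynomial σ K) ∈ PS al :=
  C_mem_PS al (mul_mem (b_mem_Nb al) (natCast_mem_Nb al n))

/-- folding a sum -/
theorem fold {M : Type} [AddCommMonoid M] (n : ℕ) (F : ℕ → M) :
    ∑ k ∈ Finset.Ico 1 n, F k = ∑ k ∈ (Finset.Ico 1 n).filter (fun k => 2 * k < n),
      (F k + F (n - k)) + ∑ k ∈ (Finset.Ico 1 n).filter (fun k => 2 * k = n), F k := by
  have h1 : ∑ k ∈ (Finset.Ico 1 n).filter (fun k => 2 * k < n), F (n - k) =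
      ∑ k ∈ (Finset.Ico 1 n).filter (fun k => n < 2 * k), F k := by
    refine Finset.sum_nbij' (fun k => n - k) (fun k => n - k) ?_ ?_ ?_ ?_ ?_
    · intro k hk
      simp only [Finset.mem_filter, Finset.mem_Ico] at hk ⊢
      omega
    · intro k hk
      simp only [Finset.mem_filter, Finset.mem_Ico] at hk ⊢
      omega
    · intro k hk
      simp only [Finset.mem_filter, Finset.mem_Ico] at hk
      show n - (n - k) = k
      omega
    · intro k hk
      simp only [Finset.mem_filter, Finset.mem_Ico] at hk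
      show n - (n - k) = k
      omega
    · intro k hk
      rfl
  have h2 : ∑ k ∈ Finset.Ico 1 n, F k =
      ∑ k ∈ (Finset.Ico 1 n).filter (fun k => 2 * k < n), F k +
      ∑ k ∈ (Finset.Ico 1 n).filter (fun k => ¬ 2 * k < n), F k :=
    (Finset.sum_filter_add_sum_filter_not _ _ _).symm
  have h3 : ∑ k ∈ (Finset.Ico 1 n).filter (fun k => ¬ 2 * k < n), F k =
      ∑ k ∈ (Finset.Ico 1 n).filter (fun k => 2 * k = n), F k +
      ∑ k ∈ (Finset.Ico 1 n).filter (fun k => n < 2 * k), F k := by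
    rw [← Finset.sum_filter_add_sum_filter_not
      ((Finset.Ico 1 n).filter (fun k => ¬ 2 * k < n)) (fun k => 2 * k = n),
      Finset.filter_filter, Finset.filter_filter]
    congr 1
    · refine Finset.sum_congr ?_ fun _ _ => rfl
      ext k
      simp only [Finset.mem_filter, Finset.mem_Ico]
      omega
    · refine Finset.sum_congr ?_ fun _ _ => rfl
      ext k
      simp only [Finset.mem_filter, Finset.mem_Ico]
      omega
  rw [h2, h3, Finset.sum_add_distrib, h1]
  abel

/-! ### the one-part terms -/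

theorem bS1_mem (al : K) (m : ℕ) : bS1 al m ∈ PS al := by
  unfold bS1
  refine add_mem (add_mem ?_ ?_) ?_
  · refine sum_mem fun c hc => sum_mem fun d _ => ?_
    rw [Finset.mem_Ico] at hc
    have h1 : ((c.choose 2 : K) + d * (c - 1 : K)) = ((c.choose 2 + d * (c - 1) : ℕ) : K) := by
      rw [Nat.cast_add, Nat.cast_mul, Nat.cast_sub hc.1, Nat.cast_one]
    rw [h1]
    exact mul_mem (nat_mem al _) (mul_mem (mul_mem (X_mem_PS al _) (X_mem_PS al _))
      (X_mem_PS al _))
  · rw [Finset.mul_sum]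
    refine sum_mem fun i hi => ?_
    rw [Finset.mem_Ico] at hi
    have h1 : (3 * (i.choose 3 : K) + i * ((m - i - 1).choose 2 : K)
          + (i.choose 2 : K) * ((m : K) - i - 1)) =
        ((3 * i.choose 3 + i * (m - i - 1).choose 2 + i.choose 2 * (m - i - 1) : ℕ) : K) := by
      have h2 : ((m - i - 1 : ℕ) : K) = (m : K) - i - 1 := by
        rw [Nat.cast_sub (by omega), Nat.cast_sub (by omega), Nat.cast_one]
      push_cast
      rw [h2]
    rw [h1]
    exact mul_mem (C_mem_PS al (b_mem_Nb al)) (mul_mem (nat_mem al _)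
      (mul_mem (X_mem_PS al _) (X_mem_PS al _)))
  · refine mul_mem (C_mem_PS al (mul_mem (add_mem (al_mem_Nb al) (mul_mem ?_
      (pow_mem (b_mem_Nb al) 2))) (natCast_mem_Nb al _))) (X_mem_PS al _)
    have h3 := natCast_mem_Nb al 3
    rwa [Nat.cast_ofNat] at h3

/-! ### the two-part terms -/

/-- the antisymmetric part vanishes -/
private theorem anti [CharZero K] (i j : ℕ) (hij : i ≤ j) :
    ∑ a ∈ Finset.Ico i j, C ((i : K) + j - 2 * a) * (X a * X (i + j - a) : Lam K) =
      C ((j : K) - i) * (X i * X j) := by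
  rcases Nat.eq_or_lt_of_le hij with rfl | h
  · simp
  · rw [Finset.sum_eq_sum_Ico_succ_bot h]
    have h1 : ∑ a ∈ Finset.Ico (i + 1) j, C ((i : K) + j - 2 * a) *
        (X a * X (i + j - a) : Lam K) = 0 := by
      have h2 : ∑ a ∈ Finset.Ico (i + 1) j, C ((i : K) + j - 2 * a) *
          (X a * X (i + j - a) : Lam K) = -∑ a ∈ Finset.Ico (i + 1) j,
            C ((i : K) + j - 2 * a) * (X a * X (i + j - a) : Lam K) := by
        rw [← Finset.sum_neg_distrib]
        refine Finset.sum_nbij' (fun a => i + j - a) (fun a => i + j - a) ?_ ?_ ?_ ?_ ?_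
        · intro a ha
          simp only [Finset.mem_Ico] at ha ⊢
          omega
        · intro a ha
          simp only [Finset.mem_Ico] at ha ⊢
          omega
        · intro a ha
          simp only [Finset.mem_Ico] at ha
          show i + j - (i + j - a) = a
          omega
        · intro a ha
          simp only [Finset.mem_Ico] at ha
          show i + j - (i + j - a) = a
          omega
        · intro a ha
          simp only [Finset.mem_Ico] at ha
          have h4 : i + j - (i + j - a) = a := by omega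
          have h5 : ((i + j - a : ℕ) : K) = (i : K) + j - a := by
            rw [Nat.cast_sub (by omega), Nat.cast_add]
          rw [h4, h5]
          have h6 : (i : K) + j - 2 * ((i : K) + j - a) = -((i : K) + j - 2 * a) := by ring
          rw [h6, C_neg]
          ring
      have h3 : (2 : Lam K) * ∑ a ∈ Finset.Ico (i + 1) j, C ((i : K) + j - 2 * a) *
          (X a * X (i + j - a) : Lam K) = 0 := by
        linear_combination h2
      rcases mul_eq_zero.mp h3 with h4 | h4
      · exact absurd h4 two_ne_zero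
      · exact h4
    have h7 : i + j - i = j := by omega
    rw [h1, h7, add_zero]
    congr 2
    ring

private theorem split_le {M : Type} [AddCommMonoid M] (i j : ℕ) (h1 : 1 ≤ i) (h2 : i ≤ j)
    (F : ℕ → M) : ∑ a ∈ Finset.Ico 1 j, F a = ∑ a ∈ Finset.Ico 1 i, F a +
      ∑ a ∈ Finset.Ico i j, F a := (Finset.sum_Ico_consecutive F h1 h2).symm

private theorem symm_le [CharZero K] (al : K) (i j : ℕ) (hi : 1 ≤ i) (hij : i ≤ j) :
    qS2 al i j = qS2 al j i := by
  have h0 := anti (K := K) i j hij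
  have h1 : ∑ a ∈ Finset.Ico 1 j, C ((i : K) + j - 2 * a) * (X a * X (i + j - a) : Lam K) =
      ∑ a ∈ Finset.Ico 1 i, C ((i : K) + j - 2 * a) * (X a * X (i + j - a) : Lam K) +
        C ((j : K) - i) * (X i * X j) := by
    rw [split_le i j hi hij, h0]
  have h2 : ∑ a ∈ Finset.Ico 1 j, C ((i : K) + 2 * j - 2 * a - 3) *
      (X a * X (i + j - a) : Lam K) =
      ∑ a ∈ Finset.Ico 1 j, C ((j : K) - 3) * (X a * X (i + j - a) : Lam K) +
      ∑ a ∈ Finset.Ico 1 j, C ((i : K) + j - 2 * a) * (X a * X (i + j - a) : Lam K) := by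
    rw [← Finset.sum_add_distrib]
    refine Finset.sum_congr rfl fun a _ => ?_
    rw [← add_mul, ← C_add]
    congr 2
    ring
  have h3 : ∑ a ∈ Finset.Ico 1 i, C ((j : K) + 2 * i - 2 * a - 3) *
      (X a * X (j + i - a) : Lam K) =
      ∑ a ∈ Finset.Ico 1 i, C ((i : K) - 3) * (X a * X (i + j - a) : Lam K) +
      ∑ a ∈ Finset.Ico 1 i, C ((i : K) + j - 2 * a) * (X a * X (i + j - a) : Lam K) := by
    rw [← Finset.sum_add_distrib]
    refine Finset.sum_congr rfl fun a _ => ?_
    rw [← add_mul, ← C_add, add_comm j i]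
    congr 2
    ring
  unfold qS2
  rw [h2, h3, h1, add_comm j i]
  have h4 : (al - 1) * (((j : K) - 1) * (j - 2) + ((i : K) - 1) * (i - 2) +
      ((j : K) - 1) * (i - 1)) = (al - 1) * (((i : K) - 1) * (i - 2) +
      ((j : K) - 1) * (j - 2) + ((i : K) - 1) * (j - 1)) := by ring
  have h5 : (C ((i : K) - 1) : Lam K) + C ((j : K) - i) = C ((j : K) - 1) := by
    rw [← C_add]
    congr 1
    ring
  rw [h4, ← h5]
  ring

theorem qS2_symm [CharZero K] (al : K) (i j : ℕ) (hi : 1 ≤ i) (hj : 1 ≤ j) :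
    qS2 al i j = qS2 al j i := by
  rcases le_total i j with h | h
  · exact symm_le al i j hi h
  · exact (symm_le al j i hj h).symm

private theorem cast_b (i j : ℕ) (hi : 1 ≤ i) (hj : 1 ≤ j) :
    (((i : K) - 1) * (i - 2) + ((j : K) - 1) * (j - 2) + ((i : K) - 1) * (j - 1)) =
      (((i - 1) * (i - 2) + (j - 1) * (j - 2) + (i - 1) * (j - 1) : ℕ) : K) := by
  have h : ∀ m : ℕ, 1 ≤ m → ((m : K) - 1) * (m - 2) = (((m - 1) * (m - 2) : ℕ) : K) := by
    intro m hm
    rcases Nat.lt_or_ge m 2 with h | h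
    · have h1 : m = 1 := by omega
      subst h1
      simp
    · rw [Nat.cast_mul, Nat.cast_sub hm, Nat.cast_sub h, Nat.cast_one, Nat.cast_ofNat]
  rw [h i hi, h j hj]
  push_cast
  rw [Nat.cast_sub hi, Nat.cast_sub hj, Nat.cast_one]

/-- the case `i = 1` or `i ≥ 3`, with a scalar `s` (`s = 1` or `s = 1/2`) -/
private theorem mem_aux (al s : K) (i j : ℕ) (hi : i = 1 ∨ 3 ≤ i)
    (h1 : 3 ≤ i → s * ((i : K) - 3) ∈ Nb al)
    (h2 : ∀ a, 1 ≤ a → a < j → s * ((i : K) + 2 * j - 2 * a - 3) ∈ Nb al)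
    (h3 : s * ((i : K) - 1) ∈ Nb al)
    (h4 : s * (((i : K) - 1) * (i - 2) + ((j : K) - 1) * (j - 2) + ((i : K) - 1) * (j - 1)) ∈
      Nb al) : C s * qS2 al i j ∈ PS al := by
  unfold qS2
  rw [mul_add, mul_add, mul_add]
  refine add_mem (add_mem (add_mem ?_ ?_) ?_) ?_
  · rw [Finset.mul_sum]
    refine sum_mem fun a ha => ?_
    rw [Finset.mem_Ico] at ha
    rw [← mul_assoc, ← C_mul]
    exact mul_mem (C_mem_PS al (h1 (by omega))) (mul_mem (X_mem_PS al _) (X_mem_PS al _))
  · rw [Finset.mul_sum]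
    refine sum_mem fun a ha => ?_
    rw [Finset.mem_Ico] at ha
    rw [← mul_assoc, ← C_mul]
    exact mul_mem (C_mem_PS al (h2 a ha.1 ha.2)) (mul_mem (X_mem_PS al _) (X_mem_PS al _))
  · rw [← mul_assoc, ← C_mul]
    exact mul_mem (C_mem_PS al h3) (mul_mem (X_mem_PS al _) (X_mem_PS al _))
  · rw [← mul_assoc, ← C_mul]
    refine mul_mem (C_mem_PS al ?_) (X_mem_PS al _)
    have h5 := mul_mem (b_mem_Nb al) h4
    have h6 : s * ((al - 1) * (((i : K) - 1) * (i - 2) + ((j : K) - 1) * (j - 2) +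
        ((i : K) - 1) * (j - 1))) = (al - 1) * (s * (((i : K) - 1) * (i - 2) +
        ((j : K) - 1) * (j - 2) + ((i : K) - 1) * (j - 1))) := by ring
    rw [h6]
    exact h5

private theorem mem_one (al : K) (i j : ℕ) (hi : i = 1 ∨ 3 ≤ i) (hj : 1 ≤ j) :
    qS2 al i j ∈ PS al := by
  have hi1 : 1 ≤ i := by omega
  have h := mem_aux al 1 i j hi ?_ ?_ ?_ ?_
  · rwa [C_1, one_mul] at h
  · intro h3
    have h5 : (1 : K) * ((i : K) - 3) = ((i - 3 : ℕ) : K) := by
      rw [Nat.cast_sub h3, Nat.cast_ofNat, one_mul]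
    rw [h5]
    exact natCast_mem_Nb al _
  · intro a ha1 ha2
    have h5 : (1 : K) * ((i : K) + 2 * j - 2 * a - 3) = ((i + 2 * (j - a) - 3 : ℕ) : K) := by
      rw [Nat.cast_sub (by omega), Nat.cast_add, Nat.cast_mul, Nat.cast_sub ha2.le,
        Nat.cast_ofNat, Nat.cast_ofNat]
      ring
    rw [h5]
    exact natCast_mem_Nb al _
  · have h5 : (1 : K) * ((i : K) - 1) = ((i - 1 : ℕ) : K) := by
      rw [Nat.cast_sub hi1, Nat.cast_one, one_mul]
    rw [h5]
    exact natCast_mem_Nb al _
  · rw [one_mul, cast_b i j hi1 hj]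
    exact natCast_mem_Nb al _

private theorem mem_two (al : K) : qS2 al 2 2 ∈ PS al := by
  have h : qS2 al 2 2 = X 2 * X 2 + C (al - 1) * X 4 := by
    unfold qS2
    have h1 : Finset.Ico 1 2 = {1} := rfl
    rw [h1, Finset.sum_singleton, Finset.sum_singleton]
    have h2 : 2 + 2 - 1 = 3 := rfl
    have h3 : 2 + 2 = 4 := rfl
    rw [h2, h3]
    have e1 : (((2 : ℕ) : K) - 3) = -1 := by push_cast; ring
    have e2 : (((2 : ℕ) : K) + 2 * ((2 : ℕ) : K) - 2 * ((1 : ℕ) : K) - 3) = 1 := by
      push_cast; ring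
    have e3 : (((2 : ℕ) : K) - 1) = 1 := by push_cast; ring
    rw [e1, e2, e3]
    have e4 : (al - 1) * ((1 : K) * (((2 : ℕ) : K) - 2) + (1 : K) * (((2 : ℕ) : K) - 2) +
        1 * 1) = al - 1 := by
      push_cast; ring
    rw [e4, C_neg, C_1]
    ring
  rw [h]
  exact add_mem (mul_mem (X_mem_PS al _) (X_mem_PS al _))
    (mul_mem (C_mem_PS al (b_mem_Nb al)) (X_mem_PS al _))

theorem qS2_mem [CharZero K] (al : K) (i j : ℕ) (hi : 1 ≤ i) (hj : 1 ≤ j) :
    qS2 al i j ∈ PS al := by
  by_cases h1 : i = 2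
  · by_cases h2 : j = 2
    · subst h1
      subst h2
      exact mem_two al
    · rw [qS2_symm al i j hi hj]
      exact mem_one al j i (by omega) hi
  · exact mem_one al i j (by omega) hj

private theorem half_nat [CharZero K] (al : K) (n : ℕ) (h : n % 2 = 0) :
    (1 / 2 : K) * (n : K) ∈ Nb al := by
  obtain ⟨m, rfl⟩ : ∃ m, n = 2 * m := ⟨n / 2, by omega⟩
  have h1 : (1 / 2 : K) * ((2 * m : ℕ) : K) = (m : K) := by
    push_cast
    ring
  rw [h1]
  exact natCast_mem_Nb al m

/-- half of `qS2 al i j` is positive for odd `i` -/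
theorem half_qS2_mem [CharZero K] (al : K) (i j : ℕ) (hi : i % 2 = 1) (hj : 1 ≤ j) :
    C (1 / 2 : K) * qS2 al i j ∈ PS al := by
  have hi1 : 1 ≤ i := by omega
  refine mem_aux al (1 / 2) i j (by omega) ?_ ?_ ?_ ?_
  · intro h3
    have h5 : (i : K) - 3 = ((i - 3 : ℕ) : K) := by
      rw [Nat.cast_sub h3, Nat.cast_ofNat]
    rw [h5]
    exact half_nat al _ (by omega)
  · intro a ha1 ha2
    have h5 : (i : K) + 2 * j - 2 * a - 3 = ((i + 2 * (j - a) - 3 : ℕ) : K) := by
      rw [Nat.cast_sub (by omega), Nat.cast_add, Nat.cast_mul, Nat.cast_sub ha2.le,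
        Nat.cast_ofNat, Nat.cast_ofNat]
      ring
    rw [h5]
    exact half_nat al _ (by omega)
  · have h5 : (i : K) - 1 = ((i - 1 : ℕ) : K) := by
      rw [Nat.cast_sub hi1, Nat.cast_one]
    rw [h5]
    exact half_nat al _ (by omega)
  · rw [cast_b i j hi1 hj]
    refine half_nat al _ ?_
    obtain ⟨r, rfl⟩ : ∃ r, i = 2 * r + 1 := ⟨i / 2, by omega⟩
    have e1 : (j - 1) * (j - 2) % 2 = 0 := by
      rcases Nat.even_or_odd' j with ⟨t, rfl | rfl⟩
      · rw [Nat.mul_mod]
        have : (2 * t - 2) % 2 = 0 := by omega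
        rw [this, Nat.mul_zero, Nat.zero_mod]
      · rw [Nat.mul_mod]
        have : (2 * t + 1 - 1) % 2 = 0 := by omega
        rw [this, Nat.zero_mul, Nat.zero_mod]
    have e2 : 2 * r + 1 - 1 = 2 * r := by omega
    rw [e2, Nat.add_mod, Nat.add_mod (2 * r * (2 * r + 1 - 2)), e1, mul_assoc, mul_assoc,
      Nat.mul_mod_right, Nat.mul_mod_right]

/-! ### the sums -/

theorem sum2_mem [CharZero K] (al : K) (n : ℕ) :
    ∑ k ∈ Finset.Ico 1 n, C ((k : K) / 2) *
      (X (0, k) * X (0, n - k) * iy (qS2 al k (n - k))) ∈ (PS al : Subsemiring (B2 K)) := by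
  rw [fold]
  refine add_mem (sum_mem fun k hk => ?_) (sum_mem fun k hk => ?_)
  · rw [Finset.mem_filter, Finset.mem_Ico] at hk
    obtain ⟨⟨h1, h2⟩, h3⟩ := hk
    have h4 : n - (n - k) = k := by omega
    have h5 : ((n - k : ℕ) : K) = (n : K) - k := Nat.cast_sub h2.le
    rw [h4, qS2_symm al (n - k) k (by omega) h1, h5]
    have h6 : (C ((k : K) / 2) * (X (0, k) * X (0, n - k) * iy (qS2 al k (n - k))) +
        C (((n : K) - k) / 2) * (X (0, n - k) * X (0, k) * iy (qS2 al k (n - k))) : B2 K) =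
        C ((n : K) / 2) * iy (qS2 al k (n - k)) * (X (0, k) * X (0, n - k)) := by
      have h7 : ((n : K) / 2) = (k : K) / 2 + ((n : K) - k) / 2 := by ring
      rw [h7, C_add]
      ring
    rw [h6]
    refine mul_mem ?_ (mul_mem (X_mem_PS al _) (X_mem_PS al _))
    rcases Nat.mod_two_eq_zero_or_one n with hn | hn
    · have h8 : (n : K) / 2 ∈ Nb al := by
        have h9 := half_nat al n hn
        have h10 : (n : K) / 2 = 1 / 2 * (n : K) := by ring
        rw [h10]
        exact h9
      exact mul_mem (C_mem_PS al h8) (iy_mem al (qS2_mem al k (n - k) h1 (by omega)))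
    · have h8 : C (1 / 2 : K) * qS2 al k (n - k) ∈ PS al := by
        rcases Nat.mod_two_eq_zero_or_one k with hk | hk
        · rw [qS2_symm al k (n - k) h1 (by omega)]
          exact half_qS2_mem al (n - k) k (by omega) h1
        · exact half_qS2_mem al k (n - k) hk (by omega)
      have h9 : (C ((n : K) / 2) * iy (qS2 al k (n - k)) : B2 K) =
          C (n : K) * iy (C (1 / 2 : K) * qS2 al k (n - k)) := by
        rw [map_mul, iy_C, ← mul_assoc, ← C_mul]
        congr 2
        ring
      rw [h9]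
      exact mul_mem (nat_mem al n) (iy_mem al h8)
  · rw [Finset.mem_filter, Finset.mem_Ico] at hk
    obtain ⟨⟨h1, h2⟩, h3⟩ := hk
    have h4 : n - k = k := by omega
    rw [h4]
    rcases Nat.mod_two_eq_zero_or_one k with hk | hk
    · have h8 : (k : K) / 2 ∈ Nb al := by
        have h9 := half_nat al k hk
        have h10 : (k : K) / 2 = 1 / 2 * (k : K) := by ring
        rw [h10]
        exact h9
      exact mul_mem (C_mem_PS al h8) (mul_mem (mul_mem (X_mem_PS al _) (X_mem_PS al _))
        (iy_mem al (qS2_mem al k k h1 h1)))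
    · have h9 : (C ((k : K) / 2) * (X (0, k) * X (0, k) * iy (qS2 al k k)) : B2 K) =
          C (k : K) * (X (0, k) * X (0, k)) * iy (C (1 / 2 : K) * qS2 al k k) := by
        have h10 : (C ((k : K) / 2) : B2 K) = C (k : K) * C (1 / 2 : K) := by
          rw [← C_mul]
          congr 1
          ring
        rw [map_mul, iy_C, h10]
        ring
      rw [h9]
      exact mul_mem (mul_mem (nat_mem al k) (mul_mem (X_mem_PS al _) (X_mem_PS al _)))
        (iy_mem al (half_qS2_mem al k k hk h1))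

theorem sum3_mem [CharZero K] (al : K) (n : ℕ) :
    ∑ k ∈ Finset.Ico 1 n, ∑ l ∈ Finset.Ico 1 (n - k),
        C ((k : K) * ((n : K) - 3) / 2) * (X (0, k) * X (0, l) * X (0, n - k - l) * X (1, n)) ∈
      (PS al : Subsemiring (B2 K)) := by
  refine sum_mem fun k hk => ?_
  rw [Finset.mem_Ico] at hk
  by_cases hn : n < 3
  · have h1 : Finset.Ico 1 (n - k) = ∅ := by
      ext l
      simp only [Finset.mem_Ico, Finset.notMem_empty, iff_false]
      omega
    rw [h1, Finset.sum_empty]
    exact zero_mem _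
  have h3 : (n : K) - 3 = ((n - 3 : ℕ) : K) := by
    rw [Nat.cast_sub (by omega), Nat.cast_ofNat]
  rcases Nat.mod_two_eq_zero_or_one n with hn2 | hn2
  · rcases Nat.mod_two_eq_zero_or_one k with hk2 | hk2
    · refine sum_mem fun l _ => ?_
      refine mul_mem (C_mem_PS al ?_) (mul_mem (mul_mem (mul_mem (X_mem_PS al _)
        (X_mem_PS al _)) (X_mem_PS al _)) (X_mem_PS al _))
      have h4 : (k : K) * ((n : K) - 3) / 2 = (1 / 2 * (k : K)) * ((n - 3 : ℕ) : K) := by
        rw [h3]
        ring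
      rw [h4]
      exact mul_mem (half_nat al k hk2) (natCast_mem_Nb al _)
    · rw [fold]
      refine add_mem (sum_mem fun l hl => ?_) (sum_mem fun l hl => ?_)
      · rw [Finset.mem_filter, Finset.mem_Ico] at hl
        have h4 : n - k - (n - k - l) = l := by omega
        rw [h4]
        have h5 : (C ((k : K) * ((n : K) - 3) / 2) *
            (X (0, k) * X (0, l) * X (0, n - k - l) * X (1, n)) +
            C ((k : K) * ((n : K) - 3) / 2) *
            (X (0, k) * X (0, n - k - l) * X (0, l) * X (1, n)) : B2 K) =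
            C (k : K) * C ((n - 3 : ℕ) : K) *
              (X (0, k) * X (0, l) * X (0, n - k - l) * X (1, n)) := by
          have h6 : (C (k : K) * C ((n - 3 : ℕ) : K) : B2 K) =
              C ((k : K) * ((n : K) - 3) / 2) + C ((k : K) * ((n : K) - 3) / 2) := by
            rw [← C_mul, ← C_add, h3]
            congr 1
            ring
          rw [h6]
          ring
        rw [h5]
        exact mul_mem (mul_mem (nat_mem al _) (nat_mem al _)) (mul_mem (mul_mem (mul_mem
          (X_mem_PS al _) (X_mem_PS al _)) (X_mem_PS al _)) (X_mem_PS al _))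
      · rw [Finset.mem_filter, Finset.mem_Ico] at hl
        omega
  · refine sum_mem fun l _ => ?_
    refine mul_mem (C_mem_PS al ?_) (mul_mem (mul_mem (mul_mem (X_mem_PS al _)
      (X_mem_PS al _)) (X_mem_PS al _)) (X_mem_PS al _))
    have h4 : (k : K) * ((n : K) - 3) / 2 = (k : K) * (1 / 2 * ((n - 3 : ℕ) : K)) := by
      rw [h3]
      ring
    rw [h4]
    exact mul_mem (natCast_mem_Nb al _) (half_nat al _ (by omega))

end PosPsi3

theorem posPsi3 (K : Type) [Field K] [CharZero K] (al : K) (h3 : Psi3St K al) :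
    ∀ n : ℕ, 1 ≤ n → C (al * n) * PowerSeries.coeff n
      (SS al (K22 al) - PowerSeries.C (C (2 : K)⁻¹) * SS al (Dop al) ^ 2) ∈ PS al := by
  intro n hn
  rw [h3 n hn]
  refine add_mem (add_mem ?_ (PosPsi3.sum2_mem al n)) (PosPsi3.sum3_mem al n)
  exact mul_mem (X_mem_PS al _) (PosPsi3.iy_mem al (PosPsi3.bS1_mem al n))

end

end Pool.Agent.MJR
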