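import Pool.Agent.MJR.St
import Pool.Agent.MJR.Basic

/-!
# MJR, module Psi12M: the closed forms of `SS D` and `SS K3` (helper73)
-/

set_option autoImplicit false

namespace Pool.Agent.MJR

open MvPolynomial

namespace Psi12M

section

variable {K : Type} [Field K] {al : K}

theorem SS_zero : SS al (0 : Lam K →ₗ[K] Lam K) = 0 := by
  have h : AA al (0 : Lam K →ₗ[K] Lam K) = 0 := by
    ext1 n
    unfold AA
    rw [PowerSeries.coeff_mk, map_zero]
    refine Finset.sum_eq_zero fun r _ => ?_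
    rw [LinearMap.zero_apply, map_zero, mul_zero]
  unfold SS
  rw [h, zero_mul]

theorem sum_C (n : ℕ) (hn : 1 ≤ n) (T : ℕ → B2 K) :
    ∑ l ∈ Finset.Icc 1 n, X (0, l) * PowerSeries.coeff (n - l) (PowerSeries.C (T l)) =
      X (0, n) * T n := by
  rw [Finset.sum_eq_single n]
  · rw [Nat.sub_self, PowerSeries.coeff_C, if_pos rfl]
  · intro l hl hne
    rw [Finset.mem_Icc] at hl
    rw [PowerSeries.coeff_C, if_neg (by omega), mul_zero]
  · intro h
    exact absurd (Finset.mem_Icc.2 ⟨hn, le_rfl⟩) h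

end

variable {K : Type} [Field K] [CharZero K] {al : K}

theorem ne_al (hal : al ≠ 0) {n : ℕ} (hn : 1 ≤ n) : al * (n : K) ≠ 0 := by
  have hn' : (n : K) ≠ 0 := by
    have : n ≠ 0 := by omega
    exact_mod_cast this
  exact mul_ne_zero hal hn'

theorem div_al (hal : al ≠ 0) {n : ℕ} (hn : 1 ≤ n) {a b : B2 K} (h : C (al * n) * a = b) :
    a = C (al * n)⁻¹ * b := by
  rw [← h, ← mul_assoc, ← C_mul, inv_mul_cancel₀ (ne_al hal hn), C_1, one_mul]

theorem SS_const (hal : al ≠ 0) (hR : RecSSt K al) (O : Lam K →ₗ[K] Lam K)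
    (h : ∀ k, comm O k = 0) : SS al O = PowerSeries.C (iy (O 1)) := by
  ext1 n
  rcases Nat.eq_zero_or_pos n with rfl | hn
  · rw [(hR O).2.1, PowerSeries.coeff_C, if_pos rfl]
  · rw [div_al hal hn ((hR O).2.2 n), PowerSeries.coeff_C, if_neg (by omega)]
    rw [Finset.sum_eq_zero, mul_zero]
    intro k _
    rw [h k, SS_zero, map_zero, mul_zero]

theorem coefA (hal : al ≠ 0) {n k : ℕ} (h1 : 1 ≤ k) (h2 : k < n) :
    (C (al * ((n - k : ℕ) : K))⁻¹ : B2 K) * C (al * k * ((n - k : ℕ) : K)) = C (k : K) := by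
  rw [← C_mul]
  congr 1
  have h6 := ne_al (n := n - k) hal (by omega)
  rw [inv_mul_eq_div, div_eq_iff h6]
  ring

theorem coefB (hal : al ≠ 0) {n k l : ℕ} (h1 : 1 ≤ l) (h2 : k + l < n) :
    (C (2 * al ^ 2 * l * ((n - k - l : ℕ) : K))⁻¹ : B2 K) *
      C (2 * al ^ 2 * k * l * ((n - k - l : ℕ) : K)) = C (k : K) := by
  rw [← C_mul]
  congr 1
  have hl0 : (l : K) ≠ 0 := by
    have : l ≠ 0 := by omega
    exact_mod_cast this
  have hm0 : ((n - k - l : ℕ) : K) ≠ 0 := by
    have : n - k - l ≠ 0 := by omega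
    exact_mod_cast this
  have h6 : 2 * al ^ 2 * l * ((n - k - l : ℕ) : K) ≠ 0 :=
    mul_ne_zero (mul_ne_zero (mul_ne_zero two_ne_zero (pow_ne_zero _ hal)) hl0) hm0
  rw [inv_mul_eq_div, div_eq_iff h6]
  ring

end Psi12M

open Psi12M in
theorem psi1 (K : Type) [Field K] [CharZero K] (al : K) (hal : al ≠ 0) (hR : RecSSt K al)
    (hD : BrDSt K al) : Psi1St K al := by
  obtain ⟨-, hD1, hD2, hD3⟩ := hD
  intro n hn
  have h2 : ∀ k l, SS al (comm (comm (Dop al) k) l) = PowerSeries.C (iy (bD2 al k l)) := by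
    intro k l
    rw [SS_const hal hR _ (hD3 k l), hD2]
  have h1 : ∀ k m, 1 ≤ m → PowerSeries.coeff m (SS al (comm (Dop al) k)) =
      C (al * m)⁻¹ * (X (0, m) * iy (bD2 al k m)) := by
    intro k m hm
    rw [div_al hal hm ((hR _).2.2 m)]
    congr 1
    have h3 : ∀ l ∈ Finset.Icc 1 m, (X (0, l) : B2 K) *
        PowerSeries.coeff (m - l) (SS al (comm (comm (Dop al) k) l)) =
        X (0, l) * PowerSeries.coeff (m - l) (PowerSeries.C (iy (bD2 al k l))) := by
      intro l _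
      rw [h2]
    rw [Finset.sum_congr rfl h3]
    exact sum_C m hm fun l => iy (bD2 al k l)
  rw [(hR _).2.2 n]
  have hI : Finset.Icc 1 n = insert n (Finset.Ico 1 n) := by
    ext k
    simp only [Finset.mem_Icc, Finset.mem_insert, Finset.mem_Ico]
    omega
  rw [hI, Finset.sum_insert (by simp)]
  rw [Nat.sub_self, (hR _).2.1, hD1]
  congr 1
  refine Finset.sum_congr rfl fun k hk => ?_
  rw [Finset.mem_Ico] at hk
  rw [h1 k (n - k) (by omega), bD2, map_mul, iy_C, iy_X]
  have h4 : k + (n - k) = n := by omega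
  rw [h4]
  have h5 : (C (al * ((n - k : ℕ) : K))⁻¹ : B2 K) * C (al * k * ((n - k : ℕ) : K)) = C (k : K) := by
    rw [← C_mul]
    congr 1
    have h6 := ne_al (n := n - k) hal (by omega)
    rw [inv_mul_eq_div, div_eq_iff h6]
    ring
  rw [← h5]
  ring

open Psi12M in
theorem psi2 (K : Type) [Field K] [CharZero K] (al : K) (hal : al ≠ 0) (hR : RecSSt K al)
    (h3 : BrK3St K al) (hT : TowerSt K al) : Psi2St K al := by
  obtain ⟨-, hD1, hD2, hD3, hD4⟩ := h3
  intro n hn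
  have h0 : ∀ k l m, SS al (comm (comm (comm (K3 al) k) l) m) =
      PowerSeries.C (iy (bT3 al k l m)) := by
    intro k l m
    rw [SS_const hal hR _ (hD4 k l m), hD3]
  have hsym : ∀ k l m, iy (bT3 al k l m) = iy (bT3 al k m l) := by
    intro k l m
    unfold bT3
    have e1 : k + l + m = k + m + l := by omega
    have e2 : 2 * al ^ 2 * (k : K) * l * m = 2 * al ^ 2 * k * m * l := by ring
    rw [e1, e2]
  have hr : ∀ (O : Lam K →ₗ[K] Lam K) (m : ℕ), C (al * m) * PowerSeries.coeff m (SS al O) =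
      ∑ k ∈ Finset.Icc 1 m, X (0, k) * PowerSeries.coeff (m - k) (SS al (comm O k)) :=
    fun O m => (hR O).2.2 m
  have hc0 : ∀ O : Lam K →ₗ[K] Lam K, PowerSeries.coeff 0 (SS al O) = iy (O 1) :=
    fun O => (hR O).2.1
  have g1 : ∀ k l m : ℕ, C (al * m) *
      PowerSeries.coeff m (SS al (comm (comm (K3 al) k) l)) =
      ∑ j ∈ Finset.Icc 1 m, X (0, j) *
        PowerSeries.coeff (m - j) (PowerSeries.C (iy (bT3 al k l j))) := by
    intro k l m
    rw [hr]
    refine Finset.sum_congr rfl fun j _ => ?_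
    rw [h0]
  have g2 : ∀ k, PowerSeries.coeff 0 (SS al (comm (K3 al) k)) = iy (bT1 al k) := by
    intro k
    rw [hc0, hD1]
  have g3 : ∀ k l, PowerSeries.coeff 0 (SS al (comm (comm (K3 al) k) l)) = iy (bT2 al k l) := by
    intro k l
    rw [hc0, hD2]
  have key := hT (SS al (K3 al)) (fun k => SS al (comm (K3 al) k))
    (fun k l => SS al (comm (comm (K3 al) k) l)) (fun k => iy (bT1 al k))
    (fun k l => iy (bT2 al k l)) (fun k l m => iy (bT3 al k l m))
    (hr (K3 al)) (fun k => hr (comm (K3 al) k)) g1 g2 g3 hsym n hn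
  have eA : ∑ k ∈ Finset.Ico 1 n, C (al * ((n - k : ℕ) : K))⁻¹ *
      (X (0, k) * X (0, n - k) * iy (bT2 al k (n - k))) =
      ∑ k ∈ Finset.Ico 1 n, C (k : K) * (X (0, k) * X (0, n - k) * iy (qT2 al k (n - k))) := by
    refine Finset.sum_congr rfl fun k hk => ?_
    rw [Finset.mem_Ico] at hk
    rw [bT2, map_mul, iy_C, ← coefA hal hk.1 hk.2]
    ring
  have eB : ∑ k ∈ Finset.Ico 1 n, ∑ l ∈ Finset.Ico 1 (n - k),
        C (2 * al ^ 2 * l * ((n - k - l : ℕ) : K))⁻¹ *
          (X (0, k) * X (0, l) * X (0, n - k - l) * iy (bT3 al k l (n - k - l))) =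
      ∑ k ∈ Finset.Ico 1 n, ∑ l ∈ Finset.Ico 1 (n - k),
        C (k : K) * (X (0, k) * X (0, l) * X (0, n - k - l) * X (1, n)) := by
    refine Finset.sum_congr rfl fun k hk => ?_
    refine Finset.sum_congr rfl fun l hl => ?_
    rw [Finset.mem_Ico] at hk hl
    have h7 : k + l + (n - k - l) = n := by omega
    rw [bT3, map_mul, iy_C, iy_X, h7, ← coefB (n := n) hal hl.1 (by omega)]
    ring
  rw [key, eA, eB]

end Pool.Agent.MJR
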