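import Pool.Agent.MJR.St
import Pool.Agent.MJR.Basic

/-!
# MJR, module RecSM: the recursion for `SS` (helper30)
-/

set_option autoImplicit false

namespace Pool.Agent.MJR

open MvPolynomial

namespace RecSM

variable {K : Type} [Field K]

/-- `al t d/dt` -/
noncomputable def th (al : K) (F : PowerSeries (B2 K)) : PowerSeries (B2 K) :=
  PowerSeries.mk fun n => C (al * n) * PowerSeries.coeff n F

/-- `∑ x_k t^k G_k` -/
noncomputable def Sig (G : ℕ → PowerSeries (B2 K)) : PowerSeries (B2 K) :=
  PowerSeries.mk fun n => ∑ k ∈ Finset.Icc 1 n, X (0, k) * PowerSeries.coeff (n - k) (G k)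

theorem th_mul (al : K) (F G : PowerSeries (B2 K)) : th al (F * G) = th al F * G + F * th al G := by
  ext1 n
  unfold th
  rw [map_add, PowerSeries.coeff_mk, PowerSeries.coeff_mul, PowerSeries.coeff_mul,
    PowerSeries.coeff_mul, Finset.mul_sum, ← Finset.sum_add_distrib]
  refine Finset.sum_congr rfl fun p hp => ?_
  rw [Finset.HasAntidiagonal.mem_antidiagonal] at hp
  rw [PowerSeries.coeff_mk, PowerSeries.coeff_mk, ← hp]
  push_cast
  rw [mul_add, C_add]
  ring

theorem Sig_add (G G' : ℕ → PowerSeries (B2 K)) :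
    Sig (fun k => G k + G' k) = Sig G + Sig G' := by
  ext1 n
  unfold Sig
  rw [map_add, PowerSeries.coeff_mk, PowerSeries.coeff_mk, PowerSeries.coeff_mk,
    ← Finset.sum_add_distrib]
  refine Finset.sum_congr rfl fun k _ => ?_
  rw [map_add, mul_add]

/-- the truncation of `Sig` -/
theorem Sig_trunc (G : ℕ → PowerSeries (B2 K)) (n i : ℕ) (hi : i ≤ n) :
    PowerSeries.coeff i (Sig G) = PowerSeries.coeff i
      (∑ k ∈ Finset.Icc 1 n, PowerSeries.X ^ k * (PowerSeries.C (X (0, k)) * G k)) := by
  unfold Sig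
  rw [PowerSeries.coeff_mk, map_sum]
  have hsub : Finset.Icc 1 i ⊆ Finset.Icc 1 n := Finset.Icc_subset_Icc_right hi
  rw [← Finset.sum_subset hsub]
  · refine Finset.sum_congr rfl fun k hk => ?_
    rw [Finset.mem_Icc] at hk
    rw [PowerSeries.coeff_X_pow_mul', if_pos hk.2, PowerSeries.coeff_C_mul]
  · intro k hk hk'
    rw [Finset.mem_Icc] at hk hk'
    rw [PowerSeries.coeff_X_pow_mul', if_neg (by omega)]

theorem Sig_mul (G : ℕ → PowerSeries (B2 K)) (A : PowerSeries (B2 K)) :
    Sig (fun k => G k * A) = Sig G * A := by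
  ext1 n
  rw [PowerSeries.coeff_mul]
  have h1 : ∑ p ∈ Finset.HasAntidiagonal.antidiagonal n, PowerSeries.coeff p.1 (Sig G) * PowerSeries.coeff p.2 A =
      PowerSeries.coeff n
        ((∑ k ∈ Finset.Icc 1 n, PowerSeries.X ^ k * (PowerSeries.C (X (0, k)) * G k)) * A) := by
    rw [PowerSeries.coeff_mul]
    refine Finset.sum_congr rfl fun p hp => ?_
    rw [Finset.HasAntidiagonal.mem_antidiagonal] at hp
    rw [Sig_trunc G n p.1 (by omega)]
  rw [h1, Sig_trunc _ n n le_rfl, Finset.sum_mul]
  refine congrArg (PowerSeries.coeff n) (Finset.sum_congr rfl fun k _ => ?_)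
  ring

theorem comm_id (k : ℕ) : comm (LinearMap.id : Lam K →ₗ[K] Lam K) k = 0 := by
  unfold comm
  rw [LinearMap.id_comp, LinearMap.comp_id, sub_self]

theorem AA_zero (al : K) : AA al (0 : Lam K →ₗ[K] Lam K) = 0 := by
  ext1 n
  unfold AA
  rw [PowerSeries.coeff_mk, map_zero]
  refine Finset.sum_eq_zero fun r _ => ?_
  rw [LinearMap.zero_apply, map_zero, mul_zero]

theorem AA_coeff_zero (al : K) (O : Lam K →ₗ[K] Lam K) :
    PowerSeries.coeff 0 (AA al O) = iy (O 1) := by
  unfold AA
  rw [PowerSeries.coeff_mk]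
  have hp : ∀ r : Nat.Partition 0, r.parts = 0 := fun r => by
    rw [Multiset.eq_zero_iff_forall_notMem]
    intro i hi
    have h1 := r.parts_pos hi
    have h2 := Multiset.le_sum_of_mem hi
    rw [r.parts_sum] at h2
    omega
  have hpp : ∀ r : Nat.Partition 0, pp K r = 1 := fun r => by
    unfold pp
    rw [hp r, Multiset.map_zero, Multiset.prod_zero]
  have hw : ∀ r : Nat.Partition 0, wtp al r = 1 := fun r => by
    unfold wtp zed
    rw [hp r]
    simp
  rw [Fintype.sum_unique, hpp, hw, inv_one, C_1, one_mul, map_one, one_mul]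

/-- the recursion for `AA` -/
theorem AA_rec {al : K} (hA : RecASt K al) (O : Lam K →ₗ[K] Lam K) :
    th al (AA al O) = Sig (fun k => PowerSeries.C (X (1, k))) * AA al O +
      Sig (fun k => AA al (comm O k)) := by
  rw [← Sig_mul, ← Sig_add]
  ext1 n
  unfold th Sig
  rw [PowerSeries.coeff_mk, PowerSeries.coeff_mk, hA O n]
  refine Finset.sum_congr rfl fun k _ => ?_
  rw [map_add, PowerSeries.coeff_C_mul]

end RecSM

open RecSM in
theorem recS (K : Type) [Field K] [CharZero K] (al : K) (hal : al ≠ 0) (hA : RecASt K al) :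
    RecSSt K al := by
  have hinv : PowerSeries.invOfUnit (AA al LinearMap.id) 1 * AA al LinearMap.id =
      (1 : PowerSeries (B2 K)) := by
    apply PowerSeries.invOfUnit_mul
    rw [← PowerSeries.coeff_zero_eq_constantCoeff_apply, AA_coeff_zero, LinearMap.id_apply,
      map_one, Units.val_one]
  have hSA : ∀ O : Lam K →ₗ[K] Lam K, AA al O = SS al O * AA al LinearMap.id := by
    intro O
    unfold SS
    rw [mul_assoc, hinv, mul_one]
  have hid := AA_rec hA (LinearMap.id : Lam K →ₗ[K] Lam K)
  have h0 : Sig (fun k => AA al (comm (LinearMap.id : Lam K →ₗ[K] Lam K) k)) = 0 := by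
    ext1 n
    unfold Sig
    rw [PowerSeries.coeff_mk, map_zero]
    refine Finset.sum_eq_zero fun k _ => ?_
    beta_reduce
    rw [comm_id, AA_zero, map_zero, mul_zero]
  rw [h0, add_zero] at hid
  intro O
  refine ⟨hSA O, ?_, fun n => ?_⟩
  · unfold SS
    rw [PowerSeries.coeff_mul, Finset.HasAntidiagonal.antidiagonal_zero, Finset.sum_singleton, AA_coeff_zero]
    have h1 : PowerSeries.coeff 0 (PowerSeries.invOfUnit (AA al LinearMap.id) 1) =
        (1 : B2 K) := by
      rw [PowerSeries.coeff_zero_eq_constantCoeff_apply, PowerSeries.constantCoeff_invOfUnit,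
        inv_one, Units.val_one]
    rw [h1, mul_one]
  · have h1 := AA_rec hA O
    have h2 : Sig (fun k => AA al (comm O k)) =
        Sig (fun k => SS al (comm O k)) * AA al LinearMap.id := by
      rw [← Sig_mul]
      exact congrArg Sig (funext fun k => hSA _)
    rw [h2, hSA O, th_mul, hid] at h1
    have h3 : th al (SS al O) * AA al LinearMap.id =
        Sig (fun k => SS al (comm O k)) * AA al LinearMap.id := by
      linear_combination h1
    have h4 : th al (SS al O) = Sig (fun k => SS al (comm O k)) := by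
      have h5 := congrArg
        (fun F => F * PowerSeries.invOfUnit (AA al LinearMap.id) (1 : (B2 K)ˣ)) h3
      simp only [mul_assoc] at h5
      rw [mul_comm (AA al LinearMap.id), hinv, mul_one, mul_one] at h5
      exact h5
    have h5 := congrArg (PowerSeries.coeff n) h4
    unfold th Sig at h5
    rw [PowerSeries.coeff_mk, PowerSeries.coeff_mk] at h5
    exact h5

end Pool.Agent.MJR
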