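import Pool.Agent.MJR.Psi12M
import Pool.Agent.MJR.RecSM

/-!
# MJR, module Psi3M: the closed form of `SS K22 - (SS D)^2 / 2` (helper99)
-/

set_option autoImplicit false

namespace Pool.Agent.MJR

open MvPolynomial

namespace Psi3M

open RecSM Psi12M

variable {K : Type} [Field K]

theorem th_sub (al : K) (F G : PowerSeries (B2 K)) : th al (F - G) = th al F - th al G := by
  ext1 n
  unfold th
  rw [map_sub, PowerSeries.coeff_mk, PowerSeries.coeff_mk, PowerSeries.coeff_mk, map_sub, mul_sub]

theorem th_C (al : K) (g : B2 K) : th al (PowerSeries.C g) = 0 := by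
  ext1 n
  unfold th
  rw [PowerSeries.coeff_mk, map_zero, PowerSeries.coeff_C]
  split_ifs with h
  · rw [h]
    simp
  · rw [mul_zero]

theorem th_C_mul (al : K) (g : B2 K) (F : PowerSeries (B2 K)) :
    th al (PowerSeries.C g * F) = PowerSeries.C g * th al F := by
  rw [th_mul, th_C, zero_mul, zero_add]

theorem Sig_sub (G G' : ℕ → PowerSeries (B2 K)) :
    Sig (fun k => G k - G' k) = Sig G - Sig G' := by
  ext1 n
  unfold Sig
  rw [map_sub, PowerSeries.coeff_mk, PowerSeries.coeff_mk, PowerSeries.coeff_mk,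
    ← Finset.sum_sub_distrib]
  refine Finset.sum_congr rfl fun k _ => ?_
  rw [map_sub, mul_sub]

theorem Sig_mul' (G : ℕ → PowerSeries (B2 K)) (A : PowerSeries (B2 K)) :
    Sig (fun k => A * G k) = A * Sig G := by
  rw [mul_comm A, ← Sig_mul]
  exact congrArg Sig (funext fun k => mul_comm _ _)

theorem of_th {al : K} {F : PowerSeries (B2 K)} {G : ℕ → PowerSeries (B2 K)}
    (h : th al F = Sig G) (n : ℕ) : C (al * n) * PowerSeries.coeff n F =
      ∑ k ∈ Finset.Icc 1 n, X (0, k) * PowerSeries.coeff (n - k) (G k) := by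
  have h1 := congrArg (PowerSeries.coeff n) h
  unfold th Sig at h1
  rw [PowerSeries.coeff_mk, PowerSeries.coeff_mk] at h1
  exact h1

variable [CharZero K] {al : K}

theorem const_of_th (hal : al ≠ 0) {F : PowerSeries (B2 K)} (h : th al F = 0) :
    F = PowerSeries.C (PowerSeries.coeff 0 F) := by
  ext1 n
  rw [PowerSeries.coeff_C]
  rcases Nat.eq_zero_or_pos n with rfl | hn
  · rw [if_pos rfl]
  · rw [if_neg (by omega)]
    have h1 := congrArg (PowerSeries.coeff n) h
    unfold th at h1
    rw [PowerSeries.coeff_mk, map_zero] at h1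
    rw [div_al hal hn h1, mul_zero]

theorem th_SS (hR : RecSSt K al) (O : Lam K →ₗ[K] Lam K) :
    th al (SS al O) = Sig (fun k => SS al (comm O k)) := by
  ext1 n
  unfold th Sig
  rw [PowerSeries.coeff_mk, PowerSeries.coeff_mk]
  exact (hR O).2.2 n

/-- the third brackets -/
theorem level3 (hal : al ≠ 0) (hR : RecSSt K al) (hD : BrDSt K al) (h22 : BrK22St K al)
    (k l m : ℕ) :
    SS al (comm (comm (comm (K22 al) k) l) m)
      - PowerSeries.C (iy (bD2 al l m)) * SS al (comm (Dop al) k)
      - PowerSeries.C (iy (bD2 al k m)) * SS al (comm (Dop al) l)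
      - PowerSeries.C (iy (bD2 al k l)) * SS al (comm (Dop al) m)
      = PowerSeries.C (iy (bS3 al k l m)) := by
  obtain ⟨-, hD1, hD2, hD3⟩ := hD
  obtain ⟨-, -, -, h3, h4, h5⟩ := h22
  have hdd : ∀ k j, SS al (comm (comm (Dop al) k) j) = PowerSeries.C (iy (bD2 al k j)) := by
    intro k j
    rw [SS_const hal hR _ (hD3 k j), hD2]
  have hkk : ∀ j, SS al (comm (comm (comm (comm (K22 al) k) l) m) j) =
      PowerSeries.C (iy (bD2 al k l * bD2 al m j + bD2 al k m * bD2 al l j
        + bD2 al k j * bD2 al l m)) := by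
    intro j
    rw [SS_const hal hR _ (h5 k l m j), h4]
  have hth : ∀ i, th al (SS al (comm (Dop al) i)) =
      Sig (fun j => PowerSeries.C (iy (bD2 al i j))) := by
    intro i
    rw [th_SS hR]
    exact congrArg Sig (funext fun j => hdd i j)
  have h0 : th al (SS al (comm (comm (comm (K22 al) k) l) m)
      - PowerSeries.C (iy (bD2 al l m)) * SS al (comm (Dop al) k)
      - PowerSeries.C (iy (bD2 al k m)) * SS al (comm (Dop al) l)
      - PowerSeries.C (iy (bD2 al k l)) * SS al (comm (Dop al) m)) = 0 := by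
    rw [th_sub, th_sub, th_sub, th_C_mul, th_C_mul, th_C_mul, hth, hth, hth, th_SS hR]
    have e : Sig (fun j => SS al (comm (comm (comm (comm (K22 al) k) l) m) j)) =
        PowerSeries.C (iy (bD2 al k l)) * Sig (fun j => PowerSeries.C (iy (bD2 al m j)))
        + PowerSeries.C (iy (bD2 al k m)) * Sig (fun j => PowerSeries.C (iy (bD2 al l j)))
        + PowerSeries.C (iy (bD2 al l m)) * Sig (fun j => PowerSeries.C (iy (bD2 al k j))) := by
      rw [← Sig_mul', ← Sig_mul', ← Sig_mul', ← Sig_add, ← Sig_add]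
      refine congrArg Sig (funext fun j => ?_)
      rw [hkk j]
      simp only [map_add, map_mul]
      ring
    rw [e]
    ring
  rw [const_of_th hal h0]
  congr 1
  rw [map_sub, map_sub, map_sub, PowerSeries.coeff_C_mul, PowerSeries.coeff_C_mul,
    PowerSeries.coeff_C_mul, (hR _).2.1, (hR _).2.1, (hR _).2.1, (hR _).2.1, hD1, hD1, hD1, h3]
  simp only [map_add, map_mul]
  ring

end Psi3M

open Psi3M Psi12M RecSM in
theorem psi3 (K : Type) [Field K] [CharZero K] (al : K) (hal : al ≠ 0) (hR : RecSSt K al)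
    (hD : BrDSt K al) (h22 : BrK22St K al) (hT : TowerSt K al) : Psi3St K al := by
  have hL := fun k l m => level3 hal hR hD h22 k l m
  obtain ⟨hD0, hD1, hD2, hD3⟩ := hD
  obtain ⟨-, g1, g2, -, -, -⟩ := h22
  have hdd : ∀ k j, SS al (comm (comm (Dop al) k) j) = PowerSeries.C (iy (bD2 al k j)) := by
    intro k j
    rw [SS_const hal hR _ (hD3 k j), hD2]
  intro n hn
  have a1 : th al (SS al (K22 al) - PowerSeries.C (C (2 : K)⁻¹) * SS al (Dop al) ^ 2) =
      Sig (fun k => SS al (comm (K22 al) k) - SS al (Dop al) * SS al (comm (Dop al) k)) := by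
    rw [th_sub, th_C_mul, pow_two, th_mul, th_SS hR, th_SS hR, Sig_sub, Sig_mul']
    have h2 : PowerSeries.C (C (2 : K)⁻¹) * (2 : PowerSeries (B2 K)) = 1 := by
      have h3 : (2 : PowerSeries (B2 K)) = PowerSeries.C (C (2 : K)) := by
        rw [map_ofNat, map_ofNat]
      rw [h3, ← map_mul, ← C_mul, inv_mul_cancel₀ two_ne_zero, C_1, map_one]
    linear_combination (-(SS al (Dop al) * Sig (fun k => SS al (comm (Dop al) k)))) * h2
  have a2 : ∀ k, th al (SS al (comm (K22 al) k) - SS al (Dop al) * SS al (comm (Dop al) k)) =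
      Sig (fun l => SS al (comm (comm (K22 al) k) l)
        - SS al (comm (Dop al) k) * SS al (comm (Dop al) l)
        - SS al (Dop al) * SS al (comm (comm (Dop al) k) l)) := by
    intro k
    rw [th_sub, th_mul, th_SS hR, th_SS hR, th_SS hR, Sig_sub, Sig_sub, Sig_mul', Sig_mul']
    ring
  have a3 : ∀ k l, th al (SS al (comm (comm (K22 al) k) l)
        - SS al (comm (Dop al) k) * SS al (comm (Dop al) l)
        - SS al (Dop al) * SS al (comm (comm (Dop al) k) l)) =
      Sig (fun m => PowerSeries.C (iy (bS3 al k l m))) := by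
    intro k l
    rw [th_sub, th_sub, th_mul, hdd, mul_comm (SS al (Dop al)), th_C_mul, th_SS hR, th_SS hR,
      th_SS hR, th_SS hR, ← Sig_mul, ← Sig_mul', ← Sig_mul', ← Sig_add, ← Sig_sub, ← Sig_sub]
    refine congrArg Sig (funext fun m => ?_)
    beta_reduce
    rw [← hL k l m, hdd, hdd]
    ring
  have key := hT _ _ _ (fun k => iy (bS1 al k)) (fun k l => iy (bS2 al k l))
    (fun k l m => iy (bS3 al k l m)) (of_th a1) (fun k => of_th (a2 k))
    (fun k l => of_th (a3 k l)) ?_ ?_ ?_ n hn
  · rw [key]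
    have eA : ∑ k ∈ Finset.Ico 1 n, C (al * ((n - k : ℕ) : K))⁻¹ *
        (X (0, k) * X (0, n - k) * iy (bS2 al k (n - k))) =
        ∑ k ∈ Finset.Ico 1 n, C ((k : K) / 2) *
          (X (0, k) * X (0, n - k) * iy (qS2 al k (n - k))) := by
      refine Finset.sum_congr rfl fun k hk => ?_
      rw [Finset.mem_Ico] at hk
      have h1 : (C (al * ((n - k : ℕ) : K))⁻¹ : B2 K) * C (al * k * ((n - k : ℕ) : K) / 2) =
          C ((k : K) / 2) := by
        rw [← C_mul]
        congr 1
        have h6 := ne_al (n := n - k) hal (by omega)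
        rw [inv_mul_eq_div, div_eq_iff h6]
        ring
      rw [bS2, map_mul, iy_C, ← h1]
      ring
    have eB : ∑ k ∈ Finset.Ico 1 n, ∑ l ∈ Finset.Ico 1 (n - k),
          C (2 * al ^ 2 * l * ((n - k - l : ℕ) : K))⁻¹ *
            (X (0, k) * X (0, l) * X (0, n - k - l) * iy (bS3 al k l (n - k - l))) =
        ∑ k ∈ Finset.Ico 1 n, ∑ l ∈ Finset.Ico 1 (n - k),
          C ((k : K) * ((n : K) - 3) / 2) *
            (X (0, k) * X (0, l) * X (0, n - k - l) * X (1, n)) := by
      refine Finset.sum_congr rfl fun k hk => ?_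
      refine Finset.sum_congr rfl fun l hl => ?_
      rw [Finset.mem_Ico] at hk hl
      have h7 : k + l + (n - k - l) = n := by omega
      have h8 : (k : K) + l + ((n - k - l : ℕ) : K) = n := by
        rw [← Nat.cast_add, ← Nat.cast_add, h7]
      have hl0 : (l : K) ≠ 0 := by
        have : l ≠ 0 := by omega
        exact_mod_cast this
      have hm0 : ((n - k - l : ℕ) : K) ≠ 0 := by
        have : n - k - l ≠ 0 := by omega
        exact_mod_cast this
      have h6 : 2 * al ^ 2 * l * ((n - k - l : ℕ) : K) ≠ 0 :=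
        mul_ne_zero (mul_ne_zero (mul_ne_zero two_ne_zero (pow_ne_zero _ hal)) hl0) hm0
      have h1 : (C (2 * al ^ 2 * l * ((n - k - l : ℕ) : K))⁻¹ : B2 K) *
          C (al ^ 2 * k * l * ((n - k - l : ℕ) : K) * ((n : K) - 3)) =
          C ((k : K) * ((n : K) - 3) / 2) := by
        rw [← C_mul]
        congr 1
        rw [inv_mul_eq_div, div_eq_iff h6]
        ring
      rw [bS3, map_mul, iy_C, iy_X, h7, h8, ← h1]
      ring
    rw [eA, eB]
  · intro k
    rw [map_sub, PowerSeries.coeff_mul, Finset.HasAntidiagonal.antidiagonal_zero, Finset.sum_singleton, (hR _).2.1,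
      (hR _).2.1, (hR _).2.1, hD0, g1, map_zero, zero_mul, sub_zero]
  · intro k l
    rw [map_sub, map_sub, PowerSeries.coeff_mul, PowerSeries.coeff_mul, Finset.HasAntidiagonal.antidiagonal_zero,
      Finset.sum_singleton, Finset.sum_singleton, (hR _).2.1, (hR _).2.1, (hR _).2.1, (hR _).2.1,
      (hR _).2.1, hD0, g2, hD1, hD1, map_zero, zero_mul, sub_zero]
    simp only [map_add, map_mul]
    ring
  · intro k l m
    unfold bS3
    have e1 : k + l + m = k + m + l := by omega
    have e2 : al ^ 2 * (k : K) * l * m * ((k : K) + l + m - 3) =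
        al ^ 2 * k * m * l * ((k : K) + m + l - 3) := by ring
    rw [e1, e2]

end Pool.Agent.MJR
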