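import Pool.Agent.MJR.St

/-!
Symmetric polynomials of degree `n` are dominated by `l` if their coefficients at partitions
not dominated by `l` vanish (`SortSt`).
-/

namespace Pool.Agent.MJR

open MvPolynomial

namespace SortM

/-! ### Lists -/

theorem sum_take (L : List ℕ) : ∀ k : ℕ, (L.take k).sum = ∑ i ∈ Finset.range k, L.getD i 0 := by
  induction L with
  | nil =>
    intro k
    simp
  | cons a L ih =>
    intro k
    cases k with
    | zero => simp
    | succ k =>
      rw [List.take_succ_cons, List.sum_cons, ih, Finset.sum_range_succ', add_comm]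
      simp

theorem filter_getD (L : List ℕ) (hL : L.Pairwise (· ≥ ·)) :
    ∀ i : ℕ, (L.filter (· ≠ 0)).getD i 0 = L.getD i 0 := by
  induction L with
  | nil => simp
  | cons a L ih =>
    intro i
    rw [List.pairwise_cons] at hL
    by_cases ha : a = 0
    · subst ha
      have h1 : ∀ b ∈ L, b = 0 := fun b hb => Nat.le_zero.1 (hL.1 b hb)
      have h2 : (0 :: L).filter (· ≠ 0) = [] := by
        rw [List.filter_eq_nil_iff]
        intro b hb
        rcases List.mem_cons.1 hb with rfl | hb
        · simp
        · simp [h1 b hb]
      rw [h2]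
      cases i with
      | zero => simp
      | succ i =>
        have h3 : (0 :: L).getD (i + 1) 0 = L.getD i 0 := by simp
        rw [h3]
        by_cases hi : i < L.length
        · rw [List.getD_eq_getElem _ _ hi, h1 _ (List.getElem_mem hi)]
          rfl
        · have h5 : L.getD i 0 = 0 := List.getD_eq_default _ _ (by omega)
          rw [h5]
          rfl
    · have h2 : (a :: L).filter (· ≠ 0) = a :: L.filter (· ≠ 0) := by
        rw [List.filter_cons_of_pos]
        simpa using ha
      rw [h2]
      cases i with
      | zero => simp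
      | succ i =>
        have h3 : (a :: L).getD (i + 1) 0 = L.getD i 0 := by simp
        have h4 : (a :: L.filter (· ≠ 0)).getD (i + 1) 0 = (L.filter (· ≠ 0)).getD i 0 := by simp
        rw [h3, h4]
        exact ih hL.2 i

theorem getD_antitone (L : List ℕ) (hL : L.Pairwise (· ≥ ·)) : Antitone fun i => L.getD i 0 := by
  intro i j hij
  show L.getD j 0 ≤ L.getD i 0
  by_cases hj : j < L.length
  · have hi : i < L.length := by omega
    rw [List.getD_eq_getElem _ _ hi, List.getD_eq_getElem _ _ hj]
    rcases Nat.lt_or_eq_of_le hij with h | h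
    · exact List.pairwise_iff_getElem.1 hL i j hi hj h
    · subst h
      exact le_rfl
  · rw [List.getD_eq_default _ _ (by omega)]
    exact Nat.zero_le _

theorem sum_le (F : ℕ → ℕ) (hF : Antitone F) (S : Finset ℕ) :
    ∑ i ∈ S, F i ≤ ∑ i ∈ Finset.range S.card, F i := by
  induction S using Finset.induction_on_max with
  | empty => simp
  | insert a s ha ih =>
    have hn : a ∉ s := fun h => lt_irrefl _ (ha a h)
    rw [Finset.sum_insert hn, Finset.card_insert_of_notMem hn, Finset.sum_range_succ]
    have h1 : s.card ≤ a := by
      have h2 : s ⊆ Finset.range a := fun x hx => Finset.mem_range.2 (ha x hx)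
      simpa using Finset.card_le_card h2
    have h2 := hF h1
    omega

theorem srt_pairwise {n : ℕ} (m : n.Partition) : (srt m).Pairwise (· ≥ ·) :=
  Multiset.pairwise_sort _ _

theorem srt_len {n : ℕ} (m : n.Partition) : (srt m).length ≤ n := by
  have h1 : (srt m).length = m.parts.card := by
    unfold srt
    rw [Multiset.length_sort]
  rw [h1]
  have h2 : m.parts.card • 1 ≤ m.parts.sum :=
    Multiset.card_nsmul_le_sum fun x hx => m.parts_pos hx
  rw [m.parts_sum] at h2
  simpa using h2

theorem pvec_apply {n : ℕ} (m : n.Partition) (i : Fin n) : pvec m i = (srt m).getD i 0 := rfl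

theorem take_sum {n : ℕ} (m : n.Partition) (k : ℕ) (hk : k ≤ n) :
    ((srt m).take k).sum = ∑ i ∈ (Finset.univ.filter fun i : Fin n => i.1 < k), pvec m i := by
  rw [sum_take]
  refine Finset.sum_bij' (fun i hi => (⟨i, lt_of_lt_of_le (Finset.mem_range.1 hi) hk⟩ : Fin n))
    (fun i _ => i.1) ?_ ?_ ?_ ?_ ?_
  · intro i hi
    rw [Finset.mem_filter]
    exact ⟨Finset.mem_univ _, Finset.mem_range.1 hi⟩
  · intro i hi
    rw [Finset.mem_filter] at hi
    exact Finset.mem_range.2 hi.2
  · intro i _
    rfl
  · intro i _
    rfl
  · intro i _
    rfl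

theorem take_big {n : ℕ} (m : n.Partition) (k : ℕ) (hk : n ≤ k) : (srt m).take k = (srt m).take n := by
  have h := srt_len m
  rw [List.take_of_length_le (by omega), List.take_of_length_le h]

/-- every exponent vector of degree `n` is a permutation of the one of a partition -/
theorem exists_sort {n : ℕ} (e : Fin n →₀ ℕ) (he : ∑ i, e i = n) :
    ∃ (m : n.Partition) (s : Equiv.Perm (Fin n)), ∀ i, e (s i) = pvec m i := by
  let f : Fin n → ℕᵒᵈ := fun i => OrderDual.toDual (e i)
  let s : Equiv.Perm (Fin n) := Tuple.sort f
  have hs : Antitone fun i => e (s i) := fun i j hij => Tuple.monotone_sort f hij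
  let L : List ℕ := List.ofFn fun i => e (s i)
  have hL : L.Pairwise (· ≥ ·) := by
    rw [List.pairwise_ofFn]
    intro i j hij
    exact hs hij.le
  have hsum : (L : Multiset ℕ).sum = n := by
    rw [Multiset.sum_coe, List.sum_ofFn, Equiv.sum_comp s e]
    exact he
  let m : n.Partition := Nat.Partition.ofSums n (L : Multiset ℕ) hsum
  have hm : srt m = L.filter (· ≠ 0) := by
    have h1 : (srt m).Perm (L.filter (· ≠ 0)) := by
      rw [← Multiset.coe_eq_coe]
      unfold srt
      rw [Multiset.sort_eq]
      show ((L : Multiset ℕ).filter (· ≠ 0)) = _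
      rw [Multiset.filter_coe]
    exact h1.eq_of_pairwise (fun a b _ _ h h' => le_antisymm h' h) (srt_pairwise m)
      (hL.filter _)
  refine ⟨m, s, fun i => ?_⟩
  rw [pvec_apply, hm, filter_getD L hL]
  have h2 : i.1 < L.length := by
    rw [List.length_ofFn]
    exact i.2
  rw [List.getD_eq_getElem _ _ h2, List.getElem_ofFn]

/-! ### The polynomial -/

variable {K : Type} [Field K]

theorem ev_sym (n : ℕ) (s : Equiv.Perm (Fin n)) (f : Lam K) :
    rename s (ev K n f) = ev K n f := by
  have h : (rename (R := K) s).comp (ev K n) = ev K n := by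
    refine MvPolynomial.algHom_ext fun k => ?_
    rw [AlgHom.comp_apply]
    unfold ev
    rw [aeval_X]
    exact rename_psum (σ := Fin n) (R := K) (τ := Fin n) k s
  exact DFunLike.congr_fun h f

theorem psum_hom (n k : ℕ) : (psum (Fin n) K k).IsHomogeneous k := by
  unfold psum
  refine IsHomogeneous.sum _ _ _ fun i _ => ?_
  have h := (isHomogeneous_X K i).pow k
  rwa [one_mul] at h

theorem prod_hom (n : ℕ) (s : Multiset ℕ) :
    ((s.map fun k => psum (Fin n) K k).prod).IsHomogeneous s.sum := by
  induction s using Multiset.induction_on with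
  | empty =>
    simp only [Multiset.map_zero, Multiset.prod_zero, Multiset.sum_zero]
    exact isHomogeneous_one _ _
  | cons a s ih =>
    rw [Multiset.map_cons, Multiset.prod_cons, Multiset.sum_cons]
    exact (psum_hom n a).mul ih

theorem ev_toL (n : ℕ) (v : n.Partition → K) :
    ev K n (toL v) = ∑ r : n.Partition, C (v r) *
      (r.parts.map fun k => psum (Fin n) K k).prod := by
  unfold toL pp
  rw [map_sum]
  refine Finset.sum_congr rfl fun r _ => ?_
  rw [map_mul, map_multiset_prod, Multiset.map_map]
  congr 1
  · unfold ev
    rw [aeval_C]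
    rfl
  · congr 1
    refine Multiset.map_congr rfl fun k _ => ?_
    rw [Function.comp_apply]
    unfold ev
    rw [aeval_X]

theorem ev_hom (n : ℕ) (v : n.Partition → K) : (ev K n (toL v)).IsHomogeneous n := by
  rw [ev_toL]
  refine IsHomogeneous.sum _ _ _ fun r _ => ?_
  have h := (isHomogeneous_C (Fin n) (v r)).mul (prod_hom (K := K) n r.parts)
  rwa [zero_add, r.parts_sum] at h

theorem coeff_pvec (n : ℕ) (v : n.Partition → K) (m : n.Partition) :
    coeff (pvec m) (ev K n (toL v)) = ∑ r, v r * mc K r m := by
  rw [ev_toL, coeff_sum]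
  refine Finset.sum_congr rfl fun r _ => ?_
  rw [coeff_C_mul]
  rfl

end SortM

open SortM

theorem sortM (K : Type) [Field K] : SortSt K := by
  intro n l v
  constructor
  · intro h e he S
    have hdeg : ∑ i, e i = n := by
      have h1 : Finsupp.weight 1 e = n := ev_hom n v he
      have h2 : Finsupp.degree e = Finsupp.weight 1 e :=
        DFunLike.congr_fun (Finsupp.degree_eq_weight_one (σ := Fin n) (R := ℕ)) e
      exact (Finsupp.degree_eq_sum e).symm.trans (h2.trans h1)
    obtain ⟨m, s, hs⟩ := exists_sort e hdeg
    -- the coefficient at the sorted exponent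
    have h1 : coeff (pvec m) (ev K n (toL v)) = coeff e (ev K n (toL v)) := by
      have h2 : Finsupp.mapDomain s.symm e = pvec m := by
        ext i
        rw [Finsupp.mapDomain_equiv_apply, Equiv.symm_symm]
        exact hs i
      have h3 := coeff_rename_mapDomain (s.symm : Fin n → Fin n) s.symm.injective
        (ev K n (toL v)) e
      rw [h2, ev_sym] at h3
      exact h3
    have hDom : Dom m l := by
      by_contra hD
      apply he
      rw [← h1, coeff_pvec]
      exact h m hD
    -- the sum over `S`
    let F : ℕ → ℕ := fun i => (srt m).getD i 0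
    have hF : Antitone F := getD_antitone _ (srt_pairwise m)
    let T : Finset ℕ := S.image fun i => (s.symm i).1
    have hinj : Function.Injective fun i : Fin n => (s.symm i).1 :=
      Fin.val_injective.comp s.symm.injective
    have hT : T.card = S.card := Finset.card_image_of_injective _ hinj
    have h2 : ∑ i ∈ S, e i = ∑ i ∈ T, F i := by
      show ∑ i ∈ S, e i = ∑ i ∈ S.image (fun i => (s.symm i).1), F i
      rw [Finset.sum_image fun a _ b _ h => hinj h]
      refine Finset.sum_congr rfl fun i _ => ?_
      have h3 := hs (s.symm i)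
      rw [Equiv.apply_symm_apply] at h3
      rw [h3]
      rfl
    rw [h2]
    refine (sum_le F hF T).trans ?_
    rw [hT, ← sum_take]
    exact hDom S.card
  · intro h m hm
    by_contra hne
    apply hm
    intro k
    have hne' : coeff (pvec m) (ev K n (toL v)) ≠ 0 := by
      rw [coeff_pvec]
      exact hne
    have key : ∀ k : ℕ, k ≤ n → ((srt m).take k).sum ≤ ((srt l).take k).sum := by
      intro k hk
      have h1 := h (pvec m) hne' (Finset.univ.filter fun i : Fin n => i.1 < k)
      have h2 : (Finset.univ.filter fun i : Fin n => i.1 < k).card = k := by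
        have h3 : (Finset.univ.filter fun i : Fin n => i.1 < k).card =
            (Finset.range k).card := by
          refine Finset.card_bij' (fun i _ => i.1)
            (fun i hi => (⟨i, lt_of_lt_of_le (Finset.mem_range.1 hi) hk⟩ : Fin n)) ?_ ?_ ?_ ?_
          · intro i hi
            rw [Finset.mem_filter] at hi
            exact Finset.mem_range.2 hi.2
          · intro i hi
            rw [Finset.mem_filter]
            exact ⟨Finset.mem_univ _, Finset.mem_range.1 hi⟩
          · intro i _
            rfl
          · intro i _
            rfl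
        rw [h3, Finset.card_range]
      rw [h2] at h1
      rw [take_sum m k hk]
      exact h1
    rcases le_total k n with hk | hk
    · exact key k hk
    · rw [take_big m k hk, take_big l k hk]
      exact key n le_rfl

end Pool.Agent.MJR
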