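import Pool.Agent.MJR.St
import Pool.Agent.MJR.Basic

/-!
The series `psi` is symmetric in the three alphabets (module SymM, helper16).
-/

namespace Pool.Agent.MJR

open MvPolynomial
open scoped Nat

noncomputable section

variable {K : Type} [Field K]

namespace SymM

/-- the action of a permutation of the alphabets on polynomials -/
def rn (K : Type) [Field K] (s : Equiv.Perm (Fin 3)) : B3 K →+* B3 K :=
  ((rename (Prod.map s id) : B3 K →ₐ[K] B3 K) : B3 K →+* B3 K)

theorem rn_apply (s : Equiv.Perm (Fin 3)) (f : B3 K) :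
    rn K s f = rename (Prod.map s id) f := rfl

theorem rn_C (s : Equiv.Perm (Fin 3)) (c : K) : rn K s (C c) = C c := by
  rw [rn_apply, rename_C]

theorem rn_pa (s : Equiv.Perm (Fin 3)) (a : Fin 3) {n : ℕ} (r : n.Partition) :
    rn K s (pa a r) = pa (s a) r := by
  unfold pa
  rw [map_multiset_prod, Multiset.map_map]
  congr 1
  refine Multiset.map_congr rfl fun k _ => ?_
  rw [Function.comp_apply, rn_apply, rename_X]
  rfl

theorem rn_Ja (s : Equiv.Perm (Fin 3)) {n : ℕ} (J : n.Partition → n.Partition → K)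
    (l : n.Partition) (a : Fin 3) : rn K s (Ja J l a) = Ja J l (s a) := by
  unfold Ja
  rw [map_sum]
  refine Finset.sum_congr rfl fun r _ => ?_
  rw [map_mul, rn_C, rn_pa]

theorem prod_Ja {n : ℕ} (J : n.Partition → n.Partition → K) (l : n.Partition) :
    Ja J l 0 * Ja J l 1 * Ja J l 2 = ∏ a : Fin 3, Ja J l a := by
  rw [Fin.prod_univ_three]

theorem rn_prod (s : Equiv.Perm (Fin 3)) {n : ℕ} (J : n.Partition → n.Partition → K)
    (l : n.Partition) : rn K s (∏ a : Fin 3, Ja J l a) = ∏ a : Fin 3, Ja J l a := by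
  rw [map_prod]
  have h : ∏ a : Fin 3, Ja J l (s a) = ∏ a : Fin 3, Ja J l a :=
    Equiv.prod_comp s fun a => Ja J l a
  rw [← h]
  exact Finset.prod_congr rfl fun a _ => rn_Ja s J l a

theorem rn_term (s : Equiv.Perm (Fin 3)) {n : ℕ} (J : n.Partition → n.Partition → K)
    (l : n.Partition) (c : K) : rn K s (C c * (Ja J l 0 * Ja J l 1 * Ja J l 2)) =
      C c * (Ja J l 0 * Ja J l 1 * Ja J l 2) := by
  rw [prod_Ja, map_mul (rn K s) (C c), rn_C, rn_prod]

theorem coeff_phi (al : K) (J : (n : ℕ) → n.Partition → n.Partition → K) (n : ℕ) :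
    PowerSeries.coeff n (phi al J) = ∑ l : n.Partition,
      C (nrm al (J n) l)⁻¹ * (Ja (J n) l 0 * Ja (J n) l 1 * Ja (J n) l 2) := by
  unfold phi
  rw [PowerSeries.coeff_mk]

theorem map_phi (al : K) (J : (n : ℕ) → n.Partition → n.Partition → K)
    (s : Equiv.Perm (Fin 3)) : PowerSeries.map (rn K s) (phi al J) = phi al J := by
  refine PowerSeries.ext fun n => ?_
  rw [PowerSeries.coeff_map, coeff_phi, map_sum]
  exact Finset.sum_congr rfl fun l _ => rn_term s (J n) l _

theorem phi_ne {al : K} {J : (n : ℕ) → n.Partition → n.Partition → K}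
    (hJ : ∀ n, IsJack al n (J n)) : phi al J ≠ 0 := by
  intro h
  have h0 : PowerSeries.coeff 0 (phi al J) = 0 := by rw [h, map_zero]
  unfold phi at h0
  rw [PowerSeries.coeff_mk, Fintype.sum_unique] at h0
  set l : Nat.Partition 0 := default
  have hp : l.parts = 0 := Nat.Partition.partition_zero_parts l
  have hpa : ∀ a : Fin 3, (pa a l : B3 K) = 1 := by
    intro a
    unfold pa
    rw [hp, Multiset.map_zero, Multiset.prod_zero]
  have hJa : ∀ a : Fin 3, Ja (J 0) l a = C (J 0 l l) := by
    intro a
    unfold Ja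
    rw [Fintype.sum_unique, hpa, mul_one]
  have hw : wtp al l = 1 := by
    unfold wtp zed
    rw [hp]
    simp
  have hn : J 0 l l ≠ 0 := by
    intro h1
    have h2 := (hJ 0).norm l
    rw [Fintype.sum_unique, h1, zero_mul] at h2
    simp at h2
  have hnr : nrm al (J 0) l = J 0 l l ^ 2 := by
    unfold nrm
    rw [Fintype.sum_unique, hw, mul_one]
  rw [hnr, hJa, hJa, hJa, ← C_mul, ← C_mul, ← C_mul, C_eq_zero] at h0
  exact (mul_ne_zero (inv_ne_zero (pow_ne_zero 2 hn)) (mul_ne_zero (mul_ne_zero hn hn) hn)) h0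

theorem map_psi {al : K} {J : (n : ℕ) → n.Partition → n.Partition → K}
    (hJ : ∀ n, IsJack al n (J n)) {psi : PowerSeries (B3 K)} (hpsi : IsPsi al J psi)
    (s : Equiv.Perm (Fin 3)) : PowerSeries.map (rn K s) psi = psi := by
  have h : PowerSeries.map (rn K s) psi * phi al J = psi * phi al J := by
    conv_lhs => rw [← map_phi al J s]
    rw [← map_mul]
    refine PowerSeries.ext fun n => ?_
    rw [PowerSeries.coeff_map, hpsi n, map_mul, rn_C, ← PowerSeries.coeff_map, map_phi]
  exact mul_right_cancel₀ (phi_ne hJ) h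

theorem toFinsupp_map {A B : Type} [DecidableEq A] [DecidableEq B] (f : A → B)
    (s : Multiset A) :
    (Multiset.toFinsupp s).mapDomain f = Multiset.toFinsupp (s.map f) := by
  induction s using Multiset.induction_on with
  | empty => simp
  | cons a s ih =>
    rw [Multiset.map_cons, ← Multiset.singleton_add, ← Multiset.singleton_add, map_add, map_add,
      Finsupp.mapDomain_add, ih, Multiset.toFinsupp_singleton, Multiset.toFinsupp_singleton,
      Finsupp.mapDomain_single]

theorem expo3_map (s : Equiv.Perm (Fin 3)) {n : ℕ} (t m v : n.Partition) :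
    (expo3 t m v).mapDomain (Prod.map s id) =
      Multiset.toFinsupp (t.parts.map (fun k => (s 0, k)) +
        m.parts.map (fun k => (s 1, k)) + v.parts.map (fun k => (s 2, k))) := by
  unfold expo3
  rw [toFinsupp_map, Multiset.map_add, Multiset.map_add, Multiset.map_map, Multiset.map_map,
    Multiset.map_map]
  rfl

theorem hc_perm {psi : PowerSeries (B3 K)} (s : Equiv.Perm (Fin 3))
    (h : PowerSeries.map (rn K s) psi = psi) {n : ℕ} (t m v : n.Partition) :
    hc psi t m v = coeff (Multiset.toFinsupp (t.parts.map (fun k => (s 0, k)) +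
        m.parts.map (fun k => (s 1, k)) + v.parts.map (fun k => (s 2, k))))
        (PowerSeries.coeff n psi) := by
  have hinj : Function.Injective (Prod.map s id : Fin 3 × ℕ → Fin 3 × ℕ) :=
    s.injective.prodMap Function.injective_id
  rw [← expo3_map s]
  conv_rhs => rw [← h]
  rw [PowerSeries.coeff_map, rn_apply, coeff_rename_mapDomain _ hinj]
  rfl

end SymM

open SymM in
/-- The series `psi` is symmetric in the three alphabets. -/
theorem symM (K : Type) [Field K] [CharZero K] (al : K) (_hal : al ≠ 0) : SymSt K al := by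
  intro J hJ psi hpsi n t m v
  constructor
  · rw [hc_perm (Equiv.swap 0 1) (map_psi hJ hpsi _) t m v]
    unfold hc expo3
    congr 2
    rw [Equiv.swap_apply_left, Equiv.swap_apply_right,
      Equiv.swap_apply_of_ne_of_ne (by decide) (by decide), add_comm (t.parts.map _)]
  · rw [hc_perm (Equiv.swap 1 2) (map_psi hJ hpsi _) t m v]
    unfold hc expo3
    congr 2
    rw [Equiv.swap_apply_left, Equiv.swap_apply_right,
      Equiv.swap_apply_of_ne_of_ne (by decide) (by decide), add_assoc, add_assoc,
      add_comm (m.parts.map _)]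

end

end Pool.Agent.MJR
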