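import Pool.Agent.MJR.St

/-!
# MJR, module TowerM: a tower of three steps (helper30)
-/

set_option autoImplicit false

namespace Pool.Agent.MJR

open MvPolynomial

namespace TowerM

variable {K : Type} [Field K] [CharZero K] {al : K}

/-- division by `al * n` -/
theorem div_step (hal : al ≠ 0) {n : ℕ} (hn : 1 ≤ n) {a b : B2 K} (h : C (al * n) * a = b) :
    a = C (al * n)⁻¹ * b := by
  have hn' : (n : K) ≠ 0 := by
    have : n ≠ 0 := by omega
    exact_mod_cast this
  rw [← h, ← mul_assoc, ← C_mul, inv_mul_cancel₀ (mul_ne_zero hal hn'), C_1, one_mul]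

/-- the symmetrised inner sum -/
theorem inner (hal : al ≠ 0) (m : ℕ) (F : ℕ → B2 K) (hF : ∀ l, l ≤ m → F (m - l) = F l) :
    ∑ l ∈ Finset.Ico 1 m, C ((al * m)⁻¹ * (al * ((m - l : ℕ) : K))⁻¹) * F l =
      ∑ l ∈ Finset.Ico 1 m, C (2 * al ^ 2 * l * ((m - l : ℕ) : K))⁻¹ * F l := by
  set S := ∑ l ∈ Finset.Ico 1 m, C ((al * m)⁻¹ * (al * ((m - l : ℕ) : K))⁻¹) * F l with hS
  have h1 : ∑ l ∈ Finset.Ico 1 m, C ((al * m)⁻¹ * (al * (l : K))⁻¹) * F l = S := by
    have h2 := Finset.sum_Ico_reflect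
      (fun l => C ((al * m)⁻¹ * (al * ((m - l : ℕ) : K))⁻¹) * F l) 1 (m := m) (n := m)
      (Nat.le_succ m)
    rw [Nat.add_sub_cancel_left, Nat.add_sub_cancel] at h2
    rw [hS, ← h2]
    refine Finset.sum_congr rfl fun l hl => ?_
    rw [Finset.mem_Ico] at hl
    have h3 : m - (m - l) = l := by omega
    rw [h3, hF l (by omega)]
  have h2 : S = C (2 : K)⁻¹ * (S + S) := by
    rw [← two_mul, ← mul_assoc]
    have h3 : (2 : B2 K) = C (2 : K) := by
      rw [map_ofNat]
    rw [h3, ← C_mul, inv_mul_cancel₀ (two_ne_zero), C_1, one_mul]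
  rw [h2]
  nth_rewrite 2 [← h1]
  rw [hS, ← Finset.sum_add_distrib, Finset.mul_sum]
  refine Finset.sum_congr rfl fun l hl => ?_
  rw [Finset.mem_Ico] at hl
  rw [← add_mul, ← C_add, ← mul_assoc, ← C_mul]
  congr 2
  have hl0 : (l : K) ≠ 0 := by
    have : l ≠ 0 := by omega
    exact_mod_cast this
  have hml : ((m - l : ℕ) : K) ≠ 0 := by
    have : m - l ≠ 0 := by omega
    exact_mod_cast this
  have hm0 : (m : K) ≠ 0 := by
    have : m ≠ 0 := by omega
    exact_mod_cast this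
  have hsum : ((m - l : ℕ) : K) + l = m := by
    rw [← Nat.cast_add]
    congr 1
    omega
  field_simp
  linear_combination hsum

end TowerM

open TowerM in
theorem tower (K : Type) [Field K] [CharZero K] (al : K) (hal : al ≠ 0) : TowerSt K al := by
  intro R R1 R2 T1 T2 T3 hR hR1 hR2 h1 h2 h3 n hn
  -- the third step
  have s3 : ∀ k l j : ℕ, 1 ≤ j → PowerSeries.coeff j (R2 k l) =
      C (al * j)⁻¹ * (X (0, j) * T3 k l j) := by
    intro k l j hj
    rw [div_step hal hj (hR2 k l j)]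
    congr 1
    rw [Finset.sum_eq_single j]
    · rw [Nat.sub_self, PowerSeries.coeff_C, if_pos rfl]
    · intro i hi hij
      rw [Finset.mem_Icc] at hi
      rw [PowerSeries.coeff_C, if_neg (by omega), mul_zero]
    · intro hj'
      exact absurd (Finset.mem_Icc.2 ⟨hj, le_rfl⟩) hj'
  have hIcc : ∀ m : ℕ, 1 ≤ m → ∀ f : ℕ → B2 K,
      ∑ l ∈ Finset.Icc 1 m, f l = ∑ l ∈ Finset.Ico 1 m, f l + f m := by
    intro m hm f
    rw [← Finset.sum_Ico_succ_top hm, Finset.Ico_add_one_right_eq_Icc]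
  -- the second step
  have s2 : ∀ k m : ℕ, 1 ≤ m → PowerSeries.coeff m (R1 k) =
      C (al * m)⁻¹ * (X (0, m) * T2 k m) + ∑ l ∈ Finset.Ico 1 m,
        C (2 * al ^ 2 * l * ((m - l : ℕ) : K))⁻¹ * (X (0, l) * X (0, m - l) * T3 k l (m - l)) := by
    intro k m hm
    rw [div_step hal hm (hR1 k m), hIcc m hm, mul_add, add_comm, Nat.sub_self, h2,
      ← inner hal m (fun l => X (0, l) * X (0, m - l) * T3 k l (m - l)) (by
        intro l hl
        have e : m - (m - l) = l := by omega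
        rw [e, h3 k (m - l) l]
        ring)]
    congr 1
    rw [Finset.mul_sum]
    refine Finset.sum_congr rfl fun l hl => ?_
    rw [Finset.mem_Ico] at hl
    rw [s3 k l (m - l) (by omega), C_mul]
    ring
  rw [hR n, hIcc n hn, Nat.sub_self, h1, add_comm, add_assoc, ← Finset.sum_add_distrib]
  congr 1
  refine Finset.sum_congr rfl fun k hk => ?_
  rw [Finset.mem_Ico] at hk
  rw [s2 k (n - k) (by omega), mul_add, Finset.mul_sum]
  congr 1
  · ring
  · refine Finset.sum_congr rfl fun l _ => ?_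
    ring

end Pool.Agent.MJR
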