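import Pool.Agent.MJR.St

/-!
The Heckman operators preserve the polynomials dominated by a partition.
-/

set_option autoImplicit false

namespace Pool.Agent.MJR

open MvPolynomial

namespace YDom

variable {K : Type} [Field K] {n : ℕ}

private def Good (l : n.Partition) (e : Fin n →₀ ℕ) : Prop :=
  ∀ S : Finset (Fin n), ∑ i ∈ S, e i ≤ ((srt l).take S.card).sum

private theorem mon_mem {l : n.Partition} {e : Fin n →₀ ℕ} (h : Good l e) (c : K) :
    (monomial e c : RX K n) ∈ DomSub K l := by
  classical
  intro e' he' S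
  rw [coeff_monomial] at he'
  split_ifs at he' with h1
  · rw [← h1]
    exact h S
  · exact absurd rfl he'

private theorem of_mon {l : n.Partition} (L : RX K n →ₗ[K] RX K n)
    (h : ∀ e, Good l e → L (monomial e 1) ∈ DomSub K l) (F : RX K n) (hF : F ∈ DomSub K l) :
    L F ∈ DomSub K l := by
  rw [F.as_sum, map_sum]
  refine Submodule.sum_mem _ fun v hv => ?_
  have h1 : (monomial v (coeff v F) : RX K n) = coeff v F • monomial v 1 := by
    rw [smul_monomial, smul_eq_mul, mul_one]
  rw [h1, LinearMap.map_smul]
  exact Submodule.smul_mem _ _ (h v fun S => hF v (mem_support_iff.mp hv) S)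

private theorem one_side {l : n.Partition} {e e' : Fin n →₀ ℕ} (h : Good l e) (x y : Fin n)
    (hxy : x ≠ y) (hout : ∀ j, j ≠ x → j ≠ y → e' j = e j) (hx : e' x ≤ max (e x) (e y))
    (S : Finset (Fin n)) (h1 : x ∈ S) (h2 : y ∉ S) :
    ∑ i ∈ S, e' i ≤ ((srt l).take S.card).sum := by
  have hy : y ∉ S.erase x := fun h3 => h2 (Finset.mem_of_mem_erase h3)
  have h3 : ∑ i ∈ S.erase x, e' i = ∑ i ∈ S.erase x, e i := by
    refine Finset.sum_congr rfl fun j hj => hout j (Finset.ne_of_mem_erase hj) ?_
    rintro rfl
    exact hy hj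
  rw [← Finset.add_sum_erase S (fun i => e' i) h1, h3]
  rcases le_max_iff.mp hx with h4 | h4
  · have h5 := h S
    rw [← Finset.add_sum_erase S (fun i => e i) h1] at h5
    omega
  · have h5 := h (insert y (S.erase x))
    rw [Finset.sum_insert hy, Finset.card_insert_of_notMem hy, Finset.card_erase_of_mem h1] at h5
    have h6 : 0 < S.card := Finset.card_pos.mpr ⟨x, h1⟩
    rw [Nat.sub_add_cancel h6] at h5
    omega

private theorem good_swap {l : n.Partition} {e e' : Fin n →₀ ℕ} (h : Good l e) (x y : Fin n)
    (hxy : x ≠ y) (hout : ∀ j, j ≠ x → j ≠ y → e' j = e j) (hsum : e' x + e' y = e x + e y)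
    (hx : e' x ≤ max (e x) (e y)) (hy : e' y ≤ max (e x) (e y)) : Good l e' := by
  intro S
  by_cases h1 : x ∈ S
  · by_cases h2 : y ∈ S
    · have h3 : y ∈ S.erase x := Finset.mem_erase.mpr ⟨hxy.symm, h2⟩
      have h4 : ∑ i ∈ (S.erase x).erase y, e' i = ∑ i ∈ (S.erase x).erase y, e i := by
        refine Finset.sum_congr rfl fun j hj => hout j ?_ (Finset.ne_of_mem_erase hj)
        exact Finset.ne_of_mem_erase (Finset.mem_of_mem_erase hj)
      have h5 := h S
      rw [← Finset.add_sum_erase S (fun i => e i) h1,
        ← Finset.add_sum_erase (S.erase x) (fun i => e i) h3] at h5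
      rw [← Finset.add_sum_erase S (fun i => e' i) h1,
        ← Finset.add_sum_erase (S.erase x) (fun i => e' i) h3, h4]
      omega
    · exact one_side h x y hxy hout hx S h1 h2
  · by_cases h2 : y ∈ S
    · refine one_side h y x hxy.symm (fun j h3 h4 => hout j h4 h3) ?_ S h2 h1
      rwa [max_comm]
    · have h4 : ∑ i ∈ S, e' i = ∑ i ∈ S, e i := by
        refine Finset.sum_congr rfl fun j hj => hout j ?_ ?_
        · rintro rfl
          exact h1 hj
        · rintro rfl
          exact h2 hj
      rw [h4]
      exact h S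

private theorem nop_mem {l : n.Partition} (i k : Fin n) (hik : i ≠ k) (e : Fin n →₀ ℕ)
    (h : Good l e) : Nop K i k (monomial e 1) ∈ DomSub K l := by
  have h1 : (monomial e (1 : K) : RX K n) = basisMonomials (Fin n) K e := by
    rw [coe_basisMonomials]
  rw [h1, Nop, Module.Basis.constr_basis, nopMon]
  have hu : ∀ a : ℕ, ∀ j : Fin n, ((e.update i (a + 1)).update k (e i + e k - 1 - a)) j =
      if j = k then e i + e k - 1 - a else if j = i then a + 1 else e j := by
    intro a j
    classical
    simp only [Finsupp.coe_update, Function.update_apply]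
  refine Submodule.sub_mem _ (Submodule.sum_mem _ fun a ha => mon_mem ?_ _)
    (Submodule.sum_mem _ fun a ha => mon_mem ?_ _)
  all_goals
    rw [Finset.mem_Ico] at ha
    refine good_swap h i k hik (fun j h2 h3 => ?_) ?_ ?_ ?_
    · rw [hu, if_neg h3, if_neg h2]
    · rw [hu, hu, if_neg hik, if_pos rfl, if_pos rfl]
      omega
    · rw [hu, if_neg hik, if_pos rfl]
      omega
    · rw [hu, if_pos rfl]
      omega

private theorem der_mem {l : n.Partition} (i : Fin n) (e : Fin n →₀ ℕ) (h : Good l e) :
    (X i : RX K n) * pderiv i (monomial e 1) ∈ DomSub K l := by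
  classical
  rw [pderiv_monomial, one_mul]
  by_cases h1 : e i = 0
  · rw [h1, Nat.cast_zero, monomial_zero, mul_zero]
    exact Submodule.zero_mem _
  · have h2 : (X i : RX K n) * monomial (e - Finsupp.single i 1) ((e i : ℕ) : K) =
        monomial e ((e i : ℕ) : K) := by
      rw [mul_comm, X, monomial_mul, mul_one]
      have h3 : e - Finsupp.single i 1 + Finsupp.single i 1 = e := by
        refine tsub_add_cancel_of_le ?_
        rw [Finsupp.single_le_iff]
        omega
      rw [h3]
    rw [h2]
    exact mon_mem h _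

end YDom

open YDom in
/-- The Heckman operators preserve `DomSub`. -/
theorem yDom (K : Type) [Field K] (al : K) : YDomSt K al := by
  intro n l i F hF
  refine of_mon (Yop al i) (fun e he => ?_) F hF
  have h1 : Yop al i (monomial e (1 : K)) = al • ((X i : RX K n) * pderiv i (monomial e 1)) +
      ∑ k ∈ Finset.univ.erase i, Nop K i k (monomial e 1) := by
    rw [Yop, LinearMap.add_apply, LinearMap.smul_apply, LinearMap.sum_apply]
    rfl
  rw [h1]
  refine Submodule.add_mem _ (Submodule.smul_mem _ _ (der_mem i e he))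
    (Submodule.sum_mem _ fun k hk => nop_mem i k ?_ e he)
  exact (Finset.ne_of_mem_erase hk).symm

end Pool.Agent.MJR
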