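import Pool.Agent.MJR.CFin
import Pool.Agent.MJR.HFin
import Pool.Agent.MJR.IdentM
import Pool.Agent.MJR.AnisoM
import Pool.Agent.MJR.FormM
import Pool.Agent.MJR.GradeM
import Pool.Agent.MJR.NopMul
import Pool.Agent.MJR.YDom
import Pool.Agent.MJR.IntM
import Pool.Agent.MJR.HTriM
import Pool.Agent.MJR.SortM
import Pool.Agent.MJR.InjM
import Pool.Agent.MJR.OrdM
import Pool.Agent.MJR.LinAlgM
import Pool.Agent.MJR.BrDM
import Pool.Agent.MJR.BrK3M
import Pool.Agent.MJR.BrK22M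
import Pool.Agent.MJR.KoneM
import Pool.Agent.MJR.PosKM
import Pool.Agent.MJR.RecAM
import Pool.Agent.MJR.RecSM
import Pool.Agent.MJR.TowerM
import Pool.Agent.MJR.Psi12M
import Pool.Agent.MJR.Psi3M
import Pool.Agent.MJR.PosPsi12
import Pool.Agent.MJR.PosPsi3
import Pool.Agent.MJR.PhiM
import Pool.Agent.MJR.ExtrM
import Pool.Agent.MJR.SymM
import Pool.Agent.MJR.PiPosM
import Pool.Agent.MJR.PiM

/-!
Assembly over `ℚ(al)`.
-/

namespace Pool.Agent.MJR

open MvPolynomial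

noncomputable section

/-- `ℚ(al)` -/
abbrev QA := RatFunc ℚ

theorem hX : (RatFunc.X : QA) ≠ 0 := RatFunc.X_ne_zero

theorem fin_D : BrDSt QA RatFunc.X := brD hX
theorem fin_K3 : BrK3St QA RatFunc.X := brK3 hX
theorem fin_K22 : BrK22St QA RatFunc.X := brK22_of fin_D fin_K3

theorem fin_ident : IdentSt QA RatFunc.X ∧ JInjSt QA RatFunc.X :=
  ident QA RatFunc.X hX anisoM (formM QA _) (gradeM QA _)
    (hTriM QA _ (intM QA _ (nopMul QA)) (yDom QA _)) (sortM QA) (injM QA) domOrd (linAlg QA)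
    (kone_of fin_D fin_K3 fin_K22)

theorem fin_A : RecASt QA RatFunc.X := recA QA _ hX
theorem fin_S : RecSSt QA RatFunc.X := recS QA _ hX fin_A
theorem fin_T : TowerSt QA RatFunc.X := tower QA _ hX
theorem fin_psi1 : Psi1St QA RatFunc.X := psi1 QA _ hX fin_S fin_D
theorem fin_psi2 : Psi2St QA RatFunc.X := psi2 QA _ hX fin_S fin_K3 fin_T
theorem fin_psi3 : Psi3St QA RatFunc.X := psi3 QA _ hX fin_S fin_D fin_K22 fin_T

theorem fin_posPsi : PosPsiSt QA RatFunc.X := fun n hn =>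
  ⟨(posPsi12 QA _ fin_psi1 fin_psi2 n hn).1, (posPsi12 QA _ fin_psi1 fin_psi2 n hn).2,
    posPsi3 QA _ fin_psi3 n hn⟩

theorem fin_posK : PosKSt QA RatFunc.X := posK_of fin_D fin_K3 fin_K22

theorem fin_phi : PhiSt QA RatFunc.X := phiM QA _ hX fin_ident.1 anisoM

theorem fin_pi : PiSt QA RatFunc.X :=
  piM QA _ hX fin_A fin_S (piPos QA _ hX fin_psi1 fin_psi2 fin_psi3)

theorem fin_extr : ExtrSt QA RatFunc.X :=
  extr QA _ hX fin_phi fin_A fin_S (gradeM QA _) fin_D fin_K3 fin_K22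

/-- The coefficients `c`. -/
theorem fin_c {n : ℕ} {J : n.Partition → n.Partition → QA} (hJ : IsJack RatFunc.X n J)
    (c : n.Partition → n.Partition → n.Partition → QA)
    (hc : ∀ l m v, ∑ p, J l p * c p m v = J l m * J l v) (p m v : n.Partition)
    (h : n ≤ p.parts.card + 2 ∨ n ≤ m.parts.card + 2 ∨ n ≤ v.parts.card + 2) :
    c p m v ∈ Nb RatFunc.X :=
  c_mem fin_ident.1 fin_ident.2 anisoM fin_posK fin_pi shapeM hJ c hc p m v h

/-- The coefficients `h`. -/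
theorem fin_h {J : (n : ℕ) → n.Partition → n.Partition → QA}
    (hJ : ∀ n, IsJack RatFunc.X n (J n)) {psi : PowerSeries (B3 QA)}
    (hpsi : IsPsi RatFunc.X J psi) {n : ℕ} (hn : 1 ≤ n) (t m v : n.Partition)
    (h : n ≤ t.parts.card + 2 ∨ n ≤ m.parts.card + 2 ∨ n ≤ v.parts.card + 2) :
    hc psi t m v ∈ Nb RatFunc.X :=
  h_mem fin_extr fin_posPsi (symM QA _ hX) shapeM hJ hpsi hn t m v h

end

end Pool.Agent.MJR
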