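import Pool.Agent.MJR.St

/-!
Calculus of the brackets with multiplication by `p_k`.
-/

set_option autoImplicit false

namespace Pool.Agent.MJR

open MvPolynomial

noncomputable section

variable {K : Type} [Field K]

namespace BrB

/-- multiplication by `u` on `LW` -/
def Lw (u : LW K) : Module.End K (LW K) := LinearMap.mulLeft K u

theorem Lw_apply (u v : LW K) : Lw u v = u * v := rfl

/-- `al k w^k` -/
def uu (al : K) (k : ℕ) : LW K := Polynomial.monomial k (C (al * k))

/-- bracket with multiplication by `p_k` on `LW` -/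
def ad (k : ℕ) (A : Module.End K (LW K)) : Module.End K (LW K) :=
  A * Lw (Polynomial.C (X k)) - Lw (Polynomial.C (X k)) * A

theorem ad_mul (k : ℕ) (A B : Module.End K (LW K)) : ad k (A * B) = ad k A * B + A * ad k B := by
  apply LinearMap.ext
  intro g
  unfold ad
  simp only [LinearMap.sub_apply, LinearMap.add_apply, Module.End.mul_apply, map_sub]
  abel

theorem ad_add (k : ℕ) (A B : Module.End K (LW K)) : ad k (A + B) = ad k A + ad k B := by
  apply LinearMap.ext
  intro g
  unfold ad
  simp only [LinearMap.sub_apply, LinearMap.add_apply, Module.End.mul_apply, map_add]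
  abel

theorem ad_Lw (k : ℕ) (u : LW K) : ad k (Lw u) = 0 := by
  apply LinearMap.ext
  intro g
  unfold ad
  simp only [LinearMap.sub_apply, Module.End.mul_apply, Lw_apply, LinearMap.zero_apply]
  ring

theorem Z_monomial (al : K) (j : ℕ) (f : Lam K) :
    Z al (Polynomial.monomial j f) = Polynomial.monomial j (C ((al - 1) * j) * f) +
        Polynomial.X ^ j * U al f +
        ∑ a ∈ Finset.Ico 1 j, Polynomial.monomial a (X (j - a) * f) := by
  unfold Z
  rw [Polynomial.lsum_apply, Polynomial.sum_monomial_index]
  · rfl
  · exact map_zero _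

theorem Z_mulC (al : K) (k : ℕ) (g : LW K) :
    Z al (Polynomial.C (X k) * g) = Polynomial.C (X k) * Z al g + uu al k * g := by
  induction g using Polynomial.induction_on' with
  | add p q hp hq =>
    rw [mul_add, map_add, hp, hq, map_add]
    ring
  | monomial j f =>
    have hU : U al (X k * f) = Polynomial.C (X k) * U al f + uu al k * Polynomial.C f := by
      rw [Derivation.leibniz]
      have : U al (X k : Lam K) = uu al k := by
        unfold U uu
        rw [mkDerivation_X]
      rw [this, Algebra.smul_def, Algebra.smul_def, Polynomial.algebraMap_eq]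
      ring
    have h1 : Polynomial.C (X k) * Polynomial.monomial j f
        = Polynomial.monomial j (X k * f : Lam K) := by
      rw [Polynomial.C_mul_monomial]
    rw [h1, Z_monomial, Z_monomial, hU]
    have h2 : uu al k * Polynomial.monomial j f
        = Polynomial.X ^ j * (uu al k * Polynomial.C f) := by
      rw [← Polynomial.C_mul_X_pow_eq_monomial]
      ring
    have h3 : ∀ a : ℕ, Polynomial.monomial a (X (j - a) * (X k * f) : Lam K)
        = Polynomial.C (X k) * Polynomial.monomial a (X (j - a) * f) := by
      intro a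
      rw [Polynomial.C_mul_monomial]
      congr 1
      ring
    have h4 : Polynomial.monomial j (C ((al - 1) * j) * (X k * f) : Lam K)
        = Polynomial.C (X k) * Polynomial.monomial j (C ((al - 1) * j) * f) := by
      rw [Polynomial.C_mul_monomial]
      congr 1
      ring
    simp only [h3]
    rw [h2, h4, ← Finset.mul_sum]
    ring

theorem ad_Z (al : K) (k : ℕ) : ad k (Z al) = Lw (uu al k) := by
  unfold ad
  apply LinearMap.ext
  intro g
  simp only [LinearMap.sub_apply, Module.End.mul_apply, Lw_apply]
  rw [Z_mulC]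
  ring

theorem Tr_monomial (j : ℕ) (f : Lam K) (hj : j ≠ 0) :
    Tr (Polynomial.monomial j f) = X j * f := by
  unfold Tr
  rw [Polynomial.lsum_apply, Polynomial.sum_monomial_index]
  · rw [if_neg hj]
    rfl
  · exact map_zero _

theorem Tr_monomial_zero (f : Lam K) : Tr (Polynomial.monomial 0 f) = 0 := by
  unfold Tr
  rw [Polynomial.lsum_apply, Polynomial.sum_monomial_index]
  · rw [if_pos rfl]
    rfl
  · exact map_zero _

theorem Tr_mulC (f : Lam K) (g : LW K) : Tr (Polynomial.C f * g) = f * Tr g := by
  induction g using Polynomial.induction_on' with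
  | add p q hp hq =>
    rw [mul_add, map_add, hp, hq, map_add]
    ring
  | monomial j h =>
    rw [Polynomial.C_mul_monomial]
    rcases eq_or_ne j 0 with hj | hj
    · subst hj
      rw [Tr_monomial_zero, Tr_monomial_zero, mul_zero]
    · rw [Tr_monomial _ _ hj, Tr_monomial _ _ hj]
      ring

theorem cW_apply (f : Lam K) : cW f = Polynomial.C f := rfl

theorem comm_T (A : Module.End K (LW K)) (k : ℕ) :
    comm (Tr ∘ₗ A ∘ₗ cW) k = Tr ∘ₗ (ad k A) ∘ₗ cW := by
  apply LinearMap.ext
  intro f
  unfold comm ad
  simp only [LinearMap.sub_apply, LinearMap.comp_apply, Module.End.mul_apply, Lw_apply,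
    LinearMap.mulLeft_apply, cW_apply, map_sub, map_mul]
  rw [Tr_mulC]

theorem Z_one (al : K) : Z al (Polynomial.C 1) = 0 := by
  have h : (Polynomial.C (1 : Lam K)) = Polynomial.monomial 0 1 := rfl
  rw [h, Z_monomial]
  have : U al (1 : Lam K) = 0 := Derivation.map_one_eq_zero _
  rw [this]
  simp

/-! ### linearity of `comm` -/

theorem comm_apply (O : Lam K →ₗ[K] Lam K) (k : ℕ) (f : Lam K) :
    comm O k f = O (X k * f) - X k * O f := rfl

theorem comm_add (O P : Lam K →ₗ[K] Lam K) (k : ℕ) : comm (O + P) k = comm O k + comm P k := by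
  apply LinearMap.ext
  intro f
  simp only [comm_apply, LinearMap.add_apply]
  ring

theorem comm_sub (O P : Lam K →ₗ[K] Lam K) (k : ℕ) : comm (O - P) k = comm O k - comm P k := by
  apply LinearMap.ext
  intro f
  simp only [comm_apply, LinearMap.sub_apply]
  ring

theorem comm_smul (c : K) (O : Lam K →ₗ[K] Lam K) (k : ℕ) : comm (c • O) k = c • comm O k := by
  apply LinearMap.ext
  intro f
  simp only [comm_apply, LinearMap.smul_apply, smul_sub, mul_smul_comm]

theorem comm_zero (k : ℕ) : comm (0 : Lam K →ₗ[K] Lam K) k = 0 := by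
  apply LinearMap.ext
  intro f
  simp only [comm_apply, LinearMap.zero_apply, mul_zero, sub_zero]

theorem comm_comp (O P : Lam K →ₗ[K] Lam K) (k : ℕ) :
    comm (O ∘ₗ P) k = comm O k ∘ₗ P + O ∘ₗ comm P k := by
  apply LinearMap.ext
  intro f
  simp only [comm_apply, LinearMap.add_apply, LinearMap.comp_apply, map_sub]
  ring

theorem comm_mulLeft (g : Lam K) (k : ℕ) : comm (LinearMap.mulLeft K g) k = 0 := by
  apply LinearMap.ext
  intro f
  simp only [comm_apply, LinearMap.mulLeft_apply, LinearMap.zero_apply]
  ring

theorem E_X (k : ℕ) : E K (X k) = C (k : K) * X k := by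
  have : E K (X k) = (mkDerivation K fun k : ℕ => (k : K) • (X k : Lam K)) (X k) := rfl
  rw [this, mkDerivation_X, smul_eq_C_mul]

theorem E_one : E K 1 = 0 := by
  have : E K 1 = (mkDerivation K fun k : ℕ => (k : K) • (X k : Lam K)) 1 := rfl
  rw [this, Derivation.map_one_eq_zero]

theorem E_mul (f g : Lam K) : E K (f * g) = f * E K g + g * E K f := by
  have : E K (f * g) = (mkDerivation K fun k : ℕ => (k : K) • (X k : Lam K)) (f * g) := rfl
  rw [this, Derivation.leibniz]
  rfl

theorem comm_E (k : ℕ) : comm (E K) k = LinearMap.mulLeft K (C (k : K) * X k) := by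
  apply LinearMap.ext
  intro f
  rw [comm_apply, E_mul, E_X, LinearMap.mulLeft_apply]
  ring

end BrB

end

end Pool.Agent.MJR
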