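import Pool.Agent.MJR.St

/-!
The brackets of `K22` from those of `D` and `K3`.
-/

namespace Pool.Agent.MJR

open MvPolynomial

noncomputable section

variable {K : Type} [Field K]

/-! ### Bracket calculus -/

theorem brM_apply (O : Lam K →ₗ[K] Lam K) (k : ℕ) (f : Lam K) :
    comm O k f = O (X k * f) - X k * O f := by
  simp [comm]

theorem brM_add (A B : Lam K →ₗ[K] Lam K) (k : ℕ) : comm (A + B) k = comm A k + comm B k := by
  refine LinearMap.ext fun f => ?_
  simp only [brM_apply, LinearMap.add_apply]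
  ring

theorem brM_sub (A B : Lam K →ₗ[K] Lam K) (k : ℕ) : comm (A - B) k = comm A k - comm B k := by
  refine LinearMap.ext fun f => ?_
  simp only [brM_apply, LinearMap.sub_apply]
  ring

theorem brM_smul (c : K) (A : Lam K →ₗ[K] Lam K) (k : ℕ) : comm (c • A) k = c • comm A k := by
  refine LinearMap.ext fun f => ?_
  simp only [brM_apply, LinearMap.smul_apply, smul_eq_C_mul]
  ring

theorem brM_comp (A B : Lam K →ₗ[K] Lam K) (k : ℕ) :
    comm (A ∘ₗ B) k = comm A k ∘ₗ B + A ∘ₗ comm B k := by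
  refine LinearMap.ext fun f => ?_
  simp only [brM_apply, LinearMap.add_apply, LinearMap.comp_apply, map_sub]
  ring

theorem brM_mul (g : Lam K) (k : ℕ) : comm (LinearMap.mulLeft K g) k = 0 := by
  refine LinearMap.ext fun f => ?_
  simp only [brM_apply, LinearMap.mulLeft_apply, LinearMap.zero_apply]
  ring

theorem brM_der (G : Derivation K (Lam K) (Lam K)) (k : ℕ) :
    comm (G : Lam K →ₗ[K] Lam K) k = LinearMap.mulLeft K (G (X k)) := by
  refine LinearMap.ext fun f => ?_
  simp only [brM_apply, LinearMap.mulLeft_apply, Derivation.coeFn_coe, Derivation.leibniz,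
    smul_eq_mul]
  ring

theorem brM_zero (k : ℕ) : comm (0 : Lam K →ₗ[K] Lam K) k = 0 := by
  refine LinearMap.ext fun f => ?_
  simp [brM_apply]

/-- Operators commuting with all multiplications are multiplications. -/
theorem brM_const (A : Lam K →ₗ[K] Lam K) (h : ∀ k, comm A k = 0) :
    A = LinearMap.mulLeft K (A 1) := by
  refine LinearMap.ext fun f => ?_
  rw [LinearMap.mulLeft_apply]
  induction f using MvPolynomial.induction_on with
  | C a =>
    have e : (C a : Lam K) = a • 1 := by rw [smul_eq_C_mul, mul_one]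
    rw [e, map_smul, mul_smul_comm, mul_one]
  | add p q hp hq => rw [map_add, hp, hq, mul_add]
  | mul_X p n hp =>
    have e := congrArg (fun B : Lam K →ₗ[K] Lam K => B p) (h n)
    simp only [brM_apply, LinearMap.zero_apply] at e
    rw [mul_comm p (X n), sub_eq_zero.1 e, hp]
    ring

/-- Operators whose brackets are multiplications. -/
theorem brM_one (A : Lam K →ₗ[K] Lam K) (g : ℕ → Lam K)
    (h : ∀ k, comm A k = LinearMap.mulLeft K (g k)) :
    A = LinearMap.mulLeft K (A 1) + (mkDerivation K g : Lam K →ₗ[K] Lam K) := by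
  have h2 := brM_const (A - (mkDerivation K g : Lam K →ₗ[K] Lam K)) (fun k => by
    rw [brM_sub, brM_der, h k, mkDerivation_X, sub_self])
  have h3 : (A - (mkDerivation K g : Lam K →ₗ[K] Lam K)) 1 = A 1 := by
    rw [LinearMap.sub_apply, Derivation.coeFn_coe, Derivation.map_one_eq_zero, sub_zero]
  rw [h3] at h2
  rw [← h2]
  abel

/-! ### Sums -/

/-- cubic sums -/
def brS3 (m : ℕ) (w : ℕ → ℕ → K) : Lam K :=
  ∑ c ∈ Finset.Ico 1 m, ∑ d ∈ Finset.Ico 1 (m - c), C (w c d) * (X c * X d * X (m - c - d))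

/-- quadratic sums -/
def brS2 (m : ℕ) (v : ℕ → K) : Lam K :=
  ∑ a ∈ Finset.Ico 1 m, C (v a) * (X a * X (m - a))

theorem brS3_congr {m : ℕ} {w w' : ℕ → ℕ → K} (h : ∀ c d, w c d = w' c d) :
    brS3 m w = brS3 m w' := by
  have : w = w' := by
    funext c d
    exact h c d
  rw [this]

theorem brS2_congr {m : ℕ} {w w' : ℕ → K} (h : ∀ c, 1 ≤ c → c < m → w c = w' c) :
    brS2 m w = brS2 m w' := by
  unfold brS2
  refine Finset.sum_congr rfl fun a ha => ?_
  rw [Finset.mem_Ico] at ha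
  rw [h a ha.1 ha.2]

theorem brS3_add (m : ℕ) (w w' : ℕ → ℕ → K) :
    brS3 m w + brS3 m w' = brS3 m (fun c d => w c d + w' c d) := by
  unfold brS3
  rw [← Finset.sum_add_distrib]
  refine Finset.sum_congr rfl fun c _ => ?_
  rw [← Finset.sum_add_distrib]
  refine Finset.sum_congr rfl fun d _ => ?_
  rw [map_add]
  ring

theorem brS2_add (m : ℕ) (w w' : ℕ → K) :
    brS2 m w + brS2 m w' = brS2 m (fun c => w c + w' c) := by
  unfold brS2
  rw [← Finset.sum_add_distrib]
  refine Finset.sum_congr rfl fun c _ => ?_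
  rw [map_add]
  ring

theorem brS3_mul (m : ℕ) (t : K) (w : ℕ → ℕ → K) :
    C t * brS3 m w = brS3 m (fun c d => t * w c d) := by
  unfold brS3
  rw [Finset.mul_sum]
  refine Finset.sum_congr rfl fun c _ => ?_
  rw [Finset.mul_sum]
  refine Finset.sum_congr rfl fun d _ => ?_
  rw [map_mul]
  ring

theorem brS2_mul (m : ℕ) (t : K) (w : ℕ → K) :
    C t * brS2 m w = brS2 m (fun c => t * w c) := by
  unfold brS2
  rw [Finset.mul_sum]
  refine Finset.sum_congr rfl fun c _ => ?_
  rw [map_mul]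
  ring

theorem brS3_swap (m : ℕ) (w : ℕ → ℕ → K) : brS3 m (fun c d => w d c) = brS3 m w := by
  unfold brS3
  rw [Finset.sum_sigma', Finset.sum_sigma']
  refine Finset.sum_bij' (fun x _ => ⟨x.2, x.1⟩) (fun x _ => ⟨x.2, x.1⟩) ?_ ?_ ?_ ?_ ?_
  · rintro ⟨c, d⟩ h
    simp only [Finset.mem_sigma, Finset.mem_Ico] at h ⊢
    omega
  · rintro ⟨c, d⟩ h
    simp only [Finset.mem_sigma, Finset.mem_Ico] at h ⊢
    omega
  · rintro ⟨c, d⟩ h
    rfl
  · rintro ⟨c, d⟩ h
    rfl
  · rintro ⟨c, d⟩ h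
    simp only
    rw [Nat.sub_right_comm m c d]
    ring

theorem brS3_tri (m : ℕ) (w : ℕ → ℕ → K) :
    ∑ a ∈ Finset.Ico 1 m, ∑ e ∈ Finset.Ico 1 a, C (w a e) * (X e * X (a - e) * X (m - a)) =
      brS3 m (fun c d => w (c + d) c) := by
  unfold brS3
  rw [Finset.sum_sigma', Finset.sum_sigma']
  refine Finset.sum_bij' (fun x _ => ⟨x.2, x.1 - x.2⟩) (fun x _ => ⟨x.1 + x.2, x.1⟩)
    ?_ ?_ ?_ ?_ ?_
  · rintro ⟨c, d⟩ h
    simp only [Finset.mem_sigma, Finset.mem_Ico] at h ⊢
    omega
  · rintro ⟨c, d⟩ h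
    simp only [Finset.mem_sigma, Finset.mem_Ico] at h ⊢
    omega
  · rintro ⟨c, d⟩ h
    simp only [Finset.mem_sigma, Finset.mem_Ico] at h ⊢
    have : d + (c - d) = c := by omega
    rw [this]
  · rintro ⟨c, d⟩ h
    simp only [Finset.mem_sigma, Finset.mem_Ico] at h ⊢
    have : c + d - c = d := by omega
    rw [this]
  · rintro ⟨c, d⟩ h
    simp only [Finset.mem_sigma, Finset.mem_Ico] at h ⊢
    have e1 : d + (c - d) = c := by omega
    have e2 : m - d - (c - d) = m - c := by omega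
    rw [e1, e2]

/-! ### Numbers -/

variable [CharZero K]

theorem brM_ch2 (m : ℕ) : ((m.choose 2 : ℕ) : K) = m * (m - 1) / 2 := Nat.cast_choose_two K m

theorem brM_ch3 (m : ℕ) : ((m.choose 3 : ℕ) : K) = m * (m - 1) * (m - 2) / 6 := by
  induction m with
  | zero => simp
  | succ m ih =>
    rw [Nat.choose_succ_succ' m 2, Nat.cast_add, ih, brM_ch2]
    push_cast
    ring

theorem brM_ch4 (m : ℕ) : ((m.choose 4 : ℕ) : K) = m * (m - 1) * (m - 2) * (m - 3) / 24 := by
  induction m with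
  | zero => simp
  | succ m ih =>
    rw [Nat.choose_succ_succ' m 3, Nat.cast_add, ih, brM_ch3]
    push_cast
    ring

theorem brM_sum (x : K) (n : ℕ) : ∑ a ∈ Finset.Ico 1 (n + 1), (a : K) * (a * (x - a)) =
    x * (n * (n + 1) * (2 * n + 1) / 6) - (n * (n + 1) / 2) ^ 2 := by
  induction n with
  | zero => simp
  | succ n ih =>
    rw [Finset.sum_Ico_succ_top (by omega), ih]
    push_cast
    ring

theorem brM_sum' (m : ℕ) : ∑ a ∈ Finset.Ico 1 m, (a : K) * (a * (m - a)) =
    (m : K) ^ 2 * ((m : K) ^ 2 - 1) / 12 := by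
  rcases m with _ | n
  · simp
  · rw [brM_sum]
    push_cast
    ring

/-! ### Structure of `D` -/

omit [CharZero K]

/-- the derivation part of `[D, p_k]` -/
def brG (al : K) (k : ℕ) : Derivation K (Lam K) (Lam K) := mkDerivation K fun l => bD2 al k l

theorem brM_D2 {al : K} (hD : BrDSt K al) (k l : ℕ) :
    comm (comm (Dop al) k) l = LinearMap.mulLeft K (bD2 al k l) := by
  rw [brM_const _ (fun m => hD.2.2.2 k l m), hD.2.2.1]

theorem brM_D1 {al : K} (hD : BrDSt K al) (k : ℕ) :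
    comm (Dop al) k = LinearMap.mulLeft K (bD1 al k) +
      (brG al k : Lam K →ₗ[K] Lam K) := by
  rw [brM_one _ _ (fun l => brM_D2 hD k l), hD.2.1]
  rfl

theorem brM_E1 (k : ℕ) : comm (E K) k = LinearMap.mulLeft K ((k : K) • (X k : Lam K)) := by
  rw [E]
  have h := brM_der (mkDerivation K fun k : ℕ => (k : K) • (X k : Lam K)) k
  rw [mkDerivation_X] at h
  exact h

theorem brM_EX (k : ℕ) : E K (X k) = (k : K) • (X k : Lam K) := by
  rw [E]
  exact mkDerivation_X K _ k

theorem brM_E0 : E K 1 = 0 := by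
  rw [E]
  exact Derivation.map_one_eq_zero _

/-! ### Brackets of `D D` -/

theorem brM_dd0 {al : K} (hD : BrDSt K al) : (Dop al ∘ₗ Dop al) 1 = 0 := by
  rw [LinearMap.comp_apply, hD.1, map_zero]

theorem brM_dd1 {al : K} (hD : BrDSt K al) (k : ℕ) :
    comm (Dop al ∘ₗ Dop al) k 1 = Dop al (bD1 al k) := by
  rw [brM_comp, LinearMap.add_apply, LinearMap.comp_apply, LinearMap.comp_apply, hD.1, map_zero,
    zero_add, hD.2.1]

theorem brM_dd2 {al : K} (hD : BrDSt K al) (k l : ℕ) :
    comm (comm (Dop al ∘ₗ Dop al) k) l 1 = 2 * (bD1 al k * bD1 al l) + brG al k (bD1 al l) +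
      brG al l (bD1 al k) + Dop al (bD2 al k l) := by
  simp only [brM_comp, brM_add, LinearMap.add_apply, LinearMap.comp_apply, hD.1, hD.2.1,
    hD.2.2.1, map_zero]
  simp only [brM_D1 hD, LinearMap.add_apply, LinearMap.mulLeft_apply, Derivation.coeFn_coe]
  ring

theorem brM_GX (al : K) (k l : ℕ) : brG al k (X l) = bD2 al k l := by
  rw [brG, mkDerivation_X]

theorem brM_GD2 (al : K) (k l m : ℕ) : brG al k (bD2 al l m) =
    C (al ^ 2 * k * l * m * (l + m)) * X (k + l + m) := by
  rw [bD2, ← smul_eq_C_mul, Derivation.map_smul, brM_GX, bD2, smul_eq_C_mul, ← mul_assoc,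
    ← map_mul, ← Nat.add_assoc]
  congr 2
  push_cast
  ring

theorem brM_dd3 {al : K} (hD : BrDSt K al) (i j k : ℕ) :
    comm (comm (comm (Dop al ∘ₗ Dop al) i) j) k 1 = 2 * (bD1 al i * bD2 al j k
      + bD1 al j * bD2 al i k + bD1 al k * bD2 al i j) +
      C (2 * al ^ 2 * i * j * k * (i + j + k)) * X (i + j + k) := by
  have h0 : ∀ f : Lam K, comm (comm (comm (Dop al) i) j) k f = 0 := fun f => by
    rw [hD.2.2.2]
    rfl
  simp only [brM_comp, brM_add, LinearMap.add_apply, LinearMap.comp_apply, hD.1, hD.2.1,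
    hD.2.2.1, h0, map_zero]
  simp only [brM_D2 hD, LinearMap.mulLeft_apply]
  simp only [brM_D1 hD, LinearMap.add_apply, LinearMap.mulLeft_apply,
    Derivation.coeFn_coe, brM_GD2]
  have e1 : j + i + k = i + j + k := by omega
  have e2 : k + i + j = i + j + k := by omega
  rw [e1, e2]
  simp only [map_add, map_mul, map_pow, map_ofNat]
  ring

theorem brM_dd4 {al : K} (hD : BrDSt K al) (i j k l : ℕ) :
    comm (comm (comm (comm (Dop al ∘ₗ Dop al) i) j) k) l =
      LinearMap.mulLeft K (2 * (bD2 al i j * bD2 al k l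
        + bD2 al i k * bD2 al j l + bD2 al i l * bD2 al j k)) := by
  simp only [brM_comp, brM_add, hD.2.2.2, LinearMap.zero_comp, LinearMap.comp_zero,
    zero_add, add_zero]
  refine LinearMap.ext fun f => ?_
  simp only [brM_D2 hD, LinearMap.add_apply, LinearMap.comp_apply, LinearMap.mulLeft_apply]
  ring

/-! ### Brackets of `E E - E` -/

theorem brM_ee0 : (E K ∘ₗ E K - E K) 1 = 0 := by
  rw [LinearMap.sub_apply, LinearMap.comp_apply, brM_E0, map_zero, sub_zero]

theorem brM_ee1 (k : ℕ) : comm (E K ∘ₗ E K - E K) k 1 = C ((k : K) * (k - 1)) * X k := by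
  simp only [brM_sub, brM_comp, LinearMap.sub_apply, LinearMap.add_apply, LinearMap.comp_apply,
    brM_E0, map_zero, brM_E1, LinearMap.mulLeft_apply, mul_one, map_smul, brM_EX]
  simp only [smul_eq_C_mul, map_mul, map_sub, map_one]
  ring

theorem brM_ee2 (k l : ℕ) : comm (comm (E K ∘ₗ E K - E K) k) l =
    LinearMap.mulLeft K (C (2 * (k : K) * l) * (X k * X l)) := by
  refine LinearMap.ext fun f => ?_
  simp only [brM_sub, brM_add, brM_comp, LinearMap.sub_apply, LinearMap.add_apply,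
    LinearMap.comp_apply, brM_E1, LinearMap.mulLeft_apply, brM_mul, LinearMap.zero_apply,
    map_zero, smul_eq_C_mul, map_mul, map_ofNat]
  ring

/-! ### Values of `D` -/

theorem brM_DX {al : K} (hD : BrDSt K al) (k : ℕ) : Dop al (X k) = bD1 al k := by
  have h := hD.2.1 k
  rw [brM_apply, hD.1, mul_one, mul_zero, sub_zero] at h
  exact h

theorem brM_DXX {al : K} (hD : BrDSt K al) (a b : ℕ) : Dop al (X a * X b) =
    X a * bD1 al b + bD1 al a * X b + bD2 al a b := by
  have h := congrArg (fun A : Lam K →ₗ[K] Lam K => A (X b)) (brM_D1 hD a)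
  simp only [brM_apply, LinearMap.add_apply, LinearMap.mulLeft_apply, Derivation.coeFn_coe,
    brM_GX, brM_DX hD] at h
  rw [sub_eq_iff_eq_add] at h
  rw [h]
  ring

theorem brM_DC (A : Lam K →ₗ[K] Lam K) (c : K) (f : Lam K) : A (C c * f) = C c * A f := by
  rw [← smul_eq_C_mul, map_smul, smul_eq_C_mul]

theorem brM_refl (j : ℕ) (F : ℕ → Lam K) :
    ∑ a ∈ Finset.Ico 1 j, F (j - a) = ∑ a ∈ Finset.Ico 1 j, F a := by
  refine Finset.sum_bij' (fun a _ => j - a) (fun a _ => j - a) ?_ ?_ ?_ ?_ ?_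
  · intro a ha
    rw [Finset.mem_Ico] at ha ⊢
    omega
  · intro a ha
    rw [Finset.mem_Ico] at ha ⊢
    omega
  · intro a ha
    rw [Finset.mem_Ico] at ha
    omega
  · intro a ha
    rw [Finset.mem_Ico] at ha
    omega
  · intro a ha
    rfl

theorem brM_L1 (al : K) (m : ℕ) :
    ∑ a ∈ Finset.Ico 1 m, C (a : K) * (X a * bD1 al (m - a)) =
      brS3 m (fun c d => (c : K) * d) +
        brS2 m (fun a => (a : K) * ((al - 1) * ((m - a).choose 2 : ℕ))) := by
  unfold brS3 brS2 bD1
  rw [← Finset.sum_add_distrib]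
  refine Finset.sum_congr rfl fun a _ => ?_
  rw [mul_add, mul_add, Finset.mul_sum, Finset.mul_sum]
  congr 1
  · refine Finset.sum_congr rfl fun d _ => ?_
    rw [map_mul]
    ring
  · rw [map_mul C (a : K)]
    ring

theorem brM_L2 (al : K) (m : ℕ) :
    ∑ a ∈ Finset.Ico 1 m, C (a : K) * (bD1 al a * X (m - a)) =
      brS3 m (fun c d => ((c + d : ℕ) : K) * c) +
        brS2 m (fun a => (a : K) * ((al - 1) * (a.choose 2 : ℕ))) := by
  rw [← brS3_tri m (fun a e => (a : K) * e)]
  unfold brS2 bD1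
  rw [← Finset.sum_add_distrib]
  refine Finset.sum_congr rfl fun a _ => ?_
  rw [add_mul, mul_add, Finset.sum_mul, Finset.mul_sum]
  congr 1
  · refine Finset.sum_congr rfl fun d _ => ?_
    rw [map_mul]
    ring
  · rw [map_mul C (a : K)]
    ring

theorem brM_L3 [CharZero K] (al : K) (m : ℕ) :
    ∑ a ∈ Finset.Ico 1 m, C (a : K) * bD2 al a (m - a) =
      C (al * ((m : K) ^ 2 * ((m : K) ^ 2 - 1) / 12)) * X m := by
  rw [← brM_sum', Finset.mul_sum, map_sum, Finset.sum_mul]
  refine Finset.sum_congr rfl fun a ha => ?_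
  rw [Finset.mem_Ico] at ha
  have e1 : a + (m - a) = m := by omega
  rw [bD2, e1, ← mul_assoc, ← map_mul, Nat.cast_sub (by omega)]
  congr 2
  ring

theorem brM_DD1 [CharZero K] {al : K} (hD : BrDSt K al) (m : ℕ) : Dop al (bD1 al m) =
    brS3 m (fun c d => (c : K) * d) + brS3 m (fun c d => ((c + d : ℕ) : K) * c) +
      brS2 m (fun a => (a : K) * ((al - 1) * ((m - a).choose 2 : ℕ))) +
      brS2 m (fun a => (a : K) * ((al - 1) * (a.choose 2 : ℕ))) +
      C (al * ((m : K) ^ 2 * ((m : K) ^ 2 - 1) / 12)) * X m +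
      C ((al - 1) * (m.choose 2 : K)) * (brS2 m (fun a => (a : K)) +
        C ((al - 1) * (m.choose 2 : K)) * X m) := by
  have e1 : Dop al (bD1 al m) = ∑ a ∈ Finset.Ico 1 m, C (a : K) * (X a * bD1 al (m - a)) +
      ∑ a ∈ Finset.Ico 1 m, C (a : K) * (bD1 al a * X (m - a)) +
      ∑ a ∈ Finset.Ico 1 m, C (a : K) * bD2 al a (m - a) +
      C ((al - 1) * (m.choose 2 : K)) * bD1 al m := by
    conv_lhs => rw [bD1]
    rw [map_add, brM_DC, brM_DX hD, map_sum, ← Finset.sum_add_distrib, ← Finset.sum_add_distrib]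
    congr 1
    refine Finset.sum_congr rfl fun a _ => ?_
    rw [brM_DC, brM_DXX hD]
    ring
  rw [e1, brM_L1, brM_L2, brM_L3]
  have e2 : bD1 al m = brS2 m (fun a => (a : K)) + C ((al - 1) * (m.choose 2 : K)) * X m := rfl
  rw [e2]
  ring

theorem brM_cubic (m : ℕ) : brS3 m (fun c d => (c : K) * d) +
    brS3 m (fun c d => ((c + d : ℕ) : K) * c) - C (3 : K) * brS3 m (fun c _ => (c : K)) =
      brS3 m (fun c d => (c : K) * (c - 1) + 2 * (d * (c - 1 : K))) := by
  have h1 : brS3 m (fun _ d => (d : K)) = brS3 m (fun c _ => (c : K)) :=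
    brS3_swap m (fun c _ => (c : K))
  have h2 : brS3 m (fun c d => (c : K) * (c - 1) + 2 * (d * (c - 1 : K))) +
      C (2 : K) * brS3 m (fun _ d => (d : K)) + C (1 : K) * brS3 m (fun c _ => (c : K)) =
      brS3 m (fun c d => (c : K) * d) + brS3 m (fun c d => ((c + d : ℕ) : K) * c) := by
    rw [brS3_mul, brS3_mul, brS3_add, brS3_add, brS3_add]
    refine brS3_congr fun c d => ?_
    push_cast
    ring
  rw [h1] at h2
  rw [← h2]
  have h3 : (C (3 : K) : Lam K) = C 2 + C 1 := by
    rw [← map_add]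
    norm_num
  rw [h3]
  ring

theorem brM_I1 [CharZero K] {al : K} (hD : BrDSt K al) (m : ℕ) :
    Dop al (bD1 al m) - C (3 : K) * bT1 al m - C (al - 1) * bD1 al m -
      C (al / 2) * (C ((m : K) * (m - 1)) * X m) = C (2 : K) * bS1 al m := by
  have e1 : bD1 al m = brS2 m (fun a => (a : K)) + C ((al - 1) * (m.choose 2 : K)) * X m := rfl
  have e2 : bT1 al m = brS3 m (fun c _ => (c : K)) +
      C ((al - 1) * ((m : K) - 2)) * brS2 m (fun a => (a : K)) +
      C ((al + 2 * (al - 1) ^ 2) * (m.choose 3 : K)) * X m := rfl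
  have e3 : bS1 al m = brS3 m (fun c d => (c.choose 2 : K) + d * (c - 1 : K)) +
      C (al - 1) * brS2 m (fun i => 3 * (i.choose 3 : K) + i * ((m - i - 1).choose 2 : K)
          + (i.choose 2 : K) * ((m : K) - i - 1)) +
      C ((al + 3 * (al - 1) ^ 2) * (m.choose 4 : K)) * X m := rfl
  have c1 : C (2 : K) * brS3 m (fun c d => (c.choose 2 : K) + d * (c - 1 : K)) =
      brS3 m (fun c d => (c : K) * (c - 1) + 2 * (d * (c - 1 : K))) := by
    rw [brS3_mul]
    refine brS3_congr fun c d => ?_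
    rw [brM_ch2]
    ring
  have c2 : brS2 m (fun a => (a : K) * ((al - 1) * ((m - a).choose 2 : ℕ))) +
      brS2 m (fun a => (a : K) * ((al - 1) * (a.choose 2 : ℕ))) +
      C ((al - 1) * (m.choose 2 : K)) * brS2 m (fun a => (a : K)) -
      C (3 : K) * (C ((al - 1) * ((m : K) - 2)) * brS2 m (fun a => (a : K))) -
      C (al - 1) * brS2 m (fun a => (a : K)) = C (2 : K) * (C (al - 1) *
        brS2 m (fun i => 3 * (i.choose 3 : K) + i * ((m - i - 1).choose 2 : K)
          + (i.choose 2 : K) * ((m : K) - i - 1))) := by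
    rw [sub_sub, sub_eq_iff_eq_add]
    simp only [brS2_mul, brS2_add]
    refine brS2_congr fun i h1 h2 => ?_
    rw [brM_ch2, brM_ch2, brM_ch2, brM_ch2, brM_ch3, Nat.sub_sub, Nat.cast_sub (by omega),
      Nat.cast_sub (by omega)]
    push_cast
    ring
  have c3 : (C (al * ((m : K) ^ 2 * ((m : K) ^ 2 - 1) / 12)) +
      C ((al - 1) * (m.choose 2 : K)) * C ((al - 1) * (m.choose 2 : K)) -
      C (3 : K) * C ((al + 2 * (al - 1) ^ 2) * (m.choose 3 : K)) -
      C (al - 1) * C ((al - 1) * (m.choose 2 : K)) - C (al / 2) * C ((m : K) * (m - 1)) : Lam K) =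
      C (2 : K) * C ((al + 3 * (al - 1) ^ 2) * (m.choose 4 : K)) := by
    simp only [← map_mul, ← map_add, ← map_sub]
    congr 1
    rw [brM_ch2, brM_ch3, brM_ch4]
    ring
  rw [brM_DD1 hD, e1, e2, e3]
  have c0 := brM_cubic (K := K) m
  linear_combination c0 + c2 - c1 + c3 * X m

/-! ### Second brackets -/

theorem brM_GD1 [CharZero K] (al : K) (i j : ℕ) : brG al i (bD1 al j) = C (al * i * j) *
    (∑ a ∈ Finset.Ico 1 j, C ((j : K) - a) * (X a * X (i + j - a)) +
      C ((al - 1) * (j.choose 2 : K)) * X (i + j)) := by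
  have h1 : ∀ (c : K) (f : Lam K), brG al i (C c * f) = C c * brG al i f := fun c f =>
    brM_DC (brG al i : Lam K →ₗ[K] Lam K) c f
  have e1 : brG al i (bD1 al j) =
      ∑ a ∈ Finset.Ico 1 j, C (a : K) * (X a * bD2 al i (j - a)) +
      ∑ a ∈ Finset.Ico 1 j, C (a : K) * (X (j - a) * bD2 al i a) +
      C ((al - 1) * (j.choose 2 : K)) * bD2 al i j := by
    rw [bD1, map_add, h1, brM_GX, map_sum, ← Finset.sum_add_distrib]
    congr 1
    refine Finset.sum_congr rfl fun a _ => ?_
    rw [h1, Derivation.leibniz, brM_GX, brM_GX, smul_eq_mul, smul_eq_mul]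
    ring
  have e2 : ∑ a ∈ Finset.Ico 1 j, C (a : K) * (X (j - a) * bD2 al i a) =
      ∑ a ∈ Finset.Ico 1 j, C (((j : K) - a) * (al * i * (j - a))) *
        (X a * X (i + j - a)) := by
    rw [← brM_refl j (fun a => C (a : K) * (X (j - a) * bD2 al i a))]
    refine Finset.sum_congr rfl fun a ha => ?_
    rw [Finset.mem_Ico] at ha
    have e3 : j - (j - a) = a := by omega
    have e4 : i + (j - a) = i + j - a := by omega
    simp only [bD2]
    rw [e3, e4, Nat.cast_sub (by omega), map_mul C ((j : K) - a)]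
    ring
  rw [e1, e2, mul_add, ← Finset.sum_add_distrib, Finset.mul_sum]
  congr 1
  · refine Finset.sum_congr rfl fun a ha => ?_
    rw [Finset.mem_Ico] at ha
    have e4 : i + (j - a) = i + j - a := by omega
    simp only [bD2]
    rw [e4, Nat.cast_sub (by omega)]
    simp only [map_mul, map_sub]
    ring
  · rw [bD2]
    ring

theorem brM_split (i j : ℕ) (hi : 1 ≤ i) (hj : 1 ≤ j) :
    ∑ a ∈ Finset.Ico 1 (i + j), C (a : K) * (X a * X (i + j - a) : Lam K) =
      ∑ a ∈ Finset.Ico 1 i, C (a : K) * (X a * X (i + j - a)) + C (i : K) * (X i * X j) +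
      ∑ a ∈ Finset.Ico 1 j, C ((i : K) + j - a) * (X a * X (i + j - a)) := by
  rw [← Finset.sum_Ico_consecutive _ hi (by omega : i ≤ i + j), add_assoc]
  congr 1
  rw [Finset.sum_eq_sum_Ico_succ_bot (by omega : i < i + j)]
  have e1 : i + j - i = j := by omega
  rw [e1]
  congr 1
  refine Finset.sum_bij' (fun a _ => i + j - a) (fun a _ => i + j - a) ?_ ?_ ?_ ?_ ?_
  · intro a ha
    rw [Finset.mem_Ico] at ha ⊢
    omega
  · intro a ha
    rw [Finset.mem_Ico] at ha ⊢
    omega
  · intro a ha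
    rw [Finset.mem_Ico] at ha
    omega
  · intro a ha
    rw [Finset.mem_Ico] at ha
    omega
  · intro a ha
    rw [Finset.mem_Ico] at ha
    have e2 : i + j - (i + j - a) = a := by omega
    rw [e2, Nat.cast_sub (by omega)]
    push_cast
    have e3 : (i : K) + j - (i + j - a) = a := by ring
    rw [e3]
    ring

theorem brM_I2 [CharZero K] {al : K} (hD : BrDSt K al) (i j : ℕ) :
    brG al i (bD1 al j) + brG al j (bD1 al i) + Dop al (bD2 al i j) - C (3 : K) * bT2 al i j -
      C (al - 1) * bD2 al i j - C (al / 2) * (C (2 * (i : K) * j) * (X i * X j)) =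
      C (2 : K) * bS2 al i j := by
  have h2 : (2 : K) ≠ 0 := two_ne_zero
  have e1 : Dop al (bD2 al i j) = C (al * i * j) * bD1 al (i + j) := by
    rw [bD2, brM_DC, brM_DX hD]
  have e2 : bT2 al i j = C (al * i * j) * qT2 al i j := rfl
  have e3 : bD2 al i j = C (al * i * j) * X (i + j) := rfl
  have e4 : (C (2 : K) : Lam K) * bS2 al i j = C (al * i * j) * qS2 al i j := by
    rw [bS2, ← mul_assoc, ← map_mul]
    congr 2
    field_simp
  have e5 : (C (al / 2) * (C (2 * (i : K) * j) * (X i * X j)) : Lam K) =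
      C (al * i * j) * (X i * X j) := by
    rw [← mul_assoc, ← map_mul]
    congr 2
    field_simp
  have e6 : (C (al * j * i) : Lam K) = C (al * i * j) := by
    congr 1
    ring
  rw [e4, e5, brM_GD1 al i j, brM_GD1 al j i, e1, e2, e3, e6, Nat.add_comm j i]
  have key : ∀ x1 x2 x3 x4 x5 x6 y : Lam K, x1 + x2 + x3 - C (3 : K) * x4 - C (al - 1) * x5 - x6 =
      y → C (al * i * j) * x1 + C (al * i * j) * x2 + C (al * i * j) * x3 -
        C (3 : K) * (C (al * i * j) * x4) - C (al - 1) * (C (al * i * j) * x5) -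
        C (al * i * j) * x6 = C (al * i * j) * y := by
    intro x1 x2 x3 x4 x5 x6 y h
    rw [← h]
    ring
  rcases Nat.eq_zero_or_pos i with hi | hi
  · subst hi
    simp
  rcases Nat.eq_zero_or_pos j with hj | hj
  · subst hj
    simp
  refine key _ _ _ _ _ _ _ ?_
  rw [bD1, brM_split i j hi hj, qT2, qS2]
  have s1 : ∑ a ∈ Finset.Ico 1 i, C ((i : K) - a) * (X a * X (i + j - a) : Lam K) +
      ∑ a ∈ Finset.Ico 1 i, C (a : K) * (X a * X (i + j - a)) -
      C (3 : K) * ∑ a ∈ Finset.Ico 1 i, X a * X (i + j - a) =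
      ∑ a ∈ Finset.Ico 1 i, C ((i : K) - 3) * (X a * X (i + j - a)) := by
    rw [← Finset.sum_add_distrib, Finset.mul_sum, ← Finset.sum_sub_distrib]
    refine Finset.sum_congr rfl fun a _ => ?_
    simp only [map_sub]
    ring
  have s2 : ∑ a ∈ Finset.Ico 1 j, C ((j : K) - a) * (X a * X (i + j - a) : Lam K) +
      ∑ a ∈ Finset.Ico 1 j, C ((i : K) + j - a) * (X a * X (i + j - a)) -
      C (3 : K) * ∑ a ∈ Finset.Ico 1 j, X a * X (i + j - a) =
      ∑ a ∈ Finset.Ico 1 j, C ((i : K) + 2 * j - 2 * a - 3) * (X a * X (i + j - a)) := by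
    rw [← Finset.sum_add_distrib, Finset.mul_sum, ← Finset.sum_sub_distrib]
    refine Finset.sum_congr rfl fun a _ => ?_
    simp only [map_sub, map_add, map_mul]
    have : (C (3 : K) : Lam K) = 3 := map_ofNat C 3
    have : (C (2 : K) : Lam K) = 2 := map_ofNat C 2
    simp only [*]
    ring
  have s3 : (C (i : K) * (X i * X j) - X i * X j : Lam K) = C ((i : K) - 1) * (X i * X j) := by
    rw [map_sub, map_one]
    ring
  have s4 : (C ((al - 1) * (i.choose 2 : K)) + C ((al - 1) * (j.choose 2 : K)) +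
      C ((al - 1) * ((i + j).choose 2 : ℕ)) - C (3 : K) * C ((al - 1) * ((i : K) + j - 2)) -
      C (al - 1) : Lam K) = C ((al - 1) * (((i : K) - 1) * (i - 2) + ((j : K) - 1) * (j - 2) +
        ((i : K) - 1) * (j - 1))) := by
    simp only [← map_mul, ← map_add, ← map_sub]
    congr 1
    rw [brM_ch2, brM_ch2, brM_ch2]
    push_cast
    ring
  linear_combination s1 + s2 + s3 + s4 * X (i + j)

/-! ### The theorem -/

theorem brM_half [CharZero K] (x : Lam K) {y : Lam K} (h : x = C (2 : K) * y) :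
    (2 : K)⁻¹ • x = y := by
  rw [h, smul_eq_C_mul, ← mul_assoc, ← map_mul, inv_mul_cancel₀ two_ne_zero, map_one, one_mul]

theorem brK22_of {K : Type} [Field K] [CharZero K] {al : K} (hD : BrDSt K al)
    (h3 : BrK3St K al) : BrK22St K al := by
  have t2 : (C (2 : K) : Lam K) = 2 := map_ofNat C 2
  refine ⟨?_, ?_, ?_, ?_, ?_, ?_⟩
  · rw [K22]
    simp only [LinearMap.smul_apply, LinearMap.sub_apply, brM_dd0 hD, h3.1, hD.1]
    have h := brM_ee0 (K := K)
    rw [LinearMap.sub_apply] at h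
    rw [h]
    simp
  · intro i
    have h := brM_ee1 (K := K) i
    rw [K22, brM_smul, LinearMap.smul_apply]
    refine brM_half _ ?_
    rw [brM_sub, brM_sub, brM_sub, brM_smul, brM_smul, brM_smul, LinearMap.sub_apply,
      LinearMap.sub_apply, LinearMap.sub_apply, LinearMap.smul_apply, LinearMap.smul_apply,
      LinearMap.smul_apply, brM_dd1 hD, h3.2.1, hD.2.1, h, ← brM_I1 hD]
    simp only [smul_eq_C_mul]
  · intro i j
    have h : comm (comm (E K ∘ₗ E K - E K) i) j 1 = C (2 * (i : K) * j) * (X i * X j) := by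
      rw [brM_ee2, LinearMap.mulLeft_apply, mul_one]
    rw [K22, brM_smul, brM_smul, LinearMap.smul_apply]
    refine brM_half _ ?_
    rw [brM_sub, brM_sub, brM_sub, brM_smul, brM_smul, brM_smul, brM_sub, brM_sub, brM_sub,
      brM_smul, brM_smul, brM_smul, LinearMap.sub_apply,
      LinearMap.sub_apply, LinearMap.sub_apply, LinearMap.smul_apply, LinearMap.smul_apply,
      LinearMap.smul_apply, brM_dd2 hD, h3.2.2.1, hD.2.2.1, h, mul_add, ← brM_I2 hD]
    simp only [smul_eq_C_mul, t2]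
    ring
  · intro i j k
    have h : comm (comm (comm (E K ∘ₗ E K - E K) i) j) k 1 = 0 := by
      rw [brM_ee2, brM_mul, LinearMap.zero_apply]
    rw [K22, brM_smul, brM_smul, brM_smul, LinearMap.smul_apply]
    refine brM_half _ ?_
    rw [brM_sub, brM_sub, brM_sub, brM_smul, brM_smul, brM_smul, brM_sub, brM_sub, brM_sub,
      brM_smul, brM_smul, brM_smul, brM_sub, brM_sub, brM_sub,
      brM_smul, brM_smul, brM_smul, LinearMap.sub_apply,
      LinearMap.sub_apply, LinearMap.sub_apply, LinearMap.smul_apply, LinearMap.smul_apply,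
      LinearMap.smul_apply, brM_dd3 hD, h3.2.2.2.1, hD.2.2.2, h, LinearMap.zero_apply,
      smul_zero, smul_zero, sub_zero, sub_zero, bT3, bS3, smul_eq_C_mul]
    have t3 : (C (3 : K) : Lam K) = 3 := map_ofNat C 3
    simp only [map_mul, map_sub, map_add, map_pow, t2, t3]
    ring
  · intro i j k l
    have h : comm (comm (comm (comm (E K ∘ₗ E K - E K) i) j) k) l 1 = 0 := by
      rw [brM_ee2, brM_mul, brM_zero, LinearMap.zero_apply]
    rw [K22, brM_smul, brM_smul, brM_smul, brM_smul, LinearMap.smul_apply]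
    refine brM_half _ ?_
    simp only [brM_sub, brM_smul]
    simp only [brM_sub] at h
    rw [LinearMap.sub_apply, LinearMap.sub_apply, LinearMap.sub_apply, LinearMap.smul_apply,
      LinearMap.smul_apply, LinearMap.smul_apply, brM_dd4 hD, h3.2.2.2.2, hD.2.2.2, h, brM_zero,
      LinearMap.zero_apply, smul_zero, smul_zero, smul_zero, sub_zero, sub_zero, sub_zero,
      LinearMap.mulLeft_apply, mul_one, t2]
  · intro i j k l m
    rw [K22]
    have h : comm (comm (comm (comm (comm (E K ∘ₗ E K - E K) i) j) k) l) m = 0 := by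
      rw [brM_ee2, brM_mul, brM_zero, brM_zero]
    simp only [brM_smul, brM_sub] at h ⊢
    rw [brM_dd4 hD, brM_mul, h3.2.2.2.2, brM_zero, hD.2.2.2, brM_zero, brM_zero, h]
    simp

end

end Pool.Agent.MJR
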