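import Pool.Agent.MJR.St
import Pool.Agent.MJR.Basic
import Pool.Agent.MJR.PhiM

/-!
The coefficients `c` are in `ℕ[b]` if one of the three partitions has rank at most two.
-/

namespace Pool.Agent.MJR

open MvPolynomial
open scoped Nat

noncomputable section

variable {K : Type} [Field K]

namespace CFin

theorem c_eq {al : K} (hJI : JInjSt K al) {n : ℕ} {J : n.Partition → n.Partition → K}
    (hJ : IsJack al n J) (c d : n.Partition → K)
    (h : ∀ l, ∑ p, J l p * c p = ∑ p, J l p * d p) : c = d := by
  have h1 := hJI n J hJ (c - d) (fun l => by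
    simp only [Pi.sub_apply, mul_sub, Finset.sum_sub_distrib]
    rw [h l, sub_self])
  exact sub_eq_zero.mp h1

theorem sum_Kop {al : K} (hId : IdentSt K al) {n : ℕ} {J : n.Partition → n.Partition → K}
    (hJ : IsJack al n J) (s : Fin 4) (m v : n.Partition) (hs : IsSh s v) (l : n.Partition) :
    ∑ p, J l p * coeff (expo m) (Kop al s (pp K p)) = J l v * J l m := by
  have h1 : coeff (expo m) (Kop al s (toL (J l))) =
      ∑ p, J l p * coeff (expo m) (Kop al s (pp K p)) := by
    unfold toL
    rw [map_sum, coeff_sum]
    refine Finset.sum_congr rfl fun p _ => ?_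
    rw [← smul_eq_C_mul, map_smul, coeff_smul, smul_eq_mul]
  rw [← h1, hId n J hJ s v hs l, coeff_C_mul, coeff_toL]

theorem pp_mem (al : K) {n : ℕ} (p : n.Partition) : pp K p ∈ PS al := by
  unfold pp
  apply Subsemiring.multiset_prod_mem
  intro x hx
  rw [Multiset.mem_map] at hx
  obtain ⟨k, _, rfl⟩ := hx
  exact X_mem_PS al k

end CFin

open CFin

theorem c_mem [CharZero K] {al : K} (hId : IdentSt K al) (hJI : JInjSt K al) (hA : Aniso K al)
    (hPos : PosKSt K al) (hPi : PiSt K al) (hSh : ShapeSt) {n : ℕ}
    {J : n.Partition → n.Partition → K} (hJ : IsJack al n J)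
    (c : n.Partition → n.Partition → n.Partition → K)
    (hc : ∀ l m v, ∑ p, J l p * c p m v = J l m * J l v) (p m v : n.Partition)
    (h : n ≤ p.parts.card + 2 ∨ n ≤ m.parts.card + 2 ∨ n ≤ v.parts.card + 2) :
    c p m v ∈ Nb al := by
  classical
  have hv : ∀ (c' : n.Partition → n.Partition → n.Partition → K)
      (_ : ∀ l m v, ∑ p, J l p * c' p m v = J l m * J l v) (p m v : n.Partition),
      n ≤ v.parts.card + 2 → c' p m v ∈ Nb al := by
    intro c' hc' p m v hv
    obtain ⟨s, hs⟩ := hSh n v hv
    have h1 : (fun p => c' p m v) = fun p => coeff (expo m) (Kop al s (pp K p)) := by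
      apply c_eq hJI hJ
      intro l
      rw [hc' l m v, sum_Kop hId hJ s m v hs l]
      ring
    have h2 := congrFun h1 p
    rw [h2]
    exact hPos s (pp K p) (pp_mem al p) (expo m)
  rcases h with h | h | h
  · obtain ⟨s, hs⟩ := hSh n p h
    have h1 : (fun q => c q m v) = fun q => wtp al q *
        ∑ l, (nrm al J l)⁻¹ * (J l q * J l m * J l v) := by
      apply c_eq hJI hJ
      intro l
      rw [hc l m v]
      have h3 : ∀ q, J l q * (wtp al q * ∑ l', (nrm al J l')⁻¹ * (J l' q * J l' m * J l' v)) =
          ∑ l', (nrm al J l')⁻¹ * (J l' m * J l' v) * (J l q * J l' q * wtp al q) := by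
        intro q
        rw [Finset.mul_sum, Finset.mul_sum]
        refine Finset.sum_congr rfl fun l' _ => ?_
        ring
      rw [Finset.sum_congr rfl (fun q _ => h3 q), Finset.sum_comm]
      rw [Finset.sum_eq_single l]
      · rw [← Finset.mul_sum]
        have h4 : ∑ q, J l q * J l q * wtp al q = nrm al J l := by
          unfold nrm
          refine Finset.sum_congr rfl fun q _ => ?_
          ring
        have h5 := nrm_ne_zero hA hJ l
        rw [h4]
        field_simp
      · intro l' _ hl'
        rw [← Finset.mul_sum, hJ.orth l l' (Ne.symm hl'), mul_zero]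
      · intro h'
        exact absurd (Finset.mem_univ _) h'
    have h2 := congrFun h1 p
    rw [h2]
    have h3 := phiLevel hId hA hJ s v m p hs
    have h4 := coeff_AA al (Kop al s) v m
    have h5 : ∑ l, (nrm al J l)⁻¹ * (J l p * J l m * J l v) =
        ∑ l, (nrm al J l)⁻¹ * (J l v * J l m * J l p) := by
      refine Finset.sum_congr rfl fun l' _ => ?_
      ring
    rw [h5, h3, ← h4]
    have h6 := hPi s n p hs (expo2 v m)
    rw [coeff_C_mul] at h6
    exact h6
  · have h1 : ∀ l m' v', ∑ p, J l p * (fun p m v => c p v m) p m' v' = J l m' * J l v' := by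
      intro l m' v'
      simp only
      rw [hc l v' m']
      ring
    exact hv (fun p m v => c p v m) h1 p v m h
  · exact hv c hc p m v h

end

end Pool.Agent.MJR
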