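import Mathlib

/-!
Definitions for the rank two cases of the Goulden-Jackson conjectures
(Matching-Jack conjecture and its logarithmic version).

`Lam K` is the ring of polynomials in the power sums, `X k` is `p_k` (`X 0` is never used).
`K` is a field, `al` the Jack parameter, `al - 1` is the variable `b`.
-/

namespace Pool.Agent.MJR

open MvPolynomial
open scoped Nat

noncomputable section

variable {K : Type} [Field K]

/-! ### Statement level definitions -/

/-- The parts of a partition in weakly decreasing order. -/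
def srt {n : ℕ} (l : n.Partition) : List ℕ := l.parts.sort (· ≥ ·)

/-- Dominance order: `m` is dominated by `l`. -/
def Dom {n : ℕ} (m l : n.Partition) : Prop :=
  ∀ k : ℕ, ((srt m).take k).sum ≤ ((srt l).take k).sum

/-- The exponent vector of the monomial `x^m` in `n` variables (the parts of `m` in weakly
decreasing order, padded by zeros). -/
def pvec {n : ℕ} (m : n.Partition) : Fin n →₀ ℕ :=
  Finsupp.equivFunOnFinite.symm fun i => (srt m).getD i 0

/-- The coefficient of the monomial symmetric function `m_m` in the power sum `p_r`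
(computed in `n` variables, where `n` is the size of the two partitions). -/
def mc (K : Type) [Field K] {n : ℕ} (r m : n.Partition) : K :=
  MvPolynomial.coeff (pvec m) (r.parts.map fun k => psum (Fin n) K k).prod

/-- `z_r = ∏ i ^ (m_i) * (m_i)!`. -/
def zed {n : ℕ} (r : n.Partition) : ℕ :=
  ∏ i ∈ r.parts.toFinset, i ^ (r.parts.count i) * (r.parts.count i)!

/-- `al ^ (number of parts) * z_r`, the square norm of `p_r`. -/
def wtp (al : K) {n : ℕ} (r : n.Partition) : K := al ^ r.parts.card * (zed r : K)

/-- The partition `(1, ..., 1)` of `n`. -/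
def ones (n : ℕ) : n.Partition where
  parts := Multiset.replicate n 1
  parts_pos := by
    intro i hi
    rw [Multiset.eq_of_mem_replicate hi]
    exact Nat.one_pos
  parts_sum := by simp

/-- `J l r` is the coefficient of the power sum `p_r` in the integral Jack function `J_l`
(`l`, `r` partitions of `n`):  the `J_l` are orthogonal, `J_l` is a combination of the
monomial functions `m_m` with `m` dominated by `l`, and the coefficient of `m_(1^n)` is `n!`. -/
structure IsJack (al : K) (n : ℕ) (J : n.Partition → n.Partition → K) : Prop where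
  orth : ∀ l m, l ≠ m → ∑ r, J l r * J m r * wtp al r = 0
  tri : ∀ l m, ¬ Dom m l → ∑ r, J l r * mc K r m = 0
  norm : ∀ l, ∑ r, J l r * mc K r (ones n) = (n ! : K)

/-- The set `ℕ[b]`, `b = al - 1`, as a subsemiring of `K`. -/
def Nb (al : K) : Subsemiring K :=
  (Polynomial.eval₂RingHom (Nat.castRingHom K) (al - 1)).rangeS

/-! ### The operators -/

/-- Polynomials in the power sums, `X k = p_k`. -/
abbrev Lam (K : Type) [Field K] := MvPolynomial ℕ K

/-- Polynomials in the power sums and an extra variable `w = Polynomial.X`. -/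
abbrev LW (K : Type) [Field K] := Polynomial (MvPolynomial ℕ K)

/-- The derivation with `p_k ↦ al * k * w ^ k`. -/
def U (al : K) : Derivation K (Lam K) (LW K) :=
  mkDerivation K fun k => Polynomial.monomial k (C (al * k))

/-- `Z (w^j f) = b j w^j f + w^j U f + ∑_{a=1}^{j-1} w^a p_{j-a} f`. -/
def Z (al : K) : LW K →ₗ[K] LW K :=
  Polynomial.lsum fun j =>
    { toFun := fun f => Polynomial.monomial j (C ((al - 1) * j) * f) +
        Polynomial.X ^ j * U al f + ∑ a ∈ Finset.Ico 1 j, Polynomial.monomial a (X (j - a) * f)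
      map_add' := by
        intro f g
        simp only [mul_add, map_add, Finset.sum_add_distrib]
        ring
      map_smul' := by
        intro c f
        have h : U al (c • f) = c • U al f := (U al).map_smul c f
        simp only [h, RingHom.id_apply, smul_add, mul_smul_comm, Finset.smul_sum,
          Polynomial.smul_monomial] }

/-- `w^j f ↦ p_j f` for `j ≥ 1`, and `f ↦ 0`. -/
def Tr : LW K →ₗ[K] Lam K :=
  Polynomial.lsum fun j => if j = 0 then 0 else LinearMap.mulLeft K (X j : Lam K)

/-- the inclusion of `Lam` as constants (in `w`) -/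
def cW : Lam K →ₗ[K] LW K := (Polynomial.CAlgHom (R := K) (A := Lam K)).toLinearMap

/-- `H 0 = al * E`, `H 1 = 2 al D + al b E`, and `H 2`. -/
def H (al : K) (r : ℕ) : Lam K →ₗ[K] Lam K := Tr ∘ₗ ((Z al) ^ (r + 1)) ∘ₗ cW

/-- Euler operator, `p_r ↦ |r| p_r`. -/
def E (K : Type) [Field K] : Lam K →ₗ[K] Lam K :=
  (mkDerivation K fun k : ℕ => (k : K) • (X k : Lam K)).toLinearMap

/-- The Laplace-Beltrami operator (class `(2, 1^(n-2))`). -/
def Dop (al : K) : Lam K →ₗ[K] Lam K := (2 * al)⁻¹ • H al 1 - ((al - 1) / 2) • E K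

/-- The operator of the class `(3, 1^(n-3))`. -/
def K3 (al : K) : Lam K →ₗ[K] Lam K :=
  (3 : K)⁻¹ • (al⁻¹ • H al 2 - (6 * (al - 1)) • Dop al - al • (E K ∘ₗ E K - E K)
    - (al - 1) ^ 2 • E K)

/-- The operator of the class `(2, 2, 1^(n-4))`. -/
def K22 (al : K) : Lam K →ₗ[K] Lam K :=
  (2 : K)⁻¹ • (Dop al ∘ₗ Dop al - (3 : K) • K3 al - (al - 1) • Dop al
    - (al / 2) • (E K ∘ₗ E K - E K))

/-- The bracket `[O, p_k]`. -/
def comm (O : Lam K →ₗ[K] Lam K) (k : ℕ) : Lam K →ₗ[K] Lam K :=
  O ∘ₗ LinearMap.mulLeft K (X k : Lam K) - LinearMap.mulLeft K (X k : Lam K) ∘ₗ O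

/-- Polynomials in the power sums with coefficients in `ℕ[b]`. -/
def PS {σ : Type} (al : K) : Subsemiring (MvPolynomial σ K) where
  carrier := {f | ∀ m, coeff m f ∈ Nb al}
  mul_mem' := by
    classical
    intro f g hf hg m
    rw [coeff_mul]
    exact sum_mem fun x _ => mul_mem (hf _) (hg _)
  one_mem' := by
    classical
    intro m
    rw [coeff_one]
    split_ifs
    · exact one_mem _
    · exact zero_mem _
  add_mem' := by
    intro f g hf hg m
    rw [coeff_add]
    exact add_mem (hf _) (hg _)
  zero_mem' := by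
    intro m
    rw [coeff_zero]
    exact zero_mem _

/-! ### Coefficient vectors -/

/-- the power sum `p_r` as an element of `Lam` -/
def pp (K : Type) [Field K] {n : ℕ} (r : n.Partition) : Lam K :=
  (r.parts.map fun k => (X k : Lam K)).prod

/-- the exponent of `p_r` -/
def expo {n : ℕ} (r : n.Partition) : ℕ →₀ ℕ := Multiset.toFinsupp r.parts

/-- the element with coefficient vector `v` -/
def toL {n : ℕ} (v : n.Partition → K) : Lam K := ∑ r, C (v r) * pp K r

/-- The operators of rank at most two, `0 ↦ id`, `1 ↦ D`, `2 ↦ K3`, `3 ↦ K22`. -/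
def Kop (al : K) : Fin 4 → (Lam K →ₗ[K] Lam K) := ![LinearMap.id, Dop al, K3 al, K22 al]

/-- The parts larger than one of the classes of rank at most two. -/
def Sh : Fin 4 → Multiset ℕ := ![0, {2}, {3}, {2, 2}]

/-- `v` is the partition with parts `Sh s` and ones. -/
def IsSh {n : ℕ} (s : Fin 4) (v : n.Partition) : Prop :=
  v.parts = Sh s + Multiset.replicate (n - (Sh s).sum) 1

end

end Pool.Agent.MJR
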