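import Pool.Agent.MJR.Defs

/-!
The variable side: polynomials in `x_1, ..., x_n`, the evaluation of power sums, the
Heckman (Dunkl) operators and the submodules of polynomials dominated by a partition.
-/

namespace Pool.Agent.MJR

open MvPolynomial

noncomputable section

/-- Polynomials in `n` variables. -/
abbrev RX (K : Type) [Field K] (n : ℕ) := MvPolynomial (Fin n) K

/-- Evaluation of the power sums in `n` variables. -/
def ev (K : Type) [Field K] (n : ℕ) : Lam K →ₐ[K] RX K n :=
  aeval fun k : ℕ => psum (Fin n) K k

/-- Evaluation of the power sums in `n` variables, and of `w` at `x_i`. -/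
def evi (K : Type) [Field K] {n : ℕ} (i : Fin n) : LW K →+* RX K n :=
  Polynomial.eval₂RingHom (ev K n : Lam K →+* RX K n) (X i)

/-- The value of `x_i (1 - s_il) / (x_i - x_l)` on the monomial `x^e`. -/
def nopMon (K : Type) [Field K] {n : ℕ} (i l : Fin n) (e : Fin n →₀ ℕ) : RX K n :=
  ∑ a ∈ Finset.Ico (e l) (e i),
      monomial ((e.update i (a + 1)).update l (e i + e l - 1 - a)) (1 : K)
    - ∑ a ∈ Finset.Ico (e i) (e l),
      monomial ((e.update i (a + 1)).update l (e i + e l - 1 - a)) (1 : K)

/-- `x_i (1 - s_il) / (x_i - x_l)` (used for `i ≠ l` only). -/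
def Nop (K : Type) [Field K] {n : ℕ} (i l : Fin n) : RX K n →ₗ[K] RX K n :=
  (basisMonomials (Fin n) K).constr K (nopMon K i l)

/-- The Heckman operator `al x_i ∂_i + ∑_{l ≠ i} x_i (1 - s_il) / (x_i - x_l)`. -/
def Yop {K : Type} [Field K] (al : K) {n : ℕ} (i : Fin n) : RX K n →ₗ[K] RX K n :=
  al • (LinearMap.mulLeft K (X i : RX K n) ∘ₗ (pderiv (R := K) i).toLinearMap)
    + ∑ l ∈ Finset.univ.erase i, Nop K i l

/-- Polynomials all of whose exponents are dominated by `l` (without sorting: the sum of
any set of exponents is at most the sum of the same number of largest parts of `l`). -/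
def DomSub (K : Type) [Field K] {n : ℕ} (l : n.Partition) : Submodule K (RX K n) where
  carrier := {F | ∀ e, coeff e F ≠ 0 → ∀ S : Finset (Fin n),
    ∑ i ∈ S, e i ≤ ((srt l).take S.card).sum}
  add_mem' := by
    intro F G hF hG e he S
    rw [coeff_add] at he
    rcases eq_or_ne (coeff e F) 0 with h | h
    · rw [h, zero_add] at he
      exact hG e he S
    · exact hF e h S
  zero_mem' := by
    intro e he
    simp at he
  smul_mem' := by
    intro c F hF e he S
    rw [coeff_smul] at he
    refine hF e ?_ S
    intro h
    rw [h, smul_zero] at he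
    exact he rfl

end

end Pool.Agent.MJR
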